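import Pool.Agent.Lib.MP_a54f13_nt.Vd.SpecU

/-!
# Package `Vd`, module `ACL`: absolute continuity, local version
-/

set_option autoImplicit false

namespace Pool.Agent.A54.Vd

open MeasureTheory Filter Topology Set
open scoped ContDiff ComplexConjugate UpperHalfPlane MatrixGroups ENNReal
open Pool.Agent.A54.Half (H0 qq ff hh)
open Pool.Agent.A54.Sq (TestP la Tow pp Wi Pj Up KK SS CosH)
open Pool.Agent.A54.Pl (Ed mean)

namespace ACLM

/-- integrability of a test function times the indicator of a measurable set times a continuous function -/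
lemma integ {V : Set ℂ} {φ : ℂ → ℝ} (hφ : TestP V φ) {A : Set ℂ} (hA : MeasurableSet A) {F : ℂ → ℝ}
    (hF : Continuous F) : Integrable (fun z => φ z * A.indicator F z) := by
  have h1 : Integrable (fun z => φ z * F z) :=
    (hφ.test.smooth.continuous.mul hF).integrable_of_hasCompactSupport hφ.test.cpt.mul_right
  have h2 : (fun z => φ z * A.indicator F z) = A.indicator (fun z => φ z * F z) := by
    funext z
    by_cases hz : z ∈ A
    · rw [Set.indicator_of_mem hz, Set.indicator_of_mem hz]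
    · rw [Set.indicator_of_notMem hz, Set.indicator_of_notMem hz, mul_zero]
  rw [h2]
  exact h1.indicator hA

end ACLM

open ACLM in
theorem stmtACL (hD : StmtDeg) (hL : StmtDlt) : StmtACL := by
  intro V t G hF φ hφ ε hε
  obtain ⟨κ, hκ, h1⟩ := hD V t G hF φ hφ (ε / 2) (by positivity)
  obtain ⟨C, hC, h2⟩ := hL V t G hF φ hφ
  refine ⟨κ * ε / (2 * C + 1), by positivity, fun E hE hvol => ?_⟩
  filter_upwards [h1, h2] with i hi1 hi2
  have h3 := hi2 E (κ * ε / (2 * C + 1)) hE (by positivity) hvol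
  have hcG : ∀ n, Continuous (G i n) := fun n => ((hF.tow i).smooth n).continuous
  have hA : MeasurableSet {x : ℂ | ‖G i 1 x‖ ^ 2 < κ} :=
    (isOpen_lt ((hcG 1).norm.pow 2) continuous_const).measurableSet
  have hB : MeasurableSet {x : ℂ | (G i 0 x).re ∈ E} :=
    (hE.preimage (Complex.continuous_re.comp (hcG 0))).measurableSet
  have i1 : Integrable (fun z => φ z * {x : ℂ | ‖G i 1 x‖ ^ 2 < κ}.indicator (fun _ => (1 : ℝ)) z) :=
    integ hφ hA continuous_const
  have i2 : Integrable (fun z => κ⁻¹ * (φ z *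
      {x : ℂ | (G i 0 x).re ∈ E}.indicator (fun x => ‖G i 1 x‖ ^ 2) z)) :=
    (integ hφ hB (F := fun x => ‖G i 1 x‖ ^ 2) ((hcG 1).norm.pow 2)).const_mul _
  have e1 : ∫ z, φ z * {x : ℂ | (G i 0 x).re ∈ E}.indicator (fun _ => (1 : ℝ)) z ≤
      ∫ z, (φ z * {x : ℂ | ‖G i 1 x‖ ^ 2 < κ}.indicator (fun _ => (1 : ℝ)) z +
        κ⁻¹ * (φ z * {x : ℂ | (G i 0 x).re ∈ E}.indicator (fun x => ‖G i 1 x‖ ^ 2) z)) := by
    refine integral_mono (integ hφ hB continuous_const)
      (i1.add i2) fun z => ?_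
    show φ z * _ ≤ φ z * _ + κ⁻¹ * (φ z * _)
    have h0 := hφ.nonneg z
    by_cases hz : z ∈ {x : ℂ | (G i 0 x).re ∈ E}
    · rw [Set.indicator_of_mem hz, Set.indicator_of_mem hz]
      by_cases hz2 : z ∈ {x : ℂ | ‖G i 1 x‖ ^ 2 < κ}
      · rw [Set.indicator_of_mem hz2]
        have : 0 ≤ κ⁻¹ * (φ z * ‖G i 1 z‖ ^ 2) := by positivity
        linarith
      · rw [Set.indicator_of_notMem hz2]
        have h4 : κ ≤ ‖G i 1 z‖ ^ 2 := not_lt.1 hz2
        have h5 : 1 ≤ κ⁻¹ * ‖G i 1 z‖ ^ 2 := by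
          rw [inv_mul_eq_div, le_div_iff₀ hκ]
          linarith
        have h6 := mul_le_mul_of_nonneg_left h5 h0
        nlinarith
    · rw [Set.indicator_of_notMem hz, Set.indicator_of_notMem hz]
      have h7 : 0 ≤ {x : ℂ | ‖G i 1 x‖ ^ 2 < κ}.indicator (fun _ => (1 : ℝ)) z :=
        Set.indicator_nonneg (fun _ _ => zero_le_one) z
      have := mul_nonneg h0 h7
      simp only [mul_zero, add_zero]
      exact this
  refine e1.trans ?_
  rw [integral_add i1 i2, integral_const_mul]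
  have h8 : κ⁻¹ * (∫ z, φ z * {x : ℂ | (G i 0 x).re ∈ E}.indicator (fun x => ‖G i 1 x‖ ^ 2) z) ≤
      κ⁻¹ * (C * (κ * ε / (2 * C + 1))) := mul_le_mul_of_nonneg_left h3 (by positivity)
  have h9 : κ⁻¹ * (C * (κ * ε / (2 * C + 1))) ≤ ε / 2 := by
    have h10 : κ⁻¹ * (C * (κ * ε / (2 * C + 1))) = C * ε / (2 * C + 1) := by
      field_simp
    rw [h10, div_le_iff₀ (by positivity)]
    nlinarith
  linarith

end Pool.Agent.A54.Vd
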