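import Pool.Agent.Lib.MP_a54f13_nt.Vd.SpecU
import Pool.Agent.Lib.MP_a54f13_nt.Sq.Rel

/-!
Module AdI: the basic inequality for the set where `G_n` is small.
-/

set_option autoImplicit false

namespace Pool.Agent.A54.Vd.AdIM

open MeasureTheory Filter Topology Set
open scoped ContDiff ComplexConjugate UpperHalfPlane MatrixGroups ENNReal
open Pool.Agent.A54.Half (H0 qq ff hh)
open Pool.Agent.A54.Sq (TestP la Tow pp Wi Pj Up KK SS CosH)
open Pool.Agent.A54.Pl (Ed mean)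
open Pool.Agent.A54.Sq.RelM (er uu)

noncomputable section

variable {V : Set ℂ} {t : ℝ} {G : ℤ → ℂ → ℂ}

/-! ### The cutoff function of one variable -/

/-- equal to one up to `1`, equal to zero from `3 / 2` on -/
def eta (x : ℝ) : ℝ := Real.smoothTransition (3 - 2 * x)

lemma contDiff_eta : ContDiff ℝ ∞ eta :=
  Real.smoothTransition.contDiff.comp (contDiff_const.sub (contDiff_const.mul contDiff_id))

lemma eta_nonneg (x : ℝ) : 0 ≤ eta x := Real.smoothTransition.nonneg _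

lemma eta_le_one (x : ℝ) : eta x ≤ 1 := Real.smoothTransition.le_one _

lemma eta_one {x : ℝ} (hx : x ≤ 1) : eta x = 1 :=
  Real.smoothTransition.one_of_one_le (by linarith)

lemma eta_zero {x : ℝ} (hx : 3 / 2 ≤ x) : eta x = 0 :=
  Real.smoothTransition.zero_of_nonpos (by linarith)

lemma deriv_eta_zero {x : ℝ} (hx : x < 1 ∨ 3 / 2 < x) : deriv eta x = 0 := by
  rcases hx with hx | hx
  · have h : eta =ᶠ[𝓝 x] fun _ => (1 : ℝ) := by
      filter_upwards [Iio_mem_nhds hx] with y hy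
      exact eta_one (le_of_lt hy)
    rw [h.deriv_eq]
    simp
  · have h : eta =ᶠ[𝓝 x] fun _ => (0 : ℝ) := by
      filter_upwards [Ioi_mem_nhds hx] with y hy
      exact eta_zero (le_of_lt hy)
    rw [h.deriv_eq]
    simp

lemma deriv_eta_bound : ∃ C : ℝ, 0 ≤ C ∧ ∀ x, |deriv eta x| ≤ C := by
  have hc : Continuous (deriv eta) := contDiff_eta.continuous_deriv (by simp)
  obtain ⟨C, hC⟩ := (isCompact_Icc (a := (1 : ℝ)) (b := 3 / 2)).exists_bound_of_continuousOn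
    hc.continuousOn
  refine ⟨max C 0, le_max_right _ _, fun x => ?_⟩
  by_cases hx : x ∈ Icc (1 : ℝ) (3 / 2)
  · exact (hC x hx).trans (le_max_left _ _)
  · rw [deriv_eta_zero, abs_zero]
    · exact le_max_right _ _
    · by_contra h
      rw [not_or, not_lt, not_lt] at h
      exact hx ⟨h.1, h.2⟩

lemma dz_comp {g : ℝ → ℝ} {f : ℂ → ℝ} (hg : ContDiff ℝ ∞ g) (hf : ContDiff ℝ ∞ f) (z : ℂ) :
    dz (fun w => ((g (f w) : ℝ) : ℂ)) z =
      ((deriv g (f z) : ℝ) : ℂ) * dz (fun w => ((f w : ℝ) : ℂ)) z := by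
  have hgd : HasDerivAt g (deriv g (f z)) (f z) :=
    ((hg.differentiable (by simp)).differentiableAt).hasDerivAt
  have hfd : HasFDerivAt f (fderiv ℝ f z) z :=
    ((hf.differentiable (by simp)).differentiableAt).hasFDerivAt
  have h1 : HasFDerivAt (fun w => g (f w)) ((deriv g (f z)) • fderiv ℝ f z) z :=
    hgd.comp_hasFDerivAt z hfd
  have h2 : HasFDerivAt (fun w => ((g (f w) : ℝ) : ℂ))
      (Complex.ofRealCLM.comp ((deriv g (f z)) • fderiv ℝ f z)) z :=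
    Complex.ofRealCLM.hasFDerivAt.comp z h1
  have h3 : HasFDerivAt (fun w => ((f w : ℝ) : ℂ)) (Complex.ofRealCLM.comp (fderiv ℝ f z)) z :=
    Complex.ofRealCLM.hasFDerivAt.comp z hfd
  unfold dz
  rw [h2.fderiv, h3.fderiv]
  simp only [ContinuousLinearMap.comp_apply, ContinuousLinearMap.smul_apply,
    Complex.ofRealCLM_apply, smul_eq_mul]
  push_cast
  ring

/-! ### The cutoff function `c = η(|G_n|² / κ)` -/

/-- the cutoff function on the plane -/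
def cc (G : ℤ → ℂ → ℂ) (n : ℤ) (κ : ℝ) (z : ℂ) : ℝ := eta (‖G n z‖ ^ 2 / κ)

lemma contDiff_arg (hG : Tow V t G) (n : ℤ) (κ : ℝ) :
    ContDiff ℝ ∞ (fun w => ‖G n w‖ ^ 2 / κ) :=
  ((hG.smooth n).norm_sq ℝ).div_const κ

lemma contDiff_cc (hG : Tow V t G) (n : ℤ) (κ : ℝ) : ContDiff ℝ ∞ (cc G n κ) :=
  contDiff_eta.comp (contDiff_arg hG n κ)

lemma dz_cc (hG : Tow V t G) (n : ℤ) (κ : ℝ) {z : ℂ} (hz : z ∈ V) :
    Complex.I * (z.im : ℂ) * dz (fun w => ((cc G n κ w : ℝ) : ℂ)) z =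
      ((deriv eta (‖G n z‖ ^ 2 / κ) * κ⁻¹ : ℝ) : ℂ) * (((la t n : ℝ) : ℂ) * Sq.pp G n z -
        ((la t (n - 1) : ℝ) : ℂ) * Sq.pp G (n - 1) z) := by
  have h1 : dz (fun w => ((cc G n κ w : ℝ) : ℂ)) z =
      ((deriv eta (‖G n z‖ ^ 2 / κ) : ℝ) : ℂ) *
        dz (fun w => ((‖G n w‖ ^ 2 / κ : ℝ) : ℂ)) z :=
    dz_comp contDiff_eta (contDiff_arg hG n κ) z
  have e : (fun w => ((‖G n w‖ ^ 2 / κ : ℝ) : ℂ)) = fun w => ((κ⁻¹ : ℝ) : ℂ) * uu G n w := by
    funext w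
    rw [Sq.RelM.uu_eq]
    push_cast
    ring
  rw [h1, e, dz_const_mul _ (Sq.RelM.contDiff_uu hG.smooth n)]
  have h := Sq.RelM.dz_uu hG n hz
  push_cast
  linear_combination (((deriv eta (‖G n z‖ ^ 2 / κ) : ℝ) : ℂ) * ((κ : ℂ)⁻¹)) * h

lemma er_mul {φ : ℂ → ℝ} (hφ : TestR V φ) (hG : Tow V t G) (n : ℤ) (κ : ℝ) {z : ℂ} (hz : z ∈ V) :
    er (fun w => φ w * cc G n κ w) z = ((cc G n κ z : ℝ) : ℂ) * er φ z +
      ((φ z : ℝ) : ℂ) * (((deriv eta (‖G n z‖ ^ 2 / κ) * κ⁻¹ : ℝ) : ℂ) *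
        (((la t n : ℝ) : ℂ) * Sq.pp G n z - ((la t (n - 1) : ℝ) : ℂ) * Sq.pp G (n - 1) z)) := by
  have e : (fun w => (((φ w * cc G n κ w : ℝ)) : ℂ)) =
      fun w => ((φ w : ℝ) : ℂ) * ((cc G n κ w : ℝ) : ℂ) := by
    funext w
    push_cast
    rfl
  have h := dz_cc hG n κ hz
  unfold er
  rw [e, dz_mul (contDiff_ofReal hφ.smooth) (contDiff_ofReal (contDiff_cc hG n κ))]
  push_cast at h ⊢
  linear_combination ((φ z : ℝ) : ℂ) * h

/-! ### Integration by parts -/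

lemma ident {ψ : ℂ → ℝ} (hψ : TestR V ψ) (hG : Tow V t G) (n : ℤ) :
    ((la t n : ℝ) : ℂ) * (∫ z, (ψ z : ℂ) * uu G (n + 1) z) =
      ((la t n : ℝ) : ℂ) * (∫ z, (ψ z : ℂ) * uu G n z) -
        ∫ z, er ψ z * (G n z * conj (G (n + 1) z)) := by
  have cψ := contDiff_ofReal hψ.smooth
  have cA := hG.smooth (n + 1)
  have cB := hG.smooth n
  set a : ℂ → ℂ := fun z => (Complex.I * (z.im : ℂ)) * ((ψ z : ℂ) * conj (G (n + 1) z)) with ha
  have ca : ContDiff ℝ ∞ a :=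
    (contDiff_const.mul Sq.RelM.contDiff_imC).mul (cψ.mul (contDiff_conj cA))
  have hca : HasCompactSupport a := (hψ.toTest.cpt.mul_right).mul_left
  have hibp := integral_mul_dz ca cB (Or.inl hca)
  have i1 : ∀ k : ℤ, Integrable (fun z => (ψ z : ℂ) * uu G k z) := fun k =>
    Sq.RelM.integC hψ (Sq.RelM.contDiff_uu hG.smooth k).continuous
  have i2 : Integrable (fun z => (ψ z : ℂ) * (G n z * conj (G (n + 1) z))) :=
    Sq.RelM.integC hψ (cB.mul (contDiff_conj cA)).continuous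
  have i3 : Integrable (fun z => er ψ z * (G n z * conj (G (n + 1) z))) := by
    refine ((Sq.RelM.er_continuous hψ).mul
      (cB.mul (contDiff_conj cA)).continuous).integrable_of_hasCompactSupport ?_
    refine HasCompactSupport.mul_right ?_
    exact HasCompactSupport.intro hψ.cpt fun z hz => Sq.RelM.er_zero hz
  have e1 : ∀ z, a z * dz (G n) z =
      ((la t n : ℝ) : ℂ) * ((ψ z : ℂ) * uu G (n + 1) z) -
        (n : ℂ) * ((ψ z : ℂ) * (G n z * conj (G (n + 1) z))) := by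
    intro z
    by_cases hz : z ∈ V
    · have h := hG.up n z hz
      rw [ha]
      unfold uu
      dsimp only
      linear_combination ((ψ z : ℂ) * conj (G (n + 1) z)) * h
    · have h : (ψ z : ℂ) = 0 := by rw [hψ.eq_zero hz]; simp
      rw [ha]
      dsimp only
      rw [h]
      ring
  have e2 : ∀ z, dz a z * G n z = er ψ z * (G n z * conj (G (n + 1) z)) +
      ((n : ℂ) * ((ψ z : ℂ) * (G n z * conj (G (n + 1) z))) -
        ((la t n : ℝ) : ℂ) * ((ψ z : ℂ) * uu G n z)) := by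
    intro z
    have h1 : dz a z = (ψ z : ℂ) * conj (G (n + 1) z) +
        (Complex.I * (z.im : ℂ)) * (dz (fun w => (ψ w : ℂ)) z * conj (G (n + 1) z) +
          (ψ z : ℂ) * conj (dzb (G (n + 1)) z)) := by
      rw [ha, dz_mul (contDiff_const.mul Sq.RelM.contDiff_imC) (cψ.mul (contDiff_conj cA)),
        dz_mul cψ (contDiff_conj cA), dz_const_mul _ Sq.RelM.contDiff_imC, Sq.RelM.dz_im,
        dz_conj cA]
      have hI := Complex.I_mul_I
      linear_combination (-((ψ z : ℂ) * conj (G (n + 1) z))) * hI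
    rw [h1]
    unfold er uu
    by_cases hz : z ∈ V
    · have h := congrArg (starRingEnd ℂ) (hG.down n z hz)
      simp only [map_sub, map_neg, map_mul, Complex.conj_I, Complex.conj_ofReal, map_add,
        map_one, map_intCast] at h
      linear_combination ((ψ z : ℂ) * G n z) * h
    · have h : (ψ z : ℂ) = 0 := by rw [hψ.eq_zero hz]; simp
      rw [h]
      ring
  simp_rw [e1, e2] at hibp
  have i4 : Integrable (fun z => (n : ℂ) * ((ψ z : ℂ) * (G n z * conj (G (n + 1) z))) -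
      ((la t n : ℝ) : ℂ) * ((ψ z : ℂ) * uu G n z)) :=
    (i2.const_mul _).sub ((i1 n).const_mul _)
  rw [integral_sub ((i1 (n + 1)).const_mul _) (i2.const_mul _),
    integral_add i3 i4,
    integral_sub (i2.const_mul _) ((i1 n).const_mul _)] at hibp
  rw [integral_const_mul, integral_const_mul, integral_const_mul] at hibp
  linear_combination hibp

lemma real_int {ψ : ℂ → ℝ} (n : ℤ) :
    (∫ z, (ψ z : ℂ) * uu G n z) = ((∫ z, ψ z * ‖G n z‖ ^ 2 : ℝ) : ℂ) := by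
  rw [← integral_complex_ofReal]
  refine integral_congr_ae (Eventually.of_forall fun z => ?_)
  dsimp only
  rw [Sq.RelM.uu_eq]
  push_cast
  ring

lemma ident_le {ψ : ℂ → ℝ} (hψ : TestR V ψ) (hG : Tow V t G) (n : ℤ) {F : ℂ → ℝ}
    (hF : Integrable F) (h : ∀ z, ‖er ψ z‖ * (‖G n z‖ * ‖G (n + 1) z‖) ≤ F z) :
    la t n * (∫ z, ψ z * ‖G (n + 1) z‖ ^ 2) ≤
      la t n * (∫ z, ψ z * ‖G n z‖ ^ 2) + ∫ z, F z := by
  have h1 := ident hψ hG n
  rw [real_int, real_int] at h1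
  have h2 : ((la t n * (∫ z, ψ z * ‖G (n + 1) z‖ ^ 2) -
      la t n * (∫ z, ψ z * ‖G n z‖ ^ 2) : ℝ) : ℂ) =
      -∫ z, er ψ z * (G n z * conj (G (n + 1) z)) := by
    push_cast at h1 ⊢
    linear_combination h1
  have h3 : ‖∫ z, er ψ z * (G n z * conj (G (n + 1) z))‖ ≤ ∫ z, F z := by
    refine norm_integral_le_of_norm_le hF (Eventually.of_forall fun z => ?_)
    rw [norm_mul, norm_mul, RCLike.norm_conj]
    exact h z
  have h4 := congrArg norm h2
  rw [Complex.norm_real, norm_neg, Real.norm_eq_abs] at h4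
  have h5 := le_abs_self (la t n * (∫ z, ψ z * ‖G (n + 1) z‖ ^ 2) -
      la t n * (∫ z, ψ z * ‖G n z‖ ^ 2))
  linarith

/-! ### Pointwise bounds -/

lemma la_pred_le (ht : 1 ≤ t) (n : ℤ) : la t (n - 1) ≤ 2 * la t n := by
  unfold la
  rw [show (2 : ℝ) * √(((n : ℝ) + 1 / 2) ^ 2 + t ^ 2) =
    √(4 * (((n : ℝ) + 1 / 2) ^ 2 + t ^ 2)) by
      rw [Real.sqrt_mul (by norm_num), show (4 : ℝ) = 2 ^ 2 by norm_num,
        Real.sqrt_sq (by norm_num)]]
  apply Real.sqrt_le_sqrt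
  push_cast
  nlinarith [sq_nonneg ((n : ℝ) + 1 / 2 + 1), sq_nonneg ((n : ℝ) + 1 / 2)]

lemma alg {d κ l l' a b e C : ℝ} (hκ : 0 < κ) (hl : 0 ≤ l) (hl' : 0 ≤ l') (hll : l' ≤ 2 * l)
    (hdC : |d| ≤ C) (hb : b ^ 2 < 2 * κ) :
    |d * κ⁻¹| * (l * (a * b) + l' * (b * e)) * (b * a) ≤ 4 * C * l * (a ^ 2 + e ^ 2) := by
  have hC : 0 ≤ C := (abs_nonneg d).trans hdC
  have h1 : |d * κ⁻¹| * (l * (a * b) + l' * (b * e)) * (b * a) =
      |d| * ((κ⁻¹ * b ^ 2) * (l * a ^ 2 + l' * (e * a))) := by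
    rw [abs_mul, abs_of_pos (inv_pos.2 hκ)]
    ring
  have h2 : κ⁻¹ * b ^ 2 ≤ 2 := by
    rw [inv_mul_le_iff₀ hκ]
    linarith
  have h3 : l * a ^ 2 + l' * (e * a) ≤ 2 * l * (a ^ 2 + e ^ 2) := by
    nlinarith [mul_nonneg hl' (sq_nonneg (e - a)), mul_nonneg hl (sq_nonneg e),
      mul_nonneg hl (sq_nonneg a), mul_nonneg (sub_nonneg.2 hll) (sq_nonneg a),
      mul_nonneg (sub_nonneg.2 hll) (sq_nonneg e)]
  have h0 : 0 ≤ κ⁻¹ * b ^ 2 := by positivity
  have h4 : 0 ≤ 2 * l * (a ^ 2 + e ^ 2) := by positivity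
  rw [h1]
  calc |d| * ((κ⁻¹ * b ^ 2) * (l * a ^ 2 + l' * (e * a))) ≤
        |d| * ((κ⁻¹ * b ^ 2) * (2 * l * (a ^ 2 + e ^ 2))) :=
        mul_le_mul_of_nonneg_left (mul_le_mul_of_nonneg_left h3 h0) (abs_nonneg d)
    _ ≤ C * (2 * (2 * l * (a ^ 2 + e ^ 2))) :=
        mul_le_mul hdC (mul_le_mul_of_nonneg_right h2 h4) (mul_nonneg h0 h4) hC
    _ = _ := by ring

/-- the annulus -/
def An (G : ℤ → ℂ → ℂ) (n : ℤ) (κ : ℝ) : Set ℂ := {x : ℂ | κ ≤ ‖G n x‖ ^ 2 ∧ ‖G n x‖ ^ 2 < 2 * κ}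

/-- the function on the annulus -/
def Bn (G : ℤ → ℂ → ℂ) (n : ℤ) (κ : ℝ) (z : ℂ) : ℝ :=
  (An G n κ).indicator (fun x => ‖G (n + 1) x‖ ^ 2 + ‖G (n - 1) x‖ ^ 2) z

lemma bn_nonneg (n : ℤ) (κ : ℝ) (z : ℂ) : 0 ≤ Bn G n κ z :=
  indicator_nonneg (fun _ _ => by positivity) z

lemma ptw {φ ζ : ℂ → ℝ} (hφ : TestP V φ) (hζ : ∀ z, 0 ≤ ζ z) {K C : ℝ} (hK : 0 ≤ K)
    (hE : ∀ z, ‖er φ z‖ ≤ K * ζ z) (hC : ∀ x, |deriv eta x| ≤ C) (hG : Tow V t G) (ht : 1 ≤ t)
    (n : ℤ) {κ : ℝ} (hκ : 0 < κ) (z : ℂ) :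
    ‖er (fun w => φ w * cc G n κ w) z‖ * (‖G n z‖ * ‖G (n + 1) z‖) ≤
      K / 2 * (ζ z * ‖G n z‖ ^ 2 + ζ z * ‖G (n + 1) z‖ ^ 2) +
        4 * C * la t n * (φ z * Bn G n κ z) := by
  have hl : 0 ≤ la t n := (by linarith : (0 : ℝ) ≤ t).trans (Sq.RelM.la_ge (by linarith) n)
  have hl' : 0 ≤ la t (n - 1) :=
    (by linarith : (0 : ℝ) ≤ t).trans (Sq.RelM.la_ge (by linarith) (n - 1))
  have hC0 : 0 ≤ C := (abs_nonneg _).trans (hC 0)
  have hr1 : 0 ≤ K / 2 * (ζ z * ‖G n z‖ ^ 2 + ζ z * ‖G (n + 1) z‖ ^ 2) := by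
    have := hζ z
    positivity
  have hr2 : 0 ≤ 4 * C * la t n * (φ z * Bn G n κ z) := by
    have := hφ.nonneg z
    have := bn_nonneg (G := G) n κ z
    positivity
  by_cases hz : z ∈ V
  · rw [er_mul hφ.test hG n κ hz]
    have hab : 0 ≤ ‖G n z‖ * ‖G (n + 1) z‖ := by positivity
    have hc0 := eta_nonneg (‖G n z‖ ^ 2 / κ)
    have hc1 := eta_le_one (‖G n z‖ ^ 2 / κ)
    have p1 : ‖((cc G n κ z : ℝ) : ℂ) * er φ z‖ ≤ K * ζ z := by
      rw [norm_mul, Complex.norm_real, Real.norm_eq_abs]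
      have h1 : |cc G n κ z| ≤ 1 := by
        rw [abs_le]
        unfold cc
        constructor <;> linarith
      calc |cc G n κ z| * ‖er φ z‖ ≤ 1 * (K * ζ z) :=
            mul_le_mul h1 (hE z) (norm_nonneg _) zero_le_one
        _ = _ := one_mul _
    have p2 : ‖((φ z : ℝ) : ℂ) * (((deriv eta (‖G n z‖ ^ 2 / κ) * κ⁻¹ : ℝ) : ℂ) *
        (((la t n : ℝ) : ℂ) * Sq.pp G n z - ((la t (n - 1) : ℝ) : ℂ) * Sq.pp G (n - 1) z))‖ ≤
        φ z * (|deriv eta (‖G n z‖ ^ 2 / κ) * κ⁻¹| * (la t n * (‖G (n + 1) z‖ * ‖G n z‖) +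
          la t (n - 1) * (‖G n z‖ * ‖G (n - 1) z‖))) := by
      rw [norm_mul, norm_mul, Complex.norm_real, Complex.norm_real, Real.norm_eq_abs,
        Real.norm_eq_abs, abs_of_nonneg (hφ.nonneg z)]
      refine mul_le_mul_of_nonneg_left (mul_le_mul_of_nonneg_left ?_ (abs_nonneg _)) (hφ.nonneg z)
      refine (norm_sub_le _ _).trans (le_of_eq ?_)
      unfold Sq.pp
      rw [norm_mul, norm_mul, norm_mul, norm_mul, Complex.norm_real, Complex.norm_real,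
        Real.norm_eq_abs, Real.norm_eq_abs, abs_of_nonneg hl, abs_of_nonneg hl', RCLike.norm_conj,
        RCLike.norm_conj, sub_add_cancel]
    have p3 : |deriv eta (‖G n z‖ ^ 2 / κ) * κ⁻¹| * (la t n * (‖G (n + 1) z‖ * ‖G n z‖) +
          la t (n - 1) * (‖G n z‖ * ‖G (n - 1) z‖)) * (‖G n z‖ * ‖G (n + 1) z‖) ≤
        4 * C * la t n * Bn G n κ z := by
      by_cases hA : z ∈ An G n κ
      · have hB : Bn G n κ z = ‖G (n + 1) z‖ ^ 2 + ‖G (n - 1) z‖ ^ 2 := indicator_of_mem hA _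
        rw [hB]
        exact alg hκ hl hl' (la_pred_le ht n) (hC _) hA.2
      · have hd : deriv eta (‖G n z‖ ^ 2 / κ) = 0 := by
          apply deriv_eta_zero
          by_contra h
          rw [not_or, not_lt, not_lt] at h
          apply hA
          have h1 := (le_div_iff₀ hκ).1 h.1
          have h2 := (div_le_iff₀ hκ).1 h.2
          exact ⟨by linarith, by linarith⟩
        have hB : Bn G n κ z = 0 := indicator_of_notMem hA _
        rw [hd, hB]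
        simp
    have p4 : K * ζ z * (‖G n z‖ * ‖G (n + 1) z‖) ≤
        K / 2 * (ζ z * ‖G n z‖ ^ 2 + ζ z * ‖G (n + 1) z‖ ^ 2) := by
      nlinarith [mul_nonneg (mul_nonneg hK (hζ z)) (sq_nonneg (‖G n z‖ - ‖G (n + 1) z‖))]
    have p5 := norm_add_le (((cc G n κ z : ℝ) : ℂ) * er φ z)
      (((φ z : ℝ) : ℂ) * (((deriv eta (‖G n z‖ ^ 2 / κ) * κ⁻¹ : ℝ) : ℂ) *
        (((la t n : ℝ) : ℂ) * Sq.pp G n z - ((la t (n - 1) : ℝ) : ℂ) * Sq.pp G (n - 1) z)))
    have p6 := mul_le_mul_of_nonneg_right (p5.trans (add_le_add p1 p2)) hab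
    have p7 := mul_le_mul_of_nonneg_left p3 (hφ.nonneg z)
    refine p6.trans ?_
    linarith
  · have hz' : z ∉ tsupport (fun w => φ w * cc G n κ w) := fun h =>
      hz ((hφ.test.mul_right (contDiff_cc hG n κ)).sub h)
    rw [Sq.RelM.er_zero hz', norm_zero, zero_mul]
    exact add_nonneg hr1 hr2

/-! ### Integrability -/

lemma integ_ind {φ : ℂ → ℝ} (hφ : TestR V φ) {F : ℂ → ℝ} (hF : Continuous F) {A : Set ℂ}
    (hA : MeasurableSet A) : Integrable (fun z => φ z * A.indicator F z) := by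
  have h := (Sq.RelM.integ hφ hF).indicator hA
  refine h.congr (Eventually.of_forall fun z => ?_)
  by_cases hz : z ∈ A
  · simp only [indicator_of_mem hz]
  · simp only [indicator_of_notMem hz, mul_zero]

lemma meas_An (hG : Tow V t G) (n : ℤ) (κ : ℝ) : MeasurableSet (An G n κ) := by
  have hc : Continuous (fun x => ‖G n x‖ ^ 2) := (hG.smooth n).continuous.norm.pow 2
  exact (measurableSet_le measurable_const hc.measurable).inter
    (measurableSet_lt hc.measurable measurable_const)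

lemma meas_lt (hG : Tow V t G) (n : ℤ) (κ : ℝ) : MeasurableSet {x : ℂ | ‖G n x‖ ^ 2 < κ} := by
  have hc : Continuous (fun x => ‖G n x‖ ^ 2) := (hG.smooth n).continuous.norm.pow 2
  exact measurableSet_lt hc.measurable measurable_const

lemma int_Bn {φ : ℂ → ℝ} (hφ : TestR V φ) (hG : Tow V t G) (n : ℤ) (κ : ℝ) :
    Integrable (fun z => φ z * Bn G n κ z) :=
  integ_ind hφ (((hG.smooth (n + 1)).continuous.norm.pow 2).add
    ((hG.smooth (n - 1)).continuous.norm.pow 2)) (meas_An hG n κ)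

/-- the inequality for one tower -/
lemma one {φ ζ : ℂ → ℝ} (hφ : TestP V φ) (hζ : TestP V ζ) {K C M : ℝ} (hK : 0 ≤ K)
    (hE : ∀ z, ‖er φ z‖ ≤ K * ζ z) (hC : ∀ x, |deriv eta x| ≤ C) (hG : Tow V t G) (ht : 1 ≤ t)
    (n : ℤ) (h1 : ∫ z, ζ z * ‖G n z‖ ^ 2 ≤ M) (h2 : ∫ z, ζ z * ‖G (n + 1) z‖ ^ 2 ≤ M)
    {ε : ℝ} (hε : K * M ≤ ε * t) (hε0 : 0 ≤ ε) {κ : ℝ} (hκ : 0 < κ) :
    ∫ z, φ z * {x : ℂ | ‖G n x‖ ^ 2 < κ}.indicator (fun x => ‖G (n + 1) x‖ ^ 2) z ≤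
      2 * κ * (∫ z, φ z) + 4 * C * (∫ z, φ z * Bn G n κ z) + ε := by
  have hla := Sq.RelM.la_ge (t := t) (by linarith) n
  have hl : 0 < la t n := by linarith
  have hcont : ∀ k, Continuous (fun z => ‖G k z‖ ^ 2) := fun k =>
    (hG.smooth k).continuous.norm.pow 2
  have hψ : TestR V (fun w => φ w * cc G n κ w) := hφ.test.mul_right (contDiff_cc hG n κ)
  have j1 : Integrable (fun z => ζ z * ‖G n z‖ ^ 2 + ζ z * ‖G (n + 1) z‖ ^ 2) :=
    (Sq.RelM.integ hζ.test (hcont n)).add (Sq.RelM.integ hζ.test (hcont (n + 1)))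
  have j2 := int_Bn hφ.test hG n κ
  have j3 : Integrable (fun z => K / 2 * (ζ z * ‖G n z‖ ^ 2 + ζ z * ‖G (n + 1) z‖ ^ 2) +
      4 * C * la t n * (φ z * Bn G n κ z)) := (j1.const_mul _).add (j2.const_mul _)
  have k1 := ident_le hψ hG n j3 (ptw hφ hζ.nonneg hK hE hC hG ht n hκ)
  rw [integral_add (j1.const_mul _) (j2.const_mul _), integral_const_mul, integral_const_mul,
    integral_add (Sq.RelM.integ hζ.test (hcont n))
      (Sq.RelM.integ hζ.test (hcont (n + 1)))] at k1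
  -- the first term on the right
  have k2 : ∫ z, φ z * cc G n κ z * ‖G n z‖ ^ 2 ≤ 2 * κ * ∫ z, φ z := by
    rw [← integral_const_mul]
    apply integral_mono (Sq.RelM.integ hψ (hcont n)) (hφ.test.integrable.const_mul _)
    intro z
    dsimp only
    have hc0 := eta_nonneg (‖G n z‖ ^ 2 / κ)
    have hc1 := eta_le_one (‖G n z‖ ^ 2 / κ)
    have h3 : cc G n κ z * ‖G n z‖ ^ 2 ≤ 2 * κ := by
      by_cases h : ‖G n z‖ ^ 2 ≤ 2 * κ
      · calc cc G n κ z * ‖G n z‖ ^ 2 ≤ 1 * (2 * κ) :=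
            mul_le_mul hc1 h (by positivity) zero_le_one
          _ = _ := one_mul _
      · have h4 : cc G n κ z = 0 := by
          apply eta_zero
          rw [le_div_iff₀ hκ]
          linarith
        rw [h4, zero_mul]
        positivity
    calc φ z * cc G n κ z * ‖G n z‖ ^ 2 = φ z * (cc G n κ z * ‖G n z‖ ^ 2) := by ring
      _ ≤ φ z * (2 * κ) := mul_le_mul_of_nonneg_left h3 (hφ.nonneg z)
      _ = _ := by ring
  -- the left side
  have k3 : ∫ z, φ z * {x : ℂ | ‖G n x‖ ^ 2 < κ}.indicator (fun x => ‖G (n + 1) x‖ ^ 2) z ≤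
      ∫ z, φ z * cc G n κ z * ‖G (n + 1) z‖ ^ 2 := by
    apply integral_mono (integ_ind hφ.test (hcont (n + 1)) (meas_lt hG n κ))
      (Sq.RelM.integ hψ (hcont (n + 1)))
    intro z
    dsimp only
    by_cases hz : z ∈ {x : ℂ | ‖G n x‖ ^ 2 < κ}
    · rw [indicator_of_mem hz]
      have h4 : cc G n κ z = 1 := by
        apply eta_one
        rw [div_le_one hκ]
        exact le_of_lt hz
      rw [h4, mul_one]
    · rw [indicator_of_notMem hz, mul_zero]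
      have := hφ.nonneg z
      have := eta_nonneg (‖G n z‖ ^ 2 / κ)
      unfold cc
      positivity
  refine k3.trans ?_
  have k4 : la t n * (∫ z, φ z * cc G n κ z * ‖G (n + 1) z‖ ^ 2) ≤
      la t n * (2 * κ * (∫ z, φ z) + 4 * C * (∫ z, φ z * Bn G n κ z) + ε) := by
    have k5 := mul_le_mul_of_nonneg_left k2 hl.le
    have k6 : K / 2 * ((∫ z, ζ z * ‖G n z‖ ^ 2) + ∫ z, ζ z * ‖G (n + 1) z‖ ^ 2) ≤ K * M := by
      have h5 := mul_le_mul_of_nonneg_left (add_le_add h1 h2) (by positivity : 0 ≤ K / 2)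
      linarith
    have k7 : ε * t ≤ ε * la t n := mul_le_mul_of_nonneg_left hla hε0
    linarith
  exact le_of_mul_le_mul_left k4 hl

end

end Pool.Agent.A54.Vd.AdIM

namespace Pool.Agent.A54.Vd

open MeasureTheory Filter Topology Set
open scoped ContDiff ComplexConjugate UpperHalfPlane MatrixGroups ENNReal
open Pool.Agent.A54.Half (H0 qq ff hh)
open Pool.Agent.A54.Sq (TestP la Tow pp Wi Pj Up KK SS CosH)
open Pool.Agent.A54.Pl (Ed mean)

theorem stmtAdI : StmtAdI := by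
  obtain ⟨C, hC0, hC⟩ := AdIM.deriv_eta_bound
  refine ⟨4 * C, by positivity, fun V t G hF φ hφ n ε hε => ?_⟩
  obtain ⟨ζ, hζ, h01, hone⟩ := exists_cutoff hφ.test.cpt hF.isOpen hφ.test.sub
  have hone' : ∀ z ∈ tsupport φ, ζ z = 1 := fun z hz => subset_of_mem_nhdsSet hone hz
  have hζP : TestP V ζ := ⟨hζ, fun z => (h01 z).1⟩
  obtain ⟨K, hK⟩ := hφ.test.cpt.isCompact.exists_bound_of_continuousOn
    (Sq.RelM.er_continuous hφ.test).continuousOn
  have hE : ∀ z, ‖Sq.RelM.er φ z‖ ≤ |K| * ζ z := by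
    intro z
    by_cases hz : z ∈ tsupport φ
    · rw [hone' z hz, mul_one]
      exact (hK z hz).trans (le_abs_self _)
    · rw [Sq.RelM.er_zero hz, norm_zero]
      exact mul_nonneg (abs_nonneg _) (h01 z).1
  have m1 := (hF.mass ζ hζP n).eventually_le_const (lt_add_one (∫ z, ζ z))
  have m2 := (hF.mass ζ hζP (n + 1)).eventually_le_const (lt_add_one (∫ z, ζ z))
  have m3 := hF.lim.eventually_ge_atTop (1 : ℝ)
  have m4 := hF.lim.eventually_ge_atTop (|K| * ((∫ z, ζ z) + 1) / ε)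
  filter_upwards [m1, m2, m3, m4] with i h1 h2 h3 h4 κ hκ
  refine AdIM.one hφ hζP (abs_nonneg K) hE hC (hF.tow i) h3 n h1 h2 ?_ hε.le hκ
  rw [div_le_iff₀ hε] at h4
  linarith

end Pool.Agent.A54.Vd
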