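import Pool.Agent.Lib.MP_a54f13_nt.Vd.SpecU

/-!
# Ada: `G_{n+1}` is small where `G_n` is small (package `Vd`, part A)

Pigeonhole over the levels `2^(-j)`, `J ≤ j < 2J`, in the basic inequality `AdI`.
-/

set_option autoImplicit false

namespace Pool.Agent.A54.Vd

open MeasureTheory Filter Topology Set
open scoped ContDiff ComplexConjugate UpperHalfPlane MatrixGroups ENNReal
open Pool.Agent.A54.Half (H0 qq ff hh)
open Pool.Agent.A54.Sq (TestP la Tow pp Wi Pj Up KK SS CosH)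
open Pool.Agent.A54.Pl (Ed mean)

noncomputable section

namespace AdaM

lemma integ {V : Set ℂ} {φ : ℂ → ℝ} (hφ : TestP V φ) {g : ℂ → ℝ} (hg : Continuous g) :
    Integrable (fun z => φ z * g z) := by
  have h1 : Continuous (fun z => φ z * g z) := hφ.test.smooth.continuous.mul hg
  exact h1.integrable_of_hasCompactSupport hφ.test.cpt.mul_right

lemma integI {V : Set ℂ} {φ : ℂ → ℝ} (hφ : TestP V φ) {g : ℂ → ℝ} (hg : Continuous g)
    {S : Set ℂ} (hS : MeasurableSet S) : Integrable (fun z => φ z * S.indicator g z) := by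
  have h : (fun z => φ z * S.indicator g z) = S.indicator (fun z => φ z * g z) := by
    funext z
    by_cases hz : z ∈ S
    · rw [indicator_of_mem hz, indicator_of_mem hz]
    · rw [indicator_of_notMem hz, indicator_of_notMem hz, mul_zero]
  rw [h]
  exact (integ hφ hg).indicator hS

lemma mono {V : Set ℂ} {φ : ℂ → ℝ} (hφ : TestP V φ) {g : ℂ → ℝ} (hg : Continuous g)
    (h0 : ∀ z, 0 ≤ g z) {S T : Set ℂ} (hS : MeasurableSet S) (hT : MeasurableSet T) (hST : S ⊆ T) :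
    ∫ z, φ z * S.indicator g z ≤ ∫ z, φ z * T.indicator g z :=
  integral_mono (integI hφ hg hS) (integI hφ hg hT) fun z =>
    mul_le_mul_of_nonneg_left (indicator_le_indicator_of_subset hST h0 z) (hφ.nonneg z)

lemma sumY {V : Set ℂ} {φ : ℂ → ℝ} (hφ : TestP V φ) {g : ℂ → ℝ} (hg : Continuous g)
    (h0 : ∀ z, 0 ≤ g z) (J : Finset ℕ) (S : ℕ → Set ℂ) (hS : ∀ j, MeasurableSet (S j))
    (hd : ∀ i ∈ J, ∀ j ∈ J, i ≠ j → Disjoint (S i) (S j)) :
    ∑ j ∈ J, ∫ z, φ z * (S j).indicator g z ≤ ∫ z, φ z * g z := by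
  rw [← integral_finsetSum _ (fun j _ => integI hφ hg (hS j))]
  refine integral_mono (integrable_finsetSum _ fun j _ => integI hφ hg (hS j)) (integ hφ hg)
    fun z => ?_
  show ∑ j ∈ J, φ z * (S j).indicator g z ≤ φ z * g z
  rw [← Finset.mul_sum]
  refine mul_le_mul_of_nonneg_left ?_ (hφ.nonneg z)
  by_cases hz : ∃ i ∈ J, z ∈ S i
  · obtain ⟨i, hi, hzi⟩ := hz
    rw [Finset.sum_eq_single i]
    · rw [indicator_of_mem hzi]
    · intro j hj hji
      exact indicator_of_notMem (fun hzj => (Set.disjoint_left.1 (hd j hj i hi hji) hzj) hzi) _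
    · exact fun h => absurd hi h
  · rw [Finset.sum_eq_zero fun j hj => indicator_of_notMem (fun hzj => hz ⟨j, hj, hzj⟩) _]
    exact h0 z

end AdaM

open AdaM in
/-- **Ada** -/
theorem stmtAda (h : StmtAdI) : StmtAda := by
  obtain ⟨C₀, hC₀, hA⟩ := h
  intro V t G hF φ hφ n ε hε
  obtain ⟨F, hFe⟩ : ∃ F, F = ∫ z, φ z := ⟨_, rfl⟩
  have hF0 : 0 ≤ F := hFe ▸ integral_nonneg hφ.nonneg
  -- the number of the levels
  have hlim : Tendsto (fun J : ℕ => 2 * F * (1 / 2 : ℝ) ^ J) atTop (𝓝 (2 * F * 0)) :=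
    (tendsto_pow_atTop_nhds_zero_of_lt_one (by norm_num) (by norm_num)).const_mul _
  rw [mul_zero] at hlim
  have h4 : 0 < ε / 4 := by linarith
  obtain ⟨N, hN⟩ := exists_nat_ge (C₀ * (2 * F + 2) / (ε / 4))
  obtain ⟨J, hJ1, hJ2⟩ := ((hlim.eventually (ge_mem_nhds h4)).and
    (eventually_ge_atTop (N + 1))).exists
  have hJN : (N : ℝ) + 1 ≤ J := by exact_mod_cast hJ2
  have hJ0 : 0 < (J : ℝ) := by
    have : (0 : ℝ) ≤ N := Nat.cast_nonneg N
    linarith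
  have hJM : C₀ * (2 * F + 2) ≤ (J : ℝ) * (ε / 4) := by
    rw [div_le_iff₀ h4] at hN
    nlinarith
  refine ⟨(1 / 2 : ℝ) ^ (2 * J), by positivity, ?_⟩
  have hm1 := (hF.mass φ hφ (n + 1)).eventually (ge_mem_nhds (lt_add_one _))
  have hm2 := (hF.mass φ hφ (n - 1)).eventually (ge_mem_nhds (lt_add_one _))
  filter_upwards [hA V t G hF φ hφ n (ε / 2) (half_pos hε), hm1, hm2] with i hi hi1 hi2
  rw [← hFe] at hi1 hi2
  have hc : ∀ m : ℤ, Continuous (G i m) := fun m => ((hF.tow i).smooth m).continuous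
  have hu : Continuous (fun z => ‖G i n z‖ ^ 2) := (hc n).norm.pow 2
  have hg1 : Continuous (fun z => ‖G i (n + 1) z‖ ^ 2) := (hc _).norm.pow 2
  have hg2 : Continuous (fun z => ‖G i (n - 1) z‖ ^ 2) := (hc _).norm.pow 2
  have hg : Continuous (fun z => ‖G i (n + 1) z‖ ^ 2 + ‖G i (n - 1) z‖ ^ 2) := hg1.add hg2
  have hS1 : ∀ κ : ℝ, MeasurableSet {x : ℂ | ‖G i n x‖ ^ 2 < κ} := fun κ =>
    (isOpen_lt hu continuous_const).measurableSet
  have hS2 : ∀ κ : ℝ, MeasurableSet {x : ℂ | κ ≤ ‖G i n x‖ ^ 2 ∧ ‖G i n x‖ ^ 2 < 2 * κ} := fun κ =>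
    ((isClosed_le continuous_const hu).measurableSet).inter (isOpen_lt hu continuous_const).measurableSet
  have hhalf : ∀ a b : ℕ, a ≤ b → (1 / 2 : ℝ) ^ b ≤ (1 / 2 : ℝ) ^ a := fun a b hab =>
    pow_le_pow_of_le_one (by norm_num) (by norm_num) hab
  -- the disjoint levels
  have hsum := sumY hφ hg (fun z => by positivity) (Finset.range J)
    (fun j => {x : ℂ | (1 / 2 : ℝ) ^ (J + j) ≤ ‖G i n x‖ ^ 2 ∧ ‖G i n x‖ ^ 2 < 2 * (1 / 2 : ℝ) ^ (J + j)})
    (fun j => hS2 _) (by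
      have key : ∀ a b : ℕ, a < b → ∀ x : ℂ, (1 / 2 : ℝ) ^ (J + a) ≤ ‖G i n x‖ ^ 2 →
          ‖G i n x‖ ^ 2 < 2 * (1 / 2 : ℝ) ^ (J + b) → False := by
        intro a b hab x h1 h2
        have h3 := hhalf (J + a + 1) (J + b) (by omega)
        rw [pow_succ] at h3
        linarith
      intro a _ b _ hab
      rw [Set.disjoint_left]
      rintro x ⟨h1, h2⟩ ⟨h3, h5⟩
      rcases lt_or_gt_of_ne hab with hl | hl
      · exact key a b hl x h1 h5
      · exact key b a hl x h3 h2)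
  have hsplit : ∫ z, φ z * (‖G i (n + 1) z‖ ^ 2 + ‖G i (n - 1) z‖ ^ 2) =
      (∫ z, φ z * ‖G i (n + 1) z‖ ^ 2) + ∫ z, φ z * ‖G i (n - 1) z‖ ^ 2 := by
    rw [← integral_add (integ hφ hg1) (integ hφ hg2)]
    exact integral_congr_ae (Eventually.of_forall fun z => mul_add _ _ _)
  rw [hsplit] at hsum
  -- each level
  have hlev : ∀ j ∈ Finset.range J, (∫ z, φ z * {x : ℂ | ‖G i n x‖ ^ 2 < (1 / 2 : ℝ) ^ (2 * J)}.indicator
      (fun x => ‖G i (n + 1) x‖ ^ 2) z) ≤ (ε / 4 + ε / 2) + C₀ * ∫ z, φ z *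
      {x : ℂ | (1 / 2 : ℝ) ^ (J + j) ≤ ‖G i n x‖ ^ 2 ∧ ‖G i n x‖ ^ 2 < 2 * (1 / 2 : ℝ) ^ (J + j)}.indicator
        (fun x => ‖G i (n + 1) x‖ ^ 2 + ‖G i (n - 1) x‖ ^ 2) z := by
    intro j hj
    have hj' := Finset.mem_range.1 hj
    have h1 := mono hφ hg1 (fun z => by positivity) (hS1 ((1 / 2 : ℝ) ^ (2 * J)))
      (hS1 ((1 / 2 : ℝ) ^ (J + j))) (fun x hx => lt_of_lt_of_le hx (hhalf _ _ (by omega)))
    have h2 := hi ((1 / 2 : ℝ) ^ (J + j)) (by positivity)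
    rw [← hFe] at h2
    have h3 : 2 * (1 / 2 : ℝ) ^ (J + j) * F ≤ ε / 4 := by
      have h5 := mul_le_mul_of_nonneg_left (hhalf J (J + j) (by omega)) (by positivity : 0 ≤ 2 * F)
      linarith
    linarith
  have htot := Finset.sum_le_sum hlev
  rw [Finset.sum_const, Finset.card_range, nsmul_eq_mul, Finset.sum_add_distrib, Finset.sum_const,
    Finset.card_range, nsmul_eq_mul, ← Finset.mul_sum] at htot
  have h5 := mul_le_mul_of_nonneg_left (hsum.trans (add_le_add hi1 hi2)) hC₀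
  refine le_of_mul_le_mul_left ?_ hJ0
  refine htot.trans ?_
  calc (J : ℝ) * (ε / 4 + ε / 2) + C₀ * _ ≤ (J : ℝ) * (ε / 4 + ε / 2) + C₀ * (F + 1 + (F + 1)) :=
        add_le_add le_rfl h5
    _ ≤ (J : ℝ) * ε := by nlinarith

end

end Pool.Agent.A54.Vd
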