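import Pool.Agent.Lib.MP_a54f13_nt.Vd.SpecU

/-!
# Package `Vd`, module `Chn`: all `G_d`, `d ≥ 1`, are small where `G_1` is small

Induction on `d`; on `{u_1 < κ, u_d ≥ κ'}` the inequality `u_{d+1} ≤ η u_{d+1}² + (4 η κ')⁻¹ u_d`
(`u_d = |G_d|²`) replaces the inequality of Cauchy and Schwarz.
-/

set_option autoImplicit false

namespace Pool.Agent.A54.Vd

open MeasureTheory Filter Topology Set
open scoped ContDiff ComplexConjugate UpperHalfPlane MatrixGroups ENNReal
open Pool.Agent.A54.Half (H0 qq ff hh)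
open Pool.Agent.A54.Sq (TestP la Tow pp Wi Pj Up KK SS CosH)
open Pool.Agent.A54.Pl (Ed mean)

noncomputable section

namespace ChnM

lemma integ {V : Set ℂ} {φ : ℂ → ℝ} (hφ : TestP V φ) {g : ℂ → ℝ} (hg : Continuous g) :
    Integrable (fun z => φ z * g z) := by
  have h1 : Continuous (fun z => φ z * g z) := hφ.test.smooth.continuous.mul hg
  exact h1.integrable_of_hasCompactSupport hφ.test.cpt.mul_right

lemma integI {V : Set ℂ} {φ : ℂ → ℝ} (hφ : TestP V φ) {g : ℂ → ℝ} (hg : Continuous g)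
    {S : Set ℂ} (hS : MeasurableSet S) : Integrable (fun z => φ z * S.indicator g z) := by
  have h : (fun z => φ z * S.indicator g z) = S.indicator (fun z => φ z * g z) := by
    funext z
    by_cases hz : z ∈ S
    · rw [indicator_of_mem hz, indicator_of_mem hz]
    · rw [indicator_of_notMem hz, indicator_of_notMem hz, mul_zero]
  rw [h]
  exact (integ hφ hg).indicator hS

/-- the inequality at a point: `u₁`, `u`, `v` are the values of `|G_1|²`, `|G_d|²`, `|G_{d+1}|²` -/
lemma point {κ' η u v : ℝ} (hκ' : 0 < κ') (hη : 0 < η) (hu : κ' ≤ u) :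
    v ≤ η * v ^ 2 + (4 * (η * κ'))⁻¹ * u := by
  have h1 : (4 * η)⁻¹ ≤ (4 * (η * κ'))⁻¹ * u := by
    have h2 : (4 * η)⁻¹ = (4 * (η * κ'))⁻¹ * κ' := by
      field_simp
    rw [h2]
    exact mul_le_mul_of_nonneg_left hu (by positivity)
  have h3 : v ≤ η * v ^ 2 + (4 * η)⁻¹ := by
    have h4 : η * v ^ 2 + (4 * η)⁻¹ - v = η * (v - (2 * η)⁻¹) ^ 2 := by
      field_simp
      ring
    have h5 : 0 ≤ η * (v - (2 * η)⁻¹) ^ 2 := by positivity
    linarith
  linarith

/-- one step for a single tower of continuous functions -/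
lemma step {V : Set ℂ} {φ : ℂ → ℝ} (hφ : TestP V φ) {a b c : ℂ → ℝ} (ha : Continuous a)
    (hb : Continuous b) (hc : Continuous c) (hb0 : ∀ z, 0 ≤ b z) (hc0 : ∀ z, 0 ≤ c z)
    {κ κ' η : ℝ} (hκ' : 0 < κ') (hη : 0 < η) :
    ∫ z, φ z * {x : ℂ | a x < κ}.indicator c z ≤
      (∫ z, φ z * {x : ℂ | b x < κ'}.indicator c z) + η * (∫ z, φ z * c z ^ 2) +
        (4 * (η * κ'))⁻¹ * ∫ z, φ z * {x : ℂ | a x < κ}.indicator b z := by
  have hA : MeasurableSet {x : ℂ | a x < κ} := (isOpen_lt ha continuous_const).measurableSet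
  have hB : MeasurableSet {x : ℂ | b x < κ'} := (isOpen_lt hb continuous_const).measurableSet
  have i1 := integI hφ hc hB
  have i2 : Integrable (fun z => η * (φ z * c z ^ 2)) := (integ hφ (hc.pow 2)).const_mul _
  have i3 : Integrable (fun z => (4 * (η * κ'))⁻¹ * (φ z * {x : ℂ | a x < κ}.indicator b z)) :=
    (integI hφ hb hA).const_mul _
  have i12 : Integrable (fun z => φ z * {x : ℂ | b x < κ'}.indicator c z + η * (φ z * c z ^ 2)) :=
    i1.add i2
  have h1 : ∫ z, φ z * {x : ℂ | a x < κ}.indicator c z ≤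
      ∫ z, ((φ z * {x : ℂ | b x < κ'}.indicator c z + η * (φ z * c z ^ 2)) +
        (4 * (η * κ'))⁻¹ * (φ z * {x : ℂ | a x < κ}.indicator b z)) := by
    refine integral_mono (integI hφ hc hA) (i12.add i3) fun z => ?_
    show φ z * _ ≤ (φ z * _ + η * (φ z * c z ^ 2)) + (4 * (η * κ'))⁻¹ * (φ z * _)
    have h0 := hφ.nonneg z
    have hb1 : 0 ≤ {x : ℂ | b x < κ'}.indicator c z := indicator_nonneg (fun x _ => hc0 x) z
    have hp1 : 0 ≤ η * (φ z * c z ^ 2) := by positivity
    by_cases hz : z ∈ {x : ℂ | a x < κ}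
    · rw [indicator_of_mem hz, indicator_of_mem hz]
      by_cases hz2 : z ∈ {x : ℂ | b x < κ'}
      · rw [indicator_of_mem hz2]
        have h2 : 0 ≤ (4 * (η * κ'))⁻¹ * (φ z * b z) :=
          mul_nonneg (by positivity) (mul_nonneg h0 (hb0 z))
        linarith
      · rw [indicator_of_notMem hz2]
        have h3 : κ' ≤ b z := not_lt.1 hz2
        have h4 := mul_le_mul_of_nonneg_left (point (v := c z) hκ' hη h3) h0
        have h5 : φ z * (η * c z ^ 2 + (4 * (η * κ'))⁻¹ * b z) =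
            (φ z * 0 + η * (φ z * c z ^ 2)) + (4 * (η * κ'))⁻¹ * (φ z * b z) := by ring
        linarith
    · rw [indicator_of_notMem hz, indicator_of_notMem hz]
      have h6 := mul_nonneg h0 hb1
      simp only [mul_zero]
      linarith
  refine h1.trans (le_of_eq ?_)
  rw [integral_add i12 i3, integral_add i1 i2, integral_const_mul, integral_const_mul]

end ChnM

open ChnM in
/-- **Chn** -/
theorem stmtChn (h : StmtAda) : StmtChn := by
  intro V t G hF φ hφ d
  induction d with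
  | zero => exact fun ε h1 _ => absurd h1 (by norm_num)
  | succ d ih =>
    intro ε _ hε
    have hc : ∀ i, ∀ m : ℤ, Continuous (fun z => ‖G i m z‖ ^ 2) := fun i m =>
      ((hF.tow i).smooth m).continuous.norm.pow 2
    rcases Nat.eq_zero_or_pos d with hd | hd
    · -- `d + 1 = 1`
      subst hd
      have hI : 0 ≤ ∫ z, φ z := integral_nonneg hφ.nonneg
      refine ⟨ε / ((∫ z, φ z) + 1), by positivity, Eventually.of_forall fun i => ?_⟩
      have hA : MeasurableSet {x : ℂ | ‖G i 1 x‖ ^ 2 < ε / ((∫ z, φ z) + 1)} :=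
        (isOpen_lt (hc i 1) continuous_const).measurableSet
      have h1 : ∫ z, φ z * {x : ℂ | ‖G i 1 x‖ ^ 2 < ε / ((∫ z, φ z) + 1)}.indicator
          (fun x => ‖G i ((0 + 1 : ℕ) : ℤ) x‖ ^ 2) z ≤ ∫ z, (ε / ((∫ z, φ z) + 1)) * φ z := by
        refine integral_mono (integI hφ (hc i _) hA)
          ((hφ.test.smooth.continuous.integrable_of_hasCompactSupport hφ.test.cpt).const_mul _)
          fun z => ?_
        show φ z * _ ≤ ε / ((∫ z, φ z) + 1) * φ z
        have h0 := hφ.nonneg z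
        by_cases hz : z ∈ {x : ℂ | ‖G i 1 x‖ ^ 2 < ε / ((∫ z, φ z) + 1)}
        · rw [indicator_of_mem hz, mul_comm]
          have h2 : ‖G i 1 z‖ ^ 2 < ε / ((∫ z, φ z) + 1) := hz
          refine mul_le_mul_of_nonneg_right ?_ h0
          simpa using h2.le
        · rw [indicator_of_notMem hz, mul_zero]
          positivity
      refine h1.trans ?_
      rw [integral_const_mul, div_mul_eq_mul_div, div_le_iff₀ (by positivity)]
      nlinarith
    · -- `d → d + 1`
      obtain ⟨B, hB⟩ := hF.four φ hφ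
      have hb0 : 0 < max B 1 := lt_of_lt_of_le one_pos (le_max_right _ _)
      obtain ⟨κ', hκ', hK⟩ := h V t G hF φ hφ (d : ℤ) (ε / 2) (half_pos hε)
      have hη : 0 < ε / 4 / max B 1 := by positivity
      obtain ⟨κ, hκ, hI⟩ := ih (ε / 4 / max B 1 * κ' * ε) hd (by positivity)
      refine ⟨κ, hκ, ?_⟩
      filter_upwards [hK, hI, hB ((d : ℤ) + 1)] with i h1 h2 h3
      have h4 := step hφ (hc i 1) (hc i (d : ℤ)) (hc i ((d : ℤ) + 1)) (fun z => by positivity)
        (fun z => by positivity) (κ := κ) hκ' hη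
      have h5 : ∫ z, φ z * (‖G i ((d : ℤ) + 1) z‖ ^ 2) ^ 2 ≤ max B 1 := by
        have h6 : ∫ z, φ z * (‖G i ((d : ℤ) + 1) z‖ ^ 2) ^ 2 =
            ∫ z, φ z * ‖G i ((d : ℤ) + 1) z‖ ^ 4 :=
          integral_congr_ae (Eventually.of_forall fun z => by
            show φ z * (‖G i ((d : ℤ) + 1) z‖ ^ 2) ^ 2 = φ z * ‖G i ((d : ℤ) + 1) z‖ ^ 4
            rw [← pow_mul])
        rw [h6]
        exact h3.trans (le_max_left _ _)
      have h7 : ε / 4 / max B 1 * (∫ z, φ z * (‖G i ((d : ℤ) + 1) z‖ ^ 2) ^ 2) ≤ ε / 4 := by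
        refine (mul_le_mul_of_nonneg_left h5 hη.le).trans (le_of_eq ?_)
        field_simp
      have h8 : (4 * (ε / 4 / max B 1 * κ'))⁻¹ * (∫ z, φ z * {x : ℂ | ‖G i 1 x‖ ^ 2 < κ}.indicator
          (fun x => ‖G i (d : ℤ) x‖ ^ 2) z) ≤ ε / 4 := by
        refine (mul_le_mul_of_nonneg_left h2 (by positivity)).trans (le_of_eq ?_)
        field_simp
      push_cast
      linarith

end

end Pool.Agent.A54.Vd
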