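import Pool.Agent.Lib.MP_a54f13_nt.Vd.SpecU
import Pool.Agent.Lib.MP_a54f13_nt.Sq.CosW

/-!
# Package `Vd`, module `Deg`: the gradient is rarely small

On `U = {|G_1|² < κ}` we have `1 ≤ |S - 1| + S ≤ η + (S - 1)²/η + S`, and `∫ φ 1_U S` is small, since
the coefficient of `|G_0|²` in `S` is small and all `|G_d|²`, `d ≥ 1`, are small on `U`.
-/

set_option autoImplicit false

namespace Pool.Agent.A54.Vd

open MeasureTheory Filter Topology Set
open scoped ContDiff ComplexConjugate UpperHalfPlane MatrixGroups ENNReal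
open Pool.Agent.A54.Half (H0 qq ff hh)
open Pool.Agent.A54.Sq (TestP la Tow pp Wi Pj Up KK SS CosH)
open Pool.Agent.A54.Pl (Ed mean)

noncomputable section

namespace DegM

lemma integ {V : Set ℂ} {φ : ℂ → ℝ} (hφ : TestP V φ) {g : ℂ → ℝ} (hg : Continuous g) :
    Integrable (fun z => φ z * g z) := by
  have h1 : Continuous (fun z => φ z * g z) := hφ.test.smooth.continuous.mul hg
  exact h1.integrable_of_hasCompactSupport hφ.test.cpt.mul_right

lemma mul_ind (φ g : ℂ → ℝ) (S : Set ℂ) :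
    (fun z => φ z * S.indicator g z) = S.indicator (fun z => φ z * g z) := by
  funext z
  by_cases hz : z ∈ S
  · rw [indicator_of_mem hz, indicator_of_mem hz]
  · rw [indicator_of_notMem hz, indicator_of_notMem hz, mul_zero]

lemma integI {V : Set ℂ} {φ : ℂ → ℝ} (hφ : TestP V φ) {g : ℂ → ℝ} (hg : Continuous g)
    {S : Set ℂ} (hS : MeasurableSet S) : Integrable (fun z => φ z * S.indicator g z) := by
  rw [mul_ind]
  exact (integ hφ hg).indicator hS

lemma mono {V : Set ℂ} {φ : ℂ → ℝ} (hφ : TestP V φ) {g : ℂ → ℝ} (hg : Continuous g)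
    (h0 : ∀ z, 0 ≤ g z) {S T : Set ℂ} (hS : MeasurableSet S) (hT : MeasurableSet T) (hST : S ⊆ T) :
    ∫ z, φ z * S.indicator g z ≤ ∫ z, φ z * T.indicator g z :=
  integral_mono (integI hφ hg hS) (integI hφ hg hT) fun z =>
    mul_le_mul_of_nonneg_left (indicator_le_indicator_of_subset hST h0 z) (hφ.nonneg z)

lemma sub_lev {g : ℂ → ℝ} {a b : ℝ} (h : a ≤ b) : {x : ℂ | g x < a} ⊆ {x : ℂ | g x < b} :=
  fun x (hx : g x < a) => show g x < b from lt_of_lt_of_le hx h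

/-- one `κ` for all `1 ≤ d ≤ D` -/
lemma kap (hC : StmtChn) {V : Set ℂ} {t : ℕ → ℝ} {G : ℕ → ℤ → ℂ → ℂ} (hF : Fam V t G)
    {φ : ℂ → ℝ} (hφ : TestP V φ) {ε : ℝ} (hε : 0 < ε) (D : ℕ) :
    ∃ κ : ℝ, 0 < κ ∧ ∀ᶠ i in atTop, ∀ d : ℕ, 1 ≤ d → d ≤ D →
      ∫ z, φ z * {x : ℂ | ‖G i 1 x‖ ^ 2 < κ}.indicator (fun x => ‖G i (d : ℤ) x‖ ^ 2) z ≤ ε := by
  induction D with
  | zero => exact ⟨1, one_pos, Eventually.of_forall fun i d h1 h2 => by omega⟩
  | succ D ih =>
    obtain ⟨κ₁, hκ₁, h1⟩ := ih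
    obtain ⟨κ₂, hκ₂, h2⟩ := hC V t G hF φ hφ (D + 1) ε (by omega) hε
    refine ⟨min κ₁ κ₂, lt_min hκ₁ hκ₂, ?_⟩
    filter_upwards [h1, h2] with i hi1 hi2 d hd1 hd2
    have hc : ∀ m : ℤ, Continuous (fun z => ‖G i m z‖ ^ 2) := fun m =>
      (((hF.tow i).smooth m).continuous).norm.pow 2
    have hS : ∀ κ : ℝ, MeasurableSet {x : ℂ | ‖G i 1 x‖ ^ 2 < κ} := fun κ =>
      (isOpen_lt (hc 1) continuous_const).measurableSet
    rcases Nat.lt_or_ge D d with h | h
    · have hd : d = D + 1 := by omega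
      subst hd
      exact (mono hφ (hc _) (fun z => by positivity) (hS _) (hS κ₂)
        (sub_lev (min_le_right _ _))).trans hi2
    · exact (mono hφ (hc _) (fun z => by positivity) (hS _) (hS κ₁)
        (sub_lev (min_le_left _ _))).trans (hi1 d hd1 h)

/-- the pointwise inequality -/
lemma pw {η s : ℝ} (hη : 0 < η) : 1 ≤ η + η⁻¹ * (s - 1) ^ 2 + s := by
  have h2 : η * (η⁻¹ * (s - 1) ^ 2) = (s - 1) ^ 2 := by
    rw [← mul_assoc, mul_inv_cancel₀ hη.ne', one_mul]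
  have h3 : 0 ≤ η * (η + η⁻¹ * (s - 1) ^ 2 + s - 1) := by
    have : η * (η + η⁻¹ * (s - 1) ^ 2 + s - 1) = η ^ 2 + η * (s - 1) + (s - 1) ^ 2 := by
      rw [show η * (η + η⁻¹ * (s - 1) ^ 2 + s - 1) = η ^ 2 + η * (η⁻¹ * (s - 1) ^ 2) + η * (s - 1) by
        ring, h2]
      ring
    rw [this]
    nlinarith [sq_nonneg (η + (s - 1)), sq_nonneg η, sq_nonneg (s - 1)]
  have h4 := nonneg_of_mul_nonneg_right h3 hη
  linarith

end DegM

open DegM in
/-- **Deg** -/
theorem stmtDeg (hC : StmtChn) (hS : StmtSq1) (hK : StmtK2s) : StmtDeg := by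
  intro V t G hF φ hφ ε hε
  obtain ⟨F, hFe⟩ : ∃ F, F = ∫ z, φ z := ⟨_, rfl⟩
  have hF0 : 0 ≤ F := hFe ▸ integral_nonneg hφ.nonneg
  -- the constants
  obtain ⟨η, hη0, hηF⟩ : ∃ η : ℝ, 0 < η ∧ η * F ≤ ε / 4 := by
    refine ⟨ε / 4 / (F + 1), by positivity, ?_⟩
    rw [div_mul_eq_mul_div, div_le_iff₀ (by linarith)]
    nlinarith
  obtain ⟨N0, hN0⟩ := hS V t G hF φ hφ (η * (ε / 4)) (by positivity)
  obtain ⟨M, hM⟩ := exists_nat_ge ((F + 1) / (ε / 4))
  obtain ⟨N, hNe⟩ : ∃ N, N = max N0 M := ⟨_, rfl⟩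
  have hNN : N0 ≤ N := hNe ▸ le_max_left _ _
  have hNM : (M : ℝ) ≤ N := by exact_mod_cast hNe ▸ le_max_right _ _
  obtain ⟨hKer, -, hKb, -⟩ := hK N
  have hKF : KK N 0 * (F + 1) ≤ ε / 4 := by
    have h1 : (F + 1) / (ε / 4) ≤ 2 * (N : ℝ) + 1 := by
      have : (0 : ℝ) ≤ N := Nat.cast_nonneg N
      linarith
    rw [div_le_iff₀ (by linarith)] at h1
    have h2 : (0 : ℝ) < 2 * (N : ℝ) + 1 := by positivity
    calc KK N 0 * (F + 1) ≤ (2 * (N : ℝ) + 1)⁻¹ * (F + 1) :=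
          mul_le_mul_of_nonneg_right (hKb 0) (by linarith)
      _ ≤ (2 * (N : ℝ) + 1)⁻¹ * ((2 * (N : ℝ) + 1) * (ε / 4)) :=
          mul_le_mul_of_nonneg_left h1 (by positivity)
      _ = ε / 4 := by rw [← mul_assoc, inv_mul_cancel₀ h2.ne', one_mul]
  obtain ⟨κ, hκ, hk⟩ := kap hC hF hφ (by positivity : 0 < ε / 4) (2 * N)
  refine ⟨κ, hκ, ?_⟩
  have hm := (hF.mass φ hφ 0).eventually (ge_mem_nhds (lt_add_one _))
  filter_upwards [hk, hN0 N hNN, hm] with i hi1 hi2 hi3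
  rw [← hFe] at hi3
  have hc : ∀ m : ℤ, Continuous (fun z => ‖G i m z‖ ^ 2) := fun m =>
    (((hF.tow i).smooth m).continuous).norm.pow 2
  obtain ⟨U, hU⟩ : ∃ U, U = {x : ℂ | ‖G i 1 x‖ ^ 2 < κ} := ⟨_, rfl⟩
  have hUm : MeasurableSet U := hU ▸ (isOpen_lt (hc 1) continuous_const).measurableSet
  rw [← hU] at hi1 ⊢
  have hcS : Continuous (fun z => Sa (KK N) (2 * N) (G i) z) := by
    unfold Sa
    exact continuous_finsetSum _ fun d _ => continuous_const.mul (hc d)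
  have hcS1 : Continuous (fun z => (Sa (KK N) (2 * N) (G i) z - 1) ^ 2) :=
    (hcS.sub continuous_const).pow 2
  -- each `d`
  have hd : ∀ d ∈ Finset.Icc (-((2 * N : ℕ) : ℤ)) ((2 * N : ℕ) : ℤ),
      KK N d * (∫ z, φ z * U.indicator (fun x => ‖G i d x‖ ^ 2) z) ≤
        KK N d * (ε / 4) + (if d = 0 then ε / 4 else 0) := by
    intro d hd
    have hK0 := hKer.nonneg d
    rcases eq_or_ne d 0 with h0 | h0
    · subst h0
      rw [if_pos rfl]
      have h1 : (∫ z, φ z * U.indicator (fun x => ‖G i 0 x‖ ^ 2) z) ≤ F + 1 := by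
        refine le_trans ?_ hi3
        refine integral_mono (integI hφ (hc 0) hUm) (integ hφ (hc 0)) fun z => ?_
        exact mul_le_mul_of_nonneg_left (indicator_le_self' (fun _ _ => by positivity) z) (hφ.nonneg z)
      have h2 := mul_le_mul_of_nonneg_left h1 hK0
      have h3 : 0 ≤ KK N 0 * (ε / 4) := by positivity
      linarith
    · rw [if_neg h0, add_zero]
      refine mul_le_mul_of_nonneg_left ?_ hK0
      have h1 : ∀ x : ℂ, ‖G i d x‖ ^ 2 = ‖G i ((d.natAbs : ℕ) : ℤ) x‖ ^ 2 := by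
        intro x
        rcases Int.natAbs_eq d with h | h
        · rw [← h]
        · conv_lhs => rw [h]
          rw [Sq.CosWM.norm_neg_index (hF.tow i)]
      simp only [h1]
      rw [Finset.mem_Icc] at hd
      exact hi1 d.natAbs (by omega) (by omega)
  -- the sum
  have hsum : (∫ z, φ z * U.indicator (fun x => Sa (KK N) (2 * N) (G i) x) z) ≤ ε / 4 + ε / 4 := by
    have e1 : (∫ z, φ z * U.indicator (fun x => Sa (KK N) (2 * N) (G i) x) z) =
        ∑ d ∈ Finset.Icc (-((2 * N : ℕ) : ℤ)) ((2 * N : ℕ) : ℤ),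
          KK N d * (∫ z, φ z * U.indicator (fun x => ‖G i d x‖ ^ 2) z) := by
      simp only [← integral_const_mul]
      rw [← integral_finsetSum _ (fun d _ => (integI hφ (hc d) hUm).const_mul _)]
      refine integral_congr_ae (Eventually.of_forall fun z => ?_)
      show φ z * U.indicator (fun x => Sa (KK N) (2 * N) (G i) x) z =
        ∑ d ∈ Finset.Icc (-((2 * N : ℕ) : ℤ)) ((2 * N : ℕ) : ℤ),
          KK N d * (φ z * U.indicator (fun x => ‖G i d x‖ ^ 2) z)
      by_cases hz : z ∈ U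
      · simp only [indicator_of_mem hz]
        unfold Sa
        rw [Finset.mul_sum]
        exact Finset.sum_congr rfl fun d _ => by ring
      · simp only [indicator_of_notMem hz, mul_zero, Finset.sum_const_zero]
    rw [e1]
    refine (Finset.sum_le_sum hd).trans ?_
    rw [Finset.sum_add_distrib, ← Finset.sum_mul, hKer.sum, one_mul, Finset.sum_ite_eq']
    refine add_le_add le_rfl ?_
    split_ifs
    · exact le_rfl
    · positivity
  -- the conclusion
  have i1 : Integrable (fun z => φ z * η) := integ hφ continuous_const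
  have i2 : Integrable (fun z => η⁻¹ * (φ z * (Sa (KK N) (2 * N) (G i) z - 1) ^ 2)) :=
    (integ hφ hcS1).const_mul _
  have i3 : Integrable (fun z => φ z * U.indicator (fun x => Sa (KK N) (2 * N) (G i) x) z) :=
    integI hφ hcS hUm
  have hfin : (∫ z, φ z * U.indicator (fun _ => (1 : ℝ)) z) ≤
      ∫ z, (φ z * η + η⁻¹ * (φ z * (Sa (KK N) (2 * N) (G i) z - 1) ^ 2) +
        φ z * U.indicator (fun x => Sa (KK N) (2 * N) (G i) x) z) := by
    refine integral_mono (integI hφ continuous_const hUm) ((i1.add i2).add i3) fun z => ?_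
    show φ z * U.indicator (fun _ => (1 : ℝ)) z ≤
      φ z * η + η⁻¹ * (φ z * (Sa (KK N) (2 * N) (G i) z - 1) ^ 2) +
        φ z * U.indicator (fun x => Sa (KK N) (2 * N) (G i) x) z
    have h0 := hφ.nonneg z
    by_cases hz : z ∈ U
    · rw [indicator_of_mem hz, indicator_of_mem hz]
      have h1 := mul_le_mul_of_nonneg_left (pw (s := Sa (KK N) (2 * N) (G i) z) hη0) h0
      linarith
    · rw [indicator_of_notMem hz, indicator_of_notMem hz, mul_zero, add_zero]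
      positivity
  refine hfin.trans ?_
  have i12 : Integrable (fun z => φ z * η + η⁻¹ * (φ z * (Sa (KK N) (2 * N) (G i) z - 1) ^ 2)) :=
    i1.add i2
  rw [integral_add i12 i3, integral_add i1 i2, integral_mul_const, integral_const_mul, ← hFe]
  have h4 : η⁻¹ * (∫ z, φ z * (Sa (KK N) (2 * N) (G i) z - 1) ^ 2) ≤ ε / 4 := by
    calc η⁻¹ * (∫ z, φ z * (Sa (KK N) (2 * N) (G i) z - 1) ^ 2) ≤ η⁻¹ * (η * (ε / 4)) :=
          mul_le_mul_of_nonneg_left hi2 (by positivity)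
      _ = ε / 4 := by rw [← mul_assoc, inv_mul_cancel₀ hη0.ne', one_mul]
  have h5 : F * η ≤ ε / 4 := by rw [mul_comm]; exact hηF
  linarith

end

end Pool.Agent.A54.Vd
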