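import Pool.Agent.Lib.MP_a54f13_nt.Vd.SpecU
import Pool.Agent.Lib.MP_a54f13_nt.Vd.AdI

/-!
Module Dlt: the values of `G_0` in a small set, weighted with the gradient.
-/

set_option autoImplicit false

namespace Pool.Agent.A54.Vd.DltM

open MeasureTheory Filter Topology Set
open scoped ContDiff ComplexConjugate UpperHalfPlane MatrixGroups ENNReal
open Pool.Agent.A54.Half (H0 qq ff hh)
open Pool.Agent.A54.Sq (TestP la Tow pp Wi Pj Up KK SS CosH)
open Pool.Agent.A54.Pl (Ed mean)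
open Pool.Agent.A54.Sq.RelM (er uu)

noncomputable section

variable {V : Set ℂ} {t : ℝ} {G : ℤ → ℂ → ℂ}

/-! ### The primitive of a smooth function -/

/-- the primitive of `g` which vanishes at zero -/
def prim (g : ℝ → ℝ) (s : ℝ) : ℝ := ∫ x in (0 : ℝ)..s, g x

lemma hasDeriv_prim {g : ℝ → ℝ} (hg : Continuous g) (s : ℝ) : HasDerivAt (prim g) (g s) s :=
  (hg.integral_hasStrictDerivAt 0 s).hasDerivAt

lemma deriv_prim {g : ℝ → ℝ} (hg : Continuous g) : deriv (prim g) = g := by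
  funext s
  exact (hasDeriv_prim hg s).deriv

lemma contDiff_prim {g : ℝ → ℝ} (hg : ContDiff ℝ ∞ g) : ContDiff ℝ ∞ (prim g) := by
  rw [contDiff_infty_iff_deriv]
  refine ⟨fun s => (hasDeriv_prim hg.continuous s).differentiableAt, ?_⟩
  rw [deriv_prim hg.continuous]
  exact hg

lemma abs_prim_le {g : ℝ → ℝ} (h0 : ∀ x, 0 ≤ g x) (hi : Integrable g) (s : ℝ) :
    |prim g s| ≤ ∫ x, g x := by
  have h1 : ‖∫ x in (0 : ℝ)..s, g x‖ ≤ ∫ x in uIoc (0 : ℝ) s, ‖g x‖ :=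
    intervalIntegral.norm_integral_le_integral_norm_uIoc
  rw [Real.norm_eq_abs] at h1
  change |∫ x in (0 : ℝ)..s, g x| ≤ _
  have h2 : ∫ x in uIoc (0 : ℝ) s, ‖g x‖ ≤ ∫ x, ‖g x‖ :=
    setIntegral_le_integral hi.norm (Eventually.of_forall fun x => norm_nonneg _)
  refine (h1.trans h2).trans (le_of_eq ?_)
  refine integral_congr_ae (Eventually.of_forall fun x => ?_)
  dsimp only
  rw [Real.norm_eq_abs, abs_of_nonneg (h0 x)]

/-- a smooth function between the indicators of a compact set and of an open set -/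
lemma cutoff {K E : Set ℝ} (hK : IsCompact K) (hE : IsOpen E) (h : K ⊆ E) :
    ∃ g : ℝ → ℝ, ContDiff ℝ ∞ g ∧ HasCompactSupport g ∧ (∀ x, 0 ≤ g x ∧ g x ≤ 1) ∧
      (∀ x ∈ K, g x = 1) ∧ ∀ x, x ∉ E → g x = 0 := by
  obtain ⟨L, hL, hKL, hLE⟩ := exists_compact_between hK hE h
  obtain ⟨f, h1, h2, h3⟩ := exists_contMDiffMap_one_nhds_of_subset_interior
    (n := ⊤) (modelWithCornersSelf ℝ ℝ) hK.isClosed hKL
  have hsub : tsupport (f : ℝ → ℝ) ⊆ L := by
    apply closure_minimal _ hL.isClosed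
    intro z hz
    by_contra hzL
    exact hz (h2 z hzL)
  refine ⟨f, f.contMDiff.contDiff, hL.of_isClosed_subset (isClosed_tsupport _) hsub,
    fun x => ⟨(h3 x).1, (h3 x).2⟩, fun x hx => subset_of_mem_nhdsSet h1 hx, fun x hx => ?_⟩
  exact h2 x fun hxL => hx (hLE hxL)

/-! ### Integration by parts -/

lemma real_zero (hG : Tow V t G) (z : ℂ) : (((G 0 z).re : ℝ) : ℂ) = G 0 z := by
  have h := hG.neg 0 z
  rw [neg_zero, zpow_zero, one_mul] at h
  exact Complex.conj_eq_iff_re.1 h.symm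

lemma contDiff_re (hG : Tow V t G) : ContDiff ℝ ∞ (fun z => (G 0 z).re) :=
  Complex.reCLM.contDiff.comp (hG.smooth 0)

lemma dz_prim (hG : Tow V t G) {g : ℝ → ℝ} (hg : ContDiff ℝ ∞ g) (z : ℂ) :
    dz (fun w => ((prim g (G 0 w).re : ℝ) : ℂ)) z = ((g (G 0 z).re : ℝ) : ℂ) * dz (G 0) z := by
  have h := AdIM.dz_comp (contDiff_prim hg) (contDiff_re hG) z
  have e : (fun w => (((G 0 w).re : ℝ) : ℂ)) = G 0 := by
    funext w
    exact real_zero hG w
  rw [h, e, deriv_prim hg.continuous]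

lemma ident {φ : ℂ → ℝ} (hφ : TestR V φ) (hG : Tow V t G) {g : ℝ → ℝ} (hg : ContDiff ℝ ∞ g) :
    ((la t 0 : ℝ) : ℂ) * (∫ z, (φ z : ℂ) * (((g (G 0 z).re : ℝ) : ℂ) * uu G 1 z)) =
      ((la t 0 : ℝ) : ℂ) *
        (∫ z, (φ z : ℂ) * (conj (G 0 z) * ((prim g (G 0 z).re : ℝ) : ℂ))) -
        ∫ z, er φ z * (conj (G 1 z) * ((prim g (G 0 z).re : ℝ) : ℂ)) := by
  have cφ := contDiff_ofReal hφ.smooth
  have cA := hG.smooth 1
  have cB := hG.smooth 0
  have cP : ContDiff ℝ ∞ (fun z => ((prim g (G 0 z).re : ℝ) : ℂ)) :=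
    contDiff_ofReal ((contDiff_prim hg).comp (contDiff_re hG))
  have cg : ContDiff ℝ ∞ (fun z => ((g (G 0 z).re : ℝ) : ℂ)) :=
    contDiff_ofReal (hg.comp (contDiff_re hG))
  set a : ℂ → ℂ := fun z => (Complex.I * (z.im : ℂ)) * ((φ z : ℂ) * conj (G 1 z)) with ha
  have ca : ContDiff ℝ ∞ a :=
    (contDiff_const.mul Sq.RelM.contDiff_imC).mul (cφ.mul (contDiff_conj cA))
  have hca : HasCompactSupport a := (hφ.toTest.cpt.mul_right).mul_left
  have hibp := integral_mul_dz ca cP (Or.inl hca)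
  have i1 : Integrable (fun z => (φ z : ℂ) * (conj (G 0 z) * ((prim g (G 0 z).re : ℝ) : ℂ))) :=
    Sq.RelM.integC hφ ((contDiff_conj cB).mul cP).continuous
  have i3 : Integrable (fun z => er φ z * (conj (G 1 z) * ((prim g (G 0 z).re : ℝ) : ℂ))) := by
    refine ((Sq.RelM.er_continuous hφ).mul
      ((contDiff_conj cA).mul cP).continuous).integrable_of_hasCompactSupport ?_
    refine HasCompactSupport.mul_right ?_
    exact HasCompactSupport.intro hφ.cpt fun z hz => Sq.RelM.er_zero hz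
  have e1 : ∀ z, a z * dz (fun w => ((prim g (G 0 w).re : ℝ) : ℂ)) z =
      ((la t 0 : ℝ) : ℂ) * ((φ z : ℂ) * (((g (G 0 z).re : ℝ) : ℂ) * uu G 1 z)) := by
    intro z
    rw [dz_prim hG hg, ha]
    dsimp only
    by_cases hz : z ∈ V
    · have h := hG.up 0 z hz
      rw [Int.cast_zero, zero_mul, add_zero, zero_add] at h
      unfold uu
      linear_combination ((φ z : ℂ) * conj (G 1 z) * ((g (G 0 z).re : ℝ) : ℂ)) * h
    · have h : (φ z : ℂ) = 0 := by rw [hφ.eq_zero hz]; simp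
      rw [h]
      ring
  have e2 : ∀ z, dz a z * ((prim g (G 0 z).re : ℝ) : ℂ) =
      er φ z * (conj (G 1 z) * ((prim g (G 0 z).re : ℝ) : ℂ)) -
        ((la t 0 : ℝ) : ℂ) *
          ((φ z : ℂ) * (conj (G 0 z) * ((prim g (G 0 z).re : ℝ) : ℂ))) := by
    intro z
    have h1 : dz a z = (φ z : ℂ) * conj (G 1 z) +
        (Complex.I * (z.im : ℂ)) * (dz (fun w => (φ w : ℂ)) z * conj (G 1 z) +
          (φ z : ℂ) * conj (dzb (G 1) z)) := by
      rw [ha, dz_mul (contDiff_const.mul Sq.RelM.contDiff_imC) (cφ.mul (contDiff_conj cA)),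
        dz_mul cφ (contDiff_conj cA), dz_const_mul _ Sq.RelM.contDiff_imC, Sq.RelM.dz_im,
        dz_conj cA]
      have hI := Complex.I_mul_I
      linear_combination (-((φ z : ℂ) * conj (G 1 z))) * hI
    rw [h1]
    unfold er
    by_cases hz : z ∈ V
    · have h := congrArg (starRingEnd ℂ) (hG.down 0 z hz)
      simp only [map_sub, map_neg, map_mul, Complex.conj_I, Complex.conj_ofReal,
        zero_add, Int.cast_zero, one_mul] at h
      linear_combination ((φ z : ℂ) * ((prim g (G 0 z).re : ℝ) : ℂ)) * h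
    · have h : (φ z : ℂ) = 0 := by rw [hφ.eq_zero hz]; simp
      rw [h]
      ring
  simp_rw [e1, e2] at hibp
  rw [integral_sub i3 (i1.const_mul _), integral_const_mul, integral_const_mul] at hibp
  linear_combination hibp

lemma real_int {φ : ℂ → ℝ} (g : ℝ → ℝ) :
    (∫ z, (φ z : ℂ) * (((g (G 0 z).re : ℝ) : ℂ) * uu G 1 z)) =
      ((∫ z, φ z * (g (G 0 z).re * ‖G 1 z‖ ^ 2) : ℝ) : ℂ) := by
  rw [← integral_complex_ofReal]
  refine integral_congr_ae (Eventually.of_forall fun z => ?_)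
  dsimp only
  rw [Sq.RelM.uu_eq]
  push_cast
  ring

/-! ### The bound for smooth functions -/

lemma le_one_add_sq (x : ℝ) : x ≤ 1 + x ^ 2 := by
  nlinarith [sq_nonneg (x - 1), sq_nonneg x]

lemma key {φ ζ : ℂ → ℝ} (hφ : TestP V φ) (hζ : TestP V ζ) {K M₀ M₁ : ℝ} (hK : 0 ≤ K)
    (hE : ∀ z, ‖er φ z‖ ≤ K * ζ z) (hG : Tow V t G) (ht : 1 ≤ t)
    (h0 : ∫ z, φ z * (1 + ‖G 0 z‖ ^ 2) ≤ M₀) (h1 : ∫ z, ζ z * (1 + ‖G 1 z‖ ^ 2) ≤ M₁)
    {g : ℝ → ℝ} (hg : ContDiff ℝ ∞ g) (hg0 : ∀ x, 0 ≤ g x) (hi : Integrable g) {δ : ℝ}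
    (hδ : ∫ x, g x ≤ δ) :
    ∫ z, φ z * (g (G 0 z).re * ‖G 1 z‖ ^ 2) ≤ (M₀ + K * M₁) * δ := by
  have hla := Sq.RelM.la_ge (t := t) (by linarith) 0
  have hl : 0 < la t 0 := by linarith
  have hδ0 : 0 ≤ δ := (integral_nonneg hg0).trans hδ
  have hP : ∀ s, |prim g s| ≤ δ := fun s => (abs_prim_le hg0 hi s).trans hδ
  have hM1 : 0 ≤ M₁ := (integral_nonneg fun z =>
    mul_nonneg (hζ.nonneg z) (by positivity)).trans h1
  have c0 : Continuous (fun z => 1 + ‖G 0 z‖ ^ 2) :=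
    continuous_const.add ((hG.smooth 0).continuous.norm.pow 2)
  have c1 : Continuous (fun z => 1 + ‖G 1 z‖ ^ 2) :=
    continuous_const.add ((hG.smooth 1).continuous.norm.pow 2)
  have j0 := Sq.RelM.integ hφ.test c0
  have j1 := Sq.RelM.integ hζ.test c1
  have id := ident hφ.test hG hg
  rw [real_int] at id
  -- the two terms on the right
  have b1 : ‖∫ z, (φ z : ℂ) * (conj (G 0 z) * ((prim g (G 0 z).re : ℝ) : ℂ))‖ ≤ δ * M₀ := by
    refine (norm_integral_le_of_norm_le (j0.const_mul δ) (Eventually.of_forall fun z => ?_)).trans ?_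
    · rw [norm_mul, norm_mul, Complex.norm_real, Complex.norm_real, RCLike.norm_conj,
        Real.norm_eq_abs, Real.norm_eq_abs, abs_of_nonneg (hφ.nonneg z)]
      have k1 : ‖G 0 z‖ * |prim g (G 0 z).re| ≤ (1 + ‖G 0 z‖ ^ 2) * δ :=
        mul_le_mul (le_one_add_sq _) (hP _) (abs_nonneg _) (by positivity)
      calc φ z * (‖G 0 z‖ * |prim g (G 0 z).re|) ≤ φ z * ((1 + ‖G 0 z‖ ^ 2) * δ) :=
            mul_le_mul_of_nonneg_left k1 (hφ.nonneg z)
        _ = _ := by ring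
    · rw [integral_const_mul]
      exact mul_le_mul_of_nonneg_left h0 hδ0
  have b2 : ‖∫ z, er φ z * (conj (G 1 z) * ((prim g (G 0 z).re : ℝ) : ℂ))‖ ≤ K * δ * M₁ := by
    refine (norm_integral_le_of_norm_le (j1.const_mul (K * δ))
      (Eventually.of_forall fun z => ?_)).trans ?_
    · rw [norm_mul, norm_mul, Complex.norm_real, RCLike.norm_conj, Real.norm_eq_abs]
      have k1 : ‖G 1 z‖ * |prim g (G 0 z).re| ≤ (1 + ‖G 1 z‖ ^ 2) * δ :=
        mul_le_mul (le_one_add_sq _) (hP _) (abs_nonneg _) (by positivity)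
      calc ‖er φ z‖ * (‖G 1 z‖ * |prim g (G 0 z).re|) ≤ K * ζ z * ((1 + ‖G 1 z‖ ^ 2) * δ) :=
            mul_le_mul (hE z) k1 (by positivity) (mul_nonneg hK (hζ.nonneg z))
        _ = _ := by ring
    · rw [integral_const_mul]
      exact mul_le_mul_of_nonneg_left h1 (mul_nonneg hK hδ0)
  have n0 := congrArg norm id
  rw [norm_mul, Complex.norm_real, Complex.norm_real, Real.norm_eq_abs, Real.norm_eq_abs,
    abs_of_pos hl] at n0
  have n1 := norm_sub_le (((la t 0 : ℝ) : ℂ) *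
        (∫ z, (φ z : ℂ) * (conj (G 0 z) * ((prim g (G 0 z).re : ℝ) : ℂ))))
        (∫ z, er φ z * (conj (G 1 z) * ((prim g (G 0 z).re : ℝ) : ℂ)))
  rw [← n0, norm_mul, Complex.norm_real, Real.norm_eq_abs, abs_of_pos hl] at n1
  have n2 := mul_le_mul_of_nonneg_left (le_abs_self
    (∫ z, φ z * (g (G 0 z).re * ‖G 1 z‖ ^ 2))) hl.le
  have n3 := mul_le_mul_of_nonneg_left b1 hl.le
  have n4 : K * δ * M₁ ≤ la t 0 * (K * δ * M₁) := by
    have : 0 ≤ K * δ * M₁ := mul_nonneg (mul_nonneg hK hδ0) hM1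
    nlinarith
  have n5 : la t 0 * (∫ z, φ z * (g (G 0 z).re * ‖G 1 z‖ ^ 2)) ≤
      la t 0 * ((M₀ + K * M₁) * δ) := by
    linarith
  exact le_of_mul_le_mul_left n5 hl

/-! ### Open sets -/

lemma final {φ : ℂ → ℝ} (hφ : TestP V φ) (hG : Tow V t G) {C δ : ℝ}
    (h : ∀ g : ℝ → ℝ, ContDiff ℝ ∞ g → (∀ x, 0 ≤ g x) → Integrable g → ∫ x, g x ≤ δ →
      ∫ z, φ z * (g (G 0 z).re * ‖G 1 z‖ ^ 2) ≤ C * δ)
    (hC : 0 ≤ C) (hδ : 0 ≤ δ) {E : Set ℝ} (hE : IsOpen E) (hv : volume E ≤ ENNReal.ofReal δ) :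
    ∫ z, φ z * {x : ℂ | (G 0 x).re ∈ E}.indicator (fun x => ‖G 1 x‖ ^ 2) z ≤ C * δ := by
  have cu : Continuous (fun z => (G 0 z).re) := (contDiff_re hG).continuous
  have cG : Continuous (fun z => ‖G 1 z‖ ^ 2) := (hG.smooth 1).continuous.norm.pow 2
  have mu : Measurable (fun z => (G 0 z).re) := cu.measurable
  have iw := Sq.RelM.integ hφ.test cG
  set ν : Measure ℝ := (volume.withDensity
    (fun z => ENNReal.ofReal (φ z * ‖G 1 z‖ ^ 2))).map (fun z => (G 0 z).re) with hν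
  have _inst : IsFiniteMeasure (volume.withDensity
      (fun z => ENNReal.ofReal (φ z * ‖G 1 z‖ ^ 2))) :=
    isFiniteMeasure_withDensity_ofReal iw.2
  have hA : ∀ A : Set ℝ, MeasurableSet A →
      ν A = ∫⁻ z in (fun z => (G 0 z).re) ⁻¹' A, ENNReal.ofReal (φ z * ‖G 1 z‖ ^ 2) := by
    intro A hA
    rw [hν, Measure.map_apply mu hA, withDensity_apply _ (mu hA)]
  have hfin : volume E ≠ ⊤ := ne_top_of_le_ne_top ENNReal.ofReal_ne_top hv
  have hcomp : ∀ K : Set ℝ, K ⊆ E → IsCompact K → ν K ≤ ENNReal.ofReal (C * δ) := by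
    intro K hKE hK
    obtain ⟨g, g1, g2, g3, g4, g5⟩ := cutoff hK hE hKE
    have gi : Integrable g := g1.continuous.integrable_of_hasCompactSupport g2
    have gE : ∫ x, g x ≤ δ := by
      have h1 : ∫ x, g x ≤ ∫ x, E.indicator (1 : ℝ → ℝ) x := by
        apply integral_mono gi
        · exact (integrable_indicator_iff hE.measurableSet).2 (integrableOn_const hfin)
        · intro x
          by_cases hx : x ∈ E
          · rw [indicator_of_mem hx]
            exact (g3 x).2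
          · rw [indicator_of_notMem hx, g5 x hx]
      rw [integral_indicator_one hE.measurableSet] at h1
      exact h1.trans (ENNReal.toReal_le_of_le_ofReal hδ hv)
    have h2 := h g g1 (fun x => (g3 x).1) gi gE
    rw [hA K hK.measurableSet, ← lintegral_indicator (mu hK.measurableSet)]
    have ig : Integrable (fun z => φ z * (g (G 0 z).re * ‖G 1 z‖ ^ 2)) :=
      Sq.RelM.integ hφ.test ((g1.continuous.comp cu).mul cG)
    have h3 : ∫⁻ z, ((fun z => (G 0 z).re) ⁻¹' K).indicator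
        (fun z => ENNReal.ofReal (φ z * ‖G 1 z‖ ^ 2)) z ≤
        ∫⁻ z, ENNReal.ofReal (φ z * (g (G 0 z).re * ‖G 1 z‖ ^ 2)) := by
      apply lintegral_mono
      intro z
      by_cases hz : z ∈ (fun z => (G 0 z).re) ⁻¹' K
      · rw [indicator_of_mem hz]
        have h5 : g (G 0 z).re = 1 := g4 _ hz
        dsimp only
        rw [h5, one_mul]
      · rw [indicator_of_notMem hz]
        exact zero_le
    refine h3.trans ?_
    rw [← ofReal_integral_eq_lintegral_ofReal ig (Eventually.of_forall fun z => ?_)]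
    · exact ENNReal.ofReal_le_ofReal h2
    · exact mul_nonneg (hφ.nonneg z) (mul_nonneg (g3 _).1 (by positivity))
  have hνE : ν E ≤ ENNReal.ofReal (C * δ) := by
    rw [hE.measure_eq_iSup_isCompact ν]
    exact iSup_le fun K => iSup_le fun hKE => iSup_le fun hK => hcomp K hKE hK
  have hS : MeasurableSet ((fun z => (G 0 z).re) ⁻¹' E) := mu hE.measurableSet
  have e1 : ∀ z, φ z * {x : ℂ | (G 0 x).re ∈ E}.indicator (fun x => ‖G 1 x‖ ^ 2) z =
      ((fun z => (G 0 z).re) ⁻¹' E).indicator (fun z => φ z * ‖G 1 z‖ ^ 2) z := by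
    intro z
    by_cases hz : z ∈ (fun z => (G 0 z).re) ⁻¹' E
    · rw [indicator_of_mem hz, indicator_of_mem (show z ∈ {x : ℂ | (G 0 x).re ∈ E} from hz)]
    · rw [indicator_of_notMem hz, indicator_of_notMem
        (show z ∉ {x : ℂ | (G 0 x).re ∈ E} from hz), mul_zero]
  simp_rw [e1]
  rw [integral_indicator hS]
  have h4 := ofReal_integral_eq_lintegral_ofReal (iw.integrableOn (s := (fun z => (G 0 z).re) ⁻¹' E))
    (Eventually.of_forall fun z => mul_nonneg (hφ.nonneg z) (by positivity))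
  rw [← hA E hE.measurableSet] at h4
  rw [← h4] at hνE
  exact (ENNReal.ofReal_le_ofReal_iff (mul_nonneg hC hδ)).1 hνE

end

end Pool.Agent.A54.Vd.DltM

namespace Pool.Agent.A54.Vd

open MeasureTheory Filter Topology Set
open scoped ContDiff ComplexConjugate UpperHalfPlane MatrixGroups ENNReal
open Pool.Agent.A54.Half (H0 qq ff hh)
open Pool.Agent.A54.Sq (TestP la Tow pp Wi Pj Up KK SS CosH)
open Pool.Agent.A54.Pl (Ed mean)

theorem stmtDlt : StmtDlt := by
  intro V t G hF φ hφ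
  obtain ⟨ζ, hζ, h01, hone⟩ := exists_cutoff hφ.test.cpt hF.isOpen hφ.test.sub
  have hone' : ∀ z ∈ tsupport φ, ζ z = 1 := fun z hz => subset_of_mem_nhdsSet hone hz
  have hζP : TestP V ζ := ⟨hζ, fun z => (h01 z).1⟩
  obtain ⟨K, hK⟩ := hφ.test.cpt.isCompact.exists_bound_of_continuousOn
    (Sq.RelM.er_continuous hφ.test).continuousOn
  have hE : ∀ z, ‖Sq.RelM.er φ z‖ ≤ |K| * ζ z := by
    intro z
    by_cases hz : z ∈ tsupport φ
    · rw [hone' z hz, mul_one]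
      exact (hK z hz).trans (le_abs_self _)
    · rw [Sq.RelM.er_zero hz, norm_zero]
      exact mul_nonneg (abs_nonneg _) (h01 z).1
  have hφ0 : 0 ≤ ∫ z, φ z := integral_nonneg hφ.nonneg
  have hζ0 : 0 ≤ ∫ z, ζ z := integral_nonneg hζP.nonneg
  refine ⟨(2 * (∫ z, φ z) + 1) + |K| * (2 * (∫ z, ζ z) + 1), by positivity, ?_⟩
  have m1 := (hF.mass φ hφ 0).eventually_le_const (lt_add_one (∫ z, φ z))
  have m2 := (hF.mass ζ hζP 1).eventually_le_const (lt_add_one (∫ z, ζ z))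
  have m3 := hF.lim.eventually_ge_atTop (1 : ℝ)
  filter_upwards [m1, m2, m3] with i h1 h2 h3 E δ hEo hδ hv
  have hsplit : ∀ (θ : ℂ → ℝ) (k : ℤ), TestP V θ →
      ∫ z, θ z * (1 + ‖G i k z‖ ^ 2) = (∫ z, θ z) + ∫ z, θ z * ‖G i k z‖ ^ 2 := by
    intro θ k hθ
    have hI : Integrable (fun z => θ z * ‖G i k z‖ ^ 2) :=
      Sq.RelM.integ hθ.test (((hF.tow i).smooth k).continuous.norm.pow 2)
    rw [← integral_add hθ.test.integrable hI]
    refine integral_congr_ae (Eventually.of_forall fun z => ?_)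
    dsimp only
    ring
  have k0 : ∫ z, φ z * (1 + ‖G i 0 z‖ ^ 2) ≤ 2 * (∫ z, φ z) + 1 := by
    rw [hsplit φ 0 hφ]
    linarith
  have k1 : ∫ z, ζ z * (1 + ‖G i 1 z‖ ^ 2) ≤ 2 * (∫ z, ζ z) + 1 := by
    rw [hsplit ζ 1 hζP]
    linarith
  exact DltM.final hφ (hF.tow i)
    (fun g hg hg0 hgi hgδ => DltM.key hφ hζP (abs_nonneg K) hE (hF.tow i) h3 k0 k1 hg hg0 hgi hgδ)
    (by positivity) hδ hEo hv

end Pool.Agent.A54.Vd
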