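import Pool.Agent.Lib.MP_a54f13_nt.Vd.SpecU
import Pool.Agent.Lib.MP_a54f13_nt.Half
import Pool.Agent.Lib.MP_a54f13_nt.Pl.FB

/-!
# Package `Vd`, module `FinU`: the two outputs, uniform integrability and absolute continuity
-/

set_option autoImplicit false

namespace Pool.Agent.A54.Vd

open MeasureTheory Filter Topology Set
open scoped ContDiff ComplexConjugate UpperHalfPlane MatrixGroups ENNReal
open Pool.Agent.A54.Half (H0 qq ff hh)
open Pool.Agent.A54.Sq (TestP la Tow pp Wi Pj Up KK SS CosH)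
open Pool.Agent.A54.Pl (Ed mean)

theorem stmtFinU (hU : StmtUIL) (hA : StmtACL) (hM : StmtFmM) (hFo : StmtFmF) (hVa : StmtFmV)
    (hT : StmtTra) : StmtFinU := by
  intro f t hf ht hH ψ hψ hψ0
  obtain ⟨φ, C, hφ, hC, hT1⟩ := hT ψ hψ hψ0
  obtain ⟨χ, V, hχ, h01, hV, hVH, h1, hsub⟩ := Half.setup hφ.test
  obtain ⟨c, G, g1, g2, g3, g4⟩ := hM f t hf ht hH χ V hχ h01 hV hVH h1
  have hn : ∀ i z, ‖G i 0 z‖ ^ 2 = ff χ (f i) z ^ 2 := by
    intro i z
    rw [g2, Complex.norm_real, Real.norm_eq_abs, sq_abs]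
  have fam : Fam V t G := by
    refine ⟨hV, hVH, ht, g1, hFo f t hf ht hH χ V hχ h01 hV hVH h1 c G g1 g2 g3, g4, ?_⟩
    intro ζ hζ ε hε
    obtain ⟨R, ρ, hR, h2⟩ := hVa f t hf ht hH χ V hχ h01 hV hVH h1 ζ hζ ε hε
    refine ⟨R, ρ, hR, ?_⟩
    filter_upwards [h2] with i hi
    have e : (fun w => ‖G i 0 w‖ ^ 2) = fun w => ff χ (f i) w ^ 2 := funext (hn i)
    rw [e]
    exact hi
  have hφV : TestP V φ := ⟨⟨hφ.test.smooth, hφ.test.cpt, hsub⟩, hφ.nonneg⟩
  have hcf : ∀ i, Continuous (f i) := fun i => Pl.FBM.cont (hf i)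
  have hff : ∀ i, ∀ z ∈ V, ff χ (f i) z = ext (f i) z := by
    intro i z hz
    unfold Half.ff
    rw [h1 z hz, one_mul]
  have hC1 : 0 < C + 1 := by linarith
  -- one estimate for both parts
  have key : ∀ (i : ℕ) (Φ : ℝ → ℝ), Measurable Φ → (∀ x, 0 ≤ Φ x) → (∃ B : ℝ, ∀ x, Φ x ≤ B * (1 + x ^ 4)) →
      ∀ ε : ℝ, 0 < ε → ∫ z, φ z * Φ (ff χ (f i) z) ≤ ε / (C + 1) →
        ∫ z in ModularGroup.fdo, ψ z * Φ (f i z) ≤ ε := by
    intro i Φ m1 m2 m3 ε hε h2
    refine (hT1 (f i) (hcf i) Φ m1 m2 m3).trans ?_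
    have e1 : ∫ z : ℂ, φ z * Φ (ext (f i) z) = ∫ z, φ z * Φ (ff χ (f i) z) := by
      refine integral_congr_ae (Eventually.of_forall fun z => ?_)
      show φ z * Φ (ext (f i) z) = φ z * Φ (ff χ (f i) z)
      by_cases hz : z ∈ V
      · rw [hff i z hz]
      · rw [hφV.test.eq_zero hz, zero_mul, zero_mul]
    rw [e1]
    have h3 := mul_le_mul_of_nonneg_left h2 hC
    refine h3.trans ?_
    rw [mul_div_assoc', div_le_iff₀ hC1]
    nlinarith
  constructor
  · intro ε hε
    obtain ⟨H, hH1⟩ := hU V t G fam φ hφV (ε / (C + 1)) (by positivity)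
    refine ⟨H, ?_⟩
    filter_upwards [hH1] with i hi
    have hmeas : MeasurableSet {x : ℝ | H < x ^ 2} :=
      (isOpen_lt continuous_const (continuous_pow 2)).measurableSet
    have k1 := key i ({x : ℝ | H < x ^ 2}.indicator fun x => x ^ 4)
      ((continuous_pow 4).measurable.indicator hmeas)
      (fun x => Set.indicator_nonneg (fun y _ => by positivity) x)
      ⟨1, fun x => by
        by_cases hx : x ∈ {x : ℝ | H < x ^ 2}
        · rw [Set.indicator_of_mem hx]
          linarith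
        · rw [Set.indicator_of_notMem hx]
          positivity⟩ ε hε
    have e2 : ∀ z : ℂ, {x : ℝ | H < x ^ 2}.indicator (fun x => x ^ 4) (ff χ (f i) z) =
        {x : ℂ | H < ‖G i 0 x‖ ^ 2}.indicator (fun x => ‖G i 0 x‖ ^ 4) z := by
      intro z
      have e3 : ‖G i 0 z‖ ^ 4 = ff χ (f i) z ^ 4 := by
        have : ‖G i 0 z‖ ^ 4 = (‖G i 0 z‖ ^ 2) ^ 2 := by ring
        rw [this, hn]
        ring
      by_cases hx : H < ff χ (f i) z ^ 2
      · have hx1 : ff χ (f i) z ∈ {x : ℝ | H < x ^ 2} := hx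
        have hx2 : z ∈ {x : ℂ | H < ‖G i 0 x‖ ^ 2} := by
          show H < ‖G i 0 z‖ ^ 2
          rw [hn]
          exact hx
        rw [Set.indicator_of_mem hx1, Set.indicator_of_mem hx2, e3]
      · have hx1 : ff χ (f i) z ∉ {x : ℝ | H < x ^ 2} := hx
        have hx2 : z ∉ {x : ℂ | H < ‖G i 0 x‖ ^ 2} := by
          intro h
          have h' : H < ‖G i 0 z‖ ^ 2 := h
          rw [hn] at h'
          exact hx h'
        rw [Set.indicator_of_notMem hx1, Set.indicator_of_notMem hx2]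
    simp only [e2] at k1
    have k2 := k1 hi
    refine le_trans (le_of_eq ?_) k2
    refine integral_congr_ae (Eventually.of_forall fun z => ?_)
    show ψ z * _ = ψ z * _
    congr 1
  · intro ε hε
    obtain ⟨δ, hδ, hE1⟩ := hA V t G fam φ hφV (ε / (C + 1)) (by positivity)
    refine ⟨δ, hδ, fun E hE hvol => ?_⟩
    filter_upwards [hE1 E hE hvol] with i hi
    have k1 := key i (E.indicator fun _ => (1 : ℝ))
      (measurable_const.indicator hE.measurableSet)
      (fun x => Set.indicator_nonneg (fun y _ => zero_le_one) x)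
      ⟨1, fun x => by
        by_cases hx : x ∈ E
        · rw [Set.indicator_of_mem hx]
          have : 0 ≤ x ^ 4 := by positivity
          linarith
        · rw [Set.indicator_of_notMem hx]
          positivity⟩ ε hε
    have e2 : ∀ z : ℂ, E.indicator (fun _ => (1 : ℝ)) (ff χ (f i) z) =
        {x : ℂ | (G i 0 x).re ∈ E}.indicator (fun _ => (1 : ℝ)) z := by
      intro z
      have e3 : (G i 0 z).re = ff χ (f i) z := by rw [g2, Complex.ofReal_re]
      by_cases hx : ff χ (f i) z ∈ E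
      · have hx2 : z ∈ {x : ℂ | (G i 0 x).re ∈ E} := by
          show (G i 0 z).re ∈ E
          rw [e3]
          exact hx
        rw [Set.indicator_of_mem hx, Set.indicator_of_mem hx2]
      · have hx2 : z ∉ {x : ℂ | (G i 0 x).re ∈ E} := by
          intro h
          have h' : (G i 0 z).re ∈ E := h
          rw [e3] at h'
          exact hx h'
        rw [Set.indicator_of_notMem hx, Set.indicator_of_notMem hx2]
    simp only [e2] at k1
    have k2 := k1 hi
    refine le_trans (le_of_eq ?_) k2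
    refine integral_congr_ae (Eventually.of_forall fun z => ?_)
    show ψ z * _ = ψ z * _
    congr 1

end Pool.Agent.A54.Vd
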