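import Pool.Agent.Lib.MP_a54f13_nt.Vd.SpecU
import Pool.Agent.Lib.MP_a54f13_nt.Sq.Bd

/-!
# `FmF`: fourth moments of the towers, uniformly in the index
-/

set_option autoImplicit false

namespace Pool.Agent.A54.Vd

open MeasureTheory Filter Topology Set
open scoped ContDiff ComplexConjugate UpperHalfPlane MatrixGroups ENNReal
open Pool.Agent.A54.Half (H0 qq ff hh)
open Pool.Agent.A54.Sq (TestP la Tow pp Wi Pj Up KK SS CosH)
open Pool.Agent.A54.Pl (Ed mean)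

noncomputable section

namespace FmFM

/-- the fourth moments over compact sets are bounded -/
lemma four_cpt {f : ℕ → ℍ → ℝ} {t : ℕ → ℝ} (hf : ∀ i, IsHeckeMaass (f i) (t i))
    (hA : Pl.CondH f) (K : Set ℍ) (hK : IsCompact K) : ∃ C : ℝ, ∀ i, ∫ z in K, f i z ^ 4 ≤ C := by
  have hK' : IsCompact (UpperHalfPlane.coe '' K) := hK.image UpperHalfPlane.continuous_coe
  have hKH : UpperHalfPlane.coe '' K ⊆ H0 := by
    rintro _ ⟨z, _, rfl⟩
    exact z.im_pos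
  obtain ⟨φ, hφ, hφ01, hev⟩ := exists_cutoff hK' Half.isOpen_H0 hKH
  have hlim := (hA φ hφ).2
  refine Sq.BdM.bdd_of_ev (B := 3 * (∫ z : ℍ, φ z) + 1) ?_
  filter_upwards [hlim.eventually (ge_mem_nhds (lt_add_one _))] with i hi
  refine le_trans ?_ hi
  rw [← integral_indicator hK.isClosed.measurableSet]
  apply integral_mono_of_nonneg
  · refine Filter.Eventually.of_forall fun z => ?_
    simp only [Pi.zero_apply]
    exact Set.indicator_nonneg (fun z _ => by positivity) z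
  · exact Pl.FBM.integ hφ ((Pl.FBM.cont (hf i)).pow 4)
  · refine Filter.Eventually.of_forall fun z => ?_
    simp only
    by_cases hz : z ∈ K
    · rw [Set.indicator_of_mem hz]
      have h0 : ∀ᶠ w in 𝓝 (z : ℂ), φ w = 1 :=
        (mem_nhdsSet_iff_forall.mp hev) z (Set.mem_image_of_mem _ hz)
      have h1 : φ (z : ℂ) = 1 := h0.self_of_nhds
      rw [h1, one_mul]
    · rw [Set.indicator_of_notMem hz]
      exact mul_nonneg (hφ01 _).1 (by positivity)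

/-- the fourth moments of the localised forms are bounded -/
lemma four_zero (hInt : StmtInt) {f : ℕ → ℍ → ℝ} {t : ℕ → ℝ}
    (hf : ∀ i, IsHeckeMaass (f i) (t i))
    (h4 : ∀ K : Set ℍ, IsCompact K → ∃ C : ℝ, ∀ i, ∫ z in K, f i z ^ 4 ≤ C)
    {χ : ℂ → ℝ} {V : Set ℂ} (hχ : TestR H0 χ) (hV : IsOpen V) (hVH : V ⊆ H0)
    (h1 : ∀ z ∈ V, χ z = 1) {ζ : ℂ → ℝ} (hζ : TestP V ζ) :
    ∃ B : ℝ, ∀ i, ∫ z, ζ z * ff χ (f i) z ^ 4 ≤ B := by
  obtain ⟨ζ', hζ', -, hone⟩ := exists_cutoff hζ.test.cpt hV hζ.test.sub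
  have hone' : ∀ z ∈ tsupport ζ, ζ' z = 1 := fun z hz => subset_of_mem_nhdsSet hone hz
  obtain ⟨Z, hZ⟩ := hζ.test.cpt.exists_bound_of_continuous hζ.test.smooth.continuous
  obtain ⟨B, hB⟩ := Half.l4 hInt hVH h1 hf h4 ζ' hζ'
  have hZ0 : 0 ≤ Z := (norm_nonneg _).trans (hZ 0)
  refine ⟨Z * B, fun i => ?_⟩
  have hs := Half.ff_smooth hχ (hf i).smooth
  have i1 : Integrable fun z => ζ' z ^ 4 * ff χ (f i) z ^ 4 :=
    ((hζ'.smooth.continuous.pow 4).mul (hs.continuous.pow 4)).integrable_of_hasCompactSupport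
      (hζ'.cpt.mono fun z hz hz0 => hz (by simp [hz0]))
  calc ∫ z, ζ z * ff χ (f i) z ^ 4 ≤ ∫ z, Z * (ζ' z ^ 4 * ff χ (f i) z ^ 4) := by
        refine integral_mono_of_nonneg (Filter.Eventually.of_forall fun z => ?_)
          (i1.const_mul _) (Filter.Eventually.of_forall fun z => ?_)
        · show 0 ≤ ζ z * ff χ (f i) z ^ 4
          exact mul_nonneg (hζ.nonneg z) (by positivity)
        · show ζ z * ff χ (f i) z ^ 4 ≤ Z * (ζ' z ^ 4 * ff χ (f i) z ^ 4)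
          by_cases hz : z ∈ tsupport ζ
          · rw [hone' z hz, one_pow, one_mul]
            refine mul_le_mul_of_nonneg_right ?_ (by positivity)
            exact (le_abs_self _).trans (hZ z)
          · rw [image_eq_zero_of_notMem_tsupport hz]
            have : 0 ≤ Z * (ζ' z ^ 4 * ff χ (f i) z ^ 4) := by positivity
            simpa using this
    _ = Z * ∫ z, ζ' z ^ 4 * ff χ (f i) z ^ 4 := integral_const_mul _ _
    _ ≤ Z * B := mul_le_mul_of_nonneg_left (hB i) hZ0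

end FmFM

theorem stmtFmF (hM : Sq.StmtMax) (hE : Pl.StmtE1) (hG : Pl.StmtG0) (hI : StmtInt) :
    StmtFmF := by
  intro f t hf ht hA χ V hχ h01 hV hVH h1 c G hG1 hG3 hG2 ζ hζ
  have h4 := FmFM.four_cpt hf hA
  have ht0 : ∀ i, 0 < t i := fun i => (hf i).pos
  have hr : ∀ i, 0 < (t i)⁻¹ := fun i => inv_pos.2 (ht0 i)
  have hrl : Tendsto (fun i => (t i)⁻¹) atTop (𝓝 0) := tendsto_inv_atTop_zero.comp ht
  have hm := Sq.BdM.forward hE hG hI hf hr hrl h4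
  have hnorm : ∀ i z, ‖G i 0 z‖ ^ 2 = ff χ (f i) z ^ 2 := by
    intro i z
    rw [hG3, Complex.norm_real, Real.norm_eq_abs, sq_abs]
  have hEd : ∀ i, (Ed (Real.tanh ((t i)⁻¹)) fun w => ‖G i 0 w‖ ^ 2) =
      Ed (Real.tanh ((t i)⁻¹)) fun w => ff χ (f i) w ^ 2 := by
    intro i
    congr 1
    funext w
    exact hnorm i w
  have hX : ∀ ζ : ℂ → ℝ, ∃ X : ℝ, TestP V ζ → ∀ i,
      ∫ z, ζ z * (Ed (Real.tanh ((t i)⁻¹)) (fun w => ff χ (f i) w ^ 2) z - 0) ^ 2 ≤ X := by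
    intro ζ
    by_cases hζ : TestP V ζ
    · obtain ⟨X, hX⟩ := Sq.BdM.var hG hI hf hr hrl hm hχ hV hVH h1 hζ
      exact ⟨X, fun _ => hX⟩
    · exact ⟨0, fun h => absurd h hζ⟩
  choose x hx using hX
  obtain ⟨C, κ', hC, hκ', hU⟩ := hM V hV hVH c x (1 / 2) (1 / 4) (by norm_num) le_rfl (by norm_num)
    (by norm_num) ζ hζ
  obtain ⟨B, hB⟩ := FmFM.four_zero hI hf h4 hχ hV hVH h1 hζ
  refine ⟨B + C, fun n => ?_⟩
  have hn : ∀ᶠ i in atTop, |(n : ℝ)| ≤ t i ^ ((1 : ℝ) / 2 - 1 / 4) :=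
    ((tendsto_rpow_atTop (by norm_num : (0 : ℝ) < 1 / 2 - 1 / 4)).comp ht).eventually_ge_atTop _
  filter_upwards [hn, ht.eventually_ge_atTop 1] with i hi hi1
  have hDat : Sq.Dat V c x (1 / 2) (t i) 0 (Real.tanh ((t i)⁻¹)) (G i) := by
    refine ⟨hi1, hG1 i, hG2 i, ?_, le_refl 0, zero_le_two, Pl.FBM.tanh_pos' (hr i), ?_⟩
    · intro ζ hζ
      rw [hEd i]
      exact hx ζ hζ i
    · refine (Sq.BdM.tanh_le (hr i).le).trans ?_
      have : (-((1 : ℝ) / 2 + 1 / 2)) = -1 := by norm_num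
      rw [this, Real.rpow_neg_one]
  have hu := hU _ _ _ _ hDat n hi
  have h2 : Wi ζ (G i) n n = ∫ z, ζ z * ‖G i n z‖ ^ 4 := by
    unfold Wi
    refine integral_congr_ae (Filter.Eventually.of_forall fun z => ?_)
    show ζ z * (‖G i n z‖ ^ 2 * ‖G i n z‖ ^ 2) = ζ z * ‖G i n z‖ ^ 4
    ring
  have h3 : ∫ z, ζ z * ‖G i 0 z‖ ^ 4 = ∫ z, ζ z * ff χ (f i) z ^ 4 := by
    refine integral_congr_ae (Filter.Eventually.of_forall fun z => ?_)
    show ζ z * ‖G i 0 z‖ ^ 4 = ζ z * ff χ (f i) z ^ 4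
    have h4 : ‖G i 0 z‖ ^ 4 = (‖G i 0 z‖ ^ 2) ^ 2 := by ring
    rw [h4, hnorm]
    ring
  have ht1 : t i ^ (-κ') ≤ 1 := Real.rpow_le_one_of_one_le_of_nonpos hi1 (by linarith)
  have h5 : C * t i ^ (-κ') ≤ C := mul_le_of_le_one_right hC ht1
  rw [h2, h3] at hu
  have := hB i
  linarith

end

end Pool.Agent.A54.Vd
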