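import Pool.Agent.Lib.MP_a54f13_nt.Vd.SpecU
import Pool.Agent.Lib.MP_a54f13_nt.Sq.Bd

/-!
# Module FmV: towers of Hecke–Maass forms, small scales (helper94)
-/

set_option autoImplicit false

namespace Pool.Agent.A54.Vd

open MeasureTheory Filter Topology Set
open scoped ContDiff ComplexConjugate UpperHalfPlane MatrixGroups ENNReal
open Pool.Agent.A54.Half (H0 qq ff hh)
open Pool.Agent.A54.Sq (TestP la Tow pp Wi Pj Up KK SS CosH)
open Pool.Agent.A54.Pl (Ed mean)

noncomputable section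

theorem stmtFmV (hB : Pl.StmtFB) (hC : Pl.StmtBC) (hG : Pl.StmtG2) : StmtFmV := by
  intro f t hf ht hH χ V _ _ hV hVH h1 ζ hζ ε hε
  have hCC : Pl.CondC f t := hC f t (fun i => (hf i).pos) ht (hB f t hf ht hH)
  obtain ⟨K, C, r0, hK, hC0, hr0, hG'⟩ := hG ζ
    ⟨hζ.test.smooth, hζ.test.cpt, hζ.test.sub.trans hVH⟩ hζ.nonneg
  obtain ⟨ρ₀, hρ₀, hdisc⟩ := Pl.FBM.discs hζ.test.cpt.isCompact hV hζ.test.sub
  obtain ⟨R, hR, hev⟩ := hCC K hK (ε / (2 * C + 2)) (by positivity)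
  have hlim : Tendsto (fun i => R / t i) atTop (𝓝 0) := by
    have h := ht.inv_tendsto_atTop.const_mul R
    rw [mul_zero] at h
    exact h
  have hlim2 : Tendsto (fun i => C * (R / t i) ^ 2) atTop (𝓝 0) := by
    have h := (hlim.pow 2).const_mul C
    rw [zero_pow two_ne_zero, mul_zero] at h
    exact h
  refine ⟨R, fun i => Real.tanh (R / t i), hR, ?_⟩
  filter_upwards [hev, hlim.eventually (ge_mem_nhds hr0), hlim.eventually (ge_mem_nhds hρ₀),
    hlim2.eventually_lt_const (show (0 : ℝ) < ε / 2 by positivity)] with i e1 e2 e3 e4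
  have hti : 0 < t i := (hf i).pos
  have hpos : 0 < R / t i := div_pos hR hti
  have ht1 : Real.tanh (R / t i) ≤ R / t i := Sq.BdM.tanh_le hpos.le
  have ht0 : 0 < Real.tanh (R / t i) := Pl.FBM.tanh_pos' hpos
  have hc := Pl.FBM.cont (hf i)
  refine ⟨ht0, ?_, ?_⟩
  · calc Real.tanh (R / t i) * t i ≤ R / t i * t i := mul_le_mul_of_nonneg_right ht1 hti.le
      _ = R := div_mul_cancel₀ R hti.ne'
  · have a2 := hG' (R / t i) hpos e2 (fun w => f i w ^ 2) (hc.pow 2) fun z => sq_nonneg _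
    have a3 := Sq.BdM.ed_eq h1 (f i) (hdisc (Real.tanh (R / t i)) ht0 (ht1.trans e3)) 1
    have a4 : C * (∫ z in K, (mean (fun w => f i w ^ 2) z (R / t i) - 1) ^ 2) ≤
        C * (ε / (2 * C + 2)) := mul_le_mul_of_nonneg_left e1 hC0
    have a5 : C * (ε / (2 * C + 2)) ≤ ε / 2 := by
      rw [mul_div_assoc', div_le_div_iff₀ (by positivity) (by norm_num)]
      nlinarith
    calc ∫ z, ζ z * (Ed (Real.tanh (R / t i)) (fun w => ff χ (f i) w ^ 2) z - 1) ^ 2
        = ∫ z, ζ z * (Ed (Real.tanh (R / t i)) (ext fun w => f i w ^ 2) z - 1) ^ 2 := a3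
      _ ≤ ε := by linarith

end

end Pool.Agent.A54.Vd
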