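import Pool.Agent.Lib.MP_a54f13_nt.Vd.SpecU

/-! The Fejér kernel and its convolution square. -/

set_option autoImplicit false

namespace Pool.Agent.A54.Vd.K2sM

open Pool.Agent.A54.Sq (KK)
open Pool.Agent.A54.Vd

/-- the interval of length `2 a` about zero -/
noncomputable def J (a : ℕ) : Finset ℤ := Finset.Icc (-(a : ℤ)) (a : ℤ)

lemma mem_J (a : ℕ) (d : ℤ) : d ∈ J a ↔ |d| ≤ (a : ℤ) := by
  unfold J
  rw [Finset.mem_Icc, abs_le]

lemma sum_neg (a : ℕ) (F : ℤ → ℝ) : ∑ d ∈ J a, F (-d) = ∑ d ∈ J a, F d := by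
  refine Finset.sum_nbij' (fun d => -d) (fun d => -d) ?_ ?_ ?_ ?_ ?_
  · intro d hd
    rw [mem_J, abs_neg]
    exact (mem_J a d).1 hd
  · intro d hd
    rw [mem_J, abs_neg]
    exact (mem_J a d).1 hd
  · intro d _
    exact neg_neg d
  · intro d _
    exact neg_neg d
  · intro d _
    rfl

lemma shift (N : ℕ) {d : ℤ} (hd : d ∈ J (2 * N)) (F : ℤ → ℝ)
    (hF : ∀ m : ℤ, 2 * (N : ℤ) < |m - d| → F m = 0) :
    ∑ m ∈ J (4 * N), F m = ∑ d' ∈ J (2 * N), F (d + d') := by
  have hd' := (mem_J _ _).1 hd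
  rw [abs_le] at hd'
  push_cast at hd'
  have h1 : ∑ d' ∈ J (2 * N), F (d + d') = ∑ m ∈ (J (2 * N)).map (addLeftEmbedding d), F m := by
    rw [Finset.sum_map]
    rfl
  rw [h1]
  symm
  refine Finset.sum_subset ?_ ?_
  · intro m hm
    obtain ⟨x, hx, rfl⟩ := Finset.mem_map.1 hm
    have hx' := (mem_J _ _).1 hx
    rw [abs_le] at hx'
    push_cast at hx'
    rw [mem_J, abs_le]
    simp only [addLeftEmbedding_apply]
    push_cast
    constructor
    · linarith [hx'.1, hd'.1]
    · linarith [hx'.2, hd'.2]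
  · intro m _ hm
    refine hF m (lt_of_not_ge fun h => hm (Finset.mem_map.2 ⟨m - d, ?_, ?_⟩))
    · rw [mem_J]
      push_cast
      exact h
    · simp only [addLeftEmbedding_apply]
      ring

lemma even (N : ℕ) (d : ℤ) : KK N (-d) = KK N d := by
  unfold KK
  push_cast
  rw [abs_neg]

/-- sums against the convolution square -/
lemma conv (N : ℕ) (hz : ∀ d : ℤ, 2 * (N : ℤ) < |d| → KK N d = 0) (w : ℤ → ℝ) :
    ∑ m ∈ J (4 * N), K2 N m * w m =
      ∑ d ∈ J (2 * N), KK N d * ∑ d' ∈ J (2 * N), KK N d' * w (d + d') := by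
  have h1 : ∀ m ∈ J (4 * N), K2 N m * w m =
      ∑ d ∈ J (2 * N), KK N d * (KK N (m - d) * w m) := by
    intro m _
    unfold K2
    rw [Finset.sum_mul]
    refine Finset.sum_congr rfl fun d _ => ?_
    ring
  rw [Finset.sum_congr rfl h1, Finset.sum_comm]
  refine Finset.sum_congr rfl fun d hd => ?_
  rw [← Finset.mul_sum, shift N hd (fun m => KK N (m - d) * w m) fun m hm => by
    rw [hz _ hm, zero_mul]]
  congr 1
  refine Finset.sum_congr rfl fun d' _ => ?_
  rw [add_sub_cancel_left]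

end Pool.Agent.A54.Vd.K2sM

namespace Pool.Agent.A54.Vd

open Pool.Agent.A54.Sq (KK)
open K2sM

theorem stmtK2s (hK : Sq.StmtKSum) : StmtK2s := by
  intro N
  obtain ⟨h0, h1, hd, hz⟩ := hK N
  have h1' : ∑ d ∈ J (2 * N), KK N d = 1 := by
    have hJ : J (2 * N) = Finset.Icc (-(2 * (N : ℤ))) (2 * (N : ℤ)) := by
      unfold J
      push_cast
      rfl
    rw [hJ]
    exact h1
  have hpos : (0 : ℝ) < 2 * (N : ℝ) + 1 := by positivity
  refine ⟨⟨h0, h1', hd, fun d h => hz d ?_⟩, ⟨?_, ?_, ?_, ?_⟩, ?_, ?_⟩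
  · push_cast at h
    exact h
  · intro m
    unfold K2
    exact Finset.sum_nonneg fun d _ => mul_nonneg (h0 _) (h0 _)
  · have h := conv N hz fun _ => 1
    simp only [mul_one] at h
    rw [h1'] at h
    simp only [mul_one] at h
    rw [h1'] at h
    exact h
  · intro m
    unfold K2
    rw [← Finset.sum_sub_distrib]
    refine (Finset.abs_sum_le_sum_abs _ _).trans ?_
    have h2 : ∀ d ∈ J (2 * N), |KK N d * KK N (m - d) - KK N d * KK N (m + 1 - d)| ≤
        KK N d * ((2 * (N : ℝ) + 1) ^ 2)⁻¹ := by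
      intro d _
      rw [← mul_sub, abs_mul, abs_of_nonneg (h0 d)]
      refine mul_le_mul_of_nonneg_left ?_ (h0 d)
      have h3 := hd (m - d)
      rw [show m - d + 1 = m + 1 - d by ring] at h3
      exact h3
    refine (Finset.sum_le_sum h2).trans ?_
    rw [← Finset.sum_mul, h1', one_mul]
  · intro m hm
    unfold K2
    refine Finset.sum_eq_zero fun d hd => ?_
    have hd1 := (mem_J _ _).1 hd
    push_cast at hd1 hm
    rw [hz (m - d), mul_zero]
    have h3 := abs_sub_abs_le_abs_sub m d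
    linarith
  · intro d
    unfold KK
    have h2 : max 0 ((2 * (N : ℝ) + 1) - |(d : ℝ)|) ≤ 2 * (N : ℝ) + 1 :=
      max_le hpos.le (by linarith [abs_nonneg (d : ℝ)])
    rw [div_le_iff₀ (by positivity)]
    refine h2.trans (le_of_eq ?_)
    field_simp
  · intro w
    have h2 := conv N hz w
    have h3 : ∀ d ∈ J (2 * N), KK N d * ∑ d' ∈ J (2 * N), KK N d' * w (d + d') =
        ∑ d' ∈ J (2 * N), KK N d * KK N d' * ((w (d + d') + w (d - d')) / 2) := by
      intro d _
      have h4 : ∑ d' ∈ J (2 * N), KK N d' * w (d - d') =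
          ∑ d' ∈ J (2 * N), KK N d' * w (d + d') := by
        rw [← sum_neg (2 * N) fun d' => KK N d' * w (d + d')]
        refine Finset.sum_congr rfl fun d' _ => ?_
        rw [even, sub_eq_add_neg]
      have h5 : ∑ d' ∈ J (2 * N), KK N d * KK N d' * ((w (d + d') + w (d - d')) / 2) =
          KK N d * ((∑ d' ∈ J (2 * N), KK N d' * w (d + d') +
            ∑ d' ∈ J (2 * N), KK N d' * w (d - d')) / 2) := by
        rw [← Finset.sum_add_distrib, Finset.sum_div, Finset.mul_sum]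
        refine Finset.sum_congr rfl fun d' _ => ?_
        ring
      rw [h5, h4]
      ring
    exact ((h2.trans (Finset.sum_congr rfl h3))).symm

end Pool.Agent.A54.Vd
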