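import Pool.Agent.Lib.MP_a54f13_nt.Vd.SpecU
import Pool.Agent.Lib.MP_a54f13_nt.Sq.Key

/-! # Package `Vd`, module `KyW`: no concentration on slowly varying weights -/

set_option autoImplicit false

namespace Pool.Agent.A54.Vd

open MeasureTheory Filter Topology Set
open scoped ContDiff ComplexConjugate UpperHalfPlane MatrixGroups ENNReal
open Pool.Agent.A54.Half (H0 qq ff hh)
open Pool.Agent.A54.Sq (TestP la Tow pp Wi Pj Up KK SS CosH)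
open Pool.Agent.A54.Pl (Ed mean)

noncomputable section

namespace KyWM

variable {V : Set ℂ} {t : ℝ} {G : ℤ → ℂ → ℂ} {φ : ℂ → ℝ}

lemma contSa (hT : Tow V t G) (a : ℤ → ℝ) (D : ℕ) : Continuous (Sa a D G) := by
  unfold Sa
  exact continuous_finsetSum _ fun d _ =>
    continuous_const.mul ((hT.smooth d).continuous.norm.pow 2)

/-- `∫ φ S² ≤ B` -/
lemma sa_sq (hT : Tow V t G) (hφ : TestP V φ) {a : ℤ → ℝ} {D : ℕ} {β B : ℝ} (hK : Ker a D β)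
    (hB : ∀ d : ℤ, |d| ≤ D → ∫ z, φ z * ‖G d z‖ ^ 4 ≤ B) :
    ∫ z, φ z * Sa a D G z ^ 2 ≤ B := by
  have hi : ∀ d : ℤ, Integrable fun z => φ z * ‖G d z‖ ^ 4 := fun d =>
    Sq.KeyM.integrable hφ ((hT.smooth d).continuous.norm.pow 4)
  have h1 : ∀ z, φ z * Sa a D G z ^ 2 ≤ ∑ d ∈ Finset.Icc (-(D : ℤ)) (D : ℤ),
      a d * (φ z * ‖G d z‖ ^ 4) := by
    intro z
    have h2 : Sa a D G z ^ 2 ≤ ∑ d ∈ Finset.Icc (-(D : ℤ)) (D : ℤ), a d * (‖G d z‖ ^ 2) ^ 2 := by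
      have h3 := Finset.sum_sq_le_sum_mul_sum_of_sq_le_mul
        (Finset.Icc (-(D : ℤ)) (D : ℤ)) (r := fun d => a d * ‖G d z‖ ^ 2)
        (f := fun d => a d) (g := fun d => a d * (‖G d z‖ ^ 2) ^ 2)
        (fun d _ => hK.nonneg d) (fun d _ => mul_nonneg (hK.nonneg d) (sq_nonneg _))
        (fun d _ => le_of_eq (by ring))
      rw [hK.sum, one_mul] at h3
      exact h3
    calc φ z * Sa a D G z ^ 2 ≤ φ z * ∑ d ∈ Finset.Icc (-(D : ℤ)) (D : ℤ),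
          a d * (‖G d z‖ ^ 2) ^ 2 := mul_le_mul_of_nonneg_left h2 (hφ.nonneg z)
      _ = _ := by
          rw [Finset.mul_sum]
          exact Finset.sum_congr rfl fun d _ => by ring
  calc ∫ z, φ z * Sa a D G z ^ 2 ≤ ∫ z, ∑ d ∈ Finset.Icc (-(D : ℤ)) (D : ℤ),
        a d * (φ z * ‖G d z‖ ^ 4) :=
        integral_mono (Sq.KeyM.integrable hφ ((contSa hT a D).pow 2))
          (integrable_finsetSum _ fun d _ => (hi d).const_mul _) h1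
    _ = ∑ d ∈ Finset.Icc (-(D : ℤ)) (D : ℤ), a d * ∫ z, φ z * ‖G d z‖ ^ 4 := by
        rw [integral_finsetSum _ fun d _ => (hi d).const_mul _]
        exact Finset.sum_congr rfl fun d _ => integral_const_mul _ _
    _ ≤ ∑ d ∈ Finset.Icc (-(D : ℤ)) (D : ℤ), a d * B := by
        refine Finset.sum_le_sum fun d hd => mul_le_mul_of_nonneg_left (hB d ?_) (hK.nonneg d)
        rw [Finset.mem_Icc] at hd
        exact abs_le.mpr hd
    _ = B := by rw [← Finset.sum_mul, hK.sum, one_mul]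

/-- the main term with a weight -/
lemma main (hT : Tow V t G) (hφ : TestP V φ) {a : ℤ → ℝ} {D : ℕ} {β B : ℝ} (hK : Ker a D β)
    (hB : ∀ d : ℤ, |d| ≤ D → ∫ z, φ z * ‖G d z‖ ^ 4 ≤ B) {w : ℂ → ℝ} {s δ x ρ : ℝ}
    (hw : Wgt w s) (hδ : ∫ z, φ z * w z ≤ δ)
    (hx : ∫ z, φ z * (Ed ρ (fun w => ‖G 0 w‖ ^ 2) z - 1) ^ 2 ≤ x) :
    ∫ z, φ z * w z * (Sa a D G z * Ed ρ (fun w => ‖G 0 w‖ ^ 2) z) ≤ √δ * √B + √B * √x := by
  have hSc := contSa hT a D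
  have hwc := hw.smooth.continuous
  have hE : Continuous (Ed ρ fun w => ‖G 0 w‖ ^ 2) :=
    Pl.continuous_Ed ((hT.smooth 0).continuous.norm.pow 2) ρ
  have hS2 := sa_sq hT hφ hK hB
  have i1 : Integrable fun z => φ z * (w z * Sa a D G z) := Sq.KeyM.integrable hφ (hwc.mul hSc)
  have i2 : Integrable fun z => φ z * ((w z * Sa a D G z) *
      (Ed ρ (fun w => ‖G 0 w‖ ^ 2) z - 1)) :=
    Sq.KeyM.integrable hφ ((hwc.mul hSc).mul (hE.sub continuous_const))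
  have e1 : ∫ z, φ z * w z * (Sa a D G z * Ed ρ (fun w => ‖G 0 w‖ ^ 2) z) =
      (∫ z, φ z * (w z * Sa a D G z)) + ∫ z, φ z * ((w z * Sa a D G z) *
      (Ed ρ (fun w => ‖G 0 w‖ ^ 2) z - 1)) := by
    rw [← integral_add i1 i2]
    refine integral_congr_ae (Filter.Eventually.of_forall fun z => ?_)
    show φ z * w z * (Sa a D G z * Ed ρ (fun w => ‖G 0 w‖ ^ 2) z) =
      φ z * (w z * Sa a D G z) + φ z * ((w z * Sa a D G z) *
        (Ed ρ (fun w => ‖G 0 w‖ ^ 2) z - 1))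
    ring
  have e2 := Sq.KeyM.cs (F := w) (H := Sa a D G) hφ hwc hSc
  have e3 := Sq.KeyM.cs (F := fun z => w z * Sa a D G z)
    (H := fun z => Ed ρ (fun w => ‖G 0 w‖ ^ 2) z - 1) hφ (hwc.mul hSc) (hE.sub continuous_const)
  have hw2 : ∀ z, w z ^ 2 ≤ w z := fun z => by
    have h1 := hw.nonneg z
    have h2 := hw.le_one z
    nlinarith
  have f1 : ∫ z, φ z * w z ^ 2 ≤ δ := by
    refine le_trans (integral_mono (Sq.KeyM.integrable hφ (hwc.pow 2))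
      (Sq.KeyM.integrable hφ hwc) fun z => mul_le_mul_of_nonneg_left (hw2 z) (hφ.nonneg z)) hδ
  have f2 : ∫ z, φ z * (w z * Sa a D G z) ^ 2 ≤ B := by
    refine le_trans (integral_mono (Sq.KeyM.integrable hφ ((hwc.mul hSc).pow 2))
      (Sq.KeyM.integrable hφ (hSc.pow 2)) fun z => mul_le_mul_of_nonneg_left ?_ (hφ.nonneg z)) hS2
    show (w z * Sa a D G z) ^ 2 ≤ Sa a D G z ^ 2
    rw [mul_pow]
    have h1 : w z ^ 2 ≤ 1 := (hw2 z).trans (hw.le_one z)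
    have h2 := sq_nonneg (Sa a D G z)
    nlinarith
  rw [e1]
  refine add_le_add (e2.trans ?_) (e3.trans ?_)
  · exact mul_le_mul (Real.sqrt_le_sqrt f1) (Real.sqrt_le_sqrt hS2) (Real.sqrt_nonneg _)
      (Real.sqrt_nonneg _)
  · exact mul_le_mul (Real.sqrt_le_sqrt f2) (Real.sqrt_le_sqrt hx) (Real.sqrt_nonneg _)
      (Real.sqrt_nonneg _)

/-- final arithmetic -/
lemma arith {X Y Z B s ε q E1 E2 : ℝ} (hs0 : 0 ≤ s) (hs1 : s ≤ 1) (hX : 0 ≤ X)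
    (hq : q ≤ 1 / 9) (hsε : 16 * (1 + √B) * s ≤ ε)
    (h1 : (1 - q) * X ≤ 3 * Y + E1) (hE1 : E1 ≤ s ^ 2) (h2 : Y ≤ Z + E2) (hE2 : E2 ≤ 2 * s ^ 2)
    (h3 : Z ≤ s * √B + √B * s) : X ≤ ε := by
  have hb : 0 ≤ √B := Real.sqrt_nonneg B
  have h4 : (1 - 1 / 9) * X ≤ (1 - q) * X := mul_le_mul_of_nonneg_right (by linarith) hX
  have h5 : s ^ 2 ≤ s := by nlinarith
  have h6 : 0 ≤ √B * s := mul_nonneg hb hs0
  nlinarith

end KyWM

theorem stmtKyW (hC : StmtCsE) (hS : StmtSmA) (hK : StmtK2s) : StmtKyW := by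
  intro V t G h φ hφ ε hε
  obtain ⟨ζ₁, C₁, hζ₁, hC₁, hCs⟩ := hC V h.isOpen h.sub φ hφ
  obtain ⟨ζ₂, C₂, r0, hζ₂, hC₂, hr0, hSm⟩ := hS V h.isOpen h.sub φ hφ
  obtain ⟨ζ, hζ, z0, z1, z2, -⟩ := Sq.KeyM.major h.isOpen hφ hζ₁ hζ₂ hζ₂
  obtain ⟨B, hB1, hUp⟩ := h.up hζ
  have hB0 : 0 < B := by linarith
  have hsB : 0 ≤ √B := Real.sqrt_nonneg B
  set s : ℝ := min 1 (ε / (16 * (1 + √B))) with hs
  have hs0 : 0 < s := lt_min one_pos (by positivity)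
  have hs1 : s ≤ 1 := min_le_left _ _
  have hsε : 16 * (1 + √B) * s ≤ ε := by
    have h1 : s ≤ ε / (16 * (1 + √B)) := min_le_right _ _
    rw [le_div_iff₀ (by positivity)] at h1
    linarith
  have hss : 0 < s ^ 2 := by positivity
  obtain ⟨R, ρ, hR, hvar⟩ := h.var φ hφ (s ^ 2) hss
  obtain ⟨N₀, hN₀⟩ := exists_nat_ge (C₂ * R * B / s ^ 2)
  set N : ℕ := N₀ + 1 with hN
  have hN1 : (1 : ℝ) ≤ N := by
    rw [hN]
    push_cast
    linarith [(Nat.cast_nonneg N₀ : (0 : ℝ) ≤ N₀)]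
  have hNN : C₂ * R * B * (2 * (N : ℝ) + 1)⁻¹ ≤ s ^ 2 := by
    rw [← div_eq_mul_inv, div_le_iff₀ (by positivity)]
    rw [div_le_iff₀ hss] at hN₀
    refine hN₀.trans ?_
    rw [mul_comm]
    refine mul_le_mul_of_nonneg_left ?_ hss.le
    rw [hN]
    push_cast
    linarith [(Nat.cast_nonneg N₀ : (0 : ℝ) ≤ N₀)]
  set A : ℝ := C₂ * R * B + C₁ * (((N : ℝ) + 1) ^ 2 * B) + 1 with hA
  have hA1 : 0 ≤ C₂ * R * B := by positivity
  have hA2 : 0 ≤ C₁ * (((N : ℝ) + 1) ^ 2 * B) := by positivity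
  have hA0 : 0 < A := by linarith
  set e : ℝ := s ^ 2 / A with he
  have he0 : 0 < e := by positivity
  have heA : A * e = s ^ 2 := by
    rw [he]
    field_simp
  have he1 : C₂ * R * B * e ≤ s ^ 2 := by
    rw [← heA]
    exact mul_le_mul_of_nonneg_right (by linarith) he0.le
  have he2 : C₁ * (((N : ℝ) + 1) ^ 2 * B) * e ≤ s ^ 2 := by
    rw [← heA]
    exact mul_le_mul_of_nonneg_right (by linarith) he0.le
  refine ⟨e, s ^ 2, he0, hss, ?_⟩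
  have ht : ∀ c : ℝ, ∀ᶠ i in atTop, c ≤ t i := fun c => h.lim.eventually_ge_atTop c
  filter_upwards [hvar, hUp (2 * N + 1), ht 1, ht (1 / e), ht ((2 * (N : ℝ) + 2) ^ 2), ht (R / r0)]
    with i hv hU ht1 hte htN htR w hw hδ
  obtain ⟨hρ0, hρR, hEd⟩ := hv
  have ht0 : 0 < t i := by linarith
  have hT := h.tow i
  have hte' : 1 ≤ e * t i := by
    rw [div_le_iff₀ he0] at hte
    linarith
  have hρr : ρ i ≤ r0 := by
    rw [div_le_iff₀ hr0] at htR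
    have h1 : ρ i * t i ≤ r0 * t i := by linarith
    exact le_of_mul_le_mul_right h1 ht0
  have c4 : ∀ n : ℤ, Continuous fun z => ‖G i n z‖ ^ 4 := fun n =>
    (hT.smooth n).continuous.norm.pow 4
  have up : ∀ ψ : ℂ → ℝ, TestP V ψ → (∀ z, ψ z ≤ ζ z) → Up ψ (G i) (2 * N + 1) B :=
    fun ψ hψ hle n hn => (Sq.KeyM.mono hψ hζ hle (c4 n) fun z => by positivity).trans (hU n hn)
  have h1 := (hCs (t i) (G i) ht1 hT w e hte' hw N B).2 htN (up ζ₁ hζ₁ z1)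
  have hKN := (hK N).1
  have h2 := hSm (t i) (G i) ht1 hT w e hte' hw (KK N) (2 * N) _ B (ρ i) hKN
    (by push_cast; nlinarith) (up ζ₂ hζ₂ z2) hρ0 hρr
  have hφB : ∀ d : ℤ, |d| ≤ ((2 * N : ℕ) : ℤ) → ∫ z, φ z * ‖G i d z‖ ^ 4 ≤ B := fun d hd =>
    up φ hφ z0 d (by push_cast at hd ⊢; linarith)
  have h3 := KyWM.main hT hφ hKN hφB hw hδ hEd
  rw [Real.sqrt_sq hs0.le] at h3
  have hX : 0 ≤ ∫ z, φ z * w z * ‖G i 0 z‖ ^ 4 := integral_nonneg fun z =>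
    mul_nonneg (mul_nonneg (hφ.nonneg z) (hw.nonneg z)) (by positivity)
  have hq : ((2 * (N : ℝ) + 1) ^ 2)⁻¹ ≤ 1 / 9 := by
    rw [inv_eq_one_div]
    apply one_div_le_one_div_of_le (by norm_num)
    nlinarith
  have hE1 : C₁ * (((N : ℝ) + 1) ^ 2 * B * e) ≤ s ^ 2 := by
    refine le_trans (le_of_eq ?_) he2
    ring
  have hE2 : C₂ * (ρ i * t i * (((2 * (N : ℝ) + 1) ^ 2)⁻¹ * (((2 * N : ℕ) : ℝ) + 1) + e)) * B ≤
      2 * s ^ 2 := by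
    have e1 : ((2 * (N : ℝ) + 1) ^ 2)⁻¹ * (((2 * N : ℕ) : ℝ) + 1) = (2 * (N : ℝ) + 1)⁻¹ := by
      push_cast
      field_simp
    rw [e1]
    have e2 : 0 ≤ (2 * (N : ℝ) + 1)⁻¹ + e := by positivity
    calc C₂ * (ρ i * t i * ((2 * (N : ℝ) + 1)⁻¹ + e)) * B ≤ C₂ * (R * ((2 * (N : ℝ) + 1)⁻¹ + e)) * B := by
          refine mul_le_mul_of_nonneg_right (mul_le_mul_of_nonneg_left
            (mul_le_mul_of_nonneg_right hρR e2) hC₂) hB0.le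
      _ = C₂ * R * B * (2 * (N : ℝ) + 1)⁻¹ + C₂ * R * B * e := by ring
      _ ≤ 2 * s ^ 2 := by linarith
  exact KyWM.arith hs0.le hs1 hX hq hsε h1 hE1 (by linarith [(abs_le.mp h2).1]) hE2 h3

end

end Pool.Agent.A54.Vd
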