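import Pool.Agent.Lib.MP_a54f13_nt.Vd.SpecU
import Pool.Agent.Lib.MP_a54f13_nt.Sq.Key

/-!
# Package `Vd`, module `Sq1`: the Fejér averages are close to one in mean square
-/

set_option autoImplicit false

namespace Pool.Agent.A54.Vd

open MeasureTheory Filter Topology Set
open scoped ContDiff ComplexConjugate UpperHalfPlane MatrixGroups ENNReal
open Pool.Agent.A54.Half (H0 qq ff hh)
open Pool.Agent.A54.Sq (TestP la Tow pp Wi Pj Up KK SS CosH)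
open Pool.Agent.A54.Pl (Ed mean)

noncomputable section

namespace Sq1M

variable {V : Set ℂ} {G : ℤ → ℂ → ℂ}

lemma contSa (hc : ∀ n, Continuous (G n)) (a : ℤ → ℝ) (D : ℕ) : Continuous (Sa a D G) := by
  unfold Sa
  exact continuous_finsetSum _ fun d _ => continuous_const.mul ((hc d).norm.pow 2)

lemma int_sa (hc : ∀ n, Continuous (G n)) {φ : ℂ → ℝ} (hφ : TestP V φ) (a : ℤ → ℝ) (D : ℕ)
    {F : ℂ → ℝ} (hF : Continuous F) : ∫ z, φ z * (Sa a D G z * F z) =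
      ∑ d ∈ Finset.Icc (-(D : ℤ)) (D : ℤ), a d * ∫ z, φ z * (‖G d z‖ ^ 2 * F z) := by
  have hi : ∀ d : ℤ, Integrable fun z => φ z * (‖G d z‖ ^ 2 * F z) := fun d =>
    Sq.KeyM.integrable hφ (((hc d).norm.pow 2).mul hF)
  have h1 : (fun z => φ z * (Sa a D G z * F z)) = fun z =>
      ∑ d ∈ Finset.Icc (-(D : ℤ)) (D : ℤ), a d * (φ z * (‖G d z‖ ^ 2 * F z)) := by
    funext z
    unfold Sa
    rw [Finset.sum_mul, Finset.mul_sum]
    exact Finset.sum_congr rfl fun d _ => by ring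
  rw [h1, integral_finsetSum _ fun d _ => (hi d).const_mul _]
  exact Finset.sum_congr rfl fun d _ => integral_const_mul _ _

lemma int_sa_one (hc : ∀ n, Continuous (G n)) {φ : ℂ → ℝ} (hφ : TestP V φ) (a : ℤ → ℝ) (D : ℕ) :
    ∫ z, φ z * Sa a D G z =
      ∑ d ∈ Finset.Icc (-(D : ℤ)) (D : ℤ), a d * ∫ z, φ z * ‖G d z‖ ^ 2 := by
  have h := int_sa hc hφ a D (F := fun _ => (1 : ℝ)) continuous_const
  simpa using h

/-- `∫ φ S² = ∑∑ a(d) a(d') W(d, d')` -/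
lemma int_sq (hc : ∀ n, Continuous (G n)) {φ : ℂ → ℝ} (hφ : TestP V φ) (a : ℤ → ℝ) (D : ℕ) :
    ∫ z, φ z * Sa a D G z ^ 2 = ∑ d ∈ Finset.Icc (-(D : ℤ)) (D : ℤ),
      ∑ d' ∈ Finset.Icc (-(D : ℤ)) (D : ℤ), a d * a d' * Wi φ G d d' := by
  have h1 : (fun z => φ z * Sa a D G z ^ 2) = fun z => φ z * (Sa a D G z * Sa a D G z) := by
    funext z
    ring
  rw [h1, int_sa hc hφ a D (contSa hc a D)]
  refine Finset.sum_congr rfl fun d _ => ?_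
  have h2 : (fun z => φ z * (‖G d z‖ ^ 2 * Sa a D G z)) =
      fun z => φ z * (Sa a D G z * ‖G d z‖ ^ 2) := by
    funext z
    ring
  rw [h2, int_sa hc hφ a D (F := fun z => ‖G d z‖ ^ 2) ((hc d).norm.pow 2), Finset.mul_sum]
  refine Finset.sum_congr rfl fun d' _ => ?_
  unfold Wi
  have h3 : (fun z => φ z * (‖G d' z‖ ^ 2 * ‖G d z‖ ^ 2)) =
      fun z => φ z * (‖G d z‖ ^ 2 * ‖G d' z‖ ^ 2) := by
    funext z
    ring
  rw [h3]
  ring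

/-- `∫ φ S² ≤ B` -/
lemma sq_le (hc : ∀ n, Continuous (G n)) {φ : ℂ → ℝ} (hφ : TestP V φ) {a : ℤ → ℝ} {D : ℕ}
    {β B : ℝ} (hk : Ker a D β) (hB : ∀ d : ℤ, |d| ≤ D → ∫ z, φ z * ‖G d z‖ ^ 4 ≤ B) :
    ∫ z, φ z * Sa a D G z ^ 2 ≤ B := by
  have hi : ∀ d : ℤ, Integrable fun z => φ z * ‖G d z‖ ^ 4 := fun d =>
    Sq.KeyM.integrable hφ ((hc d).norm.pow 4)
  have h1 : ∀ z, φ z * Sa a D G z ^ 2 ≤
      ∑ d ∈ Finset.Icc (-(D : ℤ)) (D : ℤ), a d * (φ z * ‖G d z‖ ^ 4) := by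
    intro z
    have h2 : Sa a D G z ^ 2 ≤ ∑ d ∈ Finset.Icc (-(D : ℤ)) (D : ℤ), a d * ‖G d z‖ ^ 4 := by
      have h3 := Finset.sum_sq_le_sum_mul_sum_of_sq_le_mul
        (Finset.Icc (-(D : ℤ)) (D : ℤ)) (r := fun d => a d * ‖G d z‖ ^ 2)
        (f := fun d => a d) (g := fun d => a d * ‖G d z‖ ^ 4)
        (fun d _ => hk.nonneg d) (fun d _ => mul_nonneg (hk.nonneg d) (by positivity))
        (fun d _ => le_of_eq (by ring))
      rw [hk.sum, one_mul] at h3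
      exact h3
    calc φ z * Sa a D G z ^ 2 ≤ φ z * ∑ d ∈ Finset.Icc (-(D : ℤ)) (D : ℤ), a d * ‖G d z‖ ^ 4 :=
          mul_le_mul_of_nonneg_left h2 (hφ.nonneg z)
      _ = _ := by
          rw [Finset.mul_sum]
          exact Finset.sum_congr rfl fun d _ => by ring
  calc ∫ z, φ z * Sa a D G z ^ 2 ≤ ∫ z, ∑ d ∈ Finset.Icc (-(D : ℤ)) (D : ℤ),
        a d * (φ z * ‖G d z‖ ^ 4) :=
        integral_mono (Sq.KeyM.integrable hφ ((contSa hc a D).pow 2))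
          (integrable_finsetSum _ fun d _ => (hi d).const_mul _) h1
    _ = ∑ d ∈ Finset.Icc (-(D : ℤ)) (D : ℤ), a d * ∫ z, φ z * ‖G d z‖ ^ 4 := by
        rw [integral_finsetSum _ fun d _ => (hi d).const_mul _]
        exact Finset.sum_congr rfl fun d _ => integral_const_mul _ _
    _ ≤ ∑ d ∈ Finset.Icc (-(D : ℤ)) (D : ℤ), a d * B := by
        refine Finset.sum_le_sum fun d hd => mul_le_mul_of_nonneg_left (hB d ?_) (hk.nonneg d)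
        rw [Finset.mem_Icc] at hd
        exact abs_le.mpr hd
    _ = B := by rw [← Finset.sum_mul, hk.sum, one_mul]

/-- the masses of the averages converge -/
lemma mass {t : ℕ → ℝ} {G : ℕ → ℤ → ℂ → ℂ} (hF : Fam V t G) {φ : ℂ → ℝ} (hφ : TestP V φ)
    {a : ℤ → ℝ} {D : ℕ} {β : ℝ} (hk : Ker a D β) :
    Tendsto (fun i => ∫ z, φ z * Sa a D (G i) z) atTop (𝓝 (∫ z, φ z)) := by
  have h1 : (fun i => ∫ z, φ z * Sa a D (G i) z) = fun i =>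
      ∑ d ∈ Finset.Icc (-(D : ℤ)) (D : ℤ), a d * ∫ z, φ z * ‖G i d z‖ ^ 2 := by
    funext i
    exact int_sa_one (fun n => ((hF.tow i).smooth n).continuous) hφ a D
  have h2 : ∫ z, φ z = ∑ d ∈ Finset.Icc (-(D : ℤ)) (D : ℤ), a d * ∫ z, φ z := by
    rw [← Finset.sum_mul, hk.sum, one_mul]
  rw [h1, h2]
  exact tendsto_finsetSum _ fun d _ => (hF.mass φ hφ d).const_mul (a d)

/-- the constant weight -/
lemma wgt_one {s : ℝ} (hs : 0 ≤ s) : Wgt (fun _ => (1 : ℝ)) s where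
  smooth := contDiff_const
  nonneg := fun _ => zero_le_one
  le_one := fun _ => le_rfl
  grad := fun z => by
    have h : fderiv ℝ (fun _ : ℂ => (1 : ℝ)) z = 0 := by simp
    rw [h, norm_zero]
    exact hs

/-- the estimate for one tower -/
lemma one_tower {φ : ℂ → ℝ} (hφ : TestP V φ) (hc : ∀ n, Continuous (G n)) {N : ℕ}
    (hK1 : Ker (KK N) (2 * N) (((2 * (N : ℝ) + 1) ^ 2)⁻¹))
    (hK2 : Ker (K2 N) (4 * N) (((2 * (N : ℝ) + 1) ^ 2)⁻¹))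
    (hK4 : ∀ w : ℤ → ℝ, (∑ d ∈ Finset.Icc (-((2 * N : ℕ) : ℤ)) ((2 * N : ℕ) : ℤ),
      ∑ d' ∈ Finset.Icc (-((2 * N : ℕ) : ℤ)) ((2 * N : ℕ) : ℤ),
        KK N d * KK N d' * ((w (d + d') + w (d - d')) / 2)) =
      ∑ m ∈ Finset.Icc (-((4 * N : ℕ) : ℤ)) ((4 * N : ℕ) : ℤ), K2 N m * w m)
    {ρ B η x : ℝ} (hB : ∀ d : ℤ, |d| ≤ ((4 * N : ℕ) : ℤ) → ∫ z, φ z * ‖G d z‖ ^ 4 ≤ B)
    (hx0 : 0 ≤ x)
    (hcos : ∀ n m : ℤ, |n| + |m| ≤ ((4 * N : ℕ) : ℤ) →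
      |Wi φ G n m - (Wi φ G (n + m) 0 + Wi φ G (n - m) 0) / 2| ≤ η)
    (hsm : |(∫ z, φ z * (Sa (K2 N) (4 * N) G z * Ed ρ (fun w => ‖G 0 w‖ ^ 2) z)) -
        ∫ z, φ z * (Sa (K2 N) (4 * N) G z * ‖G 0 z‖ ^ 2)| ≤ 2 * η)
    (hvar : ∫ z, φ z * (Ed ρ (fun w => ‖G 0 w‖ ^ 2) z - 1) ^ 2 ≤ x ^ 2)
    (hm1 : |(∫ z, φ z * Sa (KK N) (2 * N) G z) - ∫ z, φ z| ≤ η)
    (hm2 : |(∫ z, φ z * Sa (K2 N) (4 * N) G z) - ∫ z, φ z| ≤ η) :
    ∫ z, φ z * (Sa (KK N) (2 * N) G z - 1) ^ 2 ≤ √B * x + 7 * η := by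
  have cS := contSa hc (KK N) (2 * N)
  have cS2 := contSa hc (K2 N) (4 * N)
  have cE : Continuous (Ed ρ fun w => ‖G 0 w‖ ^ 2) := Pl.continuous_Ed ((hc 0).norm.pow 2) ρ
  -- the square
  have a1 : ∫ z, φ z * Sa (KK N) (2 * N) G z ^ 2 ≤
      (∑ m ∈ Finset.Icc (-((4 * N : ℕ) : ℤ)) ((4 * N : ℕ) : ℤ), K2 N m * Wi φ G m 0) + η := by
    rw [int_sq hc hφ, ← hK4 (fun m => Wi φ G m 0)]
    have hη : η = ∑ d ∈ Finset.Icc (-((2 * N : ℕ) : ℤ)) ((2 * N : ℕ) : ℤ),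
        ∑ d' ∈ Finset.Icc (-((2 * N : ℕ) : ℤ)) ((2 * N : ℕ) : ℤ), KK N d * KK N d' * η := by
      have e1 : ∀ d : ℤ, ∑ d' ∈ Finset.Icc (-((2 * N : ℕ) : ℤ)) ((2 * N : ℕ) : ℤ),
          KK N d * KK N d' * η = KK N d * η := by
        intro d
        rw [← Finset.sum_mul, ← Finset.mul_sum, hK1.sum, mul_one]
      rw [Finset.sum_congr rfl fun d _ => e1 d, ← Finset.sum_mul, hK1.sum, one_mul]
    rw [hη, ← Finset.sum_add_distrib]
    refine Finset.sum_le_sum fun d hd => ?_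
    rw [← Finset.sum_add_distrib]
    refine Finset.sum_le_sum fun d' hd' => ?_
    rw [Finset.mem_Icc] at hd hd'
    have e2 : |d| + |d'| ≤ ((4 * N : ℕ) : ℤ) := by
      have e3 := abs_le.mpr hd
      have e4 := abs_le.mpr hd'
      push_cast at e3 e4 ⊢
      linarith
    have e5 := (abs_le.mp (hcos d d' e2)).2
    have e6 : 0 ≤ KK N d * KK N d' := mul_nonneg (hK1.nonneg d) (hK1.nonneg d')
    have e7 : Wi φ G d d' ≤ (Wi φ G (d + d') 0 + Wi φ G (d - d') 0) / 2 + η := by linarith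
    calc KK N d * KK N d' * Wi φ G d d' ≤
          KK N d * KK N d' * ((Wi φ G (d + d') 0 + Wi φ G (d - d') 0) / 2 + η) :=
          mul_le_mul_of_nonneg_left e7 e6
      _ = _ := by ring
  have a2 : (∑ m ∈ Finset.Icc (-((4 * N : ℕ) : ℤ)) ((4 * N : ℕ) : ℤ), K2 N m * Wi φ G m 0) =
      ∫ z, φ z * (Sa (K2 N) (4 * N) G z * ‖G 0 z‖ ^ 2) := by
    rw [int_sa hc hφ _ _ (F := fun z => ‖G 0 z‖ ^ 2) ((hc 0).norm.pow 2)]
    rfl
  have a3 := (abs_le.mp hsm).1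
  -- the local means
  have a4 : ∫ z, φ z * (Sa (K2 N) (4 * N) G z * Ed ρ (fun w => ‖G 0 w‖ ^ 2) z) =
      (∫ z, φ z * Sa (K2 N) (4 * N) G z) +
        ∫ z, φ z * (Sa (K2 N) (4 * N) G z * (Ed ρ (fun w => ‖G 0 w‖ ^ 2) z - 1)) := by
    have i2 : Integrable fun z =>
        φ z * (Sa (K2 N) (4 * N) G z * (Ed ρ (fun w => ‖G 0 w‖ ^ 2) z - 1)) :=
      Sq.KeyM.integrable hφ (cS2.mul (cE.sub continuous_const))
    rw [← integral_add (Sq.KeyM.integrable hφ cS2) i2]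
    refine integral_congr_ae (Filter.Eventually.of_forall fun z => ?_)
    show φ z * (Sa (K2 N) (4 * N) G z * Ed ρ (fun w => ‖G 0 w‖ ^ 2) z) =
      φ z * Sa (K2 N) (4 * N) G z +
        φ z * (Sa (K2 N) (4 * N) G z * (Ed ρ (fun w => ‖G 0 w‖ ^ 2) z - 1))
    ring
  have a5 : ∫ z, φ z * (Sa (K2 N) (4 * N) G z * (Ed ρ (fun w => ‖G 0 w‖ ^ 2) z - 1)) ≤ √B * x := by
    have e1 := Sq.KeyM.cs (F := Sa (K2 N) (4 * N) G)
      (H := fun z => Ed ρ (fun w => ‖G 0 w‖ ^ 2) z - 1) hφ cS2 (cE.sub continuous_const)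
    have e2 : √(∫ z, φ z * Sa (K2 N) (4 * N) G z ^ 2) ≤ √B :=
      Real.sqrt_le_sqrt (sq_le hc hφ hK2 hB)
    have e3 : √(∫ z, φ z * (Ed ρ (fun w => ‖G 0 w‖ ^ 2) z - 1) ^ 2) ≤ x :=
      (Real.sqrt_le_sqrt hvar).trans (le_of_eq (Real.sqrt_sq hx0))
    exact e1.trans (mul_le_mul e2 e3 (Real.sqrt_nonneg _) (Real.sqrt_nonneg _))
  -- expand the square
  have a6 : ∫ z, φ z * (Sa (KK N) (2 * N) G z - 1) ^ 2 =
      (∫ z, φ z * Sa (KK N) (2 * N) G z ^ 2) - 2 * (∫ z, φ z * Sa (KK N) (2 * N) G z) +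
        ∫ z, φ z := by
    have i1 : Integrable fun z => φ z * Sa (KK N) (2 * N) G z ^ 2 :=
      Sq.KeyM.integrable hφ (cS.pow 2)
    have i2 : Integrable fun z => 2 * (φ z * Sa (KK N) (2 * N) G z) :=
      (Sq.KeyM.integrable hφ cS).const_mul 2
    have i3 : Integrable fun z => φ z := by
      have := Sq.KeyM.integrable hφ (continuous_const (y := (1 : ℝ)))
      simpa using this
    have i4 : Integrable fun z => φ z * Sa (KK N) (2 * N) G z ^ 2 -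
        2 * (φ z * Sa (KK N) (2 * N) G z) := i1.sub i2
    rw [← integral_const_mul, ← integral_sub i1 i2, ← integral_add i4 i3]
    refine integral_congr_ae (Filter.Eventually.of_forall fun z => ?_)
    show φ z * (Sa (KK N) (2 * N) G z - 1) ^ 2 =
      φ z * Sa (KK N) (2 * N) G z ^ 2 - 2 * (φ z * Sa (KK N) (2 * N) G z) + φ z
    ring
  have a7 := (abs_le.mp hm1).1
  have a8 := (abs_le.mp hm2).2
  have hη0 : 0 ≤ η := (abs_nonneg _).trans hm1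
  rw [a6]
  rw [a2] at a1
  rw [a4] at a3
  linarith

end Sq1M

end

open Sq1M in
theorem stmtSq1 (hC : StmtCsE) (hS : StmtSmA) (hK : StmtK2s) : StmtSq1 := by
  intro V t G hF φ hφ ε hε
  obtain ⟨ζ₁, C₁, hζ₁, hC₁, hCs⟩ := hC V hF.isOpen hF.sub φ hφ
  obtain ⟨ζ₂, C₂, r0, hζ₂, hC₂, hr0, hSm⟩ := hS V hF.isOpen hF.sub φ hφ
  obtain ⟨ζ, hζ, z0, z1, z2, -⟩ := Sq.KeyM.major hF.isOpen hφ hζ₁ hζ₂ hφ
  obtain ⟨B, hB1, hUp⟩ := hF.up hζ
  have hB0 : 0 < B := lt_of_lt_of_le one_pos hB1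
  obtain ⟨x, hx0, hx1, hx2⟩ : ∃ x : ℝ, 0 < x ∧ x ≤ 1 ∧ (√B + 7) * x ≤ ε := by
    have hs : 0 < √B + 7 := by positivity
    refine ⟨min 1 (ε / (√B + 7)), lt_min one_pos (div_pos hε hs), min_le_left _ _, ?_⟩
    calc (√B + 7) * min 1 (ε / (√B + 7)) ≤ (√B + 7) * (ε / (√B + 7)) :=
          mul_le_mul_of_nonneg_left (min_le_right _ _) hs.le
      _ = ε := by field_simp
  have hη : 0 < x ^ 2 := by positivity
  obtain ⟨R, ρ, hR, hvar⟩ := hF.var φ hφ (x ^ 2) hη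
  have hA0 : 0 ≤ C₂ * R * B := by positivity
  refine ⟨⌈C₂ * R * B * 2 / x ^ 2⌉₊, fun N hN => ?_⟩
  have hN' : C₂ * R * B * 2 ≤ x ^ 2 * N := by
    have h1 : C₂ * R * B * 2 / x ^ 2 ≤ (N : ℝ) := (Nat.le_ceil _).trans (by exact_mod_cast hN)
    rw [div_le_iff₀ hη] at h1
    linarith
  have hN0 : (0 : ℝ) ≤ N := Nat.cast_nonneg N
  obtain ⟨hK1, hK2, -, hK4⟩ := hK N
  -- the slope
  obtain ⟨e, he0, he1, he2⟩ : ∃ e : ℝ, 0 < e ∧ C₂ * R * B * e ≤ x ^ 2 ∧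
      C₁ * ((((4 * N : ℕ) : ℝ) + 1) ^ 2 * B * e) ≤ x ^ 2 := by
    have hp : 0 ≤ C₁ * ((((4 * N : ℕ) : ℝ) + 1) ^ 2 * B) := by positivity
    have hq : 0 < C₂ * R * B + C₁ * ((((4 * N : ℕ) : ℝ) + 1) ^ 2 * B) + 1 := by positivity
    have hr : (C₂ * R * B + C₁ * ((((4 * N : ℕ) : ℝ) + 1) ^ 2 * B) + 1) *
        (x ^ 2 / (C₂ * R * B + C₁ * ((((4 * N : ℕ) : ℝ) + 1) ^ 2 * B) + 1)) = x ^ 2 := by
      field_simp
    refine ⟨x ^ 2 / (C₂ * R * B + C₁ * ((((4 * N : ℕ) : ℝ) + 1) ^ 2 * B) + 1), div_pos hη hq, ?_, ?_⟩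
    · refine le_trans (mul_le_mul_of_nonneg_right ?_ (div_pos hη hq).le) hr.le
      linarith
    · rw [← mul_assoc]
      refine le_trans (mul_le_mul_of_nonneg_right ?_ (div_pos hη hq).le) hr.le
      linarith
  have ev1 : ∀ᶠ i in atTop, max (max 1 (e⁻¹)) (max ((((4 * N : ℕ) : ℝ) + 2) ^ 2) (R / r0)) ≤ t i :=
    hF.lim.eventually_ge_atTop _
  have ev2 := (Sq1M.mass hF hφ hK1).eventually (Metric.ball_mem_nhds _ hη)
  have ev3 := (Sq1M.mass hF hφ hK2).eventually (Metric.ball_mem_nhds _ hη)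
  filter_upwards [ev1, ev2, ev3, hvar, hUp (4 * N + 1)] with i h1 h2 h3 h4 h5
  obtain ⟨hρ0, hρR, hv⟩ := h4
  have t1 : 1 ≤ t i := ((le_max_left _ _).trans (le_max_left _ _)).trans h1
  have t2 : e⁻¹ ≤ t i := ((le_max_right _ _).trans (le_max_left _ _)).trans h1
  have t3 : (((4 * N : ℕ) : ℝ) + 2) ^ 2 ≤ t i :=
    ((le_max_left _ _).trans (le_max_right _ _)).trans h1
  have t4 : R / r0 ≤ t i := ((le_max_right _ _).trans (le_max_right _ _)).trans h1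
  have ht0 : 0 < t i := lt_of_lt_of_le one_pos t1
  have het : 1 ≤ e * t i := by
    have := mul_le_mul_of_nonneg_left t2 he0.le
    rwa [mul_inv_cancel₀ he0.ne'] at this
  have hρr : ρ i ≤ r0 := by
    rw [div_le_iff₀ hr0] at t4
    have h6 : ρ i * t i ≤ r0 * t i := by linarith [mul_comm (t i) r0]
    exact le_of_mul_le_mul_right h6 ht0
  have hT := hF.tow i
  have hc : ∀ n, Continuous (G i n) := fun n => (hT.smooth n).continuous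
  have up : ∀ ψ : ℂ → ℝ, TestP V ψ → (∀ z, ψ z ≤ ζ z) → Up ψ (G i) (4 * N + 1) B :=
    fun ψ hψ hle n hn => (Sq.KeyM.mono (F := fun z => ‖G i n z‖ ^ 4) hψ hζ hle
      ((hc n).norm.pow 4) fun z => by positivity).trans (h5 n hn)
  have hw := wgt_one (s := e * t i) (mul_nonneg he0.le ht0.le)
  -- the cosine law
  have c1 := ((hCs (t i) (G i) t1 hT _ e het hw (4 * N) B).1 t3 (up ζ₁ hζ₁ z1)).1
  simp only [mul_one] at c1
  have c2 : ∀ n m : ℤ, |n| + |m| ≤ ((4 * N : ℕ) : ℤ) →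
      |Wi φ (G i) n m - (Wi φ (G i) (n + m) 0 + Wi φ (G i) (n - m) 0) / 2| ≤ x ^ 2 :=
    fun n m hnm => (c1 n m hnm).trans he2
  -- small scales
  have d0 : (((4 * N : ℕ) : ℝ)) + 1 ≤ t i := by
    have h7 : (0 : ℝ) ≤ ((4 * N : ℕ) : ℝ) := Nat.cast_nonneg _
    nlinarith
  have d1 := hSm (t i) (G i) t1 hT _ e het hw (K2 N) (4 * N) _ B (ρ i) hK2 d0 (up ζ₂ hζ₂ z2)
    hρ0 hρr
  simp only [mul_one] at d1
  have d2 : C₂ * (ρ i * t i * ((((2 * (N : ℝ) + 1) ^ 2)⁻¹) * (((4 * N : ℕ) : ℝ) + 1) + e)) * B ≤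
      2 * x ^ 2 := by
    have h8 : (((2 * (N : ℝ) + 1) ^ 2)⁻¹) * (((4 * N : ℕ) : ℝ) + 1) ≤ 2 / (2 * (N : ℝ) + 1) := by
      rw [inv_mul_eq_div, div_le_div_iff₀ (by positivity) (by positivity)]
      push_cast
      nlinarith
    have h9 : C₂ * R * B * (2 / (2 * (N : ℝ) + 1)) ≤ x ^ 2 := by
      rw [mul_div_assoc', div_le_iff₀ (by positivity)]
      nlinarith
    have h10 : 0 ≤ (((2 * (N : ℝ) + 1) ^ 2)⁻¹) * (((4 * N : ℕ) : ℝ) + 1) + e := by positivity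
    calc C₂ * (ρ i * t i * ((((2 * (N : ℝ) + 1) ^ 2)⁻¹) * (((4 * N : ℕ) : ℝ) + 1) + e)) * B ≤
          C₂ * (R * ((((2 * (N : ℝ) + 1) ^ 2)⁻¹) * (((4 * N : ℕ) : ℝ) + 1) + e)) * B := by
          refine mul_le_mul_of_nonneg_right (mul_le_mul_of_nonneg_left ?_ hC₂) hB0.le
          exact mul_le_mul_of_nonneg_right hρR h10
      _ ≤ C₂ * (R * (2 / (2 * (N : ℝ) + 1) + e)) * B := by
          refine mul_le_mul_of_nonneg_right (mul_le_mul_of_nonneg_left ?_ hC₂) hB0.le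
          exact mul_le_mul_of_nonneg_left (by linarith) hR.le
      _ = C₂ * R * B * (2 / (2 * (N : ℝ) + 1)) + C₂ * R * B * e := by ring
      _ ≤ 2 * x ^ 2 := by linarith
  have e1 := one_tower (x := x) hφ hc hK1 hK2 hK4 (ρ := ρ i) (B := B) (η := x ^ 2)
    (fun d hd => up φ hφ z0 d (hd.trans (by push_cast; linarith))) hx0.le c2 (d1.trans d2) hv
    (le_of_lt (by rw [← Real.dist_eq]; exact h2)) (le_of_lt (by rw [← Real.dist_eq]; exact h3))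
  refine e1.trans (le_trans ?_ hx2)
  have h11 : x ^ 2 ≤ x := by nlinarith
  linarith

end Pool.Agent.A54.Vd
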