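import Pool.Agent.Lib.MP_a54f13_nt.Vd.SpecU
import Pool.Agent.Lib.MP_a54f13_nt.Pl.U2

/-!
# Module Tra: from the fundamental domain to the plane
-/

set_option autoImplicit false

namespace Pool.Agent.A54.Vd

open MeasureTheory Filter Topology Set
open scoped ContDiff ComplexConjugate UpperHalfPlane MatrixGroups ENNReal
open Pool.Agent.A54.Half (H0 qq ff hh)
open Pool.Agent.A54.Sq (TestP la Tow pp Wi Pj Up KK SS CosH)
open Pool.Agent.A54.Pl (Ed mean)

noncomputable section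

namespace TraM

open Pool.Agent.A54.X

/-- `ζ Φ(g)` is integrable on the half-plane -/
lemma integrable_phi {ζ : ℂ → ℝ} (hζ : TestR H0 ζ) (hζ0 : ∀ z, 0 ≤ ζ z) {g : ℍ → ℝ} (hg : Continuous g)
    {Φ : ℝ → ℝ} (hΦm : Measurable Φ) (hΦ0 : ∀ x, 0 ≤ Φ x) {B : ℝ} (hB : ∀ x, Φ x ≤ B * (1 + x ^ 4)) :
    Integrable fun z : ℍ => ζ z * Φ (g z) := by
  have h1 : Continuous fun z : ℍ => B * (1 + g z ^ 4) :=
    continuous_const.mul (continuous_const.add (hg.pow 4))
  have h2 := Pl.U2M.integrable_test hζ h1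
  have hζc : Continuous fun z : ℍ => ζ z :=
    hζ.smooth.continuous.comp UpperHalfPlane.continuous_coe
  have hm : Measurable fun z : ℍ => ζ z * Φ (g z) :=
    hζc.measurable.mul (hΦm.comp hg.measurable)
  refine h2.mono' hm.aestronglyMeasurable (Eventually.of_forall fun z => ?_)
  rw [Real.norm_eq_abs, abs_of_nonneg (mul_nonneg (hζ0 z) (hΦ0 _))]
  exact mul_le_mul_of_nonneg_left (hB _) (hζ0 z)

/-- the integral over the half-plane as an integral over the plane -/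
lemma int_phi (hI : StmtInt) {ζ : ℂ → ℝ} (hζ : TestR H0 ζ) (g : ℍ → ℝ) (Φ : ℝ → ℝ) :
    ∫ z : ℍ, ζ z * Φ (g z) = ∫ z : ℂ, (ζ z * (z.im)⁻¹ ^ 2) * Φ (ext g z) := by
  have h0 : ∀ z : ℂ, z.im ≤ 0 → ζ z * Φ (ext g z) = 0 := by
    intro z hz
    have h3 : z ∉ tsupport ζ := fun h => (not_lt.mpr hz) (hζ.sub h)
    rw [image_eq_zero_of_notMem_tsupport h3, zero_mul]
  have e1 := hI.1 _ h0
  have e2 : ∫ z : ℍ, ζ z * Φ (g z) = ∫ z : ℍ, ζ z * Φ (ext g z) := by
    simp only [Half.ext_coe]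
  rw [e2, e1]
  refine integral_congr_ae (Eventually.of_forall fun z => ?_)
  simp only
  rw [div_eq_mul_inv, inv_pow]
  ring

end TraM

open TraM in
theorem stmtTra (hI : StmtInt) : StmtTra := by
  intro ψ hψ hψ0
  obtain ⟨Y, hY⟩ := hψ.cusp
  have hψc : Continuous ψ := X.continuous_of_ext hψ.smooth
  have hYo : ∀ z ∈ ModularGroup.fdo, Y < z.im → ψ z = 0 := fun z hz h =>
    hY z (ModularGroup.fdo_subset_fd hz) h
  have hT : IsCompact (ModularGroup.truncatedFundamentalDomain Y) :=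
    ModularGroup.isCompact_truncatedFundamentalDomain Y
  obtain ⟨B₀, hB₀⟩ := hT.exists_bound_of_continuousOn hψc.continuousOn
  obtain ⟨B, hBd⟩ : ∃ B, B = max B₀ 0 := ⟨_, rfl⟩
  have hB0 : 0 ≤ B := hBd ▸ le_max_right B₀ 0
  have hψB : ∀ z ∈ ModularGroup.truncatedFundamentalDomain Y, ψ z ≤ B := by
    intro z hz
    have h1 := hB₀ z hz
    rw [Real.norm_eq_abs] at h1
    exact (le_abs_self _).trans (h1.trans (hBd ▸ le_max_left B₀ 0))
  obtain ⟨ζ, hζ, hζ1, hζT⟩ := exists_cutoff (hT.image UpperHalfPlane.continuous_coe)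
    Half.isOpen_H0 (by
      rintro _ ⟨z, -, rfl⟩
      exact z.im_pos)
  have hζT' : ∀ z ∈ ModularGroup.truncatedFundamentalDomain Y, ζ (z : ℍ) = 1 := fun z hz =>
    hζT.self_of_nhdsSet _ ⟨z, hz, rfl⟩
  refine ⟨fun z => ζ z * (z.im)⁻¹ ^ 2, B, ⟨Half.testR_weight subset_rfl hζ, fun z =>
    mul_nonneg (hζ1 z).1 (sq_nonneg _)⟩, hB0, ?_⟩
  intro g hg Φ hΦm hΦ0 hΦB
  obtain ⟨Bg, hBg⟩ := hΦB
  have hint := integrable_phi hζ (fun z => (hζ1 z).1) hg hΦm hΦ0 hBg
  have hint2 : Integrable fun z : ℍ => B * (ζ z * Φ (g z)) := hint.const_mul B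
  calc ∫ z in ModularGroup.fdo, ψ z * Φ (g z)
      ≤ ∫ z in ModularGroup.fdo, B * (ζ z * Φ (g z)) := by
        refine integral_mono_of_nonneg (Eventually.of_forall fun z => mul_nonneg (hψ0 z) (hΦ0 _))
          hint2.integrableOn ?_
        refine (ae_restrict_iff' X.measurableSet_fdo).2 (Eventually.of_forall fun z hz => ?_)
        simp only
        by_cases h : Y < z.im
        · rw [hYo z hz h, zero_mul]
          exact mul_nonneg hB0 (mul_nonneg (hζ1 z).1 (hΦ0 _))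
        · have hzT := X.fdo_inter_sub Y ⟨hz, not_lt.mp h⟩
          rw [hζT' z hzT, one_mul]
          exact mul_le_mul_of_nonneg_right (hψB z hzT) (hΦ0 _)
    _ ≤ ∫ z : ℍ, B * (ζ z * Φ (g z)) :=
        setIntegral_le_integral hint2 (Eventually.of_forall fun z =>
          mul_nonneg hB0 (mul_nonneg (hζ1 z).1 (hΦ0 _)))
    _ = B * ∫ z : ℂ, (ζ z * (z.im)⁻¹ ^ 2) * Φ (ext g z) := by
        rw [integral_const_mul, int_phi hI hζ]

end

end Pool.Agent.A54.Vd
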