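import Pool.Agent.Lib.MP_a54f13_nt.Vd.SpecU

/-!
# Package `Vd`, module `UIL`: uniform integrability of the fourth powers, local version
-/

set_option autoImplicit false

namespace Pool.Agent.A54.Vd

open MeasureTheory Filter Topology Set
open scoped ContDiff ComplexConjugate UpperHalfPlane MatrixGroups ENNReal
open Pool.Agent.A54.Half (H0 qq ff hh)
open Pool.Agent.A54.Sq (TestP la Tow pp Wi Pj Up KK SS CosH)
open Pool.Agent.A54.Pl (Ed mean)

theorem stmtUIL (hK : StmtKyW) (hW : StmtWtt) : StmtUIL := by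
  intro V t G hF φ hφ ε hε
  obtain ⟨e, δ, he, hδ, h1⟩ := hK V t G hF φ hφ ε hε
  obtain ⟨C, hC, h2⟩ := hW V t G hF φ hφ e he
  have hH : 0 < (C + 1) / δ := by positivity
  refine ⟨(C + 1) / δ, ?_⟩
  filter_upwards [h1, h2 _ hH] with i hi1 hi2
  obtain ⟨w, hw, hw1, hw2⟩ := hi2
  have h3 : C / ((C + 1) / δ) ≤ δ := by
    rw [div_le_iff₀ hH]
    have : δ * ((C + 1) / δ) = C + 1 := by field_simp
    rw [this]
    linarith
  refine le_trans ?_ (hi1 w hw (hw2.trans h3))
  have hcw : Continuous w := hw.smooth.continuous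
  have hcG : Continuous (G i 0) := ((hF.tow i).smooth 0).continuous
  refine integral_mono_of_nonneg (Eventually.of_forall fun z => ?_) ?_ (Eventually.of_forall fun z => ?_)
  · exact mul_nonneg (hφ.nonneg z) (Set.indicator_nonneg (fun x _ => by positivity) z)
  · refine Continuous.integrable_of_hasCompactSupport ?_ ?_
    · exact (hφ.test.smooth.continuous.mul hcw).mul (hcG.norm.pow 4)
    · exact (hφ.test.cpt.mul_right).mul_right
  · show φ z * _ ≤ φ z * w z * ‖G i 0 z‖ ^ 4
    rw [mul_assoc]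
    by_cases hz : z ∈ tsupport φ
    · refine mul_le_mul_of_nonneg_left ?_ (hφ.nonneg z)
      by_cases hz2 : z ∈ {x : ℂ | (C + 1) / δ < ‖G i 0 x‖ ^ 2}
      · rw [Set.indicator_of_mem hz2, hw1 z hz hz2, one_mul]
      · rw [Set.indicator_of_notMem hz2]
        exact mul_nonneg (hw.nonneg z) (by positivity)
    · rw [image_eq_zero_of_notMem_tsupport hz]
      simp

end Pool.Agent.A54.Vd
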