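import Pool.Agent.Lib.MP_a54f13_nt.Vd.SpecU

/-!
# Vd, part U: weights for the large values (`stmtWtt`)
-/

set_option autoImplicit false

namespace Pool.Agent.A54.Vd

open MeasureTheory Filter Topology Set
open scoped ContDiff ComplexConjugate UpperHalfPlane MatrixGroups ENNReal Convolution
open Pool.Agent.A54.Half (H0 qq ff hh)
open Pool.Agent.A54.Sq (TestP la Tow pp Wi Pj Up KK SS CosH)
open Pool.Agent.A54.Pl (Ed mean)

noncomputable section

namespace WttM

/-- the bump function -/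
def bb : ContDiffBump (0 : ℂ) := ⟨1 / 2, 1, by norm_num, by norm_num⟩

/-- the kernel -/
def kk : ℂ → ℝ := bb.normed volume

lemma kk_smooth : ContDiff ℝ ∞ kk := bb.contDiff_normed

lemma kk_cpt : HasCompactSupport kk := bb.hasCompactSupport_normed

lemma kk_nonneg (z : ℂ) : 0 ≤ kk z := bb.nonneg_normed z

lemma kk_int : ∫ z, kk z = 1 := bb.integral_normed

lemma kk_integrable : Integrable kk := bb.integrable_normed

lemma kk_ne {z : ℂ} (h : kk z ≠ 0) : ‖z‖ < 1 := by
  have h1 : z ∈ Function.support (bb.normed volume) := h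
  rw [bb.support_normed_eq] at h1
  simpa [bb] using h1

/-- the indicator function -/
def one (E : Set ℂ) : ℂ → ℝ := E.indicator fun _ => 1

lemma one_nonneg (E : Set ℂ) (z : ℂ) : 0 ≤ one E z := indicator_nonneg (fun _ _ => zero_le_one) z

lemma one_le (E : Set ℂ) (z : ℂ) : one E z ≤ 1 := by
  unfold one
  by_cases h : z ∈ E
  · rw [indicator_of_mem h]
  · rw [indicator_of_notMem h]; exact zero_le_one

lemma locInt {E : Set ℂ} (hE : MeasurableSet E) : LocallyIntegrable (one E) volume := by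
  have h1 : LocallyIntegrable (fun _ : ℂ => (1 : ℝ)) volume := locallyIntegrable_const 1
  exact h1.indicator hE

/-- the mollified indicator function, scale one -/
def mo (E : Set ℂ) : ℂ → ℝ := kk ⋆[ContinuousLinearMap.mul ℝ ℝ, volume] one E

lemma mo_eq (E : Set ℂ) (z : ℂ) : mo E z = ∫ t, kk t * one E (z - t) := rfl

lemma meas_one {E : Set ℂ} (hE : MeasurableSet E) (z : ℂ) :
    AEStronglyMeasurable (fun t => one E (z - t)) volume :=
  ((measurable_const.indicator hE : Measurable (one E)).comp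
    (measurable_const.sub measurable_id)).aestronglyMeasurable

lemma int_one {E : Set ℂ} (hE : MeasurableSet E) (z : ℂ) :
    Integrable (fun t => kk t * one E (z - t)) := by
  refine kk_integrable.mono (kk_integrable.aestronglyMeasurable.mul (meas_one hE z)) ?_
  refine Eventually.of_forall fun t => ?_
  rw [norm_mul]
  have h1 : ‖one E (z - t)‖ ≤ 1 := by
    rw [Real.norm_eq_abs, abs_of_nonneg (one_nonneg E _)]
    exact one_le E _
  calc ‖kk t‖ * ‖one E (z - t)‖ ≤ ‖kk t‖ * 1 := mul_le_mul_of_nonneg_left h1 (norm_nonneg _)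
    _ = ‖kk t‖ := mul_one _

lemma mo_smooth {E : Set ℂ} (hE : MeasurableSet E) : ContDiff ℝ ∞ (mo E) :=
  kk_cpt.contDiff_convolution_left _ kk_smooth (locInt hE)

lemma mo_nonneg (E : Set ℂ) (z : ℂ) : 0 ≤ mo E z := by
  rw [mo_eq]
  exact integral_nonneg fun t => mul_nonneg (kk_nonneg t) (one_nonneg E _)

lemma mo_le {E : Set ℂ} (hE : MeasurableSet E) (z : ℂ) : mo E z ≤ 1 := by
  rw [mo_eq, ← kk_int]
  refine integral_mono (int_one hE z) kk_integrable fun t => ?_
  calc kk t * one E (z - t) ≤ kk t * 1 := mul_le_mul_of_nonneg_left (one_le E _) (kk_nonneg t)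
    _ = kk t := mul_one _

lemma mo_one {E : Set ℂ} {z : ℂ} (h : Metric.ball z 1 ⊆ E) : mo E z = 1 := by
  rw [mo_eq, ← kk_int]
  refine integral_congr_ae (Eventually.of_forall fun t => ?_)
  show kk t * one E (z - t) = kk t
  by_cases ht : kk t = 0
  · rw [ht, zero_mul]
  · have h1 : z - t ∈ E := h (by
      rw [Metric.mem_ball, dist_eq_norm]
      have : z - t - z = -t := by ring
      rw [this, norm_neg]
      exact kk_ne ht)
    unfold one
    rw [indicator_of_mem h1, mul_one]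

lemma mo_ne {E : Set ℂ} {z : ℂ} (h : mo E z ≠ 0) : ∃ x ∈ E, dist x z < 1 := by
  by_contra hc
  push Not at hc
  apply h
  rw [mo_eq]
  have h1 : ∀ t, kk t * one E (z - t) = 0 := by
    intro t
    by_cases ht : kk t = 0
    · rw [ht, zero_mul]
    · have h2 : z - t ∉ E := fun h3 => by
        have h4 := hc _ h3
        rw [dist_eq_norm] at h4
        have : z - t - z = -t := by ring
        rw [this, norm_neg] at h4
        exact absurd (kk_ne ht) (not_lt.2 h4)
      unfold one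
      rw [indicator_of_notMem h2, mul_zero]
  simp only [h1, integral_zero]

/-- the constant -/
def ck : ℝ := ∫ t, ‖fderiv ℝ kk t‖

lemma ck_nonneg : 0 ≤ ck := integral_nonneg fun _ => norm_nonneg _

lemma mo_grad {E : Set ℂ} (hE : MeasurableSet E) (z : ℂ) : ‖fderiv ℝ (mo E) z‖ ≤ ck := by
  have h1 : ContDiff ℝ 1 kk := kk_smooth.of_le (by
    exact_mod_cast le_top)
  have hd := kk_cpt.hasFDerivAt_convolution_left (𝕜 := ℝ) (ContinuousLinearMap.mul ℝ ℝ) h1 (locInt hE) z
  have e1 : fderiv ℝ (mo E) z =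
      (fderiv ℝ kk ⋆[(ContinuousLinearMap.mul ℝ ℝ).precompL ℂ, volume] one E) z := hd.fderiv
  have hc : Continuous (fderiv ℝ kk) := h1.continuous_fderiv one_ne_zero
  have hi : Integrable (fun t => ‖fderiv ℝ kk t‖) :=
    (hc.integrable_of_hasCompactSupport (kk_cpt.fderiv (𝕜 := ℝ))).norm
  rw [e1]
  unfold MeasureTheory.convolution
  refine norm_integral_le_of_norm_le hi (Eventually.of_forall fun t => ?_)
  refine ContinuousLinearMap.opNorm_le_bound _ (norm_nonneg _) fun x => ?_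
  rw [ContinuousLinearMap.precompL_apply]
  show ‖fderiv ℝ kk t x * one E (z - t)‖ ≤ _
  rw [norm_mul]
  have h2 : ‖one E (z - t)‖ ≤ 1 := by
    rw [Real.norm_eq_abs, abs_of_nonneg (one_nonneg E _)]
    exact one_le E _
  calc ‖fderiv ℝ kk t x‖ * ‖one E (z - t)‖ ≤ ‖fderiv ℝ kk t x‖ * 1 :=
        mul_le_mul_of_nonneg_left h2 (norm_nonneg _)
    _ = ‖fderiv ℝ kk t x‖ := mul_one _
    _ ≤ ‖fderiv ℝ kk t‖ * ‖x‖ := ContinuousLinearMap.le_opNorm _ _

/-- the mollified indicator function, scale `r` -/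
lemma moll {r : ℝ} (hr : 0 < r) {E : Set ℂ} (hE : IsOpen E) : ∃ w : ℂ → ℝ, Wgt w (ck / r) ∧
    (∀ z, Metric.ball z r ⊆ E → w z = 1) ∧ ∀ z, w z ≠ 0 → ∃ x ∈ E, dist x z < r := by
  set E' : Set ℂ := (fun x : ℂ => r • x) ⁻¹' E with hE'
  have hm : MeasurableSet E' := (hE.preimage (continuous_const_smul r)).measurableSet
  have hr0 : r ≠ 0 := hr.ne'
  refine ⟨fun z => mo E' (r⁻¹ • z), ⟨?_, fun z => mo_nonneg _ _, fun z => mo_le hm _, fun z => ?_⟩, ?_, ?_⟩
  · exact (mo_smooth hm).comp (contDiff_id.const_smul r⁻¹)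
  · have h1 : HasFDerivAt (mo E') (fderiv ℝ (mo E') (r⁻¹ • z)) (r⁻¹ • z) :=
      (((mo_smooth hm).differentiable (by norm_num)) _).hasFDerivAt
    have h2 : HasFDerivAt (fun z : ℂ => r⁻¹ • z) (r⁻¹ • ContinuousLinearMap.id ℝ ℂ) z :=
      (hasFDerivAt_id z).const_smul r⁻¹
    have h3 := h1.comp z h2
    have h4 : fderiv ℝ (fun z => mo E' (r⁻¹ • z)) z =
        (fderiv ℝ (mo E') (r⁻¹ • z)).comp (r⁻¹ • ContinuousLinearMap.id ℝ ℂ) := h3.fderiv
    rw [h4]
    refine ContinuousLinearMap.opNorm_le_bound _ (div_nonneg ck_nonneg hr.le) fun x => ?_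
    have h5 : ((fderiv ℝ (mo E') (r⁻¹ • z)).comp (r⁻¹ • ContinuousLinearMap.id ℝ ℂ)) x =
        fderiv ℝ (mo E') (r⁻¹ • z) (r⁻¹ • x) := rfl
    rw [h5]
    calc ‖fderiv ℝ (mo E') (r⁻¹ • z) (r⁻¹ • x)‖ ≤ ‖fderiv ℝ (mo E') (r⁻¹ • z)‖ * ‖r⁻¹ • x‖ :=
          ContinuousLinearMap.le_opNorm _ _
      _ ≤ ck * ‖r⁻¹ • x‖ := mul_le_mul_of_nonneg_right (mo_grad hm _) (norm_nonneg _)
      _ = ck / r * ‖x‖ := by
        rw [norm_smul, Real.norm_eq_abs, abs_of_pos (inv_pos.2 hr)]
        ring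
  · intro z hz
    refine mo_one fun x hx => ?_
    show r • x ∈ E
    apply hz
    rw [Metric.mem_ball, dist_eq_norm] at hx ⊢
    have h1 : r • x - z = r • (x - r⁻¹ • z) := by
      rw [smul_sub, smul_smul, mul_inv_cancel₀ hr0, one_smul]
    rw [h1, norm_smul, Real.norm_eq_abs, abs_of_pos hr]
    nlinarith
  · intro z hz
    obtain ⟨x, hx, hxz⟩ := mo_ne hz
    refine ⟨r • x, hx, ?_⟩
    rw [dist_eq_norm] at hxz ⊢
    have h1 : r • x - z = r • (x - r⁻¹ • z) := by
      rw [smul_sub, smul_smul, mul_inv_cancel₀ hr0, one_smul]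
    rw [h1, norm_smul, Real.norm_eq_abs, abs_of_pos hr]
    nlinarith

/-- Fubini: the masses of the balls -/
lemma balls {g : ℂ → ℝ} (hg : Integrable g) {ρ : ℝ} (hρ : 0 ≤ ρ) :
    Integrable (fun z => ∫ x in Metric.closedBall z ρ, g x) ∧
      ∫ z, ∫ x in Metric.closedBall z ρ, g x = Real.pi * ρ ^ 2 * ∫ z, g z := by
  have hm : MeasurableSet (Metric.closedBall (0 : ℂ) ρ) := Metric.isClosed_closedBall.measurableSet
  have hf : Integrable (one (Metric.closedBall (0 : ℂ) ρ)) := by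
    unfold one
    exact (integrable_indicator_iff hm).2 (integrableOn_const (measure_closedBall_lt_top.ne))
  have e : (fun z => ∫ x in Metric.closedBall z ρ, g x) =
      (one (Metric.closedBall (0 : ℂ) ρ) ⋆[ContinuousLinearMap.mul ℝ ℝ, volume] g) := by
    funext z
    rw [convolution_eq_swap, ← integral_indicator Metric.isClosed_closedBall.measurableSet]
    refine integral_congr_ae (Eventually.of_forall fun x => ?_)
    show (Metric.closedBall z ρ).indicator g x = one (Metric.closedBall (0 : ℂ) ρ) (z - x) * g x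
    unfold one
    by_cases hx : x ∈ Metric.closedBall z ρ
    · have h1 : z - x ∈ Metric.closedBall (0 : ℂ) ρ := by
        rw [mem_closedBall_zero_iff, ← dist_eq_norm, dist_comm]
        exact hx
      rw [indicator_of_mem hx, indicator_of_mem h1, one_mul]
    · have h1 : z - x ∉ Metric.closedBall (0 : ℂ) ρ := by
        rw [mem_closedBall_zero_iff, ← dist_eq_norm, dist_comm]
        exact hx
      rw [indicator_of_notMem hx, indicator_of_notMem h1, zero_mul]
  have hv : ∫ z, one (Metric.closedBall (0 : ℂ) ρ) z = Real.pi * ρ ^ 2 := by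
    unfold one
    rw [integral_indicator hm, setIntegral_const, smul_eq_mul, mul_one, measureReal_def,
      Complex.volume_closedBall, ENNReal.toReal_mul, ENNReal.toReal_pow, ENNReal.toReal_ofReal hρ]
    simp [mul_comm]
  rw [e]
  refine ⟨hf.integrable_convolution _ hg, ?_⟩
  rw [integral_convolution _ hf hg, hv]
  rfl

end WttM

open WttM in
theorem stmtWtt (h : StmtMv) : StmtWtt := by
  intro V t G hF φ hφ e he
  obtain ⟨ζ, C, t0, hζ, hC, ht0, hMv⟩ := h V hF.isOpen hF.sub φ hφ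
  obtain ⟨Mφ, hMφ⟩ := hφ.test.cpt.exists_bound_of_continuous hφ.test.smooth.continuous
  have hMφ0 : 0 ≤ Mφ := (norm_nonneg _).trans (hMφ 0)
  have hck : 0 < ck + 1 := by linarith [ck_nonneg]
  set M : ℝ := 3 * ((∫ z, ζ z) + 1) with hM
  have hζi : 0 ≤ ∫ z, ζ z := integral_nonneg hζ.nonneg
  have hM0 : 0 ≤ M := by positivity
  set D : ℝ := 2 * (ck + 1) / e + 1 with hD
  have hD0 : 0 < D := by positivity
  refine ⟨Mφ * (C * (Real.pi * D ^ 2 * M)), by positivity, fun H hH => ?_⟩
  have hm : ∀ n : ℤ, ∀ᶠ i in atTop, ∫ z, ζ z * ‖G i n z‖ ^ 2 ≤ (∫ z, ζ z) + 1 := fun n =>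
    ((hF.mass ζ hζ n).eventually (Iio_mem_nhds (lt_add_one (∫ z, ζ z)))).mono fun i hi => le_of_lt hi
  filter_upwards [hF.lim.eventually_ge_atTop t0, hm 0, hm 1, hm 2] with i hti h0 h1 h2
  have hT := hF.tow i
  set T : ℝ := t i with hTd
  have hT1 : 1 ≤ T := ht0.trans hti
  have hT0 : 0 < T := zero_lt_one.trans_le hT1
  -- the density
  set F : ℂ → ℝ := fun x => ζ x * (‖G i 0 x‖ ^ 2 + ‖G i 1 x‖ ^ 2 + ‖G i 2 x‖ ^ 2) with hFd
  have hFc : Continuous F := by
    have c0 := (hT.smooth 0).continuous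
    have c1 := (hT.smooth 1).continuous
    have c2 := (hT.smooth 2).continuous
    exact hζ.test.smooth.continuous.mul (((c0.norm.pow 2).add (c1.norm.pow 2)).add (c2.norm.pow 2))
  have hFi : Integrable F := hFc.integrable_of_hasCompactSupport hζ.test.cpt.mul_right
  have hF0 : ∀ x, 0 ≤ F x := fun x => mul_nonneg (hζ.nonneg x) (by positivity)
  have hin : ∀ n : ℤ, Integrable (fun z => ζ z * ‖G i n z‖ ^ 2) := fun n =>
    (hζ.test.smooth.continuous.mul (((hT.smooth n).continuous.norm).pow 2)).integrable_of_hasCompactSupport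
      hζ.test.cpt.mul_right
  have hFM : ∫ z, F z ≤ M := by
    have e1 : ∫ z, F z = (∫ z, ζ z * ‖G i 0 z‖ ^ 2) + (∫ z, ζ z * ‖G i 1 z‖ ^ 2) +
        ∫ z, ζ z * ‖G i 2 z‖ ^ 2 := by
      have h01 : Integrable (fun z => ζ z * ‖G i 0 z‖ ^ 2 + ζ z * ‖G i 1 z‖ ^ 2) := (hin 0).add (hin 1)
      rw [← integral_add (hin 0) (hin 1), ← integral_add h01 (hin 2)]
      refine integral_congr_ae (Eventually.of_forall fun z => ?_)
      show F z = ζ z * ‖G i 0 z‖ ^ 2 + ζ z * ‖G i 1 z‖ ^ 2 + ζ z * ‖G i 2 z‖ ^ 2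
      rw [hFd]
      ring
    rw [e1, hM]
    linarith
  -- the weight
  set r : ℝ := (ck + 1) / (e * T) with hr
  have hr0 : 0 < r := by positivity
  set E : Set ℂ := ⋃ z₀ ∈ {z | z ∈ tsupport φ ∧ H < ‖G i 0 z‖ ^ 2}, Metric.ball z₀ r with hE
  have hEo : IsOpen E := isOpen_biUnion fun _ _ => Metric.isOpen_ball
  obtain ⟨w, hw, hw1, hw2⟩ := moll hr0 hEo
  have hgr : ck / r ≤ e * T := by
    rw [div_le_iff₀ hr0, hr, mul_div_cancel₀ _ (by positivity)]
    linarith
  refine ⟨w, ⟨hw.smooth, hw.nonneg, hw.le_one, fun z => (hw.grad z).trans hgr⟩, ?_, ?_⟩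
  · intro z hz hHz
    refine hw1 z ?_
    exact subset_biUnion_of_mem (u := fun z₀ => Metric.ball z₀ r)
      (show z ∈ {z | z ∈ tsupport φ ∧ H < ‖G i 0 z‖ ^ 2} from ⟨hz, hHz⟩)
  · set ρ : ℝ := 2 * r + 1 / T with hρ
    have hρ0 : 0 ≤ ρ := by positivity
    have key : ∀ z, w z ≤ C * T ^ 2 / H * ∫ x in Metric.closedBall z ρ, F x := by
      intro z
      have hn : 0 ≤ ∫ x in Metric.closedBall z ρ, F x := integral_nonneg fun x => hF0 x
      by_cases hz : w z = 0
      · rw [hz]; positivity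
      · obtain ⟨x, hx, hxz⟩ := hw2 z hz
        obtain ⟨z₀, ⟨hz0, hHz0⟩, hxz0⟩ : ∃ z₀, (z₀ ∈ tsupport φ ∧ H < ‖G i 0 z₀‖ ^ 2) ∧ dist x z₀ < r := by
          rw [hE] at hx
          simpa only [mem_iUnion, Set.mem_ofPred_eq, Metric.mem_ball, exists_prop] using hx
        have h3 := hMv T (G i) hti hT z₀ hz0
        have hsub : Metric.closedBall z₀ (1 / T) ⊆ Metric.closedBall z ρ := by
          refine Metric.closedBall_subset_closedBall' ?_
          have : dist z₀ z ≤ 2 * r := by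
            have := dist_triangle z₀ x z
            rw [dist_comm z₀ x] at this
            linarith
          rw [hρ]
          linarith
        have h4 : ∫ x in Metric.closedBall z₀ (1 / T), F x ≤ ∫ x in Metric.closedBall z ρ, F x :=
          setIntegral_mono_set hFi.integrableOn (Eventually.of_forall fun x => hF0 x)
            (LE.le.eventuallyLE hsub)
        have h5 : H ≤ C * T ^ 2 * ∫ x in Metric.closedBall z ρ, F x :=
          hHz0.le.trans (h3.trans (mul_le_mul_of_nonneg_left h4 (by positivity)))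
        calc w z ≤ 1 := hw.le_one z
          _ = H / H := (div_self hH.ne').symm
          _ ≤ (C * T ^ 2 * ∫ x in Metric.closedBall z ρ, F x) / H := div_le_div_of_nonneg_right h5 hH.le
          _ = C * T ^ 2 / H * ∫ x in Metric.closedBall z ρ, F x := by ring
    obtain ⟨hbi, hbe⟩ := balls hFi hρ0
    have hφw : Integrable (fun z => φ z * w z) :=
      (hφ.test.smooth.continuous.mul hw.smooth.continuous).integrable_of_hasCompactSupport
        hφ.test.cpt.mul_right
    have h6 : ∫ z, φ z * w z ≤ ∫ z, Mφ * (C * T ^ 2 / H) * ∫ x in Metric.closedBall z ρ, F x := by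
      refine integral_mono hφw (hbi.const_mul _) fun z => ?_
      have h7 : φ z ≤ Mφ := (le_abs_self _).trans (hMφ z)
      calc φ z * w z ≤ Mφ * w z := mul_le_mul_of_nonneg_right h7 (hw.nonneg z)
        _ ≤ Mφ * (C * T ^ 2 / H * ∫ x in Metric.closedBall z ρ, F x) :=
          mul_le_mul_of_nonneg_left (key z) hMφ0
        _ = Mφ * (C * T ^ 2 / H) * ∫ x in Metric.closedBall z ρ, F x := by ring
    rw [integral_const_mul, hbe] at h6
    refine h6.trans ?_
    have h8 : T * ρ = D := by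
      rw [hρ, hr, hD]
      field_simp
    have h9 : Mφ * (C * T ^ 2 / H) * (Real.pi * ρ ^ 2 * ∫ z, F z) =
        Mφ * (C * (Real.pi * D ^ 2 * ∫ z, F z)) / H := by
      rw [← h8]
      ring
    rw [h9]
    refine div_le_div_of_nonneg_right ?_ hH.le
    refine mul_le_mul_of_nonneg_left (mul_le_mul_of_nonneg_left ?_ hC) hMφ0
    exact mul_le_mul_of_nonneg_left hFM (by positivity)

end

end Pool.Agent.A54.Vd
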