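import Pool.Agent.Lib.MP_a54f13_nt.Sq.Main
import Pool.Agent.Lib.MP_a54f13_nt.Vd.ACL
import Pool.Agent.Lib.MP_a54f13_nt.Vd.AdI
import Pool.Agent.Lib.MP_a54f13_nt.Vd.Ada
import Pool.Agent.Lib.MP_a54f13_nt.Vd.Chn
import Pool.Agent.Lib.MP_a54f13_nt.Vd.Deg
import Pool.Agent.Lib.MP_a54f13_nt.Vd.Dlt
import Pool.Agent.Lib.MP_a54f13_nt.Vd.FinU
import Pool.Agent.Lib.MP_a54f13_nt.Vd.FmF
import Pool.Agent.Lib.MP_a54f13_nt.Vd.FmM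
import Pool.Agent.Lib.MP_a54f13_nt.Vd.FmV
import Pool.Agent.Lib.MP_a54f13_nt.Vd.K2s
import Pool.Agent.Lib.MP_a54f13_nt.Vd.KyW
import Pool.Agent.Lib.MP_a54f13_nt.Vd.Sq1
import Pool.Agent.Lib.MP_a54f13_nt.Vd.Tra
import Pool.Agent.Lib.MP_a54f13_nt.Vd.UIL
import Pool.Agent.Lib.MP_a54f13_nt.Vd.Wtt

/-!
# Package `Vd`: assembly of the parts U and A from `CsE`, `SmA`, `Mv`
-/

set_option autoImplicit false

namespace Pool.Agent.A54.Vd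

theorem finU_of (hC : StmtCsE) (hS : StmtSmA) (hM : StmtMv) : StmtFinU :=
  have hK : StmtK2s := stmtK2s Sq.stmtKSum
  have hKy : StmtKyW := stmtKyW hC hS hK
  have hUI : StmtUIL := stmtUIL hKy (stmtWtt hM)
  have hDeg : StmtDeg := stmtDeg (stmtChn (stmtAda stmtAdI)) (stmtSq1 hC hS hK) hK
  stmtFinU hUI (stmtACL hDeg stmtDlt) (stmtFmM Sq.pTwr stmtInt) (stmtFmF Sq.pMax Pl.pE1 Pl.pG0 stmtInt)
    (stmtFmV Pl.pFB Pl.stmtBC Pl.pG2) (stmtTra stmtInt)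

end Pool.Agent.A54.Vd
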