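import Pool.Agent.Lib.MP_a54f13_nt.Vd.SpecU
import Pool.Agent.Lib.MP_a54f13_nt.Sq.CosW
import Pool.Agent.Lib.MP_a54f13_nt.Sq.Pos

/-!
# Package `Vd`, module `CsE`: cosine law, odd law and positivity with a weight
-/

set_option autoImplicit false

namespace Pool.Agent.A54.Vd

open MeasureTheory Filter Topology Set
open scoped ContDiff ComplexConjugate UpperHalfPlane MatrixGroups ENNReal
open Pool.Agent.A54.Half (H0 qq ff hh)
open Pool.Agent.A54.Sq (TestP la Tow pp Wi Pj Up KK SS CosH)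
open Pool.Agent.A54.Pl (Ed mean)

namespace CsEM

variable {V : Set ℂ} {φ w : ℂ → ℝ} {s : ℝ}

lemma testP_mul (hφ : TestP V φ) (hw : Wgt w s) : TestP V (fun z => φ z * w z) where
  test := by
    refine ⟨hφ.test.smooth.mul hw.smooth, hφ.test.cpt.mul_right, ?_⟩
    exact (closure_mono (Function.support_mul_subset_left φ w)).trans hφ.test.sub
  nonneg := fun z => mul_nonneg (hφ.nonneg z) (hw.nonneg z)

end CsEM

open CsEM in
theorem stmtCsE (h : StmtRlE) (hC : Sq.StmtCos) (hF : Sq.StmtFej) : StmtCsE := by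
  intro V hV hVH φ hφ
  obtain ⟨ζ, C, hζ, hC0, h1⟩ := h V hV hVH φ hφ
  refine ⟨ζ, 576 * C, hζ, by positivity, ?_⟩
  intro t G ht hG w e he hw N B
  have ht0 : 0 < t := by linarith
  have he0 : 0 ≤ e := by
    by_contra hneg
    push Not at hneg
    nlinarith
  have hP : TestP V (fun z => φ z * w z) := testP_mul hφ hw
  have hB0 : ∀ M : ℕ, Up ζ G M B → 0 ≤ B := by
    intro M hB
    refine le_trans (integral_nonneg fun z => ?_) (hB 0 (by simp))
    exact mul_nonneg (hζ.nonneg z) (by positivity)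
  constructor
  · intro hN hB
    have hB' := hB0 _ hB
    have hE : 0 ≤ C * B * e := by positivity
    have hcos := hC N (C * B * e) _ _ hE
      (Sq.CosWM.cosH (φ := fun z => φ z * w z) hG (h1 t G ht hG w e he hw N B hN hB))
    have e1 : 16 * ((N : ℝ) + 1) ^ 2 * (C * B * e) ≤ 576 * C * (((N : ℝ) + 1) ^ 2 * B * e) := by
      have h0 : 0 ≤ C * (((N : ℝ) + 1) ^ 2 * B * e) := by positivity
      linarith
    exact ⟨fun n m hnm => (hcos.1 n m hnm).trans e1, fun n hn hnN => (hcos.2 n hn hnN).trans e1⟩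
  · intro hN hB
    have hB' := hB0 _ hB
    have hE : 0 ≤ C * B * e := by positivity
    have hcos := hC (2 * N) (C * B * e) _ _ hE
      (Sq.CosWM.cosH (φ := fun z => φ z * w z) hG
        (h1 t G ht hG w e he hw (2 * N) B (by push_cast; exact hN) hB))
    have he' : 0 ≤ 16 * (((2 * N : ℕ) : ℝ) + 1) ^ 2 * (C * B * e) := by positivity
    have key := hF N _ (Wi (fun z => φ z * w z) G) he' (Sq.PosM.W_neg hG)
      (fun n m hn hm => hcos.1 n m (by push_cast; linarith))
      (fun n hn hn2 => hcos.2 n hn (by push_cast; linarith)) (Sq.PosM.pos hP hG N)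
    rw [Sq.PosM.W_zero, Sq.PosM.sum_K hP.test hG] at key
    simp only [sa_ss]
    refine key.trans ?_
    have h2 : (((2 * N : ℕ) : ℝ) + 1) ^ 2 ≤ 4 * ((N : ℝ) + 1) ^ 2 := by
      push_cast
      nlinarith [(Nat.cast_nonneg N : (0 : ℝ) ≤ N)]
    have h3 := mul_le_mul_of_nonneg_right h2 hE
    have h4 : 4 * ((N : ℝ) + 1) ^ 2 * (C * B * e) = 4 * (C * (((N : ℝ) + 1) ^ 2 * B * e)) := by ring
    rw [h4] at h3
    linarith

end Pool.Agent.A54.Vd
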