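import Pool.Agent.Lib.MP_a54f13_nt.Vd.SpecS
import Pool.Agent.Lib.MP_a54f13_nt.X

/-!
# Package `Vd`: limit laws exist along subsequences (Prokhorov)
-/

set_option autoImplicit false

namespace Pool.Agent.A54.Vd

open MeasureTheory Filter Topology Set
open scoped ContDiff ComplexConjugate UpperHalfPlane MatrixGroups ENNReal NNReal

/-- **Exi** every sequence of continuous functions with bounded second moments against `ψ` has a subsequence whose laws converge weakly -/
def StmtExi : Prop := ∀ (f : ℕ → ℍ → ℝ), (∀ i, Continuous (f i)) → ∀ ψ : ℍ → ℝ, TestX ψ → Continuous ψ → (∀ z, 0 ≤ ψ z) →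
  0 < ∫ z in ModularGroup.fdo, ψ z → (∃ C : ℝ, ∀ i, ∫ z in ModularGroup.fdo, ψ z * f i z ^ 2 ≤ C) →
    ∃ ns : ℕ → ℕ, StrictMono ns ∧ ∃ ν : Measure ℝ, Law (fun i => f (ns i)) ψ ν

namespace ExiM

/-- the measure `ψ dμ` on the fundamental domain -/
noncomputable def base (ψ : ℍ → ℝ) : Measure ℍ :=
  (volume.restrict ModularGroup.fdo).withDensity (fun z => ((ψ z).toNNReal : ℝ≥0∞))

theorem int_base {ψ : ℍ → ℝ} (hc : Continuous ψ) (h0 : ∀ z, 0 ≤ ψ z) (g : ℍ → ℝ) :
    ∫ z, g z ∂(base ψ) = ∫ z in ModularGroup.fdo, ψ z * g z := by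
  unfold base
  rw [integral_withDensity_eq_integral_smul (f := fun z => (ψ z).toNNReal) (by fun_prop)]
  refine integral_congr_ae (Eventually.of_forall fun z => ?_)
  simp only [NNReal.smul_def, Real.coe_toNNReal _ (h0 z), smul_eq_mul]

theorem base_univ {ψ : ℍ → ℝ} (h0 : ∀ z, 0 ≤ ψ z) (hi : IntegrableOn ψ ModularGroup.fdo) :
    base ψ univ = ENNReal.ofReal (∫ z in ModularGroup.fdo, ψ z) := by
  unfold base
  rw [withDensity_apply _ MeasurableSet.univ, Measure.restrict_univ,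
    ofReal_integral_eq_lintegral_ofReal hi (Eventually.of_forall h0)]
  rfl

end ExiM

theorem stmtExi : StmtExi := by
  intro f hf ψ hψ hc h0 hm hC
  obtain ⟨C, hC⟩ := hC
  obtain ⟨Y, hY⟩ := hψ.cusp
  have hfdo : MeasurableSet ModularGroup.fdo := X.measurableSet_fdo
  have hi : ∀ g : ℍ → ℝ, Continuous g → IntegrableOn (fun z => ψ z * g z) ModularGroup.fdo := fun g hg =>
    X.integrableOn_fdo (hc.mul hg) (fun z hz h => by rw [hY z (ModularGroup.fdo_subset_fd hz) h, zero_mul])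
  have hi0 : IntegrableOn ψ ModularGroup.fdo :=
    X.integrableOn_fdo hc (fun z hz h => hY z (ModularGroup.fdo_subset_fd hz) h)
  set m := ∫ z in ModularGroup.fdo, ψ z with hmdef
  have hbu : ExiM.base ψ univ = ENNReal.ofReal m := ExiM.base_univ h0 hi0
  have hbf : IsFiniteMeasure (ExiM.base ψ) := ⟨by rw [hbu]; exact ENNReal.ofReal_lt_top⟩
  have hC0 : 0 ≤ C := (integral_nonneg fun z => mul_nonneg (h0 z) (sq_nonneg _)).trans (hC 0)
  -- the probability laws
  have hprob : ∀ i, IsProbabilityMeasure ((ENNReal.ofReal m)⁻¹ • (ExiM.base ψ).map (f i)) := fun i => by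
    constructor
    rw [Measure.smul_apply, Measure.map_apply (hf i).measurable MeasurableSet.univ, preimage_univ, hbu,
      smul_eq_mul]
    exact ENNReal.inv_mul_cancel (by simpa using hm) ENNReal.ofReal_ne_top
  let P : ℕ → ProbabilityMeasure ℝ := fun i => ⟨(ENNReal.ofReal m)⁻¹ • (ExiM.base ψ).map (f i), hprob i⟩
  have hPint : ∀ i (g : ℝ → ℝ), Continuous g → ∫ x, g x ∂(P i : Measure ℝ) =
      m⁻¹ * ∫ z in ModularGroup.fdo, ψ z * g (f i z) := fun i g hg => by
    change ∫ x, g x ∂((ENNReal.ofReal m)⁻¹ • (ExiM.base ψ).map (f i)) = _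
    rw [integral_smul_measure, integral_map (hf i).measurable.aemeasurable hg.aestronglyMeasurable,
      ExiM.int_base hc h0, ENNReal.toReal_inv, ENNReal.toReal_ofReal hm.le, smul_eq_mul]
  -- tightness
  have hmem : ∀ i, P i ∈ {μ : ProbabilityMeasure ℝ | ∀ n : ℕ, μ (Icc (-((n : ℝ) + 1)) ((n : ℝ) + 1))ᶜ ≤
      (C / m).toNNReal * (((n : ℝ) + 1).toNNReal)⁻¹} := by
    intro i n
    have hn : (0 : ℝ) < (n : ℝ) + 1 := by positivity
    rw [← NNReal.coe_le_coe]
    have h1 : ((P i) (Icc (-((n : ℝ) + 1)) ((n : ℝ) + 1))ᶜ : ℝ) =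
        (P i : Measure ℝ).real (Icc (-((n : ℝ) + 1)) ((n : ℝ) + 1))ᶜ := rfl
    rw [h1]
    have h2 : (P i : Measure ℝ).real (Icc (-((n : ℝ) + 1)) ((n : ℝ) + 1))ᶜ =
        m⁻¹ * ∫ z in ModularGroup.fdo, ψ z * ((Icc (-((n : ℝ) + 1)) ((n : ℝ) + 1))ᶜ.indicator (fun _ => (1 : ℝ))) (f i z) := by
      rw [← integral_indicator_one (measurableSet_Icc.compl)]
      change ∫ x, _ ∂((ENNReal.ofReal m)⁻¹ • (ExiM.base ψ).map (f i)) = _
      rw [integral_smul_measure, integral_map (hf i).measurable.aemeasurable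
        ((measurable_one.indicator measurableSet_Icc.compl).aestronglyMeasurable),
        ExiM.int_base hc h0, ENNReal.toReal_inv, ENNReal.toReal_ofReal hm.le, smul_eq_mul]
      rfl
    rw [h2, NNReal.coe_mul, NNReal.coe_inv, Real.coe_toNNReal _ (by positivity), Real.coe_toNNReal _ hn.le]
    have h3 : ∫ z in ModularGroup.fdo, ψ z * ((Icc (-((n : ℝ) + 1)) ((n : ℝ) + 1))ᶜ.indicator (fun _ => (1 : ℝ))) (f i z) ≤
        ∫ z in ModularGroup.fdo, ψ z * (f i z ^ 2 * ((n : ℝ) + 1)⁻¹) := by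
      refine integral_mono_of_nonneg (Eventually.of_forall fun z => ?_) ?_ (Eventually.of_forall fun z => ?_)
      · exact mul_nonneg (h0 z) (indicator_nonneg (fun _ _ => zero_le_one) _)
      · exact hi _ (((hf i).pow 2).mul continuous_const)
      · refine mul_le_mul_of_nonneg_left ?_ (h0 z)
        by_cases hz : f i z ∈ (Icc (-((n : ℝ) + 1)) ((n : ℝ) + 1))ᶜ
        · rw [indicator_of_mem hz, ← div_eq_mul_inv, le_div_iff₀ hn, one_mul]
          have h5 : (n : ℝ) + 1 ≤ |f i z| := by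
            by_contra hlt
            exact hz (abs_le.1 (not_le.1 hlt).le)
          have h6 : (1 : ℝ) ≤ (n : ℝ) + 1 := by linarith [n.cast_nonneg (α := ℝ)]
          nlinarith [sq_abs (f i z)]
        · rw [indicator_of_notMem hz]
          positivity
    have h4 : ∫ z in ModularGroup.fdo, ψ z * (f i z ^ 2 * ((n : ℝ) + 1)⁻¹) =
        (∫ z in ModularGroup.fdo, ψ z * f i z ^ 2) * ((n : ℝ) + 1)⁻¹ := by
      rw [← integral_mul_const]
      refine integral_congr_ae (Eventually.of_forall fun z => ?_)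
      simp only [mul_assoc]
    calc m⁻¹ * ∫ z in ModularGroup.fdo, ψ z * ((Icc (-((n : ℝ) + 1)) ((n : ℝ) + 1))ᶜ.indicator (fun _ => (1 : ℝ))) (f i z)
        ≤ m⁻¹ * ((∫ z in ModularGroup.fdo, ψ z * f i z ^ 2) * ((n : ℝ) + 1)⁻¹) := by
          rw [← h4]; exact mul_le_mul_of_nonneg_left h3 (inv_nonneg.2 hm.le)
      _ ≤ m⁻¹ * (C * ((n : ℝ) + 1)⁻¹) := by
          refine mul_le_mul_of_nonneg_left ?_ (inv_nonneg.2 hm.le)
          exact mul_le_mul_of_nonneg_right (hC i) (inv_nonneg.2 hn.le)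
      _ = C / m * ((n : ℝ) + 1)⁻¹ := by ring
  have hu : Tendsto (fun n : ℕ => (C / m).toNNReal * (((n : ℝ) + 1).toNNReal)⁻¹) atTop (𝓝 0) := by
    have h1 : Tendsto (fun n : ℕ => (((n : ℝ) + 1).toNNReal)⁻¹) atTop (𝓝 0) := by
      refine tendsto_inv_atTop_zero.comp ?_
      refine tendsto_real_toNNReal_atTop.comp ?_
      exact tendsto_atTop_add_const_right _ _ tendsto_natCast_atTop_atTop
    simpa using h1.const_mul ((C / m).toNNReal)
  have hK := isCompact_setOfPred_probabilityMeasure_mass_eq_compl_isCompact_le (E := ℝ)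
    (K := fun n : ℕ => Icc (-((n : ℝ) + 1)) ((n : ℝ) + 1)) hu (fun n => isCompact_Icc) (Or.inl inferInstance)
  obtain ⟨Q, _, ns, hns, hlim⟩ := hK.isSeqCompact hmem
  refine ⟨ns, hns, ENNReal.ofReal m • (Q : Measure ℝ), ⟨?_, ?_⟩⟩
  · exact Measure.smul_finite _ ENNReal.ofReal_ne_top
  · rintro g hg ⟨B, hB⟩
    have h1 := (ProbabilityMeasure.tendsto_iff_forall_integral_tendsto.1 hlim)
      (BoundedContinuousFunction.ofNormedAddCommGroup g hg B (fun x => by simpa using hB x))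
    have h2 : Tendsto (fun i => m⁻¹ * ∫ z in ModularGroup.fdo, ψ z * g (f (ns i) z)) atTop (𝓝 (∫ x, g x ∂(Q : Measure ℝ))) := by
      refine h1.congr fun i => ?_
      exact hPint (ns i) g hg
    rw [integral_smul_measure, ENNReal.toReal_ofReal hm.le, smul_eq_mul]
    have h3 := h2.const_mul m
    refine h3.congr fun i => ?_
    rw [← mul_assoc, mul_inv_cancel₀ hm.ne', one_mul]

end Pool.Agent.A54.Vd
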