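import Pool.Agent.Lib.MP_a54f13_nt.Vd.SpecU
import Pool.Agent.Lib.MP_a54f13_nt.Sq.MsS
import Pool.Agent.Lib.MP_a54f13_nt.Half

/-!
# Module `FmM`: towers and masses
-/

set_option autoImplicit false

namespace Pool.Agent.A54.Vd

open MeasureTheory Filter Topology Set
open scoped ContDiff ComplexConjugate UpperHalfPlane MatrixGroups ENNReal
open Pool.Agent.A54.Half (H0 qq ff hh)
open Pool.Agent.A54.Sq (TestP la Tow pp Wi Pj Up KK SS CosH)
open Pool.Agent.A54.Pl (Ed mean)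

noncomputable section

namespace FmMM

/-- the weight `ζ y²` -/
lemma testR_im {V : Set ℂ} {ζ : ℂ → ℝ} (hζ : TestR V ζ) : TestR V (fun z => ζ z * z.im ^ 2) where
  smooth := hζ.smooth.mul (Half.contDiff_im.pow 2)
  cpt := hζ.cpt.mul_right
  sub := (tsupport_mul_subset_left (f := ζ) (g := fun z : ℂ => z.im ^ 2)).trans hζ.sub

lemma wt {V : Set ℂ} (hVH : V ⊆ H0) {ζ : ℂ → ℝ} (hζ : TestR V ζ) (z : ℂ) :
    ζ z * z.im ^ 2 * (z.im)⁻¹ ^ 2 = ζ z := by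
  by_cases hz : z ∈ V
  · have h1 : z.im ≠ 0 := ne_of_gt (hVH hz)
    field_simp
  · rw [hζ.eq_zero hz]
    simp

/-- the mass of `G_0` -/
lemma base (hI : StmtInt) {f : ℕ → ℍ → ℝ} (hH : Pl.CondH f) {χ : ℂ → ℝ} {V : Set ℂ}
    (hVH : V ⊆ H0) (h1 : ∀ z ∈ V, χ z = 1) {G : ℕ → ℤ → ℂ → ℂ}
    (hG : ∀ i z, G i 0 z = ((ff χ (f i) z : ℝ) : ℂ)) {ζ : ℂ → ℝ} (hζ : TestR V ζ) :
    Tendsto (fun i => ∫ z, ζ z * ‖G i 0 z‖ ^ 2) atTop (𝓝 (∫ z, ζ z)) := by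
  have hφV : TestR V (fun z => ζ z * z.im ^ 2) := testR_im hζ
  have hφ : TestR H0 (fun z => ζ z * z.im ^ 2) := ⟨hφV.smooth, hφV.cpt, hφV.sub.trans hVH⟩
  have h2 := (hH _ hφ).1
  have e1 : ∀ i, ∫ z : ℍ, (fun z : ℂ => ζ z * z.im ^ 2) z * f i z ^ 2 =
      ∫ z : ℂ, ζ z * ‖G i 0 z‖ ^ 2 := by
    intro i
    rw [Half.int_eq hI hVH h1 hφV (f i) 2]
    refine integral_congr_ae (Filter.Eventually.of_forall fun z => ?_)
    show ζ z * z.im ^ 2 * (z.im)⁻¹ ^ 2 * ff χ (f i) z ^ 2 = ζ z * ‖G i 0 z‖ ^ 2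
    rw [wt hVH hζ, hG, Complex.norm_real, Real.norm_eq_abs, sq_abs]
  have e2 : ∫ z : ℍ, (fun z : ℂ => ζ z * z.im ^ 2) z = ∫ z : ℂ, ζ z := by
    rw [Half.int_eq_one hI hVH hφV]
    refine integral_congr_ae (Filter.Eventually.of_forall fun z => ?_)
    exact wt hVH hζ z
  rw [e2] at h2
  refine h2.congr fun i => ?_
  exact e1 i

end FmMM

open FmMM in
theorem stmtFmM (hT : Sq.StmtTwr) (hI : StmtInt) : StmtFmM := by
  intro f t hf ht hH χ V hχ h01 hV hVH h1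
  obtain ⟨c, hc⟩ := hT χ V hχ h01 hV hVH h1
  choose G hG1 hG2 hG3 using fun i => hc (f i) (t i) (hf i)
  refine ⟨c, G, hG1, hG3, fun i ζ hζ n => hG2 i ζ hζ n, ?_⟩
  intro ζ hζ
  have h0 := base hI hH hVH h1 hG3 hζ.test
  obtain ⟨ζ', C, hζ', hC, hstep⟩ := Sq.MsSM.step hV hζ.test
  have hlim : Tendsto (fun i => C * c ζ' / t i) atTop (𝓝 0) := ht.const_div_atTop _
  have hst : ∀ n : ℤ, Tendsto (fun i => (∫ z, ζ z * ‖G i (n + 1) z‖ ^ 2) -
      ∫ z, ζ z * ‖G i n z‖ ^ 2) atTop (𝓝 0) := by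
    intro n
    refine squeeze_zero_norm' ?_ hlim
    filter_upwards [ht.eventually_ge_atTop 1] with i hi
    rw [Real.norm_eq_abs]
    exact hstep (t i) (G i) hi (hG1 i) (c ζ') (fun m => hG2 i ζ' hζ' m) n
  intro n
  induction n using Int.induction_on with
  | zero => exact h0
  | succ k ih =>
    have h2 := (hst k).add ih
    rw [zero_add] at h2
    exact h2.congr fun i => by ring
  | pred k ih =>
    have h2 := ih.sub (hst (-(k : ℤ) - 1))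
    rw [sub_zero, sub_add_cancel] at h2
    exact h2.congr fun i => by ring

end

end Pool.Agent.A54.Vd
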