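import Pool.Agent.Lib.MP_a54f13_nt.Vd.Mom

/-!
# Package `Vd`: convergence of the integrals of functions of growth `O(1 + x⁴)`
-/

set_option autoImplicit false

namespace Pool.Agent.A54.Vd

open MeasureTheory Filter Topology Set
open scoped ContDiff ComplexConjugate UpperHalfPlane MatrixGroups ENNReal

/-- **Grw** under uniform integrability of `f⁴` the weak convergence of the laws extends to functions `O(1 + x⁴)` -/
def StmtGrw : Prop := ∀ (f : ℕ → ℍ → ℝ) (t : ℕ → ℝ), (∀ i, IsHeckeMaass (f i) (t i)) → ∀ ψ : ℍ → ℝ, TestX ψ →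
  (∀ z, 0 ≤ ψ z) → ∀ ν : Measure ℝ, Law f ψ ν → UI f ψ → ∀ g : ℝ → ℝ, Continuous g →
    (∃ C : ℝ, ∀ x, |g x| ≤ C * (1 + x ^ 4)) →
      Tendsto (fun i => ∫ z in ModularGroup.fdo, ψ z * g (f i z)) atTop (𝓝 (∫ x, g x ∂ν))

namespace GrwM

open MomM

/-- the truncation error -/
lemma err {g : ℝ → ℝ} {C : ℝ} (hC0 : 0 ≤ C) (hC : ∀ x, |g x| ≤ C * (1 + x ^ 4)) {R H x : ℝ} (hR : 1 ≤ R) (hH : H ≤ R) :
    |g x - g x * th R x| ≤ 2 * C * if H < x ^ 2 then x ^ 4 else 0 := by
  have hR0 : 0 < R := by linarith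
  by_cases hx : |x| ≤ R
  · rw [th_one hR0 hx, mul_one, sub_self, abs_zero]
    split_ifs <;> positivity
  · have hx' : R < |x| := not_le.1 hx
    have hx2 : R < x ^ 2 := by
      rw [← sq_abs]
      nlinarith
    rw [if_pos (by linarith)]
    have h1 : g x - g x * th R x = g x * (1 - th R x) := by ring
    rw [h1, abs_mul, abs_of_nonneg (by linarith [th_le_one R x] : 0 ≤ 1 - th R x)]
    have h2 : (1 : ℝ) ≤ x ^ 4 := by nlinarith [(show x ^ 4 = x ^ 2 * x ^ 2 by ring)]
    calc |g x| * (1 - th R x) ≤ |g x| * 1 := by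
          apply mul_le_mul_of_nonneg_left _ (abs_nonneg _)
          linarith [th_nonneg R x]
      _ ≤ C * (1 + x ^ 4) := by rw [mul_one]; exact hC x
      _ ≤ 2 * C * x ^ 4 := by nlinarith

variable {f : ℕ → ℍ → ℝ} {t : ℕ → ℝ} {ψ : ℍ → ℝ}

lemma compare (hf : ∀ i, IsHeckeMaass (f i) (t i)) (hψ : TestX ψ) (h0 : ∀ z, 0 ≤ ψ z)
    {g : ℝ → ℝ} (hg : Continuous g) {C : ℝ} (hC0 : 0 ≤ C) (hC : ∀ x, |g x| ≤ C * (1 + x ^ 4))
    {R H : ℝ} (hR : 1 ≤ R) (hH : H ≤ R) (i : ℕ) :
    |(∫ z in ModularGroup.fdo, ψ z * g (f i z)) - ∫ z in ModularGroup.fdo, ψ z * (g (f i z) * th R (f i z))| ≤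
      2 * C * ∫ z in ModularGroup.fdo, ψ z * {w : ℍ | H < f i w ^ 2}.indicator (fun w => f i w ^ 4) z := by
  obtain ⟨Y, hY⟩ := hψ.cusp
  have hψc : Continuous ψ := X.continuous_of_ext hψ.smooth
  have hfc : Continuous (f i) := X.continuous_of_ext (hf i).smooth
  have i1 : IntegrableOn (fun z => ψ z * g (f i z)) ModularGroup.fdo :=
    X.integrableOn_fdo (hψc.mul (hg.comp hfc)) (fun z hz h => by
      rw [hY z (ModularGroup.fdo_subset_fd hz) h, zero_mul])
  have i2 : IntegrableOn (fun z => ψ z * (g (f i z) * th R (f i z))) ModularGroup.fdo :=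
    X.integrableOn_fdo (hψc.mul ((hg.comp hfc).mul ((th_cont R).comp hfc))) (fun z hz h => by
      rw [hY z (ModularGroup.fdo_subset_fd hz) h, zero_mul])
  have i4 : IntegrableOn (fun z => ψ z * f i z ^ 4) ModularGroup.fdo :=
    X.integrableOn_fdo (hψc.mul (hfc.pow 4)) (fun z hz h => by
      rw [hY z (ModularGroup.fdo_subset_fd hz) h, zero_mul])
  have hms : MeasurableSet {w : ℍ | H < f i w ^ 2} :=
    (isOpen_lt continuous_const (hfc.pow 2)).measurableSet
  have i3 : IntegrableOn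
      (fun z => ψ z * {w : ℍ | H < f i w ^ 2}.indicator (fun w => f i w ^ 4) z)
      ModularGroup.fdo := by
    have h := Integrable.indicator i4 hms
    refine h.congr (Eventually.of_forall fun z => ?_)
    by_cases hz : z ∈ {w : ℍ | H < f i w ^ 2}
    · simp only [indicator_of_mem hz]
    · simp only [indicator_of_notMem hz, mul_zero]
  rw [← integral_sub i1 i2, ← integral_const_mul]
  refine abs_integral_le_integral_abs.trans (integral_mono (i1.sub i2).abs (i3.const_mul _) fun z => ?_)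
  have h1 : ψ z * g (f i z) - ψ z * (g (f i z) * th R (f i z)) = ψ z * (g (f i z) - g (f i z) * th R (f i z)) := by
    ring
  show |ψ z * g (f i z) - ψ z * (g (f i z) * th R (f i z))| ≤
    2 * C * (ψ z * {w : ℍ | H < f i w ^ 2}.indicator (fun w => f i w ^ 4) z)
  rw [h1, abs_mul, abs_of_nonneg (h0 z)]
  have h2 := err (x := f i z) hC0 hC hR hH
  have h3 : {w : ℍ | H < f i w ^ 2}.indicator (fun w => f i w ^ 4) z = if H < f i z ^ 2 then f i z ^ 4 else 0 := by
    by_cases hz : H < f i z ^ 2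
    · rw [if_pos hz, indicator_of_mem (show z ∈ {w : ℍ | H < f i w ^ 2} from hz)]
    · rw [if_neg hz, indicator_of_notMem (show z ∉ {w : ℍ | H < f i w ^ 2} from hz)]
  rw [h3]
  calc ψ z * |g (f i z) - g (f i z) * th R (f i z)| ≤ ψ z * (2 * C * if H < f i z ^ 2 then f i z ^ 4 else 0) :=
        mul_le_mul_of_nonneg_left h2 (h0 z)
    _ = 2 * C * (ψ z * if H < f i z ^ 2 then f i z ^ 4 else 0) := by ring

end GrwM

theorem stmtGrw : StmtGrw := by
  intro f t hf ψ hψ h0 ν hL hU g hg hC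
  have := hL.fin
  obtain ⟨C₀, hC₀⟩ := hC
  have h4 := MomM.integrable4 hf hψ h0 hL hU
  set C := |C₀| with hCd
  have hC0 : 0 ≤ C := abs_nonneg _
  have hC : ∀ x, |g x| ≤ C * (1 + x ^ 4) := fun x =>
    (hC₀ x).trans (mul_le_mul_of_nonneg_right (le_abs_self _) (by positivity))
  rw [Metric.tendsto_nhds]
  intro ε hε
  obtain ⟨H, hH⟩ := hU (ε / (4 * (2 * C + 1))) (by positivity)
  -- the truncated integrals converge
  have hlimν : Tendsto (fun k : ℕ => ∫ x, g x * MomM.th k x ∂ν) atTop (𝓝 (∫ x, g x ∂ν)) := by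
    refine tendsto_integral_of_dominated_convergence (fun x => C * (1 + x ^ 4))
      (fun k => (hg.mul (MomM.th_cont k)).aestronglyMeasurable) (((integrable_const 1).add h4).const_mul C) ?_ ?_
    · intro k
      refine Eventually.of_forall fun x => ?_
      rw [norm_mul, Real.norm_eq_abs, Real.norm_eq_abs, abs_of_nonneg (MomM.th_nonneg _ _)]
      exact (mul_le_of_le_one_right (abs_nonneg _) (MomM.th_le_one _ _)).trans (hC x)
    · refine Eventually.of_forall fun x => tendsto_const_nhds.congr' ?_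
      filter_upwards [eventually_ge_atTop (Nat.ceil (max 1 |x|))] with k hk
      have hk' : max 1 |x| ≤ k := (Nat.le_ceil _).trans (by exact_mod_cast hk)
      have h1 : (1 : ℝ) ≤ k := (le_max_left _ _).trans hk'
      rw [MomM.th_one (by linarith) ((le_max_right _ _).trans hk'), mul_one]
  have hev := (Metric.tendsto_nhds.1 hlimν) (ε / 4) (by positivity)
  obtain ⟨k, hk1, hk2⟩ := (hev.and (eventually_ge_atTop (Nat.ceil (max 1 H)))).exists
  have hk' : max 1 H ≤ k := (Nat.le_ceil _).trans (by exact_mod_cast hk2)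
  have h1 : (1 : ℝ) ≤ k := (le_max_left _ _).trans hk'
  have hHk : H ≤ k := (le_max_right _ _).trans hk'
  have hkp : (0 : ℝ) < k := by linarith
  have hl := hL.lim (fun x => g x * MomM.th k x) (hg.mul (MomM.th_cont k)) ⟨C * (1 + (2 * k) ^ 4), fun x => by
    rw [abs_mul, abs_of_nonneg (MomM.th_nonneg _ _)]
    by_cases hx : |x| ≤ 2 * k
    · refine (mul_le_of_le_one_right (abs_nonneg _) (MomM.th_le_one _ _)).trans ((hC x).trans ?_)
      refine mul_le_mul_of_nonneg_left ?_ hC0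
      have h3 : |x| ^ 4 = x ^ 4 := by
        rw [show (4 : ℕ) = 2 * 2 from rfl, pow_mul, sq_abs, ← pow_mul]
      have h5 := pow_le_pow_left₀ (abs_nonneg x) hx 4
      linarith
    · rw [MomM.th_zero hkp (not_le.1 hx).le, mul_zero]
      positivity⟩
  filter_upwards [hH, (Metric.tendsto_nhds.1 hl) (ε / 4) (by positivity)] with i h6 h7
  have h8 := GrwM.compare hf hψ h0 hg hC0 hC h1 hHk i
  rw [Real.dist_eq] at hk1 h7 ⊢
  have h9 : 2 * C * (∫ z in ModularGroup.fdo, ψ z * {w : ℍ | H < f i w ^ 2}.indicator (fun w => f i w ^ 4) z) ≤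
      ε / 4 := by
    refine (mul_le_mul_of_nonneg_left h6 (by positivity)).trans ?_
    rw [mul_div_assoc', div_le_div_iff₀ (by positivity) (by norm_num)]
    nlinarith
  have e1 : (∫ z in ModularGroup.fdo, ψ z * g (f i z)) - ∫ x, g x ∂ν =
      ((∫ z in ModularGroup.fdo, ψ z * g (f i z)) - ∫ z in ModularGroup.fdo, ψ z * (g (f i z) * MomM.th k (f i z))) +
      (((∫ z in ModularGroup.fdo, ψ z * (g (f i z) * MomM.th k (f i z))) - ∫ x, g x * MomM.th k x ∂ν) +
        ((∫ x, g x * MomM.th k x ∂ν) - ∫ x, g x ∂ν)) := by ring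
  rw [e1]
  refine (abs_add_le _ _).trans_lt ?_
  have h10 := abs_add_le ((∫ z in ModularGroup.fdo, ψ z * (g (f i z) * MomM.th k (f i z))) - ∫ x, g x * MomM.th k x ∂ν)
    ((∫ x, g x * MomM.th k x ∂ν) - ∫ x, g x ∂ν)
  have h11 := h8.trans h9
  linarith

end Pool.Agent.A54.Vd
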