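import Pool.Agent.Lib.MP_a54f13_nt.Vd.SpecS

/-!
# Package `Vd`, module `Hul`: the size of the interval
-/

set_option autoImplicit false

namespace Pool.Agent.A54.Vd.HulM

open MeasureTheory Set

theorem int_le {ν : Measure ℝ} [IsFiniteMeasure ν] (h4 : Integrable (fun x : ℝ => x ^ 4) ν) (n : ℕ)
    (hn : n ≤ 4) : Integrable (fun x : ℝ => x ^ n) ν := by
  refine Integrable.mono' ((integrable_const (1 : ℝ)).add h4) (by fun_prop) (Filter.Eventually.of_forall ?_)
  intro x
  have e : ‖x ^ n‖ = |x| ^ n := by rw [Real.norm_eq_abs, abs_pow]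
  rw [e]
  have h : (0 : ℝ) ≤ |x| := abs_nonneg x
  have e4 : x ^ 4 = |x| ^ 4 := by rw [pow_abs, abs_of_nonneg]; positivity
  show |x| ^ n ≤ 1 + x ^ 4
  rw [e4]
  rcases le_total |x| 1 with h1 | h1
  · have : |x| ^ n ≤ 1 := pow_le_one₀ h h1
    have : (0 : ℝ) ≤ |x| ^ 4 := by positivity
    linarith
  · have : |x| ^ n ≤ |x| ^ 4 := pow_le_pow_right₀ h1 hn
    linarith

end Pool.Agent.A54.Vd.HulM

namespace Pool.Agent.A54.Vd

open MeasureTheory Set HulM

theorem stmtHul : StmtHul := by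
  intro ν c hfin h4 hc m2 m3 m4 J hJ a b hab
  have := hfin
  have i2 := int_le h4 2 (by norm_num)
  have i3 := int_le h4 3 (by norm_num)
  have h0 : ν (Icc a b)ᶜ = 0 := by
    rw [hJ _ (measurableSet_Icc.compl)]
    have : (Icc a b)ᶜ ∩ J = ∅ := by
      ext x
      simp only [mem_inter_iff, mem_compl_iff, mem_empty_iff_false, iff_false, not_and]
      intro h1 h2
      exact h1 (hab h2)
    rw [this]
    simp
  have hae : ∀ᵐ x ∂ν, x ∈ Icc a b := by
    rw [ae_iff]
    exact h0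
  have hpos : 0 ≤ ∫ x, (-(x ^ 4) + (a + b) * x ^ 3 - (a * b) * x ^ 2) ∂ν := by
    apply integral_nonneg_of_ae
    filter_upwards [hae] with x hx
    have e : -(x ^ 4) + (a + b) * x ^ 3 - (a * b) * x ^ 2 = (b - x) * (x - a) * x ^ 2 := by ring
    show 0 ≤ -(x ^ 4) + (a + b) * x ^ 3 - (a * b) * x ^ 2
    rw [e]
    have h1 : 0 ≤ b - x := by linarith [hx.2]
    have h2 : 0 ≤ x - a := by linarith [hx.1]
    positivity
  have e1 : ∫ x, (-(x ^ 4) + (a + b) * x ^ 3 - (a * b) * x ^ 2) ∂ν = -(3 * c) + (a + b) * 0 - (a * b) * c := by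
    have j1 : Integrable (fun x : ℝ => -(x ^ 4)) ν := h4.neg
    have j2 : Integrable (fun x : ℝ => (a + b) * x ^ 3) ν := i3.const_mul _
    have j3 : Integrable (fun x : ℝ => (a * b) * x ^ 2) ν := i2.const_mul _
    rw [integral_sub (f := fun x : ℝ => -(x ^ 4) + (a + b) * x ^ 3) (j1.add j2) j3,
      integral_add j1 j2, integral_neg, integral_const_mul, integral_const_mul, m2, m3, m4]
  rw [e1] at hpos
  by_contra hlt
  push Not at hlt
  nlinarith

end Pool.Agent.A54.Vd
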