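import Pool.Agent.Lib.MP_a54f13_nt.Vd.SpecS
import Pool.Agent.Lib.MP_a54f13_nt.X

/-!
# `Lac`: the limit law is absolutely continuous

An open set of small Lebesgue measure has small `ν`-measure: Urysohn functions of compact subsets, weak
convergence and the uniform absolute continuity of the laws.
-/

set_option autoImplicit false

namespace Pool.Agent.A54.Vd

open MeasureTheory Filter Topology Set
open scoped ContDiff ComplexConjugate UpperHalfPlane MatrixGroups ENNReal

namespace LacM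

/-- measure of a compact set inside an open set -/
lemma compact_le {ν : Measure ℝ} [IsFiniteMeasure ν] {E K : Set ℝ} {ε : ℝ} (hE : IsOpen E)
    (hK : IsCompact K) (hKE : K ⊆ E)
    (h : ∀ g : ℝ → ℝ, Continuous g → (∀ x, 0 ≤ g x ∧ g x ≤ 1) → (∀ x, x ∉ E → g x = 0) →
      ∫ x, g x ∂ν ≤ ε) : ν K ≤ ENNReal.ofReal ε := by
  obtain ⟨g, hg0, hg1, hg⟩ := exists_continuous_zero_one_of_isClosed (s := Eᶜ) (t := K)
    hE.isClosed_compl hK.isClosed (disjoint_compl_left_iff_subset.2 hKE)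
  have h1 : ∫ x, g x ∂ν ≤ ε := h g g.continuous (fun x => hg x) (fun x hx => hg0 hx)
  have hint : Integrable (fun x => g x) ν := by
    refine Integrable.of_bound (C := 1) g.continuous.aestronglyMeasurable
      (Eventually.of_forall fun x => ?_)
    rw [Real.norm_eq_abs, abs_of_nonneg (hg x).1]
    exact (hg x).2
  have h2 : ν.real K ≤ ∫ x, g x ∂ν := by
    have h3 : ∫ x, K.indicator (fun _ => (1 : ℝ)) x ∂ν = ν.real K := by
      rw [integral_indicator hK.measurableSet]
      simp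
    rw [← h3]
    refine integral_mono ((integrable_const (1 : ℝ)).indicator hK.measurableSet) hint
      (fun x => ?_)
    by_cases hx : x ∈ K
    · rw [indicator_of_mem hx, hg1 hx]
      exact le_refl _
    · rw [indicator_of_notMem hx]
      exact (hg x).1
  rw [← ENNReal.ofReal_toReal (measure_ne_top ν K)]
  exact ENNReal.ofReal_le_ofReal (h2.trans h1)

/-- measure of an open set -/
lemma open_le {ν : Measure ℝ} [IsFiniteMeasure ν] {E : Set ℝ} {ε : ℝ} (hE : IsOpen E)
    (h : ∀ g : ℝ → ℝ, Continuous g → (∀ x, 0 ≤ g x ∧ g x ≤ 1) → (∀ x, x ∉ E → g x = 0) →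
      ∫ x, g x ∂ν ≤ ε) : ν E ≤ ENNReal.ofReal ε := by
  rw [hE.measure_eq_iSup_isCompact]
  exact iSup₂_le fun K hKE => iSup_le fun hK => compact_le hE hK hKE h

/-- absolute continuity from small open sets -/
lemma ac_of_open {ν : Measure ℝ}
    (h : ∀ ε : ℝ, 0 < ε → ∃ δ : ℝ, 0 < δ ∧ ∀ E : Set ℝ, IsOpen E → volume E ≤ ENNReal.ofReal δ →
      ν E ≤ ENNReal.ofReal ε) : ν ≪ volume := by
  intro A hA
  refine le_antisymm ?_ (by simp)
  refine ENNReal.le_of_forall_pos_le_add fun ε hε _ => ?_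
  obtain ⟨δ, hδ, hE⟩ := h ε (by exact_mod_cast hε)
  obtain ⟨U, hAU, hU, hU2⟩ := A.exists_isOpen_lt_of_lt (μ := volume) (ENNReal.ofReal δ)
    (by rw [hA]; exact ENNReal.ofReal_pos.2 hδ)
  calc ν A ≤ ν U := measure_mono hAU
    _ ≤ ENNReal.ofReal ε := hE U hU hU2.le
    _ = 0 + (ε : ℝ≥0∞) := by rw [ENNReal.ofReal_coe_nnreal, zero_add]

/-- comparison of the integrals for one form -/
lemma one_form {f : ℍ → ℝ} {t : ℝ} (hf : IsHeckeMaass f t) {ψ : ℍ → ℝ} (hψ : TestX ψ)
    (hψ0 : ∀ z, 0 ≤ ψ z) {E : Set ℝ} (hE : IsOpen E) {g : ℝ → ℝ} (hg : Continuous g)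
    (hg1 : ∀ x, 0 ≤ g x ∧ g x ≤ 1) (hgE : ∀ x, x ∉ E → g x = 0) :
    ∫ z in ModularGroup.fdo, ψ z * g (f z) ≤
      ∫ z in ModularGroup.fdo, ψ z * {w : ℍ | f w ∈ E}.indicator (fun _ => (1 : ℝ)) z := by
  obtain ⟨Y, hY⟩ := hψ.cusp
  have hψc : Continuous ψ := X.continuous_of_ext hψ.smooth
  have hfc : Continuous f := X.continuous_of_ext hf.smooth
  have hψi : IntegrableOn ψ ModularGroup.fdo :=
    X.integrableOn_fdo hψc (fun z hz h => hY z (ModularGroup.fdo_subset_fd hz) h)
  have hm : MeasurableSet {w : ℍ | f w ∈ E} := (hE.preimage hfc).measurableSet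
  have h1 : IntegrableOn (fun z => ψ z * g (f z)) ModularGroup.fdo :=
    X.integrableOn_fdo (Y := Y) (hψc.mul (hg.comp hfc)) (fun z hz h => by
      rw [hY z (ModularGroup.fdo_subset_fd hz) h, zero_mul])
  have h2 : IntegrableOn (fun z => ψ z * {w : ℍ | f w ∈ E}.indicator (fun _ => (1 : ℝ)) z)
      ModularGroup.fdo := by
    have h3 : IntegrableOn ({w : ℍ | f w ∈ E}.indicator ψ) ModularGroup.fdo :=
      Integrable.indicator hψi hm
    refine h3.congr (Eventually.of_forall fun z => ?_)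
    by_cases hz : z ∈ {w : ℍ | f w ∈ E}
    · simp only [indicator_of_mem hz, mul_one]
    · simp only [indicator_of_notMem hz, mul_zero]
  refine integral_mono h1 h2 (fun z => ?_)
  by_cases hz : z ∈ {w : ℍ | f w ∈ E}
  · simp only [indicator_of_mem hz]
    exact mul_le_mul_of_nonneg_left (hg1 _).2 (hψ0 z)
  · simp only [indicator_of_notMem hz]
    rw [hgE _ hz]

end LacM

open LacM in
/-- the limit law is absolutely continuous -/
theorem stmtLac : StmtLac := by
  intro f t hf ψ hψ hψ0 ν hν hAC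
  have := hν.fin
  refine ac_of_open fun ε hε => ?_
  obtain ⟨δ, hδ, h⟩ := hAC ε hε
  refine ⟨δ, hδ, fun E hE hEδ => open_le hE fun g hg hg1 hgE => ?_⟩
  refine le_of_tendsto (hν.lim g hg ⟨1, fun x => ?_⟩) ?_
  · rw [abs_of_nonneg (hg1 x).1]
    exact (hg1 x).2
  · filter_upwards [h E hE hEδ] with i hi
    exact (one_form (hf i) hψ hψ0 hE hg hg1 hgE).trans hi

end Pool.Agent.A54.Vd
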