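import Pool.Agent.Lib.MP_a54f13_nt.Vd.SpecS
import Pool.Agent.Lib.MP_a54f13_nt.X

/-!
# Package `Vd`, module `Lst`: Stein's inequality for the limit law
-/

set_option autoImplicit false

namespace Pool.Agent.A54.Vd

open MeasureTheory Filter Topology Set
open scoped ContDiff ComplexConjugate UpperHalfPlane MatrixGroups ENNReal
open Pool.Agent.A54.Half (H0 qq ff hh)

noncomputable section

namespace LstM

/-- a continuous cutoff function -/
def th (R x : ℝ) : ℝ := max 0 (min 1 (2 - |x| / R))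

lemma th_cont (R : ℝ) : Continuous (th R) := by
  unfold th
  exact continuous_const.max (continuous_const.min
    (continuous_const.sub (continuous_abs.div_const R)))

lemma th_nonneg (R x : ℝ) : 0 ≤ th R x := le_max_left _ _

lemma th_le_one (R x : ℝ) : th R x ≤ 1 := max_le zero_le_one (min_le_left _ _)

lemma th_one {R x : ℝ} (hR : 0 < R) (h : |x| ≤ R) : th R x = 1 := by
  have h1 : |x| / R ≤ 1 := (div_le_one hR).mpr h
  unfold th
  rw [min_eq_left (by linarith), max_eq_right zero_le_one]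

lemma th_zero {R x : ℝ} (hR : 0 < R) (h : 2 * R ≤ |x|) : th R x = 0 := by
  have h1 : 2 ≤ |x| / R := (le_div_iff₀ hR).mpr h
  unfold th
  apply max_eq_left
  exact (min_le_right _ _).trans (by linarith)

/-- Cauchy–Schwarz with a weight -/
lemma cs {α : Type*} [MeasurableSpace α] {μ : Measure α} {p u v : α → ℝ} (hp : ∀ z, 0 ≤ p z)
    (h1 : Integrable (fun z => p z * u z ^ 2) μ) (h2 : Integrable (fun z => p z * v z ^ 2) μ)
    (h3 : Integrable (fun z => p z * (u z * v z)) μ) :
    (∫ z, p z * (u z * v z) ∂μ) ^ 2 ≤ (∫ z, p z * u z ^ 2 ∂μ) * ∫ z, p z * v z ^ 2 ∂μ := by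
  have key : ∀ x : ℝ, 0 ≤ (∫ z, p z * u z ^ 2 ∂μ) * (x * x) +
      (2 * ∫ z, p z * (u z * v z) ∂μ) * x + ∫ z, p z * v z ^ 2 ∂μ := by
    intro x
    have e : (∫ z, p z * u z ^ 2 ∂μ) * (x * x) +
      (2 * ∫ z, p z * (u z * v z) ∂μ) * x + ∫ z, p z * v z ^ 2 ∂μ =
        ∫ z, ((x * x) * (p z * u z ^ 2) + (2 * x) * (p z * (u z * v z))) +
          p z * v z ^ 2 ∂μ := by
      have i1 : Integrable (fun z => (x * x) * (p z * u z ^ 2)) μ := h1.const_mul _
      have i2 : Integrable (fun z => (2 * x) * (p z * (u z * v z))) μ := h3.const_mul _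
      have i3 : Integrable (fun z => (x * x) * (p z * u z ^ 2) +
        (2 * x) * (p z * (u z * v z))) μ := i1.add i2
      rw [integral_add i3 h2, integral_add i1 i2, integral_const_mul, integral_const_mul]
      ring
    rw [e]
    apply integral_nonneg
    intro z
    have h : (x * x) * (p z * u z ^ 2) + (2 * x) * (p z * (u z * v z)) + p z * v z ^ 2 =
        p z * (x * u z + v z) ^ 2 := by ring
    simp only [Pi.zero_apply]
    rw [h]
    exact mul_nonneg (hp z) (sq_nonneg _)
  have h := discrim_le_zero key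
  unfold discrim at h
  nlinarith

lemma contOn {f : ℍ → ℝ} {t : ℝ} (hf : IsHeckeMaass f t) :
    ContinuousOn (fun z : ℂ => z.im ^ 2 * ‖dz (fun w => (ext f w : ℂ)) z‖ ^ 2 / (1 / 4 + t ^ 2))
      H0 := by
  have h0 : ContDiffOn ℝ ∞ (fun w => (ext f w : ℂ)) H0 :=
    Complex.ofRealCLM.contDiff.comp_contDiffOn hf.smooth
  have h1 : ContinuousOn (fderiv ℝ (fun w => (ext f w : ℂ))) H0 :=
    h0.continuousOn_fderiv_of_isOpen Half.isOpen_H0 (by simp)
  have h2 : ContinuousOn (dz (fun w => (ext f w : ℂ))) H0 := by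
    unfold dz
    exact (h1.clm_apply continuousOn_const).sub
      (continuousOn_const.mul (h1.clm_apply continuousOn_const))
  exact ((Complex.continuous_im.continuousOn.pow 2).mul (h2.norm.pow 2)).div_const _

lemma cont {f : ℍ → ℝ} {t : ℝ} (hf : IsHeckeMaass f t) : Continuous (gN f t) := by
  have h3 := (contOn hf).comp_continuous UpperHalfPlane.continuous_coe (fun z => z.im_pos)
  have h4 : gN f t = fun z : ℍ => (z : ℂ).im ^ 2 *
      ‖dz (fun w => (ext f w : ℂ)) (z : ℂ)‖ ^ 2 / (1 / 4 + t ^ 2) := by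
    funext z
    unfold gN
    rw [UpperHalfPlane.coe_im]
  rw [h4]
  exact h3

/-- a test function times a continuous function is integrable -/
lemma intg {ψ : ℍ → ℝ} (hψ : TestX ψ) {g : ℍ → ℝ} (hg : Continuous g) :
    IntegrableOn (fun z => ψ z * g z) ModularGroup.fdo := by
  obtain ⟨Y, hY⟩ := hψ.cusp
  have hψc : Continuous ψ := X.continuous_of_ext hψ.smooth
  exact X.integrableOn_fdo (hψc.mul hg) (fun z hz h => by
    rw [hY z (ModularGroup.fdo_subset_fd hz) h, zero_mul])

/-- growth of `x G(x)` -/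
lemma growth {G : ℝ → ℝ} {B : ℝ} (hG : ContDiff ℝ ∞ G) (hB : ∀ x, |deriv G x| ≤ B) (x : ℝ) :
    |G x| ≤ |G 0| + B * |x| := by
  have hd : Differentiable ℝ G := hG.differentiable (by simp)
  have h1 : ‖G x - G 0‖ ≤ B * ‖x - 0‖ :=
    Convex.norm_image_sub_le_of_norm_deriv_le (s := univ) (fun y _ => hd y)
      (fun y _ => by rw [Real.norm_eq_abs]; exact hB y) convex_univ (mem_univ _) (mem_univ _)
  rw [sub_zero, Real.norm_eq_abs, Real.norm_eq_abs] at h1
  have h2 : |G x| ≤ |G x - G 0| + |G 0| := by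
    have := abs_add_le (G x - G 0) (G 0)
    rwa [sub_add_cancel] at this
  linarith

/-- convergence of the integrals of `x G(x)` -/
lemma conv {f : ℕ → ℍ → ℝ} (hfc : ∀ i, Continuous (f i)) {ψ : ℍ → ℝ} (hψ : TestX ψ)
    (hψ0 : ∀ z, 0 ≤ ψ z) {ν : Measure ℝ} (hL : Law f ψ ν) (hU : UI f ψ)
    {F : ℝ → ℝ} (hF : Continuous F) {A : ℝ} (hA : 0 ≤ A) (hFA : ∀ x, 1 ≤ |x| → |F x| ≤ A * x ^ 4)
    (hFi : Integrable F ν) :
    Tendsto (fun i => ∫ z in ModularGroup.fdo, ψ z * F (f i z)) atTop (𝓝 (∫ x, F x ∂ν)) := by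
  -- the truncations
  have hgc : ∀ R, Continuous (fun x => th R x * F x) := fun R => (th_cont R).mul hF
  have hgb : ∀ R, 0 < R → ∃ C, ∀ x, |th R x * F x| ≤ C := by
    intro R hR
    obtain ⟨C, hC⟩ := (isCompact_Icc (a := -(2 * R)) (b := 2 * R)).exists_bound_of_continuousOn
      hF.continuousOn
    refine ⟨max C 0, fun x => ?_⟩
    by_cases h : |x| ≤ 2 * R
    · have h1 := hC x (abs_le.mp h)
      rw [Real.norm_eq_abs] at h1
      rw [abs_mul, abs_of_nonneg (th_nonneg R x)]
      calc th R x * |F x| ≤ 1 * |F x| :=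
            mul_le_mul_of_nonneg_right (th_le_one R x) (abs_nonneg _)
        _ = |F x| := one_mul _
        _ ≤ C := h1
        _ ≤ max C 0 := le_max_left _ _
    · push Not at h
      rw [th_zero hR h.le, zero_mul, abs_zero]
      exact le_max_right _ _
  have hgl : Tendsto (fun n : ℕ => ∫ x, th (n : ℝ) x * F x ∂ν) atTop (𝓝 (∫ x, F x ∂ν)) := by
    apply tendsto_integral_of_dominated_convergence (fun x => |F x|)
      (fun n => (hgc _).aestronglyMeasurable) hFi.abs
    · intro n
      refine Eventually.of_forall fun x => ?_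
      rw [Real.norm_eq_abs, abs_mul, abs_of_nonneg (th_nonneg _ x)]
      exact mul_le_of_le_one_left (abs_nonneg _) (th_le_one _ x)
    · refine Eventually.of_forall fun x => ?_
      apply tendsto_const_nhds.congr'
      filter_upwards [tendsto_natCast_atTop_atTop.eventually_ge_atTop (max |x| 1)] with n hn
      have h1 : (0 : ℝ) < n := lt_of_lt_of_le zero_lt_one ((le_max_right _ _).trans hn)
      rw [th_one h1 ((le_max_left _ _).trans hn), one_mul]
  rw [Metric.tendsto_atTop']
  intro ε hε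
  have hε' : 0 < ε / (4 * (A + 1)) := by positivity
  obtain ⟨H, hH⟩ := hU _ hε'
  -- the choice of the truncation
  obtain ⟨n, hn1, hn2⟩ : ∃ n : ℕ, max H 1 ≤ (n : ℝ) ∧
      |(∫ x, th (n : ℝ) x * F x ∂ν) - ∫ x, F x ∂ν| < ε / 4 := by
    have h1 := tendsto_natCast_atTop_atTop.eventually_ge_atTop (max H 1)
    have h2 := (Metric.tendsto_nhds.mp hgl) (ε / 4) (by positivity)
    obtain ⟨n, h3, h4⟩ := (h1.and h2).exists
    rw [Real.dist_eq] at h4
    exact ⟨n, h3, h4⟩
  set R : ℝ := (n : ℝ) with hR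
  have hR1 : 1 ≤ R := (le_max_right _ _).trans hn1
  have hR0 : 0 < R := by linarith
  have hRH : H ≤ R ^ 2 := by
    have := (le_max_left H 1).trans hn1
    nlinarith
  have h3 := hL.lim _ (hgc R) (hgb R hR0)
  have h4 := (Metric.tendsto_nhds.mp h3) (ε / 4) (by positivity)
  obtain ⟨N, hN⟩ := eventually_atTop.mp (hH.and h4)
  refine ⟨N, fun i hi => ?_⟩
  obtain ⟨h5, h6⟩ := hN i hi.le
  rw [Real.dist_eq] at h6 ⊢
  -- the tail
  set S : Set ℍ := {w : ℍ | H < f i w ^ 2} with hS
  have hSm : MeasurableSet S := (isOpen_lt continuous_const ((hfc i).pow 2)).measurableSet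
  have i1 : IntegrableOn (fun z => ψ z * F (f i z)) ModularGroup.fdo :=
    intg hψ (hF.comp (hfc i))
  have i2 : IntegrableOn (fun z => ψ z * (th R (f i z) * F (f i z))) ModularGroup.fdo :=
    intg hψ ((hgc R).comp (hfc i))
  have i3 : IntegrableOn (fun z => ψ z * f i z ^ 4) ModularGroup.fdo :=
    intg hψ ((hfc i).pow 4)
  have i4 : IntegrableOn (fun z => ψ z * S.indicator (fun w => f i w ^ 4) z)
      ModularGroup.fdo := by
    have h := i3.integrable.indicator hSm
    refine h.congr (Eventually.of_forall fun z => ?_)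
    by_cases hz : z ∈ S
    · simp only [indicator_of_mem hz]
    · simp only [indicator_of_notMem hz, mul_zero]
  have h7 : |(∫ z in ModularGroup.fdo, ψ z * F (f i z)) -
      ∫ z in ModularGroup.fdo, ψ z * (th R (f i z) * F (f i z))| ≤
        A * ∫ z in ModularGroup.fdo, ψ z * S.indicator (fun w => f i w ^ 4) z := by
    rw [← integral_sub i1 i2, ← integral_const_mul]
    refine (abs_integral_le_integral_abs).trans ?_
    apply integral_mono (i1.sub i2).abs (i4.const_mul A)
    intro z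
    simp only [Pi.sub_apply]
    have e1 : ψ z * F (f i z) - ψ z * (th R (f i z) * F (f i z)) =
        ψ z * ((1 - th R (f i z)) * F (f i z)) := by ring
    rw [e1, abs_mul, abs_of_nonneg (hψ0 z), abs_mul,
      abs_of_nonneg (sub_nonneg.mpr (th_le_one R (f i z)))]
    have e2 : A * (ψ z * S.indicator (fun w => f i w ^ 4) z) =
        ψ z * (A * S.indicator (fun w => f i w ^ 4) z) := by ring
    rw [e2]
    apply mul_le_mul_of_nonneg_left _ (hψ0 z)
    by_cases hx : |f i z| ≤ R
    · rw [th_one hR0 hx, sub_self, zero_mul]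
      apply mul_nonneg hA
      apply indicator_nonneg
      intro w _
      positivity
    · push Not at hx
      have hzS : z ∈ S := by
        change H < f i z ^ 2
        have : R ^ 2 < |f i z| ^ 2 := by
          have h0 := abs_nonneg (f i z)
          nlinarith
        rw [sq_abs] at this
        linarith
      rw [indicator_of_mem hzS]
      calc (1 - th R (f i z)) * |F (f i z)| ≤ 1 * |F (f i z)| :=
            mul_le_mul_of_nonneg_right (by linarith [th_nonneg R (f i z)]) (abs_nonneg _)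
        _ = |F (f i z)| := one_mul _
        _ ≤ A * f i z ^ 4 := hFA _ (by linarith)
  have h8 : A * ∫ z in ModularGroup.fdo, ψ z * S.indicator (fun w => f i w ^ 4) z ≤ ε / 4 := by
    calc A * ∫ z in ModularGroup.fdo, ψ z * S.indicator (fun w => f i w ^ 4) z
        ≤ A * (ε / (4 * (A + 1))) := mul_le_mul_of_nonneg_left h5 hA
      _ ≤ (A + 1) * (ε / (4 * (A + 1))) :=
          mul_le_mul_of_nonneg_right (by linarith) hε'.le
      _ = ε / 4 := by field_simp
  have h9 : (∫ z in ModularGroup.fdo, ψ z * F (f i z)) - ∫ x, F x ∂ν =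
      ((∫ z in ModularGroup.fdo, ψ z * F (f i z)) -
        ∫ z in ModularGroup.fdo, ψ z * (th R (f i z) * F (f i z))) +
      ((∫ z in ModularGroup.fdo, ψ z * (th R (f i z) * F (f i z))) -
        ∫ x, th R x * F x ∂ν) + ((∫ x, th R x * F x ∂ν) - ∫ x, F x ∂ν) := by ring
  rw [h9]
  have h10 := abs_add_three ((∫ z in ModularGroup.fdo, ψ z * F (f i z)) -
        ∫ z in ModularGroup.fdo, ψ z * (th R (f i z) * F (f i z)))
      ((∫ z in ModularGroup.fdo, ψ z * (th R (f i z) * F (f i z))) -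
        ∫ x, th R x * F x ∂ν) ((∫ x, th R x * F x ∂ν) - ∫ x, F x ∂ν)
  linarith

end LstM

/-- **Lst** -/
theorem stmtLst (hStX : StmtStX) : StmtLst := by
  intro f t hf ht hB4 ψ hψ hψ0 ν hL hU
  obtain ⟨⟨C, hC⟩, hG'⟩ := hStX f t hf ht hB4 ψ hψ hψ0
  have hC0 : 0 ≤ C := le_trans (integral_nonneg fun z =>
    mul_nonneg (hψ0 z) (sq_nonneg _)) (hC 0)
  refine ⟨C, hC0, fun G B hG hB => ?_⟩
  have hr0 : 0 ≤ C * ∫ x, deriv G x ^ 2 ∂ν :=
    mul_nonneg hC0 (integral_nonneg fun x => sq_nonneg _)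
  by_cases hi : Integrable (fun x => x * G x) ν
  swap
  · rw [integral_undef hi, zero_pow two_ne_zero]
    exact hr0
  have hfc : ∀ i, Continuous (f i) := fun i => X.continuous_of_ext (hf i).smooth
  have hGc : Continuous G := hG.continuous
  have hG1 : Continuous (deriv G) := hG.continuous_deriv (by simp)
  have hB0 : 0 ≤ B := (abs_nonneg _).trans (hB 0)
  have c1 : Tendsto (fun i => ∫ z in ModularGroup.fdo, ψ z * (f i z * G (f i z))) atTop
      (𝓝 (∫ x, x * G x ∂ν)) := by
    apply LstM.conv hfc hψ hψ0 hL hU (F := fun x => x * G x) (continuous_id.mul hGc)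
      (A := |G 0| + B) (by positivity) _ hi
    intro x hx
    have h1 := LstM.growth hG hB x
    have h2 : |G 0| + B * |x| ≤ (|G 0| + B) * |x| := by
      have := mul_le_mul_of_nonneg_left hx (abs_nonneg (G 0))
      nlinarith
    have h3 : |x * G x| ≤ (|G 0| + B) * |x| ^ 2 := by
      rw [abs_mul]
      calc |x| * |G x| ≤ |x| * ((|G 0| + B) * |x|) :=
            mul_le_mul_of_nonneg_left (h1.trans h2) (abs_nonneg _)
        _ = (|G 0| + B) * |x| ^ 2 := by ring
    have h4 : |x| ^ 2 ≤ |x| ^ 4 := pow_le_pow_right₀ hx (by norm_num)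
    have h5 : |x| ^ 4 = x ^ 4 := by
      rw [← abs_pow, abs_of_nonneg (by positivity)]
    rw [← h5]
    exact h3.trans (mul_le_mul_of_nonneg_left h4 (by positivity))
  have c2 : Tendsto (fun i => ∫ z in ModularGroup.fdo, ψ z * deriv G (f i z) ^ 2) atTop
      (𝓝 (∫ x, deriv G x ^ 2 ∂ν)) := by
    apply hL.lim (fun x => deriv G x ^ 2) (hG1.pow 2)
    refine ⟨B ^ 2, fun x => ?_⟩
    rw [abs_pow]
    exact pow_le_pow_left₀ (abs_nonneg _) (hB x) 2
  have c3 := hG' G B hG hB
  have c4 : Tendsto (fun i => ∫ z in ModularGroup.fdo, ψ z * (deriv G (f i z) * gN (f i) (t i) z))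
      atTop (𝓝 (∫ x, x * G x ∂ν)) := by
    have h := c1.sub c3
    simpa using h
  refine le_of_tendsto_of_tendsto' (c4.pow 2) (c2.const_mul C) fun i => ?_
  have hNc : Continuous (gN (f i) (t i)) := LstM.cont (hf i)
  have hdc : Continuous (fun z => deriv G (f i z)) := hG1.comp (hfc i)
  have h1 := LstM.cs (μ := volume.restrict ModularGroup.fdo) (p := ψ)
    (u := fun z => deriv G (f i z)) (v := gN (f i) (t i)) hψ0
    (LstM.intg hψ (hdc.pow 2)) (LstM.intg hψ (hNc.pow 2)) (LstM.intg hψ (hdc.mul hNc))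
  refine h1.trans ?_
  have h2 : 0 ≤ ∫ z in ModularGroup.fdo, ψ z * deriv G (f i z) ^ 2 :=
    integral_nonneg fun z => mul_nonneg (hψ0 z) (sq_nonneg _)
  calc (∫ z in ModularGroup.fdo, ψ z * deriv G (f i z) ^ 2) *
        ∫ z in ModularGroup.fdo, ψ z * gN (f i) (t i) z ^ 2
      ≤ (∫ z in ModularGroup.fdo, ψ z * deriv G (f i z) ^ 2) * C :=
        mul_le_mul_of_nonneg_left (hC i) h2
    _ = C * ∫ z in ModularGroup.fdo, ψ z * deriv G (f i z) ^ 2 := mul_comm _ _

end

end Pool.Agent.A54.Vd
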