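import Pool.Agent.Lib.MP_a54f13_nt.Vd.SpecS
import Pool.Agent.Lib.MP_a54f13_nt.X

/-!
# `Mom`: the moments of the limit law

Truncation `x ^ n θ(x / R)`, uniform integrability of the fourth powers, dominated convergence.
-/

set_option autoImplicit false

namespace Pool.Agent.A54.Vd

open MeasureTheory Filter Topology Set
open scoped ContDiff ComplexConjugate UpperHalfPlane MatrixGroups ENNReal

namespace MomM

/-- the truncation function -/
noncomputable def th (R x : ℝ) : ℝ := max 0 (min 1 (2 - |x| / R))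

lemma th_nonneg (R x : ℝ) : 0 ≤ th R x := le_max_left _ _

lemma th_le_one (R x : ℝ) : th R x ≤ 1 := max_le zero_le_one (min_le_left _ _)

lemma th_one {R x : ℝ} (hR : 0 < R) (hx : |x| ≤ R) : th R x = 1 := by
  have h1 : |x| / R ≤ 1 := (div_le_one hR).2 hx
  rw [th, min_eq_left (by linarith), max_eq_right zero_le_one]

lemma th_zero {R x : ℝ} (hR : 0 < R) (hx : 2 * R ≤ |x|) : th R x = 0 := by
  have h1 : 2 ≤ |x| / R := (le_div_iff₀ hR).2 hx
  rw [th]
  exact max_eq_left ((min_le_right _ _).trans (by linarith))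

lemma th_cont (R : ℝ) : Continuous (th R) := by
  unfold th
  fun_prop

/-- the truncated power -/
noncomputable def tp (n : ℕ) (R x : ℝ) : ℝ := x ^ n * th R x

lemma tp_cont (n : ℕ) (R : ℝ) : Continuous (tp n R) := by
  unfold tp
  exact (continuous_pow n).mul (th_cont R)

lemma tp_abs_le (n : ℕ) (R x : ℝ) : |tp n R x| ≤ |x| ^ n := by
  rw [tp, abs_mul, abs_pow, abs_of_nonneg (th_nonneg R x)]
  exact mul_le_of_le_one_right (by positivity) (th_le_one R x)

lemma tp_bdd (n : ℕ) {R : ℝ} (hR : 0 < R) (x : ℝ) : |tp n R x| ≤ (2 * R) ^ n := by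
  by_cases hx : |x| ≤ 2 * R
  · exact (tp_abs_le n R x).trans (pow_le_pow_left₀ (abs_nonneg x) hx n)
  · rw [tp, th_zero hR (not_le.1 hx).le, mul_zero, abs_zero]
    positivity

lemma tp4_nonneg (R x : ℝ) : 0 ≤ tp 4 R x :=
  mul_nonneg (by positivity) (th_nonneg R x)

lemma tp4_le (R x : ℝ) : tp 4 R x ≤ x ^ 4 := by
  rw [tp]
  exact mul_le_of_le_one_right (by positivity) (th_le_one R x)

/-- the truncation error -/
lemma err_le {n : ℕ} (hn : n ≤ 4) {R H x : ℝ} (hR : 1 ≤ R) (hH : H ≤ R) :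
    |x ^ n - tp n R x| ≤ if H < x ^ 2 then x ^ 4 else 0 := by
  have hR0 : 0 < R := by linarith
  by_cases hx : |x| ≤ R
  · rw [tp, th_one hR0 hx, mul_one, sub_self, abs_zero]
    split_ifs <;> positivity
  · have hx' : R < |x| := not_le.1 hx
    have hH2 : H < x ^ 2 := by
      have : R < x ^ 2 := by
        rw [← sq_abs]
        nlinarith
      linarith
    rw [if_pos hH2]
    have h1 : x ^ n - tp n R x = x ^ n * (1 - th R x) := by rw [tp]; ring
    rw [h1, abs_mul, abs_pow, abs_of_nonneg (by linarith [th_le_one R x] : 0 ≤ 1 - th R x)]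
    have h2 : |x| ^ n ≤ |x| ^ 4 := pow_le_pow_right₀ (by linarith) hn
    have h3 : |x| ^ 4 = x ^ 4 := by
      rw [show (4 : ℕ) = 2 * 2 from rfl, pow_mul, sq_abs, ← pow_mul]
    calc |x| ^ n * (1 - th R x) ≤ |x| ^ n * 1 := by
          apply mul_le_mul_of_nonneg_left _ (by positivity)
          linarith [th_nonneg R x]
      _ ≤ x ^ 4 := by rw [mul_one, ← h3]; exact h2

lemma pow_le_one_add {n : ℕ} (hn : n ≤ 4) (x : ℝ) : |x| ^ n ≤ 1 + x ^ 4 := by
  have h3 : |x| ^ 4 = x ^ 4 := by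
    rw [show (4 : ℕ) = 2 * 2 from rfl, pow_mul, sq_abs, ← pow_mul]
  by_cases hx : |x| ≤ 1
  · have h1 : |x| ^ n ≤ 1 := pow_le_one₀ (abs_nonneg x) hx
    have h2 : (0 : ℝ) ≤ x ^ 4 := by positivity
    linarith
  · have h2 : |x| ^ n ≤ |x| ^ 4 := pow_le_pow_right₀ (not_le.1 hx).le hn
    rw [h3] at h2
    linarith

section

variable {f : ℕ → ℍ → ℝ} {t : ℕ → ℝ} {ψ : ℍ → ℝ}

/-- comparison of the moments and the truncated moments -/
lemma compare (hf : ∀ i, IsHeckeMaass (f i) (t i)) (hψ : TestX ψ) (h0 : ∀ z, 0 ≤ ψ z)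
    {n : ℕ} (hn : n ≤ 4) {R H : ℝ} (hR : 1 ≤ R) (hH : H ≤ R) (i : ℕ) :
    |(∫ z in ModularGroup.fdo, ψ z * f i z ^ n) - ∫ z in ModularGroup.fdo, ψ z * tp n R (f i z)| ≤
      ∫ z in ModularGroup.fdo, ψ z * {w : ℍ | H < f i w ^ 2}.indicator (fun w => f i w ^ 4) z := by
  obtain ⟨Y, hY⟩ := hψ.cusp
  have hψc : Continuous ψ := X.continuous_of_ext hψ.smooth
  have hfc : Continuous (f i) := X.continuous_of_ext (hf i).smooth
  have i1 : IntegrableOn (fun z => ψ z * f i z ^ n) ModularGroup.fdo :=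
    X.integrableOn_fdo (hψc.mul (hfc.pow n)) (fun z hz h => by
      rw [hY z (ModularGroup.fdo_subset_fd hz) h, zero_mul])
  have i2 : IntegrableOn (fun z => ψ z * tp n R (f i z)) ModularGroup.fdo :=
    X.integrableOn_fdo (hψc.mul ((tp_cont n R).comp hfc)) (fun z hz h => by
      rw [hY z (ModularGroup.fdo_subset_fd hz) h, zero_mul])
  have i4 : IntegrableOn (fun z => ψ z * f i z ^ 4) ModularGroup.fdo :=
    X.integrableOn_fdo (hψc.mul (hfc.pow 4)) (fun z hz h => by
      rw [hY z (ModularGroup.fdo_subset_fd hz) h, zero_mul])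
  have hms : MeasurableSet {w : ℍ | H < f i w ^ 2} :=
    (isOpen_lt continuous_const (hfc.pow 2)).measurableSet
  have i3 : IntegrableOn
      (fun z => ψ z * {w : ℍ | H < f i w ^ 2}.indicator (fun w => f i w ^ 4) z)
      ModularGroup.fdo := by
    have h := Integrable.indicator i4 hms
    refine h.congr (Eventually.of_forall fun z => ?_)
    by_cases hz : z ∈ {w : ℍ | H < f i w ^ 2}
    · simp only [indicator_of_mem hz]
    · simp only [indicator_of_notMem hz, mul_zero]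
  rw [← integral_sub i1 i2]
  refine abs_integral_le_integral_abs.trans (integral_mono (i1.sub i2).abs i3 fun z => ?_)
  have h1 : ψ z * f i z ^ n - ψ z * tp n R (f i z) = ψ z * (f i z ^ n - tp n R (f i z)) := by ring
  show |ψ z * f i z ^ n - ψ z * tp n R (f i z)| ≤
    ψ z * {w : ℍ | H < f i w ^ 2}.indicator (fun w => f i w ^ 4) z
  rw [h1, abs_mul, abs_of_nonneg (h0 z)]
  refine mul_le_mul_of_nonneg_left ?_ (h0 z)
  have h2 := err_le (x := f i z) hn hR hH
  by_cases hz : H < f i z ^ 2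
  · rw [if_pos hz] at h2
    rw [indicator_of_mem (show z ∈ {w : ℍ | H < f i w ^ 2} from hz)]
    exact h2
  · rw [if_neg hz] at h2
    rw [indicator_of_notMem (show z ∉ {w : ℍ | H < f i w ^ 2} from hz)]
    exact h2

lemma tp_lim {ν : Measure ℝ} (hL : Law f ψ ν) (n : ℕ) {R : ℝ} (hR : 0 < R) :
    Tendsto (fun i => ∫ z in ModularGroup.fdo, ψ z * tp n R (f i z)) atTop
      (𝓝 (∫ x, tp n R x ∂ν)) :=
  hL.lim (tp n R) (tp_cont n R) ⟨(2 * R) ^ n, fun x => tp_bdd n hR x⟩

/-- the truncated fourth moments of the limit law are bounded -/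
lemma tp4_bound (hf : ∀ i, IsHeckeMaass (f i) (t i)) (hψ : TestX ψ) (h0 : ∀ z, 0 ≤ ψ z)
    {ν : Measure ℝ} (hL : Law f ψ ν) (hU : UI f ψ) :
    ∃ C R0 : ℝ, 1 ≤ R0 ∧ ∀ R : ℝ, R0 ≤ R → ∫ x, tp 4 R x ∂ν ≤ C := by
  obtain ⟨H, hH⟩ := hU 1 one_pos
  obtain ⟨Y, hY⟩ := hψ.cusp
  have hψc : Continuous ψ := X.continuous_of_ext hψ.smooth
  set R0 : ℝ := max 1 H with hR0
  have h1 : 1 ≤ R0 := le_max_left _ _
  refine ⟨(∫ x, tp 4 R0 x ∂ν) + 1, R0, h1, fun R hR => ?_⟩
  have hRp : 0 < R := by linarith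
  have hR0p : 0 < R0 := by linarith
  refine le_of_tendsto_of_tendsto (tp_lim hL 4 hRp) ((tp_lim hL 4 hR0p).add_const 1) ?_
  filter_upwards [hH] with i hi
  have hfc : Continuous (f i) := X.continuous_of_ext (hf i).smooth
  have i2 : IntegrableOn (fun z => ψ z * tp 4 R (f i z)) ModularGroup.fdo :=
    X.integrableOn_fdo (hψc.mul ((tp_cont 4 R).comp hfc)) (fun z hz h => by
      rw [hY z (ModularGroup.fdo_subset_fd hz) h, zero_mul])
  have i4 : IntegrableOn (fun z => ψ z * f i z ^ 4) ModularGroup.fdo :=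
    X.integrableOn_fdo (hψc.mul (hfc.pow 4)) (fun z hz h => by
      rw [hY z (ModularGroup.fdo_subset_fd hz) h, zero_mul])
  have h2 : ∫ z in ModularGroup.fdo, ψ z * tp 4 R (f i z) ≤
      ∫ z in ModularGroup.fdo, ψ z * f i z ^ 4 :=
    integral_mono i2 i4 fun z => mul_le_mul_of_nonneg_left (tp4_le R (f i z)) (h0 z)
  have h3 := (abs_le.1 ((compare hf hψ h0 le_rfl h1 (le_max_right 1 H) i).trans hi)).2
  show ∫ z in ModularGroup.fdo, ψ z * tp 4 R (f i z) ≤
    (∫ z in ModularGroup.fdo, ψ z * tp 4 R0 (f i z)) + 1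
  linarith

lemma integrable4 (hf : ∀ i, IsHeckeMaass (f i) (t i)) (hψ : TestX ψ) (h0 : ∀ z, 0 ≤ ψ z)
    {ν : Measure ℝ} (hL : Law f ψ ν) (hU : UI f ψ) : Integrable (fun x : ℝ => x ^ 4) ν := by
  have := hL.fin
  obtain ⟨C, R0, hR0, hC⟩ := tp4_bound hf hψ h0 hL hU
  have hcov : AECover ν atTop (fun k : ℕ => Metric.closedBall (0 : ℝ) (k : ℝ)) :=
    aecover_closedBall tendsto_natCast_atTop_atTop
  have hball : ∀ (k : ℕ) (x : ℝ), x ∈ Metric.closedBall (0 : ℝ) (k : ℝ) ↔ |x| ≤ k := by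
    intro k x
    rw [Metric.mem_closedBall, dist_zero_right, Real.norm_eq_abs]
  refine hcov.integrable_of_integral_norm_bounded C (fun k => ?_) ?_
  · exact (continuous_pow 4).continuousOn.integrableOn_compact (isCompact_closedBall _ _)
  · filter_upwards [eventually_ge_atTop (Nat.ceil R0)] with k hk
    have hk' : R0 ≤ k := (Nat.le_ceil R0).trans (by exact_mod_cast hk)
    have hkp : (0 : ℝ) < k := by linarith
    have htp : Integrable (tp 4 k) ν :=
      Integrable.of_bound (tp_cont 4 k).aestronglyMeasurable ((2 * (k : ℝ)) ^ 4)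
        (Eventually.of_forall fun x => tp_bdd 4 hkp x)
    refine le_trans ?_ (hC k hk')
    refine le_trans (le_of_eq ?_) (setIntegral_le_integral (s := Metric.closedBall (0 : ℝ) (k : ℝ))
      htp (Eventually.of_forall fun x => tp4_nonneg _ x))
    refine setIntegral_congr_fun Metric.isClosed_closedBall.measurableSet fun x hx => ?_
    have hx' := (hball k x).1 hx
    show ‖x ^ 4‖ = tp 4 k x
    rw [tp, th_one hkp hx', mul_one, Real.norm_of_nonneg (by positivity)]

lemma tp_tendsto {ν : Measure ℝ} [IsFiniteMeasure ν] (h4 : Integrable (fun x : ℝ => x ^ 4) ν)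
    {n : ℕ} (hn : n ≤ 4) :
    Tendsto (fun k : ℕ => ∫ x, tp n k x ∂ν) atTop (𝓝 (∫ x, x ^ n ∂ν)) := by
  refine tendsto_integral_of_dominated_convergence (fun x => 1 + x ^ 4)
    (fun k => (tp_cont n k).aestronglyMeasurable) ((integrable_const 1).add h4) ?_ ?_
  · intro k
    exact Eventually.of_forall fun x => (tp_abs_le n k x).trans (pow_le_one_add hn x)
  · refine Eventually.of_forall fun x => tendsto_const_nhds.congr' ?_
    filter_upwards [eventually_ge_atTop (Nat.ceil (max 1 |x|))] with k hk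
    have hk' : max 1 |x| ≤ k := (Nat.le_ceil _).trans (by exact_mod_cast hk)
    have h1 : (1 : ℝ) ≤ k := (le_max_left _ _).trans hk'
    rw [tp, th_one (by linarith) ((le_max_right _ _).trans hk'), mul_one]

end

end MomM

theorem stmtMom : StmtMom := by
  intro f t hf ψ hψ h0 ν hL hU
  have := hL.fin
  have h4 := MomM.integrable4 hf hψ h0 hL hU
  refine ⟨h4, fun n c hn hc => ?_⟩
  refine eq_of_forall_dist_le fun ε hε => ?_
  obtain ⟨H, hH⟩ := hU (ε / 2) (by positivity)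
  have hev := (Metric.tendsto_nhds.1 (MomM.tp_tendsto h4 hn)) (ε / 2) (by positivity)
  obtain ⟨k, hk1, hk2⟩ := (hev.and (eventually_ge_atTop (Nat.ceil (max 1 H)))).exists
  have hk' : max 1 H ≤ k := (Nat.le_ceil _).trans (by exact_mod_cast hk2)
  have h1 : (1 : ℝ) ≤ k := (le_max_left _ _).trans hk'
  have hHk : H ≤ k := (le_max_right _ _).trans hk'
  have hlim : Tendsto (fun i => |(∫ z in ModularGroup.fdo, ψ z * f i z ^ n) -
      ∫ z in ModularGroup.fdo, ψ z * MomM.tp n k (f i z)|) atTop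
      (𝓝 |c - ∫ x, MomM.tp n k x ∂ν|) :=
    (hc.sub (MomM.tp_lim hL n (by linarith : (0 : ℝ) < k))).abs
  have hle : |c - ∫ x, MomM.tp n k x ∂ν| ≤ ε / 2 := by
    refine le_of_tendsto hlim ?_
    filter_upwards [hH] with i hi
    exact (MomM.compare hf hψ h0 hn h1 hHk i).trans hi
  rw [Real.dist_eq] at hk1 ⊢
  have e1 : (∫ x, x ^ n ∂ν) - c = -((∫ x, MomM.tp n k x ∂ν) - ∫ x, x ^ n ∂ν) +
      -(c - ∫ x, MomM.tp n k x ∂ν) := by ring
  rw [e1]
  refine (abs_add_le _ _).trans ?_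
  rw [abs_neg, abs_neg]
  linarith

end Pool.Agent.A54.Vd
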