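import Pool.Agent.Lib.MP_a54f13_nt.Vd.SpecU

/-!
Pointwise bound of `‖G_0‖²` by the mass in a ball of radius `1 / t`.
-/

set_option autoImplicit false

namespace Pool.Agent.A54.Vd

open MeasureTheory Filter Topology Set
open scoped ContDiff ComplexConjugate UpperHalfPlane MatrixGroups ENNReal
open Pool.Agent.A54.Half (H0 qq ff hh)
open Pool.Agent.A54.Sq (TestP la Tow pp Wi Pj Up KK SS CosH)
open Pool.Agent.A54.Pl (Ed mean)

noncomputable section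

namespace MvM

/-- the bound on a line -/
lemma line {f : ℝ → ℂ} (hf : ContDiff ℝ 1 f) (hc : HasCompactSupport f) (a : ℝ) :
    ‖f a‖ₑ ≤ ∫⁻ s, ‖deriv f s‖ₑ :=
  (HasCompactSupport.enorm_le_lintegral_Ici_deriv hf hc a).trans (setLIntegral_le_lintegral _ _)

/-- compact support on lines -/
lemma cpt_line {g : ℂ → ℂ} (hc : HasCompactSupport g) (e : ℝ → ℂ) (he : ∀ s, |s| ≤ ‖e s‖) :
    HasCompactSupport (fun s => g (e s)) := by
  obtain ⟨R, hR⟩ := hc.isCompact.isBounded.subset_closedBall 0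
  refine HasCompactSupport.intro (isCompact_Icc : IsCompact (Icc (-R) R)) fun s hs => ?_
  refine image_eq_zero_of_notMem_tsupport fun h => hs ?_
  have h1 := hR h
  rw [mem_closedBall_zero_iff] at h1
  exact abs_le.1 ((he s).trans h1)

lemma hor {g : ℂ → ℂ} (hg : ContDiff ℝ ∞ g) (y s : ℝ) :
    HasDerivAt (fun s : ℝ => g ((s : ℂ) + (y : ℂ) * Complex.I))
      (fderiv ℝ g ((s : ℂ) + (y : ℂ) * Complex.I) 1) s := by
  have h1 : HasDerivAt (fun s : ℝ => (s : ℂ) + (y : ℂ) * Complex.I) 1 s :=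
    (Complex.ofRealCLM.hasDerivAt (x := s)).add_const _
  exact (diffAt hg).hasFDerivAt.comp_hasDerivAt s h1

lemma ver {g : ℂ → ℂ} (hg : ContDiff ℝ ∞ g) (x s : ℝ) :
    HasDerivAt (fun s : ℝ => g ((x : ℂ) + (s : ℂ) * Complex.I))
      (fderiv ℝ g ((x : ℂ) + (s : ℂ) * Complex.I) Complex.I) s := by
  have h1 : HasDerivAt (fun s : ℝ => (x : ℂ) + (s : ℂ) * Complex.I) Complex.I s := by
    have h := ((Complex.ofRealCLM.hasDerivAt (x := s)).mul_const Complex.I).const_add (x : ℂ)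
    simpa using h
  exact (diffAt hg).hasFDerivAt.comp_hasDerivAt s h1

/-- the mixed derivative -/
def Dxy (g : ℂ → ℂ) (x : ℂ) : ℂ := fderiv ℝ (fun w => fderiv ℝ g w 1) x Complex.I

lemma point {g : ℂ → ℂ} (hg : ContDiff ℝ ∞ g) (hc : HasCompactSupport g) (z : ℂ) :
    ‖g z‖ ≤ ∫ x, ‖Dxy g x‖ := by
  have hg1 : ContDiff ℝ ∞ (fun w => fderiv ℝ g w 1) := contDiff_apply hg 1
  have hD : ContDiff ℝ ∞ (Dxy g) := contDiff_apply hg1 Complex.I
  have hc1 : HasCompactSupport (fun w => fderiv ℝ g w 1) := hc.fderiv_apply ℝ 1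
  have hcD : HasCompactSupport (Dxy g) := hc1.fderiv_apply ℝ Complex.I
  have nre : ∀ (y s : ℝ), |s| ≤ ‖(s : ℂ) + (y : ℂ) * Complex.I‖ := fun y s => by
    have := Complex.abs_re_le_norm ((s : ℂ) + (y : ℂ) * Complex.I)
    simpa using this
  have nim : ∀ (x s : ℝ), |s| ≤ ‖(x : ℂ) + (s : ℂ) * Complex.I‖ := fun x s => by
    have := Complex.abs_im_le_norm ((x : ℂ) + (s : ℂ) * Complex.I)
    simpa using this
  have s1 : ContDiff ℝ 1 (fun s : ℝ => g ((s : ℂ) + (z.im : ℂ) * Complex.I)) :=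
    (hg.of_le (by simp)).comp ((Complex.ofRealCLM.contDiff).add contDiff_const)
  have s2 : ∀ x : ℝ, ContDiff ℝ 1 (fun s : ℝ => fderiv ℝ g ((x : ℂ) + (s : ℂ) * Complex.I) 1) :=
    fun x => ContDiff.comp (g := fun w => fderiv ℝ g w 1) (hg1.of_le (by simp))
      (contDiff_const.add ((Complex.ofRealCLM.contDiff).mul contDiff_const))
  have k1 : ‖g z‖ₑ ≤ ∫⁻ s : ℝ, ‖fderiv ℝ g ((s : ℂ) + (z.im : ℂ) * Complex.I) 1‖ₑ := by
    have h := line s1 (cpt_line hc _ (nre z.im)) z.re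
    simp only [Complex.re_add_im] at h
    refine h.trans (le_of_eq (lintegral_congr fun s => ?_))
    rw [(hor hg z.im s).deriv]
  have k2 : ∀ s : ℝ, ‖fderiv ℝ g ((s : ℂ) + (z.im : ℂ) * Complex.I) 1‖ₑ ≤
      ∫⁻ r : ℝ, ‖Dxy g ((s : ℂ) + (r : ℂ) * Complex.I)‖ₑ := by
    intro s
    have h := line (s2 s) (cpt_line hc1 _ (nim s)) z.im
    refine h.trans (le_of_eq (lintegral_congr fun r => ?_))
    rw [(ver hg1 s r).deriv]
    rfl
  have hDm : Measurable (fun x : ℂ => ‖Dxy g x‖ₑ) := hD.continuous.measurable.enorm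
  have k3 : ∫⁻ x : ℂ, ‖Dxy g x‖ₑ = ∫⁻ s : ℝ, ∫⁻ r : ℝ, ‖Dxy g ((s : ℂ) + (r : ℂ) * Complex.I)‖ₑ := by
    rw [← (Complex.volume_preserving_equiv_real_prod.symm _).lintegral_comp hDm,
      Measure.volume_eq_prod, lintegral_prod]
    · refine lintegral_congr fun s => lintegral_congr fun r => ?_
      rw [Complex.measurableEquivRealProd_symm_apply, ← Complex.mk_eq_add_mul_I]
    · exact (hDm.comp Complex.measurableEquivRealProd.symm.measurable).aemeasurable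
  have hi : Integrable (Dxy g) := integrable_of_cpt hD.continuous hcD
  have k4 : ‖g z‖ₑ ≤ ENNReal.ofReal (∫ x, ‖Dxy g x‖) := by
    rw [ofReal_integral_norm_eq_lintegral_enorm hi, k3]
    exact k1.trans (lintegral_mono k2)
  rw [← ofReal_norm] at k4
  exact (ENNReal.ofReal_le_ofReal_iff (integral_nonneg fun _ => norm_nonneg _)).1 k4

lemma dz_dz {g : ℂ → ℂ} (hg : ContDiff ℝ ∞ g) (x : ℂ) :
    dz (dz g) x = (fderiv ℝ (fun w => fderiv ℝ g w 1) x 1 -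
      fderiv ℝ (fun w => fderiv ℝ g w Complex.I) x Complex.I) - 2 * Complex.I * Dxy g x := by
  have h1 := contDiff_apply hg 1
  have hI := contDiff_apply hg Complex.I
  have e : dz (dz g) x = dz (fun w => fderiv ℝ g w 1) x -
      Complex.I * dz (fun w => fderiv ℝ g w Complex.I) x := by
    have e0 : dz g = fun w => fderiv ℝ g w 1 - Complex.I * fderiv ℝ g w Complex.I := rfl
    rw [e0, dz_sub h1 (contDiff_const.mul hI), dz_const_mul _ hI]
  rw [e]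
  unfold dz Dxy
  rw [fderiv_fderiv_comm hg Complex.I 1]
  linear_combination (-(fderiv ℝ (fun w => fderiv ℝ g w Complex.I) x Complex.I)) * Complex.I_mul_I.symm

lemma real_fderiv {g : ℂ → ℂ} (hg : ContDiff ℝ ∞ g) (hr : ∀ x, conj (g x) = g x) (v x : ℂ) :
    conj (fderiv ℝ g x v) = fderiv ℝ g x v := by
  rw [← fderiv_conj_apply hg, funext hr]

lemma Dxy_le {g : ℂ → ℂ} (hg : ContDiff ℝ ∞ g) (hr : ∀ x, conj (g x) = g x) (x : ℂ) :
    ‖Dxy g x‖ ≤ ‖dz (dz g) x‖ / 2 := by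
  have r1 : ∀ w, conj (fderiv ℝ g w 1) = fderiv ℝ g w 1 := real_fderiv hg hr 1
  have rI : ∀ w, conj (fderiv ℝ g w Complex.I) = fderiv ℝ g w Complex.I := real_fderiv hg hr Complex.I
  have a1 := Complex.conj_eq_iff_im.1 (real_fderiv (contDiff_apply hg 1) r1 1 x)
  have a2 := Complex.conj_eq_iff_im.1 (real_fderiv (contDiff_apply hg Complex.I) rI Complex.I x)
  have a3 : (Dxy g x).im = 0 :=
    Complex.conj_eq_iff_im.1 (real_fderiv (contDiff_apply hg 1) r1 Complex.I x)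
  have h1 : (dz (dz g) x).im = -(2 * (Dxy g x).re) := by
    rw [dz_dz hg]
    simp [a1, a2, a3]
  have h2 : ‖Dxy g x‖ = |(Dxy g x).re| := by
    have : Dxy g x = ((Dxy g x).re : ℂ) := Complex.ext rfl (by simpa using a3)
    rw [this]
    simp
  have h3 := Complex.abs_im_le_norm (dz (dz g) x)
  rw [h1, abs_neg, abs_mul, abs_two] at h3
  rw [h2]
  linarith

/-- the rescaled function -/
lemma dz_scale {h : ℂ → ℂ} (hh : ContDiff ℝ ∞ h) (t : ℝ) (z x : ℂ) :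
    dz (fun x => h ((t : ℂ) * (x - z))) x = (t : ℂ) * dz h ((t : ℂ) * (x - z)) := by
  have h1 : HasFDerivAt (fun x : ℂ => (t : ℂ) * (x - z))
      (((t : ℂ) • (1 : ℂ →L[ℂ] ℂ)).restrictScalars ℝ) x := by
    have h := (((hasFDerivAt_id (𝕜 := ℂ) x).sub_const z).const_mul (t : ℂ)).restrictScalars ℝ
    exact h
  have h2 := (diffAt (g := h) (z := (t : ℂ) * (x - z)) hh).hasFDerivAt.comp x h1
  have h3 : ∀ v : ℂ, fderiv ℝ (fun x => h ((t : ℂ) * (x - z))) x v =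
      (t : ℂ) * fderiv ℝ h ((t : ℂ) * (x - z)) v := by
    intro v
    have h4 : fderiv ℝ (fun x => h ((t : ℂ) * (x - z))) x =
      (fderiv ℝ h ((t : ℂ) * (x - z))).comp (((t : ℂ) • (1 : ℂ →L[ℂ] ℂ)).restrictScalars ℝ) := h2.fderiv
    rw [h4]
    have h5 : (((t : ℂ) • (1 : ℂ →L[ℂ] ℂ)).restrictScalars ℝ : ℂ →L[ℝ] ℂ) v = t • v := by
      simp
    rw [ContinuousLinearMap.comp_apply, h5, map_smul, Complex.real_smul]
  unfold dz
  rw [h3, h3]
  ring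

lemma smooth_scale {h : ℂ → ℂ} (hh : ContDiff ℝ ∞ h) (t : ℝ) (z : ℂ) :
    ContDiff ℝ ∞ (fun x => h ((t : ℂ) * (x - z))) :=
  hh.comp (contDiff_const.mul (contDiff_id.sub contDiff_const))

/-- the second derivative of the localised function -/
lemma dz_dz_mul {a g : ℂ → ℂ} (ha : ContDiff ℝ ∞ a) (hg : ContDiff ℝ ∞ g) (x : ℂ) :
    dz (dz (fun w => a w * g w)) x = dz (dz a) x * g x + 2 * (dz a x * dz g x) + a x * dz (dz g) x := by
  have e : dz (fun w => a w * g w) = fun w => dz a w * g w + a w * dz g w :=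
    funext fun w => dz_mul ha hg
  rw [e, dz_add ((contDiff_dz ha).mul hg) (ha.mul (contDiff_dz hg)), dz_mul (contDiff_dz ha) hg,
    dz_mul ha (contDiff_dz hg)]
  ring

lemma dz_im (x : ℂ) : dz (fun w => ((w.im : ℝ) : ℂ)) x = -Complex.I := by
  have h1 : HasFDerivAt (fun w : ℂ => ((w.im : ℝ) : ℂ)) (Complex.ofRealCLM.comp Complex.imCLM) x :=
    (Complex.ofRealCLM.comp Complex.imCLM).hasFDerivAt
  unfold dz
  rw [h1.fderiv]
  simp

lemma smooth_im : ContDiff ℝ ∞ (fun w : ℂ => ((w.im : ℝ) : ℂ)) :=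
  (Complex.ofRealCLM.comp Complex.imCLM).contDiff

/-- first and second derivative of `G_0` -/
lemma tow_dz {V : Set ℂ} (hV : IsOpen V) {t : ℝ} {G : ℤ → ℂ → ℂ} (h : Tow V t G) {x : ℂ} (hx : x ∈ V) :
    Complex.I * (x.im : ℂ) * dz (G 0) x = ((la t 0 : ℝ) : ℂ) * G 1 x ∧
    (Complex.I * (x.im : ℂ)) ^ 2 * dz (dz (G 0)) x =
      ((la t 0 : ℝ) : ℂ) * (((la t 1 : ℝ) : ℂ) * G 2 x - 2 * G 1 x) := by
  have u0 : ∀ w ∈ V, Complex.I * (w.im : ℂ) * dz (G 0) w = ((la t 0 : ℝ) : ℂ) * G 1 w := by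
    intro w hw
    have := h.up 0 w hw
    simpa using this
  have u1 := h.up 1 x hx
  have e1 : dz (fun w : ℂ => Complex.I * (w.im : ℂ) * dz (G 0) w) x =
      dz (fun w => ((la t 0 : ℝ) : ℂ) * G 1 w) x := dz_congr hV u0 hx
  rw [dz_const_mul _ (h.smooth 1), dz_mul (contDiff_const.mul smooth_im) (contDiff_dz (h.smooth 0)),
    dz_const_mul _ smooth_im, dz_im] at e1
  have u2 : Complex.I * (x.im : ℂ) * dz (G 1) x = ((la t 1 : ℝ) : ℂ) * G 2 x - G 1 x := by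
    have h2 : ((1 : ℤ) + 1) = 2 := by norm_num
    rw [h2] at u1
    push_cast at u1
    linear_combination u1
  refine ⟨u0 x hx, ?_⟩
  have u3 := u0 x hx
  have e2 : dz (G 0) x + Complex.I * (x.im : ℂ) * dz (dz (G 0)) x = ((la t 0 : ℝ) : ℂ) * dz (G 1) x := by
    linear_combination e1 - (dz (G 0) x) * Complex.I_mul_I.symm
  linear_combination (Complex.I * (x.im : ℂ)) * e2 + ((la t 0 : ℝ) : ℂ) * u2 - u3

lemma la_two {t : ℝ} (ht : 1 ≤ t) : 0 ≤ la t 0 ∧ la t 0 ≤ 2 * t ∧ 0 ≤ la t 1 ∧ la t 1 ≤ 2 * t := by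
  unfold la
  refine ⟨Real.sqrt_nonneg _, ?_, Real.sqrt_nonneg _, ?_⟩
  · refine Real.sqrt_le_iff.2 ⟨by linarith, ?_⟩
    push_cast
    nlinarith
  · refine Real.sqrt_le_iff.2 ⟨by linarith, ?_⟩
    push_cast
    nlinarith

/-- bounds for the derivatives of `G_0` -/
lemma tow_bd {V : Set ℂ} (hV : IsOpen V) {t : ℝ} {G : ℤ → ℂ → ℂ} (h : Tow V t G) (ht : 1 ≤ t) {x : ℂ}
    (hx : x ∈ V) {Y : ℝ} (hx0 : 0 < x.im) (hY : x.im⁻¹ ≤ Y) :
    ‖dz (G 0) x‖ ≤ 2 * Y * t * ‖G 1 x‖ ∧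
    ‖dz (dz (G 0)) x‖ ≤ 4 * Y ^ 2 * t ^ 2 * (‖G 2 x‖ + ‖G 1 x‖) := by
  obtain ⟨e1, e2⟩ := tow_dz hV h hx
  obtain ⟨l0, l0', l1, l1'⟩ := la_two ht
  have hY0 : 0 < Y := (inv_pos.2 hx0).trans_le hY
  have hy : ‖(Complex.I * (x.im : ℂ))‖ = x.im := by
    rw [norm_mul, Complex.norm_I, Complex.norm_real, Real.norm_of_nonneg hx0.le, one_mul]
  have h1 : 1 ≤ Y * x.im := by
    have := mul_le_mul_of_nonneg_right hY hx0.le
    rwa [inv_mul_cancel₀ hx0.ne'] at this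
  constructor
  · have n1 : x.im * ‖dz (G 0) x‖ = la t 0 * ‖G 1 x‖ := by
      have := congrArg norm e1
      rwa [norm_mul, hy, norm_mul, Complex.norm_real, Real.norm_of_nonneg l0] at this
    have n2 : la t 0 * ‖G 1 x‖ ≤ 2 * t * ‖G 1 x‖ := mul_le_mul_of_nonneg_right l0' (norm_nonneg _)
    calc ‖dz (G 0) x‖ ≤ (Y * x.im) * ‖dz (G 0) x‖ := le_mul_of_one_le_left (norm_nonneg _) h1
      _ = Y * (la t 0 * ‖G 1 x‖) := by rw [mul_assoc, n1]
      _ ≤ Y * (2 * t * ‖G 1 x‖) := mul_le_mul_of_nonneg_left n2 hY0.le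
      _ = _ := by ring
  · have n1 : x.im ^ 2 * ‖dz (dz (G 0)) x‖ = la t 0 * ‖((la t 1 : ℝ) : ℂ) * G 2 x - 2 * G 1 x‖ := by
      have := congrArg norm e2
      rwa [norm_mul, norm_pow, hy, norm_mul, Complex.norm_real, Real.norm_of_nonneg l0] at this
    have n2 : ‖((la t 1 : ℝ) : ℂ) * G 2 x - 2 * G 1 x‖ ≤ 2 * t * (‖G 2 x‖ + ‖G 1 x‖) := by
      refine (norm_sub_le _ _).trans ?_
      rw [norm_mul, norm_mul, Complex.norm_real, Real.norm_of_nonneg l1]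
      have a1 : la t 1 * ‖G 2 x‖ ≤ 2 * t * ‖G 2 x‖ := mul_le_mul_of_nonneg_right l1' (norm_nonneg _)
      have a2 : ‖(2 : ℂ)‖ * ‖G 1 x‖ ≤ 2 * t * ‖G 1 x‖ := by
        refine mul_le_mul_of_nonneg_right ?_ (norm_nonneg _)
        simp
        linarith
      linarith
    have n3 : la t 0 * ‖((la t 1 : ℝ) : ℂ) * G 2 x - 2 * G 1 x‖ ≤ 2 * t * (2 * t * (‖G 2 x‖ + ‖G 1 x‖)) :=
      mul_le_mul l0' n2 (norm_nonneg _) (by linarith)
    have h2 : 1 ≤ (Y * x.im) ^ 2 := one_le_pow₀ h1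
    calc ‖dz (dz (G 0)) x‖ ≤ (Y * x.im) ^ 2 * ‖dz (dz (G 0)) x‖ :=
          le_mul_of_one_le_left (norm_nonneg _) h2
      _ = Y ^ 2 * (la t 0 * ‖((la t 1 : ℝ) : ℂ) * G 2 x - 2 * G 1 x‖) := by rw [← n1]; ring
      _ ≤ Y ^ 2 * (2 * t * (2 * t * (‖G 2 x‖ + ‖G 1 x‖))) := mul_le_mul_of_nonneg_left n3 (sq_nonneg _)
      _ = _ := by ring

/-- the fixed bump and its bounds -/
lemma bump : ∃ (b : ℂ → ℂ) (B : ℝ), ContDiff ℝ ∞ b ∧ tsupport b ⊆ Metric.closedBall 0 1 ∧ b 0 = 1 ∧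
    (∀ x, conj (b x) = b x) ∧ 0 ≤ B ∧ (∀ x, ‖b x‖ ≤ B) ∧ (∀ x, ‖dz b x‖ ≤ B) ∧
    ∀ x, ‖dz (dz b) x‖ ≤ B := by
  let β : ContDiffBump (0 : ℂ) := ⟨1 / 2, 1, by norm_num, by norm_num⟩
  have hs : ContDiff ℝ ∞ (fun x => ((β x : ℝ) : ℂ)) := contDiff_ofReal β.contDiff
  have hsub : tsupport (fun x => ((β x : ℝ) : ℂ)) ⊆ Metric.closedBall 0 1 := by
    refine (tsupport_comp_subset (g := fun x : ℝ => (x : ℂ)) (by simp) β).trans ?_
    rw [β.tsupport_eq]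
  have hc : HasCompactSupport (fun x => ((β x : ℝ) : ℂ)) :=
    (isCompact_closedBall (0 : ℂ) 1).of_isClosed_subset (isClosed_tsupport _) hsub
  obtain ⟨B0, h0⟩ := hc.exists_bound_of_continuous hs.continuous
  obtain ⟨B1, h1⟩ := (hasCompactSupport_dz hc).exists_bound_of_continuous (contDiff_dz hs).continuous
  obtain ⟨B2, h2⟩ := (hasCompactSupport_dz (hasCompactSupport_dz hc)).exists_bound_of_continuous
    (contDiff_dz (contDiff_dz hs)).continuous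
  refine ⟨_, max B0 (max B1 B2), hs, hsub, ?_, fun x => Complex.conj_ofReal _, ?_,
    fun x => (h0 x).trans (le_max_left _ _),
    fun x => (h1 x).trans ((le_max_left _ _).trans (le_max_right _ _)),
    fun x => (h2 x).trans ((le_max_right _ _).trans (le_max_right _ _))⟩
  · have : β 0 = 1 := β.one_of_mem_closedBall (Metric.mem_closedBall_self (by norm_num))
    simp [this]
  · exact ((norm_nonneg _).trans (h0 0)).trans (le_max_left _ _)

/-- Cauchy–Schwarz on a set of finite measure -/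
lemma cs {K : Set ℂ} {F : ℂ → ℝ} {m : ℝ} (hm : 0 < m) (hK : (volume : Measure ℂ).real K = m)
    (h1 : IntegrableOn F K) (h2 : IntegrableOn (fun x => F x ^ 2) K) (hf : volume K ≠ ⊤) :
    (∫ x in K, F x) ^ 2 ≤ m * ∫ x in K, F x ^ 2 := by
  have : IsFiniteMeasure ((volume : Measure ℂ).restrict K) := ⟨by
    rw [Measure.restrict_apply_univ]
    exact lt_top_iff_ne_top.2 hf⟩
  set I := ∫ x in K, F x with hI
  have h3 : 0 ≤ ∫ x in K, (F x - I / m) ^ 2 := integral_nonneg fun _ => sq_nonneg _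
  have e1 : ∀ x, (F x - I / m) ^ 2 = F x ^ 2 - 2 * (I / m) * F x + (I / m) ^ 2 := fun x => by ring
  have e3 : ∫ x in K, (F x - I / m) ^ 2 = (∫ x in K, F x ^ 2) - 2 * (I / m) * I + m * (I / m) ^ 2 := by
    simp_rw [e1]
    have i1 : Integrable (fun x => F x ^ 2) (volume.restrict K) := h2
    have i2 : Integrable (fun x => 2 * (I / m) * F x) (volume.restrict K) := h1.const_mul _
    rw [integral_add (f := fun x => F x ^ 2 - 2 * (I / m) * F x) (i1.sub i2) (integrable_const _),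
      integral_sub i1 i2, integral_const_mul, integral_const, measureReal_restrict_apply_univ, hK,
      smul_eq_mul, ← hI]
  rw [e3] at h3
  have e2 : (∫ x in K, F x ^ 2) - 2 * (I / m) * I + m * (I / m) ^ 2 = (∫ x in K, F x ^ 2) - I ^ 2 / m := by
    field_simp
    ring
  rw [e2] at h3
  have h4 : I ^ 2 / m ≤ ∫ x in K, F x ^ 2 := by linarith
  rwa [div_le_iff₀' hm] at h4

/-- the bound for the second derivative on the ball -/
lemma loc_bd {V : Set ℂ} (hV : IsOpen V) {t : ℝ} {G : ℤ → ℂ → ℂ} (h : Tow V t G) (ht : 1 ≤ t)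
    {b : ℂ → ℂ} {B Y : ℝ} (hb : ContDiff ℝ ∞ b) (hB0 : 0 ≤ B) (hB : ∀ x, ‖b x‖ ≤ B)
    (hB1 : ∀ x, ‖dz b x‖ ≤ B) (hB2 : ∀ x, ‖dz (dz b) x‖ ≤ B) (z : ℂ) {x : ℂ} (hx : x ∈ V)
    (hx0 : 0 < x.im) (hY : x.im⁻¹ ≤ Y) :
    ‖dz (dz (fun w => b ((t : ℂ) * (w - z)) * G 0 w)) x‖ ≤
      B * (1 + 4 * Y + 4 * Y ^ 2) * t ^ 2 * (‖G 0 x‖ + ‖G 1 x‖ + ‖G 2 x‖) := by
  have hY0 : 0 < Y := (inv_pos.2 hx0).trans_le hY
  have ht0 : 0 < t := by linarith
  have nt : ‖(t : ℂ)‖ = t := by rw [Complex.norm_real, Real.norm_of_nonneg ht0.le]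
  have ha := smooth_scale hb t z
  have d1 : dz (fun w => b ((t : ℂ) * (w - z))) = fun w => (t : ℂ) * dz b ((t : ℂ) * (w - z)) :=
    funext fun w => dz_scale hb t z w
  have d2 : dz (dz (fun w => b ((t : ℂ) * (w - z)))) x = (t : ℂ) * ((t : ℂ) * dz (dz b) ((t : ℂ) * (x - z))) := by
    rw [d1, dz_const_mul _ (smooth_scale (contDiff_dz hb) t z), dz_scale (contDiff_dz hb)]
  obtain ⟨g1, g2⟩ := tow_bd hV h ht hx hx0 hY
  have n0 : ‖b ((t : ℂ) * (x - z))‖ ≤ B := hB _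
  have n1 : ‖dz (fun w => b ((t : ℂ) * (w - z))) x‖ ≤ t * B := by
    rw [d1]
    simp only []
    rw [norm_mul, nt]
    exact mul_le_mul_of_nonneg_left (hB1 _) ht0.le
  have n2 : ‖dz (dz (fun w => b ((t : ℂ) * (w - z)))) x‖ ≤ t ^ 2 * B := by
    rw [d2, norm_mul, norm_mul, nt, ← mul_assoc, ← sq]
    exact mul_le_mul_of_nonneg_left (hB2 _) (sq_nonneg t)
  rw [dz_dz_mul ha (h.smooth 0)]
  have p0 := norm_nonneg (G 0 x)
  have p1 := norm_nonneg (G 1 x)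
  have p2 := norm_nonneg (G 2 x)
  have q1 : ‖dz (dz (fun w => b ((t : ℂ) * (w - z)))) x * G 0 x‖ ≤ t ^ 2 * B * ‖G 0 x‖ := by
    rw [norm_mul]
    exact mul_le_mul_of_nonneg_right n2 p0
  have q2 : ‖2 * (dz (fun w => b ((t : ℂ) * (w - z))) x * dz (G 0) x)‖ ≤
      2 * (t * B * (2 * Y * t * ‖G 1 x‖)) := by
    rw [norm_mul, norm_mul]
    have : ‖(2 : ℂ)‖ = 2 := by simp
    rw [this]
    exact mul_le_mul_of_nonneg_left (mul_le_mul n1 g1 (norm_nonneg _) (by positivity)) (by norm_num)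
  have q3 : ‖b ((t : ℂ) * (x - z)) * dz (dz (G 0)) x‖ ≤ B * (4 * Y ^ 2 * t ^ 2 * (‖G 2 x‖ + ‖G 1 x‖)) := by
    rw [norm_mul]
    exact mul_le_mul n0 g2 (norm_nonneg _) hB0
  have q4 : B * (1 + 4 * Y + 4 * Y ^ 2) * t ^ 2 * (‖G 0 x‖ + ‖G 1 x‖ + ‖G 2 x‖) -
      (t ^ 2 * B * ‖G 0 x‖ + 2 * (t * B * (2 * Y * t * ‖G 1 x‖)) +
        B * (4 * Y ^ 2 * t ^ 2 * (‖G 2 x‖ + ‖G 1 x‖))) =
      B * t ^ 2 * ((4 * Y + 4 * Y ^ 2) * ‖G 0 x‖ + ‖G 1 x‖ + (1 + 4 * Y) * ‖G 2 x‖) := by ring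
  have q5 : 0 ≤ B * t ^ 2 * ((4 * Y + 4 * Y ^ 2) * ‖G 0 x‖ + ‖G 1 x‖ + (1 + 4 * Y) * ‖G 2 x‖) := by
    positivity
  refine (norm_add₃_le).trans ?_
  linarith

/-- the second derivative vanishes outside the ball -/
lemma loc_zero {t : ℝ} {G : ℤ → ℂ → ℂ} (hG : ContDiff ℝ ∞ (G 0)) (ht : 0 < t)
    {b : ℂ → ℂ} (hb : ContDiff ℝ ∞ b) (hbs : tsupport b ⊆ Metric.closedBall 0 1) (z : ℂ) {x : ℂ}
    (hx : x ∉ Metric.closedBall z (1 / t)) :
    dz (dz (fun w => b ((t : ℂ) * (w - z)) * G 0 w)) x = 0 := by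
  have hn : (t : ℂ) * (x - z) ∉ tsupport b := by
    intro h
    have h1 := hbs h
    rw [mem_closedBall_zero_iff, norm_mul, Complex.norm_real, Real.norm_of_nonneg ht.le] at h1
    apply hx
    rw [mem_closedBall_iff_norm, le_div_iff₀ ht]
    linarith
  have d1 : dz (fun w => b ((t : ℂ) * (w - z))) = fun w => (t : ℂ) * dz b ((t : ℂ) * (w - z)) :=
    funext fun w => dz_scale hb t z w
  have d2 : dz (dz (fun w => b ((t : ℂ) * (w - z)))) x = (t : ℂ) * ((t : ℂ) * dz (dz b) ((t : ℂ) * (x - z))) := by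
    rw [d1, dz_const_mul _ (smooth_scale (contDiff_dz hb) t z), dz_scale (contDiff_dz hb)]
  rw [dz_dz_mul (smooth_scale hb t z) hG, d2, d1]
  simp only []
  rw [image_eq_zero_of_notMem_tsupport hn, dz_eq_zero_of_notMem hn,
    dz_eq_zero_of_notMem (fun h => hn (tsupport_dz h))]
  ring

lemma vol_ball {t : ℝ} (ht : 0 < t) (z : ℂ) :
    (volume : Measure ℂ).real (Metric.closedBall z (1 / t)) = Real.pi / t ^ 2 := by
  rw [measureReal_def, Complex.volume_closedBall, ENNReal.toReal_mul, ENNReal.toReal_pow,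
    ENNReal.toReal_ofReal (by positivity), ENNReal.coe_toReal, NNReal.coe_real_pi]
  field_simp

/-- the pointwise bound -/
lemma main {V : Set ℂ} (hV : IsOpen V) {t : ℝ} {G : ℤ → ℂ → ℂ} (h : Tow V t G) (ht : 1 ≤ t)
    {b : ℂ → ℂ} {B Y : ℝ} (hb : ContDiff ℝ ∞ b) (hbs : tsupport b ⊆ Metric.closedBall 0 1) (hb0 : b 0 = 1)
    (hbr : ∀ x, conj (b x) = b x) (hB0 : 0 ≤ B) (hB : ∀ x, ‖b x‖ ≤ B)
    (hB1 : ∀ x, ‖dz b x‖ ≤ B) (hB2 : ∀ x, ‖dz (dz b) x‖ ≤ B) (z : ℂ)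
    (hz : ∀ x ∈ Metric.closedBall z (1 / t), x ∈ V ∧ 0 < x.im ∧ x.im⁻¹ ≤ Y) (hY : 0 ≤ Y) :
    ‖G 0 z‖ ^ 2 ≤ 3 * Real.pi * (B * (1 + 4 * Y + 4 * Y ^ 2)) ^ 2 / 4 * t ^ 2 *
      ∫ x in Metric.closedBall z (1 / t), (‖G 0 x‖ ^ 2 + ‖G 1 x‖ ^ 2 + ‖G 2 x‖ ^ 2) := by
  have ht0 : 0 < t := by linarith
  set K := Metric.closedBall z (1 / t) with hK
  set M := B * (1 + 4 * Y + 4 * Y ^ 2) with hM
  have hM0 : 0 ≤ M := by positivity
  set g : ℂ → ℂ := fun w => b ((t : ℂ) * (w - z)) * G 0 w with hgdef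
  set F : ℂ → ℝ := fun x => ‖G 0 x‖ + ‖G 1 x‖ + ‖G 2 x‖ with hF
  have hg : ContDiff ℝ ∞ g := (smooth_scale hb t z).mul (h.smooth 0)
  have hKc : IsCompact K := isCompact_closedBall _ _
  have hKm : MeasurableSet K := hKc.isClosed.measurableSet
  have hsub : ∀ x, x ∉ K → (t : ℂ) * (x - z) ∉ tsupport b := by
    intro x hx h'
    have h1 := hbs h'
    rw [mem_closedBall_zero_iff, norm_mul, Complex.norm_real, Real.norm_of_nonneg ht0.le] at h1
    apply hx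
    rw [hK, mem_closedBall_iff_norm, le_div_iff₀ ht0]
    linarith
  have hgc : HasCompactSupport g := HasCompactSupport.intro hKc fun x hx => by
    rw [hgdef]
    simp only []
    rw [image_eq_zero_of_notMem_tsupport (hsub x hx), zero_mul]
  have hG0 : ∀ x, conj (G 0 x) = G 0 x := by
    intro x
    have := h.neg 0 x
    simpa using this.symm
  have hgr : ∀ x, conj (g x) = g x := by
    intro x
    rw [hgdef]
    simp only [map_mul]
    rw [hbr, hG0]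
  have hgz : g z = G 0 z := by
    rw [hgdef]
    simp [hb0]
  have hFc : Continuous F :=
    (((h.smooth 0).continuous.norm).add (h.smooth 1).continuous.norm).add (h.smooth 2).continuous.norm
  have hd : ContDiff ℝ ∞ (dz (dz g)) := contDiff_dz (contDiff_dz hg)
  have hdc : HasCompactSupport (dz (dz g)) := hasCompactSupport_dz (hasCompactSupport_dz hgc)
  have hi1 : Integrable (fun x => ‖Dxy g x‖) :=
    (integrable_of_cpt (contDiff_apply (contDiff_apply hg 1) Complex.I).continuous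
      ((hgc.fderiv_apply ℝ 1).fderiv_apply ℝ Complex.I)).norm
  have hi2 : Integrable (fun x => ‖dz (dz g) x‖ / 2) := (integrable_of_cpt hd.continuous hdc).norm.div_const 2
  have hFi : IntegrableOn F K := hFc.continuousOn.integrableOn_compact hKc
  have hFi2 : IntegrableOn (fun x => F x ^ 2) K := (hFc.pow 2).continuousOn.integrableOn_compact hKc
  have hle : ∀ x, ‖dz (dz g) x‖ / 2 ≤ K.indicator (fun x => M * t ^ 2 / 2 * F x) x := by
    intro x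
    by_cases hx : x ∈ K
    · rw [indicator_of_mem hx]
      obtain ⟨a1, a2, a3⟩ := hz x hx
      have := loc_bd hV h ht hb hB0 hB hB1 hB2 z a1 a2 a3
      calc ‖dz (dz g) x‖ / 2 ≤ (M * t ^ 2 * F x) / 2 := div_le_div_of_nonneg_right this (by norm_num)
        _ = _ := by ring
    · rw [indicator_of_notMem hx, loc_zero (h.smooth 0) ht0 hb hbs z hx, norm_zero, zero_div]
  have hi3 : Integrable (K.indicator (fun x => M * t ^ 2 / 2 * F x)) := by
    rw [integrable_indicator_iff hKm]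
    exact hFi.const_mul _
  have k1 : ‖G 0 z‖ ≤ M * t ^ 2 / 2 * ∫ x in K, F x := by
    rw [← hgz]
    calc ‖g z‖ ≤ ∫ x, ‖Dxy g x‖ := point hg hgc z
      _ ≤ ∫ x, ‖dz (dz g) x‖ / 2 := integral_mono hi1 hi2 (Dxy_le hg hgr)
      _ ≤ ∫ x, K.indicator (fun x => M * t ^ 2 / 2 * F x) x := integral_mono hi2 hi3 hle
      _ = _ := by rw [integral_indicator hKm, integral_const_mul]
  have hm : 0 < Real.pi / t ^ 2 := by positivity
  have k2 := cs hm (vol_ball ht0 z) hFi hFi2 hKc.measure_lt_top.ne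
  have hi4 : IntegrableOn (fun x => ‖G 0 x‖ ^ 2 + ‖G 1 x‖ ^ 2 + ‖G 2 x‖ ^ 2) K := by
    refine Continuous.continuousOn ?_ |>.integrableOn_compact hKc
    exact ((((h.smooth 0).continuous.norm).pow 2).add (((h.smooth 1).continuous.norm).pow 2)).add
      (((h.smooth 2).continuous.norm).pow 2)
  have k3 : ∫ x in K, F x ^ 2 ≤ 3 * ∫ x in K, (‖G 0 x‖ ^ 2 + ‖G 1 x‖ ^ 2 + ‖G 2 x‖ ^ 2) := by
    rw [← integral_const_mul]
    refine integral_mono hFi2 (hi4.const_mul 3) fun x => ?_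
    simp only [hF]
    nlinarith [sq_nonneg (‖G 0 x‖ - ‖G 1 x‖), sq_nonneg (‖G 1 x‖ - ‖G 2 x‖), sq_nonneg (‖G 0 x‖ - ‖G 2 x‖)]
  calc ‖G 0 z‖ ^ 2 ≤ (M * t ^ 2 / 2 * ∫ x in K, F x) ^ 2 := pow_le_pow_left₀ (norm_nonneg _) k1 2
    _ = (M * t ^ 2 / 2) ^ 2 * (∫ x in K, F x) ^ 2 := by ring
    _ ≤ (M * t ^ 2 / 2) ^ 2 * (Real.pi / t ^ 2 * (3 * ∫ x in K, (‖G 0 x‖ ^ 2 + ‖G 1 x‖ ^ 2 + ‖G 2 x‖ ^ 2))) :=
        mul_le_mul_of_nonneg_left (k2.trans (mul_le_mul_of_nonneg_left k3 hm.le)) (sq_nonneg _)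
    _ = _ := by
        field_simp
        ring

end MvM

open MvM in
/-- **Mv** the pointwise bound by the mass in a ball of radius `1 / t` -/
theorem stmtMv : StmtMv := by
  intro V hV hVH φ hφ
  obtain ⟨b, B, hb, hbs, hb0, hbr, hB0, hB, hB1, hB2⟩ := bump
  obtain ⟨ζ, hζ, h01, hone⟩ := exists_cutoff hφ.test.cpt hV hφ.test.sub
  obtain ⟨U, hU, hKU, hU1⟩ := mem_nhdsSet_iff_exists.1 hone
  obtain ⟨δ, hδ, hδU⟩ := hφ.test.cpt.exists_cthickening_subset_open hU hKU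
  have him : ∀ x ∈ tsupport ζ, 0 < x.im := fun x hx => hVH (hζ.sub hx)
  obtain ⟨Y, hY⟩ := hζ.cpt.exists_bound_of_continuousOn (f := fun x : ℂ => x.im⁻¹)
    (Complex.continuous_im.continuousOn.inv₀ fun x hx => (him x hx).ne')
  refine ⟨ζ, 3 * Real.pi * (B * (1 + 4 * max Y 0 + 4 * max Y 0 ^ 2)) ^ 2 / 4, max 1 (1 / δ),
    ⟨hζ, fun z => (h01 z).1⟩, by positivity, le_max_left _ _, ?_⟩
  intro t G ht hG z hz
  have ht1 : 1 ≤ t := (le_max_left _ _).trans ht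
  have ht0 : 0 < t := by linarith
  have htδ : 1 / t ≤ δ := by
    rw [div_le_comm₀ ht0 hδ]
    exact (le_max_right _ _).trans ht
  have hin : ∀ x ∈ Metric.closedBall z (1 / t), ζ x = 1 := by
    intro x hx
    refine hU1 (hδU ?_)
    exact Metric.mem_cthickening_of_dist_le x z δ _ hz ((Metric.mem_closedBall.1 hx).trans htδ)
  have hts : ∀ x ∈ Metric.closedBall z (1 / t), x ∈ tsupport ζ := by
    intro x hx
    refine subset_tsupport _ ?_
    rw [Function.mem_support, hin x hx]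
    exact one_ne_zero
  have key := main hV hG ht1 hb hbs hb0 hbr hB0 hB hB1 hB2 z (Y := max Y 0)
    (fun x hx => ⟨hζ.sub (hts x hx), him x (hts x hx),
      ((le_abs_self _).trans (hY x (hts x hx))).trans (le_max_left _ _)⟩) (le_max_right _ _)
  refine key.trans (le_of_eq ?_)
  congr 1
  refine setIntegral_congr_fun Metric.isClosed_closedBall.measurableSet fun x hx => ?_
  rw [hin x hx, one_mul]

end

end Pool.Agent.A54.Vd
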