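import Pool.Agent.Lib.MP_a54f13_nt.Vd.SpecS
import Pool.Agent.Lib.MP_a54f13_nt.Odd

/-!
Module `Nb`: the local bound for the integrals of `N²`.
-/

set_option autoImplicit false

namespace Pool.Agent.A54.Vd

open MeasureTheory Filter Topology Set
open scoped ContDiff ComplexConjugate

noncomputable section

namespace NbM

lemma inv_bdd {V : Set ℂ} {q : ℂ → ℝ} (hP : Pot V q) {K : Set ℂ} (hK : IsCompact K) :
    ∃ M : ℝ, 0 ≤ M ∧ ∀ z ∈ K, (q z)⁻¹ ≤ M := by
  have hc : Continuous (fun z => (q z)⁻¹) :=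
    hP.smooth.continuous.inv₀ fun z => (hP.pos z).ne'
  obtain ⟨M, hM⟩ := hK.exists_bound_of_continuousOn hc.continuousOn
  refine ⟨|M|, abs_nonneg _, fun z hz => ?_⟩
  exact ((le_abs_self _).trans (hM z hz)).trans (le_abs_self _)

end NbM

open NbM in
theorem stmtNb (hL : StmtL4) : StmtNb := by
  intro V q h f hS hB φ hφ
  have hP := hS.pot
  have hφc := hφ.toTest
  obtain ⟨B, hB'⟩ := Odd.bdd hL hS hB hφc 1
  obtain ⟨M, hM0, hM⟩ := inv_bdd hP hφ.cpt
  refine ⟨M ^ 2 * B, fun i => ?_⟩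
  have hf := (hS.sol i).smooth
  have hn : ∀ z, ‖(φ z : ℂ)‖ = |φ z| := fun z => by
    rw [Complex.norm_real, Real.norm_eq_abs]
  have hint1 : Integrable (fun z => |φ z| * nn q (h i) (f i) 1 z ^ 2) := by
    refine Continuous.integrable_of_hasCompactSupport ?_ ?_
    · exact hφ.smooth.continuous.abs.mul ((Rel.continuous_nn hP hf (h i) 1).pow 2)
    · exact HasCompactSupport.mul_right (hφ.cpt.comp_left (g := fun x : ℝ => |x|) (by simp))
  have hint2 : Integrable (fun z => ‖(φ z : ℂ)‖ * sm (h i) (f i) 1 z ^ 4) := by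
    refine Continuous.integrable_of_hasCompactSupport ?_ ?_
    · exact hφc.smooth.continuous.norm.mul ((Rel.continuous_sm hf (h i) 1).pow 4)
    · exact HasCompactSupport.mul_right hφc.cpt.norm
  have hpt : ∀ z, |φ z| * nn q (h i) (f i) 1 z ^ 2 ≤
      M ^ 2 * (‖(φ z : ℂ)‖ * sm (h i) (f i) 1 z ^ 4) := by
    intro z
    rw [hn z]
    by_cases hz : z ∈ tsupport φ
    · have hq := hP.pos z
      have hqi : 0 ≤ (q z)⁻¹ := (inv_pos.mpr hq).le
      have h1 : ‖gg (h i) (f i) 1 z‖ ≤ sm (h i) (f i) 1 z := Rel.norm_gg_le_sm le_rfl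
      have h2 : nn q (h i) (f i) 1 z ≤ M * sm (h i) (f i) 1 z ^ 2 := by
        have h3 : nn q (h i) (f i) 1 z = (q z)⁻¹ * ‖gg (h i) (f i) 1 z‖ ^ 2 := by
          rw [nn, pow_one, div_eq_mul_inv, mul_comm]
        rw [h3]
        gcongr
        exact hM z hz
      have h4 : 0 ≤ nn q (h i) (f i) 1 z := Rel.nn_nonneg hP 1
      calc |φ z| * nn q (h i) (f i) 1 z ^ 2
          ≤ |φ z| * (M * sm (h i) (f i) 1 z ^ 2) ^ 2 := by gcongr
        _ = _ := by ring
    · rw [image_eq_zero_of_notMem_tsupport hz]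
      simp
  calc ∫ z, |φ z| * nn q (h i) (f i) 1 z ^ 2
      ≤ ∫ z, M ^ 2 * (‖(φ z : ℂ)‖ * sm (h i) (f i) 1 z ^ 4) :=
        integral_mono hint1 (hint2.const_mul _) hpt
    _ = M ^ 2 * ∫ z, ‖(φ z : ℂ)‖ * sm (h i) (f i) 1 z ^ 4 := integral_const_mul _ _
    _ ≤ M ^ 2 * B := mul_le_mul_of_nonneg_left (hB' i) (by positivity)

end

end Pool.Agent.A54.Vd
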