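import Pool.Agent.Lib.MP_a54f13_nt.Vd.SpecS

/-!
# Package `Vd`: the interval of a limit law contains `[-1, 1]`

If `ν` has the moments `1, 0, 1, 0` (times `c`) and is equivalent to Lebesgue measure on the open interval `J ∋ 0`, then `[-1, 1] ⊆ J`: otherwise `x < 1` (say) `ν`-almost everywhere and
`∫ (1 - x) (x + 1)² dν = 0`, so that `ν` is concentrated on `{-1, 1}`.
-/

set_option autoImplicit false

namespace Pool.Agent.A54.Vd

open MeasureTheory Filter Topology Set

/-- **One** the interval contains `[-1, 1]` -/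
def StmtOne : Prop := ∀ (ν : Measure ℝ) (c : ℝ), IsFiniteMeasure ν → Integrable (fun x : ℝ => x ^ 4) ν →
  ∫ _x : ℝ, (1 : ℝ) ∂ν = c → ∫ x, x ∂ν = 0 → ∫ x, x ^ 2 ∂ν = c → ∫ x, x ^ 3 ∂ν = 0 →
    ∀ J : Set ℝ, IsOpen J → J.OrdConnected → 0 ∈ J → EqOn ν J → Icc (-1) 1 ⊆ J

namespace OneM

theorem intPow {ν : Measure ℝ} [IsFiniteMeasure ν] (h4 : Integrable (fun x : ℝ => x ^ 4) ν) (n : ℕ) (hn : n ≤ 4) :
    Integrable (fun x : ℝ => x ^ n) ν := by
  refine ((integrable_const (1 : ℝ)).add h4).mono' (by fun_prop) (Eventually.of_forall fun x => ?_)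
  simp only [Pi.add_apply, Real.norm_eq_abs, abs_pow]
  rcases le_total |x| 1 with h | h
  · have h1 : |x| ^ n ≤ 1 := pow_le_one₀ (abs_nonneg x) h
    nlinarith [pow_nonneg (abs_nonneg x) 4, sq_nonneg (x ^ 2), (show x ^ 4 = (x ^ 2) ^ 2 by ring)]
  · have h1 : |x| ^ n ≤ |x| ^ 4 := pow_le_pow_right₀ h hn
    have h2 : |x| ^ 4 = x ^ 4 := by
      rw [show (4 : ℕ) = 2 * 2 by norm_num, pow_mul, sq_abs, ← pow_mul]
    linarith

/-- a polynomial with zero integral, nonnegative on `J`, nonzero at `0`: impossible -/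
theorem key {ν : Measure ℝ} {J : Set ℝ} (hJ : IsOpen J) (h0 : (0 : ℝ) ∈ J) (he : EqOn ν J) (p : ℝ → ℝ)
    (hp : Continuous p) (hi : Integrable p ν) (hz : ∫ x, p x ∂ν = 0) (hpos : ∀ x ∈ J, 0 ≤ p x) (hp0 : p 0 ≠ 0) :
    False := by
  have hJm : MeasurableSet J := hJ.measurableSet
  have h1 : ν Jᶜ = 0 := (he Jᶜ hJm.compl).2 (by simp)
  have h2 : 0 ≤ᵐ[ν] p := by
    have : ∀ᵐ x ∂ν, x ∈ J := by
      rw [ae_iff]
      exact h1
    filter_upwards [this] with x hx using hpos x hx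
  have h3 : p =ᵐ[ν] 0 := (integral_eq_zero_iff_of_nonneg_ae h2 hi).1 hz
  have h4 : ν {x | p x ≠ 0} = 0 := by
    have := ae_iff.1 h3
    simpa using this
  have hO : IsOpen {x | p x ≠ 0} := isOpen_ne_fun hp continuous_const
  have h5 := (he _ hO.measurableSet).1 h4
  exact (IsOpen.measure_pos volume (hO.inter hJ) ⟨0, hp0, h0⟩).ne' h5

end OneM

theorem stmtOne : StmtOne := by
  intro ν c hν h4 m0 m1 m2 m3 J hJ hJc h0 he s hs
  have i1 : Integrable (fun x : ℝ => x) ν := by simpa using OneM.intPow h4 1 (by norm_num)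
  have i2 := OneM.intPow h4 2 (by norm_num)
  have i3 := OneM.intPow h4 3 (by norm_num)
  have i0 : Integrable (fun _ : ℝ => (1 : ℝ)) ν := integrable_const _
  by_contra hsJ
  rcases le_total 0 s with h | h
  · have j1 : Integrable (fun x : ℝ => 1 + x) ν := i0.add i1
    have j2 : Integrable (fun x : ℝ => 1 + x - x ^ 2) ν := j1.sub i2
    refine OneM.key hJ h0 he (fun x => 1 + x - x ^ 2 - x ^ 3) (by fun_prop) (j2.sub i3) ?_ ?_ (by norm_num)
    · rw [integral_sub j2 i3, integral_sub j1 i2, integral_add i0 i1, m0, m1, m2, m3]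
      ring
    · intro x hx
      have hxs : x < s := by
        by_contra hc
        exact hsJ (hJc.out h0 hx ⟨h, not_lt.1 hc⟩)
      have : 1 + x - x ^ 2 - x ^ 3 = (1 - x) * (x + 1) ^ 2 := by ring
      rw [this]
      exact mul_nonneg (by linarith [hs.2]) (sq_nonneg _)
  · have j1 : Integrable (fun x : ℝ => 1 - x) ν := i0.sub i1
    have j2 : Integrable (fun x : ℝ => 1 - x - x ^ 2) ν := j1.sub i2
    refine OneM.key hJ h0 he (fun x => 1 - x - x ^ 2 + x ^ 3) (by fun_prop) (j2.add i3) ?_ ?_ (by norm_num)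
    · rw [integral_add j2 i3, integral_sub j1 i2, integral_sub i0 i1, m0, m1, m2, m3]
      ring
    · intro x hx
      have hxs : s < x := by
        by_contra hc
        exact hsJ (hJc.out hx h0 ⟨not_lt.1 hc, h⟩)
      have : 1 - x - x ^ 2 + x ^ 3 = (1 + x) * (x - 1) ^ 2 := by ring
      rw [this]
      exact mul_nonneg (by linarith [hs.1]) (sq_nonneg _)

end Pool.Agent.A54.Vd
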