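import Pool.Agent.Lib.MP_a54f13_nt.Vd.SpecS

/-!
# Module `Pos` of package `Vd`: a measure with Stein's inequality is equivalent to Lebesgue measure on an open interval
-/

set_option autoImplicit false
set_option linter.unusedSectionVars false

namespace Pool.Agent.A54.Vd.PosM

open MeasureTheory Filter Topology Set
open scoped ContDiff ENNReal

noncomputable section

lemma Ioi_eq_iUnion (s : ℝ) : Ioi s = ⋃ n : ℕ, Ioi (s + 1 / ((n : ℝ) + 1)) := by
  ext x
  simp only [mem_Ioi, mem_iUnion]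
  constructor
  · intro h
    obtain ⟨n, hn⟩ := exists_nat_one_div_lt (sub_pos.2 h)
    exact ⟨n, by linarith⟩
  · rintro ⟨n, hn⟩
    have : (0 : ℝ) < 1 / ((n : ℝ) + 1) := by positivity
    linarith

lemma Iio_eq_iUnion (s : ℝ) : Iio s = ⋃ n : ℕ, Iio (s - 1 / ((n : ℝ) + 1)) := by
  ext x
  simp only [mem_Iio, mem_iUnion]
  constructor
  · intro h
    obtain ⟨n, hn⟩ := exists_nat_one_div_lt (sub_pos.2 h)
    exact ⟨n, by linarith⟩
  · rintro ⟨n, hn⟩
    have : (0 : ℝ) < 1 / ((n : ℝ) + 1) := by positivity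
    linarith

def JJ (ν : Measure ℝ) : Set ℝ := {s | 0 < ν (Ioi s) ∧ 0 < ν (Iio s)}

lemma JJ_open (ν : Measure ℝ) : IsOpen (JJ ν) := by
  rw [isOpen_iff_mem_nhds]
  rintro s ⟨h1, h2⟩
  have e1 : ∃ n : ℕ, 0 < ν (Ioi (s + 1 / ((n : ℝ) + 1))) := by
    by_contra hcon
    push Not at hcon
    rw [Ioi_eq_iUnion s] at h1
    have : ν (⋃ n : ℕ, Ioi (s + 1 / ((n : ℝ) + 1))) = 0 :=
      measure_iUnion_null fun n => le_antisymm (hcon n) bot_le
    rw [this] at h1
    exact lt_irrefl _ h1
  have e2 : ∃ n : ℕ, 0 < ν (Iio (s - 1 / ((n : ℝ) + 1))) := by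
    by_contra hcon
    push Not at hcon
    rw [Iio_eq_iUnion s] at h2
    have : ν (⋃ n : ℕ, Iio (s - 1 / ((n : ℝ) + 1))) = 0 :=
      measure_iUnion_null fun n => le_antisymm (hcon n) bot_le
    rw [this] at h2
    exact lt_irrefl _ h2
  obtain ⟨n, hn⟩ := e1
  obtain ⟨m, hm⟩ := e2
  have p1 : (0 : ℝ) < 1 / ((n : ℝ) + 1) := by positivity
  have p2 : (0 : ℝ) < 1 / ((m : ℝ) + 1) := by positivity
  filter_upwards [Iio_mem_nhds (show s < s + 1 / ((n : ℝ) + 1) by linarith),
    Ioi_mem_nhds (show s - 1 / ((m : ℝ) + 1) < s by linarith)] with x hx1 hx2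
  exact ⟨lt_of_lt_of_le hn (measure_mono (Ioi_subset_Ioi (le_of_lt hx1))),
    lt_of_lt_of_le hm (measure_mono (Iio_subset_Iio (le_of_lt hx2)))⟩

lemma JJ_ord (ν : Measure ℝ) : (JJ ν).OrdConnected := by
  refine ⟨?_⟩
  rintro a ⟨_, ha⟩ b ⟨hb, _⟩ x ⟨hx1, hx2⟩
  exact ⟨lt_of_lt_of_le hb (measure_mono (Ioi_subset_Ioi hx2)),
    lt_of_lt_of_le ha (measure_mono (Iio_subset_Iio hx1))⟩

/-- if `x ≤ 0` (or `x ≥ 0`) almost everywhere and the mean is zero, the second moment vanishes -/
lemma zero_mem {ν : Measure ℝ} [IsFiniteMeasure ν] (hx : Integrable (fun x : ℝ => x) ν)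
    (h0 : ∫ x, x ∂ν = 0) (h2 : 0 < ∫ x, x ^ 2 ∂ν) : (0 : ℝ) ∈ JJ ν := by
  constructor
  · rw [pos_iff_ne_zero]
    intro h
    have hae : ∀ᵐ x ∂ν, 0 ≤ -x := by
      have : ∀ᵐ x ∂ν, x ∉ Ioi (0 : ℝ) := measure_eq_zero_iff_ae_notMem.1 h
      filter_upwards [this] with x hx
      simp only [mem_Ioi, not_lt] at hx
      linarith
    have hz : ∫ x, -x ∂ν = 0 := by rw [integral_neg, h0, neg_zero]
    have := (integral_eq_zero_iff_of_nonneg_ae hae hx.neg).1 hz
    have h3 : ∫ x, x ^ 2 ∂ν = 0 := by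
      rw [← integral_zero ℝ ℝ (μ := ν)]
      refine integral_congr_ae ?_
      filter_upwards [this] with x hx
      have : x = 0 := by simpa using hx
      simp [this]
    rw [h3] at h2
    exact lt_irrefl _ h2
  · rw [pos_iff_ne_zero]
    intro h
    have hae : ∀ᵐ x ∂ν, 0 ≤ x := by
      have : ∀ᵐ x ∂ν, x ∉ Iio (0 : ℝ) := measure_eq_zero_iff_ae_notMem.1 h
      filter_upwards [this] with x hx
      simp only [mem_Iio, not_lt] at hx
      exact hx
    have := (integral_eq_zero_iff_of_nonneg_ae hae hx).1 h0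
    have h3 : ∫ x, x ^ 2 ∂ν = 0 := by
      rw [← integral_zero ℝ ℝ (μ := ν)]
      refine integral_congr_ae ?_
      filter_upwards [this] with x hx
      have : x = 0 := by simpa using hx
      simp [this]
    rw [h3] at h2
    exact lt_irrefl _ h2

lemma upper_null {ν : Measure ℝ} (hac : ν ≪ volume) (h0 : (0 : ℝ) ∈ JJ ν) :
    ν {s | ν (Ioi s) = 0} = 0 := by
  set A : Set ℝ := {s | ν (Ioi s) = 0} with hA
  rcases A.eq_empty_or_nonempty with he | hne
  · rw [he, measure_empty]
  have hup : ∀ a ∈ A, ∀ b, a ≤ b → b ∈ A := fun a ha b hab =>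
    measure_mono_null (Ioi_subset_Ioi hab) ha
  have hbb : BddBelow A := by
    refine ⟨0, fun a ha => ?_⟩
    by_contra hcon
    push Not at hcon
    have : (0 : ℝ) ∈ A := hup a ha 0 hcon.le
    exact (ne_of_gt h0.1) this
  set b := sInf A with hb
  have h1 : ν (Ioi b) = 0 := by
    rw [Ioi_eq_iUnion b]
    refine measure_iUnion_null fun n => ?_
    have p1 : (0 : ℝ) < 1 / ((n : ℝ) + 1) := by positivity
    obtain ⟨a, ha, hab⟩ := exists_lt_of_csInf_lt hne (show sInf A < b + 1 / ((n : ℝ) + 1) by linarith)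
    exact hup a ha _ hab.le
  have h2 : A ⊆ Ioi b ∪ {b} := by
    intro x hx
    rcases eq_or_lt_of_le (csInf_le hbb hx) with h | h
    · right
      exact h.symm
    · left
      exact h
  exact measure_mono_null h2 (measure_union_null h1 (hac (by simp)))

lemma lower_null {ν : Measure ℝ} (hac : ν ≪ volume) (h0 : (0 : ℝ) ∈ JJ ν) :
    ν {s | ν (Iio s) = 0} = 0 := by
  set A : Set ℝ := {s | ν (Iio s) = 0} with hA
  rcases A.eq_empty_or_nonempty with he | hne
  · rw [he, measure_empty]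
  have hup : ∀ a ∈ A, ∀ b, b ≤ a → b ∈ A := fun a ha b hab =>
    measure_mono_null (Iio_subset_Iio hab) ha
  have hbb : BddAbove A := by
    refine ⟨0, fun a ha => ?_⟩
    by_contra hcon
    push Not at hcon
    have : (0 : ℝ) ∈ A := hup a ha 0 hcon.le
    exact (ne_of_gt h0.2) this
  set b := sSup A with hb
  have h1 : ν (Iio b) = 0 := by
    rw [Iio_eq_iUnion b]
    refine measure_iUnion_null fun n => ?_
    have p1 : (0 : ℝ) < 1 / ((n : ℝ) + 1) := by positivity
    obtain ⟨a, ha, hab⟩ := exists_lt_of_lt_csSup hne (show b - 1 / ((n : ℝ) + 1) < sSup A by linarith)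
    exact hup a ha _ hab.le
  have h2 : A ⊆ Iio b ∪ {b} := by
    intro x hx
    rcases eq_or_lt_of_le (le_csSup hbb hx) with h | h
    · right
      exact h
    · left
      exact h
  exact measure_mono_null h2 (measure_union_null h1 (hac (by simp)))

lemma compl_null {ν : Measure ℝ} (hac : ν ≪ volume) (h0 : (0 : ℝ) ∈ JJ ν) : ν (JJ ν)ᶜ = 0 := by
  refine measure_mono_null ?_ (measure_union_null (upper_null hac h0) (lower_null hac h0))
  intro x hx
  by_contra hcon
  rw [mem_union, not_or] at hcon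
  exact hx ⟨pos_iff_ne_zero.2 hcon.1, pos_iff_ne_zero.2 hcon.2⟩

/-- a smooth cutoff function on the line -/
lemma cutoff {K U : Set ℝ} (hK : IsCompact K) (hU : IsOpen U) (h : K ⊆ U) :
    ∃ g : ℝ → ℝ, ContDiff ℝ ∞ g ∧ (∀ x, 0 ≤ g x ∧ g x ≤ 1) ∧ (∀ x ∈ K, g x = 1) ∧ ∀ x, x ∉ U → g x = 0 := by
  obtain ⟨L, hL, hKL, hLV⟩ := exists_compact_between hK hU h
  obtain ⟨f, h1, h2, h3⟩ := exists_contMDiffMap_one_nhds_of_subset_interior
    (n := ⊤) (modelWithCornersSelf ℝ ℝ) hK.isClosed hKL
  exact ⟨f, f.contMDiff.contDiff, fun z => ⟨(h3 z).1, (h3 z).2⟩, fun x hx => h1.self_of_nhdsSet x hx,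
    fun x hx => h2 x fun hxL => hx (hLV hxL)⟩

section prim
variable {g : ℝ → ℝ} (hg : ContDiff ℝ ∞ g) (h01 : ∀ x, 0 ≤ g x ∧ g x ≤ 1) {a b : ℝ}
  (ha : a < 0) (hb : 0 < b) (hout : ∀ x, x ∉ Ioo a b → g x = 0)
include hg

lemma ii (x y : ℝ) : IntervalIntegrable g volume x y := hg.continuous.intervalIntegrable x y

lemma deriv_prim : deriv (fun x => ∫ s in (0 : ℝ)..x, g s) = g := by
  funext x
  exact hg.continuous.deriv_integral g 0 x

lemma contDiff_prim : ContDiff ℝ ∞ (fun x => ∫ s in (0 : ℝ)..x, g s) := by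
  rw [contDiff_infty_iff_deriv]
  refine ⟨fun x => (hg.continuous.integral_hasStrictDerivAt 0 x).hasDerivAt.differentiableAt, ?_⟩
  rw [deriv_prim hg]
  exact hg

include h01 hout ha hb

lemma prim_right {x : ℝ} (hx : b ≤ x) : (∫ s in (0 : ℝ)..x, g s) = ∫ s in (0 : ℝ)..b, g s := by
  rw [← intervalIntegral.integral_add_adjacent_intervals (ii hg 0 b) (ii hg b x)]
  have : (∫ s in b..x, g s) = ∫ s in b..x, (0 : ℝ) := by
    refine intervalIntegral.integral_congr fun s hs => ?_
    rw [uIcc_of_le hx] at hs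
    exact hout s fun h => (not_lt.2 hs.1) h.2
  rw [this, intervalIntegral.integral_zero, add_zero]

lemma prim_left {x : ℝ} (hx : x ≤ a) : (∫ s in (0 : ℝ)..x, g s) = -∫ s in a..(0 : ℝ), g s := by
  rw [intervalIntegral.integral_symm x 0,
    ← intervalIntegral.integral_add_adjacent_intervals (ii hg x a) (ii hg a 0)]
  have : (∫ s in x..a, g s) = ∫ s in x..a, (0 : ℝ) := by
    refine intervalIntegral.integral_congr fun s hs => ?_
    rw [uIcc_of_le hx] at hs
    exact hout s fun h => (not_lt.2 hs.2) h.1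
  rw [this, intervalIntegral.integral_zero, zero_add]

lemma prim_nonneg (x : ℝ) : 0 ≤ x * ∫ s in (0 : ℝ)..x, g s := by
  rcases le_total 0 x with h | h
  · exact mul_nonneg h (intervalIntegral.integral_nonneg h fun s _ => (h01 s).1)
  · rw [intervalIntegral.integral_symm x 0]
    have := intervalIntegral.integral_nonneg (μ := volume) h fun s _ => (h01 s).1
    nlinarith

lemma prim_bound (x : ℝ) : |∫ s in (0 : ℝ)..x, g s| ≤ b - a := by
  have hb1 : |∫ s in (0 : ℝ)..b, g s| ≤ b := by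
    have := intervalIntegral.norm_integral_le_of_norm_le_const (a := (0 : ℝ)) (b := b) (C := 1)
      (f := g) fun s _ => by rw [Real.norm_eq_abs, abs_of_nonneg (h01 s).1]; exact (h01 s).2
    rw [Real.norm_eq_abs, sub_zero, abs_of_pos hb, one_mul] at this
    exact this
  have ha1 : |∫ s in a..(0 : ℝ), g s| ≤ -a := by
    have := intervalIntegral.norm_integral_le_of_norm_le_const (a := a) (b := (0 : ℝ)) (C := 1)
      (f := g) fun s _ => by rw [Real.norm_eq_abs, abs_of_nonneg (h01 s).1]; exact (h01 s).2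
    rw [Real.norm_eq_abs, zero_sub, abs_neg, abs_of_neg ha, one_mul] at this
    exact this
  rcases le_total b x with h | h
  · rw [prim_right hg h01 ha hb hout h]
    linarith
  rcases le_total x a with h' | h'
  · rw [prim_left hg h01 ha hb hout h', abs_neg]
    linarith
  · have := intervalIntegral.norm_integral_le_of_norm_le_const (a := (0 : ℝ)) (b := x) (C := 1)
      (f := g) fun s _ => by rw [Real.norm_eq_abs, abs_of_nonneg (h01 s).1]; exact (h01 s).2
    rw [Real.norm_eq_abs, sub_zero, one_mul] at this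
    refine this.trans (abs_le.2 ⟨by linarith, by linarith⟩)

end prim

theorem key {ν : Measure ℝ} [IsFiniteMeasure ν] {C : ℝ} (hx : Integrable (fun x : ℝ => x) ν) (hC : 0 ≤ C)
    (hS : Stein ν C) {K : Set ℝ} (hK : IsCompact K) (hνK : ν K = 0) {a b : ℝ} (ha : a < 0) (hb : 0 < b)
    (haJ : 0 < ν (Iio a)) (hbJ : 0 < ν (Ioi b)) (hsub : K ⊆ Ioo a b) : volume K = 0 := by
  by_contra hK0
  have hKfin : volume K ≠ ⊤ := hK.measure_lt_top.ne
  set v : ℝ := (volume K).toReal with hv
  have hvpos : 0 < v := ENNReal.toReal_pos hK0 hKfin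
  set m1 : ℝ := ∫ x in Ioi b, x ∂ν with hm1
  set m2 : ℝ := -∫ x in Iio a, x ∂ν with hm2
  have hm1pos : 0 < m1 := by
    have h1 : ∫ _x in Ioi b, b ∂ν ≤ m1 := by
      refine setIntegral_mono_on (integrable_const b).integrableOn hx.integrableOn measurableSet_Ioi ?_
      intro x hx
      exact le_of_lt hx
    rw [setIntegral_const, smul_eq_mul] at h1
    have h2 : 0 < ν.real (Ioi b) := ENNReal.toReal_pos hbJ.ne' (measure_ne_top _ _)
    exact lt_of_lt_of_le (mul_pos h2 hb) h1
  have hm2pos : 0 < m2 := by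
    have h1 : ∫ _x in Iio a, (-a) ∂ν ≤ m2 := by
      rw [hm2, ← integral_neg]
      refine setIntegral_mono_on (integrable_const (-a)).integrableOn hx.neg.integrableOn measurableSet_Iio ?_
      intro x hx
      have : x < a := hx
      linarith
    rw [setIntegral_const, smul_eq_mul] at h1
    have h2 : 0 < ν.real (Iio a) := ENNReal.toReal_pos haJ.ne' (measure_ne_top _ _)
    exact lt_of_lt_of_le (mul_pos h2 (by linarith)) h1
  set m : ℝ := min m1 m2 with hm
  have hmpos : 0 < m := lt_min hm1pos hm2pos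
  set η : ℝ := (m * v) ^ 2 / (2 * (C + 1)) with hη
  have hηpos : 0 < η := by positivity
  obtain ⟨U, hKU, hUo, hνU⟩ := K.exists_isOpen_lt_of_lt (μ := ν) (ENNReal.ofReal η)
    (by rw [hνK]; exact ENNReal.ofReal_pos.2 hηpos)
  obtain ⟨g, hg, h01, hg1, hg0⟩ := cutoff hK (hUo.inter isOpen_Ioo) (subset_inter hKU hsub)
  have hout : ∀ x, x ∉ Ioo a b → g x = 0 := fun x hx => hg0 x fun h => hx h.2
  set G : ℝ → ℝ := fun x => ∫ s in (0 : ℝ)..x, g s with hG
  have hGc : ContDiff ℝ ∞ G := contDiff_prim hg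
  have hGd : deriv G = g := deriv_prim hg
  have hst := hS G 1 hGc (fun x => by rw [hGd, abs_of_nonneg (h01 x).1]; exact (h01 x).2)
  rw [hGd] at hst
  -- upper bound
  have hup : ∫ x, g x ^ 2 ∂ν ≤ η := by
    have h1 : ∫ x, g x ^ 2 ∂ν ≤ ∫ x, U.indicator (fun _ => (1 : ℝ)) x ∂ν := by
      refine integral_mono_of_nonneg (Eventually.of_forall fun x => sq_nonneg _)
        ((integrable_const 1).indicator hUo.measurableSet) (Eventually.of_forall fun x => ?_)
      dsimp only
      by_cases hxU : x ∈ U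
      · rw [indicator_of_mem hxU]
        have := h01 x
        nlinarith
      · rw [indicator_of_notMem hxU, hg0 x fun h => hxU h.1]
        simp
    refine h1.trans ?_
    rw [integral_indicator hUo.measurableSet, setIntegral_const, smul_eq_mul, mul_one]
    exact ENNReal.toReal_le_of_le_ofReal hηpos.le hνU.le
  -- lower bound
  set γ1 : ℝ := ∫ s in (0 : ℝ)..b, g s with hγ1
  set γ2 : ℝ := ∫ s in a..(0 : ℝ), g s with hγ2
  have hγ1n : 0 ≤ γ1 := intervalIntegral.integral_nonneg hb.le fun s _ => (h01 s).1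
  have hγ2n : 0 ≤ γ2 := intervalIntegral.integral_nonneg ha.le fun s _ => (h01 s).1
  have hγ : v ≤ γ1 + γ2 := by
    have h1 : γ1 + γ2 = ∫ s in a..b, g s := by
      rw [add_comm, hγ1, hγ2, intervalIntegral.integral_add_adjacent_intervals (ii hg a 0) (ii hg 0 b)]
    rw [h1, intervalIntegral.integral_of_le (ha.trans hb).le]
    have h2 : ∫ s in Ioc a b, K.indicator (fun _ => (1 : ℝ)) s ≤ ∫ s in Ioc a b, g s := by
      refine integral_mono_of_nonneg (Eventually.of_forall fun x => indicator_nonneg (fun _ _ => zero_le_one) _)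
        (hg.continuous.integrableOn_Ioc) (Eventually.of_forall fun x => ?_)
      by_cases hxK : x ∈ K
      · rw [indicator_of_mem hxK, hg1 x hxK]
      · rw [indicator_of_notMem hxK]
        exact (h01 x).1
    refine le_trans (le_of_eq ?_) h2
    rw [integral_indicator hK.measurableSet, setIntegral_const, smul_eq_mul, mul_one, hv, Measure.real,
      Measure.restrict_apply' measurableSet_Ioc,
      inter_eq_left.2 (hsub.trans Ioo_subset_Ioc_self)]
  have hGb : ∀ x, |G x| ≤ b - a := prim_bound hg h01 ha hb hout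
  have hint : Integrable (fun x => x * G x) ν := by
    have := hx.mul_bdd (c := b - a) hGc.continuous.aestronglyMeasurable
      (Eventually.of_forall fun x => by rw [Real.norm_eq_abs]; exact hGb x)
    exact this
  have hlow : γ1 * m1 + γ2 * m2 ≤ ∫ x, x * G x ∂ν := by
    have i1 : Integrable ((Ioi b).indicator fun x : ℝ => γ1 * x) ν := (hx.const_mul γ1).indicator measurableSet_Ioi
    have i2 : Integrable ((Iio a).indicator fun x : ℝ => -(γ2 * x)) ν := (hx.const_mul γ2).neg.indicator measurableSet_Iio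
    have e1 : γ1 * m1 + γ2 * m2 = ∫ x, ((Ioi b).indicator (fun x => γ1 * x) x + (Iio a).indicator (fun x => -(γ2 * x)) x) ∂ν := by
      rw [integral_add i1 i2, integral_indicator measurableSet_Ioi,
        integral_indicator measurableSet_Iio, integral_const_mul, integral_neg, integral_const_mul, hm2]
      ring
    rw [e1]
    refine integral_mono (i1.add i2) hint fun x => ?_
    dsimp only
    by_cases h1 : x ∈ Ioi b
    · have h2 : x ∉ Iio a := fun h => by
        have h3 : x < a := h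
        have h4 : b < x := h1
        linarith
      rw [indicator_of_mem h1, indicator_of_notMem h2, hG]
      dsimp only
      rw [prim_right hg h01 ha hb hout (le_of_lt h1)]
      rw [add_zero, mul_comm]
    · rw [indicator_of_notMem h1, zero_add]
      by_cases h2 : x ∈ Iio a
      · rw [indicator_of_mem h2, hG]
        dsimp only
        rw [prim_left hg h01 ha hb hout (le_of_lt h2)]
        refine le_of_eq ?_
        ring
      · rw [indicator_of_notMem h2]
        exact prim_nonneg hg h01 ha hb hout x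
  have h3 : m * v ≤ ∫ x, x * G x ∂ν := by
    refine le_trans ?_ hlow
    have h4 : γ1 * m ≤ γ1 * m1 := mul_le_mul_of_nonneg_left (min_le_left _ _) hγ1n
    have h5 : γ2 * m ≤ γ2 * m2 := mul_le_mul_of_nonneg_left (min_le_right _ _) hγ2n
    have h6 : m * v ≤ m * (γ1 + γ2) := mul_le_mul_of_nonneg_left hγ hmpos.le
    nlinarith
  have h4 : (m * v) ^ 2 ≤ C * η := by
    refine le_trans ?_ (hst.trans (mul_le_mul_of_nonneg_left hup hC))
    exact pow_le_pow_left₀ (by positivity) h3 2
  have h5 : C * η < (m * v) ^ 2 := by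
    rw [hη]
    have hp : 0 < (m * v) ^ 2 := by positivity
    rw [mul_div_assoc', div_lt_iff₀ (by positivity)]
    nlinarith
  linarith

end

end Pool.Agent.A54.Vd.PosM

namespace Pool.Agent.A54.Vd

open MeasureTheory Filter Topology Set PosM

theorem stmtPos : StmtPos := by
  intro ν C hfin h2 hx0 hpos hac hC hS
  have hx : Integrable (fun x : ℝ => x) ν := by
    refine Integrable.mono' ((integrable_const 1).add h2) measurable_id.aestronglyMeasurable
      (Eventually.of_forall fun x => ?_)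
    simp only [Pi.add_apply, Real.norm_eq_abs]
    nlinarith [sq_nonneg (|x| - 1), sq_abs x]
  have h0 := zero_mem hx hx0 hpos
  refine ⟨JJ ν, JJ_open ν, JJ_ord ν, h0, ?_⟩
  intro A hA
  constructor
  · intro hνA
    by_contra hvol
    obtain ⟨K, hKA, hK, hKpos⟩ := (hA.inter (JJ_open ν).measurableSet).exists_lt_isCompact
      (μ := (volume : Measure ℝ)) (pos_iff_ne_zero.2 hvol)
    have hνK : ν K = 0 := measure_mono_null (fun x hx => (hKA hx).1) hνA
    set K' : Set ℝ := insert 0 K with hK'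
    have hK'c : IsCompact K' := hK.insert 0
    have hK'J : K' ⊆ JJ ν := by
      rintro x (rfl | hx)
      · exact h0
      · exact (hKA hx).2
    have hne : K'.Nonempty := ⟨0, mem_insert _ _⟩
    have ha0 := hK'J (hK'c.sInf_mem hne)
    have hb0 := hK'J (hK'c.sSup_mem hne)
    obtain ⟨a, haa, haJ⟩ : ∃ a < sInf K', a ∈ JJ ν :=
      ((JJ_open ν).mem_nhds ha0 |> fun h => (nhdsWithin_le_nhds h : JJ ν ∈ 𝓝[<] (sInf K'))
        |> fun h => (inter_mem self_mem_nhdsWithin h : Iio (sInf K') ∩ JJ ν ∈ 𝓝[<] (sInf K'))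
        |> Filter.nonempty_of_mem)
    obtain ⟨b, hbb, hbJ⟩ : ∃ b > sSup K', b ∈ JJ ν :=
      ((JJ_open ν).mem_nhds hb0 |> fun h => (nhdsWithin_le_nhds h : JJ ν ∈ 𝓝[>] (sSup K'))
        |> fun h => (inter_mem self_mem_nhdsWithin h : Ioi (sSup K') ∩ JJ ν ∈ 𝓝[>] (sSup K'))
        |> Filter.nonempty_of_mem)
    have h1 : ∀ x ∈ K', sInf K' ≤ x := fun x hx => csInf_le hK'c.bddBelow hx
    have h2 : ∀ x ∈ K', x ≤ sSup K' := fun x hx => le_csSup hK'c.bddAbove hx
    have := key hx hC hS hK hνK (a := a) (b := b) (lt_of_lt_of_le haa (h1 0 (mem_insert _ _)))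
      (lt_of_le_of_lt (h2 0 (mem_insert _ _)) hbb) haJ.2 hbJ.1
      (fun x hx => ⟨lt_of_lt_of_le haa (h1 x (mem_insert_of_mem _ hx)),
        lt_of_le_of_lt (h2 x (mem_insert_of_mem _ hx)) hbb⟩)
    exact hKpos.ne' this
  · intro hvol
    have h1 : ν (A ∩ JJ ν) = 0 := hac hvol
    refine measure_mono_null (fun x hx => ?_) (measure_union_null h1 (compl_null hac h0))
    by_cases hxJ : x ∈ JJ ν
    · exact Or.inl ⟨hx, hxJ⟩
    · exact Or.inr hxJ

end Pool.Agent.A54.Vd
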