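import Pool.Agent.Lib.MP_a54f13_nt.Vd.SpecU
import Pool.Agent.Lib.MP_a54f13_nt.Sq.Rel

/-!
The local relations between the quartic moments of the tower, with a slowly varying weight.
-/

set_option autoImplicit false

namespace Pool.Agent.A54.Vd.RlEM

open MeasureTheory Filter Topology Set
open scoped ContDiff ComplexConjugate UpperHalfPlane MatrixGroups ENNReal
open Pool.Agent.A54.Half (H0 qq ff hh)
open Pool.Agent.A54.Sq (TestP la Tow pp Wi Pj Up KK SS CosH)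
open Pool.Agent.A54.Pl (Ed mean)

noncomputable section

variable {V : Set ℂ}

/-- the product of a test function and a weight -/
lemma testR_mul {φ w : ℂ → ℝ} (hφ : TestR V φ) (hw : ContDiff ℝ ∞ w) :
    TestR V (fun z => φ z * w z) where
  smooth := hφ.smooth.mul hw
  cpt := hφ.cpt.mul_right
  sub := (tsupport_mul_subset_left).trans hφ.sub

/-- the error function of the product -/
lemma er_mul {φ w : ℂ → ℝ} (hφ : ContDiff ℝ ∞ φ) (hw : ContDiff ℝ ∞ w) (z : ℂ) :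
    Sq.RelM.er (fun z => φ z * w z) z = ((w z : ℝ) : ℂ) * Sq.RelM.er φ z +
      Complex.I * ((z.im * φ z : ℝ) : ℂ) * dz (fun x => ((w x : ℝ) : ℂ)) z := by
  have h1 : (fun x : ℂ => ((φ x * w x : ℝ) : ℂ)) =
      fun x => ((φ x : ℝ) : ℂ) * ((w x : ℝ) : ℂ) := by
    funext x
    push_cast
    rfl
  unfold Sq.RelM.er
  rw [h1, dz_mul (contDiff_ofReal hφ) (contDiff_ofReal hw)]
  push_cast
  ring

end

end Pool.Agent.A54.Vd.RlEM

namespace Pool.Agent.A54.Vd

open MeasureTheory Filter Topology Set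
open scoped ContDiff ComplexConjugate UpperHalfPlane MatrixGroups ENNReal
open Pool.Agent.A54.Half (H0 qq ff hh)
open Pool.Agent.A54.Sq (TestP la Tow pp Wi Pj Up KK SS CosH)
open Pool.Agent.A54.Pl (Ed mean)

theorem stmtRlE : StmtRlE := by
  intro V hV _ φ hφP
  have hφ : TestR V φ := hφP.test
  obtain ⟨ζ, hζ, h01, hone⟩ := exists_cutoff hφ.cpt hV hφ.sub
  have hone' : ∀ z ∈ tsupport φ, ζ z = 1 := fun z hz => subset_of_mem_nhdsSet hone hz
  obtain ⟨C0, hC0⟩ := hφ.cpt.isCompact.exists_bound_of_continuousOn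
    (Sq.RelM.er_continuous hφ).continuousOn
  obtain ⟨C1, hC1⟩ := hφ.cpt.exists_bound_of_continuous hφ.smooth.continuous
  obtain ⟨C2, hC2⟩ := hφ.cpt.isCompact.exists_bound_of_continuousOn
    (f := fun z : ℂ => z.im * φ z)
    (Complex.continuous_im.mul hφ.smooth.continuous).continuousOn
  have hζP : TestP V ζ := ⟨hζ, fun z => (h01 z).1⟩
  have hE : ∀ z, ‖Sq.RelM.er φ z‖ ≤ |C0| * ζ z := by
    intro z
    by_cases hz : z ∈ tsupport φ
    · rw [hone' z hz, mul_one]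
      exact (hC0 z hz).trans (le_abs_self _)
    · rw [Sq.RelM.er_zero hz, norm_zero]
      exact mul_nonneg (abs_nonneg _) (h01 z).1
  have hF : ∀ z, |φ z| ≤ |C1| * ζ z := by
    intro z
    by_cases hz : z ∈ tsupport φ
    · rw [hone' z hz, mul_one]
      exact (hC1 z).trans (le_abs_self _)
    · rw [image_eq_zero_of_notMem_tsupport hz, abs_zero]
      exact mul_nonneg (abs_nonneg _) (h01 z).1
  have hD : ∀ z, |z.im * φ z| ≤ |C2| * ζ z := by
    intro z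
    by_cases hz : z ∈ tsupport φ
    · rw [hone' z hz, mul_one]
      exact (hC2 z hz).trans (le_abs_self _)
    · rw [image_eq_zero_of_notMem_tsupport hz, mul_zero, abs_zero]
      exact mul_nonneg (abs_nonneg _) (h01 z).1
  refine ⟨ζ, |C0| + 2 * |C2| + 2 * |C1|, hζP, by positivity,
    fun t G ht hG w e he hw N B hN hU n m hn hm => ?_⟩
  have hc : ∀ n, Continuous (G n) := fun n => (hG.smooth n).continuous
  have hU' : Up ζ G (N + 1) B := hU
  have hN0 : (0 : ℤ) ≤ N := Int.natCast_nonneg N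
  have hcast : (((N + 1 : ℕ) : ℤ)) = (N : ℤ) + 1 := by push_cast; ring
  have hn' := abs_le.1 hn
  have hm' := abs_le.1 hm
  have bn : |n| ≤ ((N + 1 : ℕ) : ℤ) := by rw [abs_le]; omega
  have bn1 : |n + 1| ≤ ((N + 1 : ℕ) : ℤ) := by rw [abs_le]; omega
  have bn2 : |n - 1| ≤ ((N + 1 : ℕ) : ℤ) := by rw [abs_le]; omega
  have bm : |m| ≤ ((N + 1 : ℕ) : ℤ) := by rw [abs_le]; omega
  have bm1 : |m + 1| ≤ ((N + 1 : ℕ) : ℤ) := by rw [abs_le]; omega
  have hB : 0 ≤ B := by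
    have h1 : 0 ≤ ∫ z, ζ z * ‖G n z‖ ^ 4 :=
      integral_nonneg fun z => mul_nonneg (h01 z).1 (by positivity)
    exact h1.trans (hU' n bn)
  -- the weight
  set ψ : ℂ → ℝ := fun z => φ z * w z with hψd
  have hψ : TestR V ψ := RlEM.testR_mul hφ hw.smooth
  have hψF : ∀ z, |ψ z| ≤ |C1| * ζ z := by
    intro z
    have h1 : |ψ z| = |φ z| * w z := by
      rw [hψd]
      dsimp only
      rw [abs_mul, abs_of_nonneg (hw.nonneg z)]
    rw [h1]
    calc |φ z| * w z ≤ |φ z| * 1 := mul_le_mul_of_nonneg_left (hw.le_one z) (abs_nonneg _)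
      _ = |φ z| := mul_one _
      _ ≤ _ := hF z
  have hψE : ∀ z, ‖Sq.RelM.er ψ z‖ ≤ ((|C0| + 2 * |C2|) * (e * t)) * ζ z := by
    intro z
    have hz0 : 0 ≤ ζ z := (h01 z).1
    have h1 : ‖((w z : ℝ) : ℂ) * Sq.RelM.er φ z‖ ≤ |C0| * ζ z := by
      rw [norm_mul, Complex.norm_real, Real.norm_eq_abs, abs_of_nonneg (hw.nonneg z)]
      calc w z * ‖Sq.RelM.er φ z‖ ≤ 1 * ‖Sq.RelM.er φ z‖ :=
            mul_le_mul_of_nonneg_right (hw.le_one z) (norm_nonneg _)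
        _ = ‖Sq.RelM.er φ z‖ := one_mul _
        _ ≤ _ := hE z
    have h2 : ‖dz (fun x => ((w x : ℝ) : ℂ)) z‖ ≤ 2 * (e * t) := by
      have h3 := Cacc.norm_dz_ofReal_le hw.smooth z
      have h4 := hw.grad z
      linarith
    have h5 : ‖Complex.I * ((z.im * φ z : ℝ) : ℂ) * dz (fun x => ((w x : ℝ) : ℂ)) z‖ ≤
        (|C2| * ζ z) * (2 * (e * t)) := by
      rw [norm_mul, norm_mul, Complex.norm_I, one_mul, Complex.norm_real, Real.norm_eq_abs]
      exact mul_le_mul (hD z) h2 (norm_nonneg _) (mul_nonneg (abs_nonneg _) hz0)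
    have h6 : |C0| * ζ z ≤ (|C0| * ζ z) * (e * t) := by
      have h7 : 0 ≤ |C0| * ζ z := mul_nonneg (abs_nonneg _) hz0
      nlinarith
    have h8 : Sq.RelM.er ψ z = ((w z : ℝ) : ℂ) * Sq.RelM.er φ z +
        Complex.I * ((z.im * φ z : ℝ) : ℂ) * dz (fun x => ((w x : ℝ) : ℂ)) z :=
      RlEM.er_mul hφ.smooth hw.smooth z
    rw [h8]
    refine (norm_add_le _ _).trans ?_
    have h9 : ((|C0| + 2 * |C2|) * (e * t)) * ζ z =
        (|C0| * ζ z) * (e * t) + (|C2| * ζ z) * (2 * (e * t)) := by ring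
    rw [h9]
    linarith
  have het : 0 ≤ e * t := by linarith
  have hK : 0 ≤ (|C0| + 2 * |C2|) * (e * t) := mul_nonneg (by positivity) het
  -- the bounds
  have b1 : ∀ k : ℤ, |k| ≤ ((N + 1 : ℕ) : ℤ) → |k + 1| ≤ ((N + 1 : ℕ) : ℤ) →
      |Pj ψ G k m| ≤ |C1| * B := by
    intro k hk hk1
    rw [← Real.norm_eq_abs]
    unfold Pj
    refine Sq.RelM.bound (i := k + 1) (j := k) (k := m + 1) (l := m) hζP hc hU' hk1 hk bm1 bm
      (abs_nonneg _) fun z => ?_
    rw [Real.norm_eq_abs, abs_mul]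
    have h1 : |(Sq.pp G k z * conj (Sq.pp G m z)).re| ≤ ‖G (k + 1) z‖ * ‖G k z‖ *
        (‖G (m + 1) z‖ * ‖G m z‖) := by
      refine (Complex.abs_re_le_norm _).trans (le_of_eq ?_)
      unfold Sq.pp
      simp only [norm_mul, RCLike.norm_conj]
    calc |ψ z| * |(Sq.pp G k z * conj (Sq.pp G m z)).re| ≤ (|C1| * ζ z) *
          (‖G (k + 1) z‖ * ‖G k z‖ * (‖G (m + 1) z‖ * ‖G m z‖)) :=
          mul_le_mul (hψF z) h1 (abs_nonneg _) (mul_nonneg (abs_nonneg _) (h01 z).1)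
      _ = _ := by ring
  have b2 : ∀ k : ℤ, |k| ≤ ((N + 1 : ℕ) : ℤ) → |Wi ψ G n k| ≤ |C1| * B := by
    intro k hk
    rw [← Real.norm_eq_abs]
    unfold Wi
    refine Sq.RelM.bound (i := n) (j := n) (k := k) (l := k) hζP hc hU' bn bn hk hk
      (abs_nonneg _) fun z => ?_
    rw [Real.norm_eq_abs, abs_mul, abs_of_nonneg (by positivity : 0 ≤ ‖G n z‖ ^ 2 * ‖G k z‖ ^ 2)]
    calc |ψ z| * (‖G n z‖ ^ 2 * ‖G k z‖ ^ 2) ≤ (|C1| * ζ z) * (‖G n z‖ ^ 2 * ‖G k z‖ ^ 2) :=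
          mul_le_mul_of_nonneg_right (hψF z) (by positivity)
      _ = _ := by ring
  have b3 : |(∫ z, Sq.RelM.er ψ z * (Sq.RelM.uu G n z * conj (Sq.pp G m z))).re| ≤
      ((|C0| + 2 * |C2|) * (e * t)) * B := by
    refine (Complex.abs_re_le_norm _).trans ?_
    refine Sq.RelM.bound (i := n) (j := n) (k := m + 1) (l := m) hζP hc hU' bn bn bm1 bm
      hK fun z => ?_
    have h1 : ‖Sq.RelM.uu G n z * conj (Sq.pp G m z)‖ = ‖G n z‖ * ‖G n z‖ *
        (‖G (m + 1) z‖ * ‖G m z‖) := by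
      unfold Sq.RelM.uu Sq.pp
      simp only [norm_mul, RCLike.norm_conj]
    rw [norm_mul, h1]
    calc ‖Sq.RelM.er ψ z‖ * (‖G n z‖ * ‖G n z‖ * (‖G (m + 1) z‖ * ‖G m z‖)) ≤
          (((|C0| + 2 * |C2|) * (e * t)) * ζ z) *
          (‖G n z‖ * ‖G n z‖ * (‖G (m + 1) z‖ * ‖G m z‖)) :=
          mul_le_mul_of_nonneg_right (hψE z) (by positivity)
      _ = _ := by ring
  have l1 := Sq.RelM.la_close ht hN (n := n) (by rw [abs_le]; omega)
  have l2 := Sq.RelM.la_close ht hN (n := n - 1) (by rw [abs_le]; omega)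
  have l3 := Sq.RelM.la_close ht hN (n := m) (by rw [abs_le]; omega)
  have hid := congrArg Complex.re (Sq.RelM.main hψ hG n m)
  have hid' : la t n * Pj ψ G n m - la t (n - 1) * Pj ψ G (n - 1) m =
      -(la t m * (Wi ψ G n (m + 1) - Wi ψ G n m)) -
        (∫ z, Sq.RelM.er ψ z * (Sq.RelM.uu G n z * conj (Sq.pp G m z))).re := by
    rw [Sq.RelM.Pj_eq hψ hG.smooth, Sq.RelM.Pj_eq hψ hG.smooth]
    simp only [Complex.sub_re, Complex.neg_re, Complex.re_ofReal_mul, Complex.ofReal_re] at hid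
    exact hid
  have ht0 : 0 < t := by linarith
  have habs : ∀ x : ℝ, |x| * t = |x * t| := fun x => by rw [abs_mul, abs_of_pos ht0]
  refine le_of_mul_le_mul_right ?_ ht0
  rw [habs]
  have hsplit : (Pj ψ G n m - Pj ψ G (n - 1) m + Wi ψ G n (m + 1) - Wi ψ G n m) * t =
      -(∫ z, Sq.RelM.er ψ z * (Sq.RelM.uu G n z * conj (Sq.pp G m z))).re +
        (t - la t n) * Pj ψ G n m - (t - la t (n - 1)) * Pj ψ G (n - 1) m +
        (t - la t m) * Wi ψ G n (m + 1) - (t - la t m) * Wi ψ G n m := by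
    linear_combination hid'
  rw [hsplit]
  have key : ∀ x y : ℝ, |x| ≤ 1 / 2 → |y| ≤ |C1| * B → |x * y| ≤ 1 / 2 * (|C1| * B) := by
    intro x y hx hy
    rw [abs_mul]
    exact mul_le_mul hx hy (abs_nonneg _) (by norm_num)
  have k1 := abs_le.1 (key _ _ l1 (b1 n bn bn1))
  have k2 := abs_le.1 (key _ _ l2 (b1 (n - 1) bn2 (by rw [sub_add_cancel]; exact bn)))
  have k3 := abs_le.1 (key _ _ l3 (b2 (m + 1) bm1))
  have k4 := abs_le.1 (key _ _ l3 (b2 m bm))
  have k5 := abs_le.1 b3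
  have k6 : |C1| * B ≤ (|C1| * B) * (e * t) := by
    have h7 : 0 ≤ |C1| * B := mul_nonneg (abs_nonneg _) hB
    nlinarith
  have k7 : (|C0| + 2 * |C2| + 2 * |C1|) * B * e * t =
      ((|C0| + 2 * |C2|) * (e * t)) * B + 2 * ((|C1| * B) * (e * t)) := by ring
  rw [k7, abs_le]
  constructor <;>
    linarith [k1.1, k1.2, k2.1, k2.2, k3.1, k3.2, k4.1, k4.2, k5.1, k5.2]

end Pool.Agent.A54.Vd
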