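import Pool.Agent.Lib.MP_a54f13_nt.Vd.SpecU
import Pool.Agent.Lib.MP_a54f13_nt.Sq.SmS

/-!
Weighted averages of `|G_d|²` are almost constant at the scale `N / t`.
-/

set_option autoImplicit false

namespace Pool.Agent.A54.Vd.SmAM

open MeasureTheory Filter Topology Set
open scoped ContDiff ComplexConjugate UpperHalfPlane MatrixGroups ENNReal
open Pool.Agent.A54.Half (H0)
open Pool.Agent.A54.Sq (TestP la Tow Up)
open Pool.Agent.A54.Sq.RelM
open Pool.Agent.A54.Sq.SmSM (norm_fderiv_real dz_sum contDiff_nsq)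

noncomputable section

variable {V : Set ℂ} {t : ℝ} {G : ℤ → ℂ → ℂ} {a : ℤ → ℝ} {D : ℕ} {β : ℝ}

/-- the index sets -/
abbrev J0 (D : ℕ) : Finset ℤ := Finset.Icc (-(D : ℤ)) (D : ℤ)

abbrev J1 (D : ℕ) : Finset ℤ := Finset.Icc (-(D : ℤ) - 1) (D : ℤ)

lemma Sa_eq (z : ℂ) : ((Sa a D G z : ℝ) : ℂ) = ∑ d ∈ J0 D, ((a d : ℝ) : ℂ) * uu G d z := by
  unfold Sa
  push_cast
  refine Finset.sum_congr rfl fun d _ => ?_
  rw [uu_eq]
  push_cast
  rfl

lemma contDiff_Sa (hG : ∀ n, ContDiff ℝ ∞ (G n)) : ContDiff ℝ ∞ (Sa a D G) := by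
  unfold Sa
  exact ContDiff.sum fun d _ => contDiff_const.mul (contDiff_nsq hG d)

/-- summation by parts -/
lemma abel (K : ℤ → ℂ) (b : ℤ → ℂ) (hK : ∀ d : ℤ, (D : ℤ) < |d| → K d = 0) :
    ∑ d ∈ J0 D, K d * (b d - b (d - 1)) = ∑ d ∈ J1 D, (K d - K (d + 1)) * b d := by
  have hk1 : K (-(D : ℤ) - 1) = 0 := by
    apply hK
    rw [lt_abs]
    right
    omega
  have hk2 : K ((D : ℤ) + 1) = 0 := by
    apply hK
    rw [lt_abs]
    left
    omega
  have h1 : ∑ d ∈ J1 D, K d * b d = ∑ d ∈ J0 D, K d * b d := by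
    symm
    apply Finset.sum_subset
    · intro d hd
      rw [Finset.mem_Icc] at hd ⊢
      omega
    · intro d hd hd'
      rw [Finset.mem_Icc] at hd hd'
      have : d = -(D : ℤ) - 1 := by omega
      rw [this, hk1, zero_mul]
  have h2 : ∑ d ∈ J1 D, K (d + 1) * b d = ∑ d ∈ J0 D, K d * b (d - 1) := by
    have h3 : ∑ d ∈ J0 D, K d * b (d - 1) =
        ∑ d ∈ Finset.Icc (-(D : ℤ) - 1) ((D : ℤ) - 1), K (d + 1) * b d := by
      symm
      refine Finset.sum_bij (fun d _ => d + 1) ?_ ?_ ?_ ?_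
      · intro d hd
        rw [Finset.mem_Icc] at hd ⊢
        omega
      · intro d _ e _ h
        omega
      · intro d hd
        rw [Finset.mem_Icc] at hd
        refine ⟨d - 1, ?_, by ring⟩
        rw [Finset.mem_Icc]
        omega
      · intro d _
        rw [add_sub_cancel_right]
    rw [h3]
    symm
    apply Finset.sum_subset
    · intro d hd
      rw [Finset.mem_Icc] at hd ⊢
      omega
    · intro d hd hd'
      rw [Finset.mem_Icc] at hd hd'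
      have : d = (D : ℤ) := by omega
      rw [this, hk2, zero_mul]
  calc ∑ d ∈ J0 D, K d * (b d - b (d - 1)) = ∑ d ∈ J0 D, K d * b d - ∑ d ∈ J0 D, K d * b (d - 1) := by
        rw [← Finset.sum_sub_distrib]
        exact Finset.sum_congr rfl fun d _ => by ring
    _ = ∑ d ∈ J1 D, K d * b d - ∑ d ∈ J1 D, K (d + 1) * b d := by rw [h1, h2]
    _ = _ := by
        rw [← Finset.sum_sub_distrib]
        exact Finset.sum_congr rfl fun d _ => by ring

lemma dz_Sa (ha : Ker a D β) (hG : Tow V t G) {z : ℂ} (hz : z ∈ V) :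
    Complex.I * (z.im : ℂ) * dz (fun w => ((Sa a D G w : ℝ) : ℂ)) z =
      ∑ d ∈ J1 D, (((a d - a (d + 1)) * la t d : ℝ) : ℂ) * Sq.pp G d z := by
  have h1 : (fun w => ((Sa a D G w : ℝ) : ℂ)) = fun w => ∑ d ∈ J0 D, ((a d : ℝ) : ℂ) * uu G d w := by
    funext w
    exact Sa_eq w
  rw [h1, dz_sum (J0 D) (fun d => contDiff_const.mul (contDiff_uu hG.smooth d)), Finset.mul_sum]
  have h2 : ∀ d ∈ J0 D, Complex.I * (z.im : ℂ) * dz (fun w => ((a d : ℝ) : ℂ) * uu G d w) z =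
      ((a d : ℝ) : ℂ) * (((la t d : ℝ) : ℂ) * Sq.pp G d z -
        ((la t (d - 1) : ℝ) : ℂ) * Sq.pp G (d - 1) z) := by
    intro d _
    rw [dz_const_mul _ (contDiff_uu hG.smooth d), ← dz_uu hG d hz]
    ring
  rw [Finset.sum_congr rfl h2]
  have h3 := abel (D := D) (fun d => ((a d : ℝ) : ℂ)) (fun d => ((la t d : ℝ) : ℂ) * Sq.pp G d z)
    (fun d hd => by rw [ha.zero d hd]; simp)
  refine h3.trans (Finset.sum_congr rfl fun d _ => ?_)
  push_cast
  ring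

lemma card_J1 (D : ℕ) : ((J1 D).card : ℝ) = 2 * ((D : ℝ) + 1) := by
  have h : (J1 D).card = 2 * D + 2 := by
    rw [Int.card_Icc]
    omega
  rw [h]
  push_cast
  ring

lemma la_le (ht : 1 ≤ t) (hD : (D : ℝ) + 1 ≤ t) {d : ℤ} (hd : d ∈ J1 D) : la t d ≤ 2 * t := by
  rw [Finset.mem_Icc] at hd
  unfold la
  rw [Real.sqrt_le_left (by linarith)]
  have h1 : (-(D : ℝ) - 1) ≤ (d : ℝ) := by exact_mod_cast hd.1
  have h2 : (d : ℝ) ≤ (D : ℝ) := by exact_mod_cast hd.2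
  have h3 : (0 : ℝ) ≤ D := Nat.cast_nonneg D
  have h4 : |(d : ℝ) + 1 / 2| ≤ t := by
    rw [abs_le]
    constructor <;> linarith
  have h5 : ((d : ℝ) + 1 / 2) ^ 2 ≤ t ^ 2 := by
    rw [← sq_abs]
    exact pow_le_pow_left₀ (abs_nonneg _) h4 2
  nlinarith

lemma beta_nonneg (ha : Ker a D β) : 0 ≤ β := (abs_nonneg _).trans (ha.dif 0)

/-- the pointwise bound for the derivative -/
lemma dSa_le (ha : Ker a D β) (ht : 1 ≤ t) (hG : Tow V t G) (hD : (D : ℝ) + 1 ≤ t) {z : ℂ}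
    (hz : z ∈ V) :
    z.im ^ 2 * ‖fderiv ℝ (Sa a D G) z‖ ^ 2 ≤
      ((β * (2 * t)) ^ 2 * (2 * ((D : ℝ) + 1))) * ∑ d ∈ J1 D, ‖Sq.pp G d z‖ ^ 2 := by
  have ht0 : 0 ≤ t := by linarith
  have hβ := beta_nonneg ha
  have h1 := norm_fderiv_real (contDiff_Sa (a := a) (D := D) hG.smooth) z
  have h2 : z.im ^ 2 * ‖fderiv ℝ (Sa a D G) z‖ ^ 2 ≤
      ‖Complex.I * (z.im : ℂ) * dz (fun w => ((Sa a D G w : ℝ) : ℂ)) z‖ ^ 2 := by
    rw [norm_mul, norm_mul, Complex.norm_I, one_mul, Complex.norm_real, mul_pow,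
      Real.norm_eq_abs, sq_abs]
    exact mul_le_mul_of_nonneg_left (pow_le_pow_left₀ (norm_nonneg _) h1 2) (sq_nonneg _)
  refine h2.trans ?_
  rw [dz_Sa ha hG hz]
  have h3 : ‖∑ d ∈ J1 D, (((a d - a (d + 1)) * la t d : ℝ) : ℂ) * Sq.pp G d z‖ ≤
      ∑ d ∈ J1 D, (β * (2 * t)) * ‖Sq.pp G d z‖ := by
    refine (norm_sum_le _ _).trans (Finset.sum_le_sum fun d hd => ?_)
    rw [norm_mul, Complex.norm_real, Real.norm_eq_abs, abs_mul]
    refine mul_le_mul_of_nonneg_right ?_ (norm_nonneg _)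
    have hla : |la t d| ≤ 2 * t := by
      rw [abs_of_nonneg (show 0 ≤ la t d from Real.sqrt_nonneg _)]
      exact la_le ht hD hd
    exact mul_le_mul (ha.dif d) hla (abs_nonneg _) hβ
  rw [← Finset.mul_sum] at h3
  have h4 := pow_le_pow_left₀ (norm_nonneg _) h3 2
  refine h4.trans ?_
  have h5 := sq_sum_le_card_mul_sum_sq (s := J1 D) (f := fun d => ‖Sq.pp G d z‖)
  rw [card_J1] at h5
  rw [mul_pow, mul_assoc]
  exact mul_le_mul_of_nonneg_left h5 (by positivity)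

/-- Jensen -/
lemma Sa_sq_le (ha : Ker a D β) (z : ℂ) : Sa a D G z ^ 2 ≤ ∑ d ∈ J0 D, a d * ‖G d z‖ ^ 4 := by
  have h1 : Sa a D G z ^ 2 ≤ (∑ d ∈ J0 D, a d) * ∑ d ∈ J0 D, a d * (‖G d z‖ ^ 2) ^ 2 := by
    unfold Sa
    have h := Finset.sum_sq_le_sum_mul_sum_of_sq_eq_mul (J0 D) (r := fun d => a d * ‖G d z‖ ^ 2)
      (f := fun d => a d) (g := fun d => a d * (‖G d z‖ ^ 2) ^ 2)
      (fun d _ => ha.nonneg d) (fun d _ => mul_nonneg (ha.nonneg d) (by positivity))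
      (fun d _ => by ring)
    exact h
  rw [ha.sum, one_mul] at h1
  refine h1.trans (le_of_eq (Finset.sum_congr rfl fun d _ => ?_))
  ring

lemma integ2 {ζ : ℂ → ℝ} (hζ : TestR V ζ) {F : ℂ → ℝ} (hF : Continuous F) :
    Integrable (fun z => ζ z ^ 2 * F z) := by
  have h := integ hζ (hζ.smooth.continuous.mul hF)
  have e : (fun z => ζ z ^ 2 * F z) = fun z => ζ z * (ζ z * F z) := by
    funext z
    ring
  rw [e]
  exact h

/-- the derivative of the weighted average -/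
lemma dw_le {w : ℂ → ℝ} {s : ℝ} (hw : Wgt w s) {F : ℂ → ℝ} (hF : ContDiff ℝ ∞ F) (z : ℂ) :
    ‖fderiv ℝ (fun x => w x * F x) z‖ ^ 2 ≤ 2 * ‖fderiv ℝ F z‖ ^ 2 + 2 * s ^ 2 * F z ^ 2 := by
  have hwd : DifferentiableAt ℝ w z := (hw.smooth.differentiable (by simp)).differentiableAt
  have hFd : DifferentiableAt ℝ F z := (hF.differentiable (by simp)).differentiableAt
  have h1 : fderiv ℝ (fun x => w x * F x) z = w z • fderiv ℝ F z + F z • fderiv ℝ w z :=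
    fderiv_fun_mul hwd hFd
  have h2 : ‖fderiv ℝ (fun x => w x * F x) z‖ ≤ ‖fderiv ℝ F z‖ + |F z| * s := by
    rw [h1]
    refine (norm_add_le _ _).trans (add_le_add ?_ ?_)
    · rw [norm_smul, Real.norm_eq_abs, abs_of_nonneg (hw.nonneg z)]
      exact mul_le_of_le_one_left (norm_nonneg _) (hw.le_one z)
    · rw [norm_smul, Real.norm_eq_abs]
      exact mul_le_mul_of_nonneg_left (hw.grad z) (abs_nonneg _)
  have h3 := pow_le_pow_left₀ (norm_nonneg _) h2 2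
  have h4 : |F z| ^ 2 = F z ^ 2 := sq_abs _
  nlinarith [sq_nonneg (‖fderiv ℝ F z‖ - |F z| * s), h4]

end

end Pool.Agent.A54.Vd.SmAM

namespace Pool.Agent.A54.Vd

open MeasureTheory Filter Topology Set
open scoped ContDiff ComplexConjugate UpperHalfPlane MatrixGroups ENNReal
open Pool.Agent.A54.Half (H0 qq ff hh)
open Pool.Agent.A54.Sq (TestP la Tow Wi Pj Up KK SS CosH)
open Pool.Agent.A54.Pl (Ed mean)

theorem stmtSmA (hE3 : Pl.StmtE3) : StmtSmA := by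
  intro V hV hVH φ hφ
  obtain ⟨ζ₁, C₁, r0, hζ₁, hC₁, hr0, hE⟩ := hE3 V hV hVH φ hφ.test
  obtain ⟨ζ, hζ, h01, hone⟩ := exists_cutoff hζ₁.cpt hV hζ₁.sub
  have hone' : ∀ z ∈ tsupport ζ₁, ζ z = 1 := fun z hz => subset_of_mem_nhdsSet hone hz
  have hζP : TestP V ζ := ⟨hζ, fun z => (h01 z).1⟩
  have hpos : ∀ z ∈ tsupport ζ₁, 0 < z.im := fun z hz => hVH (hζ₁.sub hz)
  obtain ⟨Z1, hZ1⟩ := hζ₁.cpt.isCompact.exists_bound_of_continuousOn
    (f := fun z => ζ₁ z ^ 2) (hζ₁.smooth.continuous.pow 2).continuousOn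
  obtain ⟨Z2, hZ2⟩ := hζ₁.cpt.isCompact.exists_bound_of_continuousOn
    (f := fun z => ζ₁ z ^ 2 / z.im ^ 2)
    ((hζ₁.smooth.continuous.pow 2).continuousOn.div (Complex.continuous_im.pow 2).continuousOn
      fun z hz => (pow_pos (hpos z hz) 2).ne')
  set A : ℝ := |Z1| + |Z2| with hA
  have hA0 : 0 ≤ A := by positivity
  have a1 : ∀ z, ζ₁ z ^ 2 ≤ A * ζ z := by
    intro z
    by_cases hz : z ∈ tsupport ζ₁
    · rw [hone' z hz, mul_one]
      have h1 := hZ1 z hz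
      rw [Real.norm_eq_abs, abs_of_nonneg (sq_nonneg _)] at h1
      have h2 := le_abs_self Z1
      have h3 := abs_nonneg Z2
      linarith
    · rw [image_eq_zero_of_notMem_tsupport hz]
      have := mul_nonneg hA0 (h01 z).1
      simpa using this
  have a2 : ∀ z, ζ₁ z ^ 2 ≤ A * (ζ z * z.im ^ 2) := by
    intro z
    by_cases hz : z ∈ tsupport ζ₁
    · have h0 := hpos z hz
      rw [hone' z hz, one_mul]
      have h1 := hZ2 z hz
      rw [Real.norm_eq_abs, abs_of_nonneg (by positivity), div_le_iff₀ (by positivity)] at h1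
      refine h1.trans (mul_le_mul_of_nonneg_right ?_ (sq_nonneg _))
      have h2 := le_abs_self Z2
      have h3 := abs_nonneg Z1
      linarith
    · rw [image_eq_zero_of_notMem_tsupport hz]
      have := mul_nonneg hA0 (mul_nonneg (h01 z).1 (sq_nonneg z.im))
      simpa using this
  refine ⟨ζ, C₁ * (9 * A), r0, hζP, by positivity, hr0,
    fun t G ht hG w e het hw a D β B ρ ha hD hU hρ hρr => ?_⟩
  have hc : ∀ n, Continuous (G n) := fun n => (hG.smooth n).continuous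
  have hD0 : (0 : ℝ) ≤ (D : ℝ) := Nat.cast_nonneg D
  have ht0 : (0 : ℝ) < t := by linarith
  have hβ := SmAM.beta_nonneg ha
  have he0 : 0 ≤ e := by
    by_contra h
    push Not at h
    have := mul_neg_of_neg_of_pos h ht0
    linarith
  have hU0 : ∀ n : ℤ, |n| ≤ ((D + 1 : ℕ) : ℤ) → ∫ z, ζ z * ‖G n z‖ ^ 4 ≤ B := hU
  have hB : 0 ≤ B := by
    refine le_trans ?_ (hU0 0 (by simp; omega))
    exact integral_nonneg fun z => mul_nonneg (h01 z).1 (by positivity)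
  have cS : ContDiff ℝ ∞ (Sa a D G) := SmAM.contDiff_Sa hG.smooth
  have cw : ContDiff ℝ ∞ (fun z => w z * Sa a D G z) := hw.smooth.mul cS
  have hEE := hE ρ hρ hρr (fun w => ‖G 0 w‖ ^ 2) (fun z => w z * Sa a D G z)
    (Sq.SmSM.contDiff_nsq hG.smooth 0) cw
  -- first integral
  have i1 : ∫ z, ζ₁ z ^ 2 * (‖G 0 z‖ ^ 2) ^ 2 ≤ A * B := by
    have h1 : ∫ z, ζ₁ z ^ 2 * (‖G 0 z‖ ^ 2) ^ 2 ≤ ∫ z, A * (ζ z * ‖G 0 z‖ ^ 4) := by
      refine integral_mono_of_nonneg (Eventually.of_forall fun z => by positivity)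
        ((Sq.RelM.integ hζ ((hc 0).norm.pow 4)).const_mul A) (Eventually.of_forall fun z => ?_)
      calc ζ₁ z ^ 2 * (‖G 0 z‖ ^ 2) ^ 2 ≤ (A * ζ z) * (‖G 0 z‖ ^ 2) ^ 2 :=
            mul_le_mul_of_nonneg_right (a1 z) (by positivity)
        _ = _ := by ring
    rw [integral_const_mul] at h1
    exact h1.trans (mul_le_mul_of_nonneg_left (hU0 0 (by simp; omega)) hA0)
  -- second integral
  have i2 : ∫ z, ζ₁ z ^ 2 * Sa a D G z ^ 2 ≤ A * B := by
    have hint : ∀ d ∈ SmAM.J0 D, Integrable (fun z => a d * (ζ z * ‖G d z‖ ^ 4)) := fun d _ =>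
      (Sq.RelM.integ hζ ((hc d).norm.pow 4)).const_mul _
    have h1 : ∫ z, ζ₁ z ^ 2 * Sa a D G z ^ 2 ≤
        ∫ z, A * ∑ d ∈ SmAM.J0 D, a d * (ζ z * ‖G d z‖ ^ 4) := by
      refine integral_mono_of_nonneg (Eventually.of_forall fun z => by positivity)
        ((integrable_finsetSum _ hint).const_mul A) (Eventually.of_forall fun z => ?_)
      calc ζ₁ z ^ 2 * Sa a D G z ^ 2 ≤ (A * ζ z) * ∑ d ∈ SmAM.J0 D, a d * ‖G d z‖ ^ 4 :=
            mul_le_mul (a1 z) (SmAM.Sa_sq_le ha z) (sq_nonneg _) (mul_nonneg hA0 (h01 z).1)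
        _ = A * ∑ d ∈ SmAM.J0 D, a d * (ζ z * ‖G d z‖ ^ 4) := by
            rw [mul_assoc, Finset.mul_sum]
            congr 1
            exact Finset.sum_congr rfl fun d _ => by ring
    rw [integral_const_mul, integral_finsetSum _ hint] at h1
    refine h1.trans (mul_le_mul_of_nonneg_left ?_ hA0)
    calc ∑ d ∈ SmAM.J0 D, ∫ z, a d * (ζ z * ‖G d z‖ ^ 4) ≤ ∑ d ∈ SmAM.J0 D, a d * B := by
          refine Finset.sum_le_sum fun d hd => ?_
          rw [integral_const_mul]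
          refine mul_le_mul_of_nonneg_left (hU0 d ?_) (ha.nonneg d)
          rw [Finset.mem_Icc] at hd
          rw [abs_le]
          push_cast
          omega
      _ = B := by rw [← Finset.sum_mul, ha.sum, one_mul]
  -- third integral
  have i3 : ∫ z, ζ₁ z ^ 2 * ‖fderiv ℝ (Sa a D G) z‖ ^ 2 ≤ A * ((4 * (β * t * ((D : ℝ) + 1))) ^ 2 * B) := by
    set c : ℝ := (β * (2 * t)) ^ 2 * (2 * ((D : ℝ) + 1)) with hcdef
    have hc0 : 0 ≤ c := by positivity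
    have hcp : ∀ d : ℤ, Continuous fun z => ‖Sq.pp G d z‖ ^ 2 := fun d =>
      (Sq.RelM.contDiff_pp hG.smooth d).continuous.norm.pow 2
    have hint : ∀ d ∈ SmAM.J1 D, Integrable (fun z => ζ z * ‖Sq.pp G d z‖ ^ 2) := fun d _ =>
      Sq.RelM.integ hζ (hcp d)
    have h1 : ∫ z, ζ₁ z ^ 2 * ‖fderiv ℝ (Sa a D G) z‖ ^ 2 ≤
        ∫ z, (A * c) * ∑ d ∈ SmAM.J1 D, (ζ z * ‖Sq.pp G d z‖ ^ 2) := by
      refine integral_mono_of_nonneg (Eventually.of_forall fun z => by positivity)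
        ((integrable_finsetSum _ hint).const_mul (A * c)) (Eventually.of_forall fun z => ?_)
      by_cases hz : z ∈ V
      · calc ζ₁ z ^ 2 * ‖fderiv ℝ (Sa a D G) z‖ ^ 2 ≤
              (A * (ζ z * z.im ^ 2)) * ‖fderiv ℝ (Sa a D G) z‖ ^ 2 :=
              mul_le_mul_of_nonneg_right (a2 z) (by positivity)
          _ = (A * ζ z) * (z.im ^ 2 * ‖fderiv ℝ (Sa a D G) z‖ ^ 2) := by ring
          _ ≤ (A * ζ z) * (c * ∑ d ∈ SmAM.J1 D, ‖Sq.pp G d z‖ ^ 2) :=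
              mul_le_mul_of_nonneg_left (SmAM.dSa_le ha ht hG hD hz) (mul_nonneg hA0 (h01 z).1)
          _ = (A * c) * ∑ d ∈ SmAM.J1 D, (ζ z * ‖Sq.pp G d z‖ ^ 2) := by
              rw [← Finset.mul_sum]
              ring
      · have h2 : ζ₁ z = 0 := hζ₁.eq_zero hz
        dsimp only
        rw [h2]
        have h3 : 0 ≤ (A * c) * ∑ d ∈ SmAM.J1 D, (ζ z * ‖Sq.pp G d z‖ ^ 2) :=
          mul_nonneg (mul_nonneg hA0 hc0) (Finset.sum_nonneg fun d _ =>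
            mul_nonneg (h01 z).1 (by positivity))
        simpa using h3
    rw [integral_const_mul, integral_finsetSum _ hint] at h1
    have h4 : ∑ d ∈ SmAM.J1 D, ∫ z, ζ z * ‖Sq.pp G d z‖ ^ 2 ≤ 2 * ((D : ℝ) + 1) * B := by
      have h5 : ∀ d ∈ SmAM.J1 D, ∫ z, ζ z * ‖Sq.pp G d z‖ ^ 2 ≤ B := by
        intro d hd
        rw [Finset.mem_Icc] at hd
        have hd1 : |d| ≤ ((D + 1 : ℕ) : ℤ) := by
          rw [abs_le]; push_cast; omega
        have hd2 : |d + 1| ≤ ((D + 1 : ℕ) : ℤ) := by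
          rw [abs_le]; push_cast; omega
        have h6 := Sq.RelM.quart hζP hc hU (i := d + 1) (j := d) (k := d + 1) (l := d) hd2 hd1 hd2 hd1
        refine (le_of_eq ?_).trans h6
        refine integral_congr_ae (Eventually.of_forall fun z => ?_)
        dsimp only
        unfold Sq.pp
        rw [norm_mul, RCLike.norm_conj]
        ring
      refine (Finset.sum_le_sum h5).trans (le_of_eq ?_)
      rw [Finset.sum_const, nsmul_eq_mul, SmAM.card_J1]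
    refine h1.trans ?_
    calc (A * c) * ∑ d ∈ SmAM.J1 D, ∫ z, ζ z * ‖Sq.pp G d z‖ ^ 2 ≤
          (A * c) * (2 * ((D : ℝ) + 1) * B) :=
          mul_le_mul_of_nonneg_left h4 (mul_nonneg hA0 hc0)
      _ = A * ((4 * (β * t * ((D : ℝ) + 1))) ^ 2 * B) := by
          rw [hcdef]
          ring
  -- the weighted versions
  have q1 : Integrable (fun z => ζ₁ z ^ 2 * ‖fderiv ℝ (Sa a D G) z‖ ^ 2) :=
    SmAM.integ2 hζ₁ ((cS.continuous_fderiv (by simp)).norm.pow 2)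
  have q2 : Integrable (fun z => ζ₁ z ^ 2 * Sa a D G z ^ 2) := SmAM.integ2 hζ₁ (cS.continuous.pow 2)
  have j2 : ∫ z, ζ₁ z ^ 2 * (w z * Sa a D G z) ^ 2 ≤ A * B := by
    refine le_trans ?_ i2
    refine integral_mono_of_nonneg (Eventually.of_forall fun z => by positivity) q2
      (Eventually.of_forall fun z => ?_)
    dsimp only
    refine mul_le_mul_of_nonneg_left ?_ (sq_nonneg _)
    rw [mul_pow]
    exact mul_le_of_le_one_left (sq_nonneg _) (pow_le_one₀ (hw.nonneg z) (hw.le_one z))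
  have j3 : ∫ z, ζ₁ z ^ 2 * ‖fderiv ℝ (fun x => w x * Sa a D G x) z‖ ^ 2 ≤
      (8 * (t * (β * ((D : ℝ) + 1) + e))) ^ 2 * (A * B) := by
    have h1 : ∫ z, ζ₁ z ^ 2 * ‖fderiv ℝ (fun x => w x * Sa a D G x) z‖ ^ 2 ≤
        ∫ z, (2 * (ζ₁ z ^ 2 * ‖fderiv ℝ (Sa a D G) z‖ ^ 2) +
          2 * (e * t) ^ 2 * (ζ₁ z ^ 2 * Sa a D G z ^ 2)) := by
      refine integral_mono_of_nonneg (Eventually.of_forall fun z => by positivity)
        ((q1.const_mul 2).add (q2.const_mul _)) (Eventually.of_forall fun z => ?_)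
      have h2 := mul_le_mul_of_nonneg_left (SmAM.dw_le hw cS z)
        (sq_nonneg (ζ₁ z))
      refine h2.trans (le_of_eq ?_)
      ring
    rw [integral_add (q1.const_mul 2) (q2.const_mul _), integral_const_mul, integral_const_mul] at h1
    have h2 : (0 : ℝ) ≤ β * t * ((D : ℝ) + 1) := by positivity
    have h3 : (0 : ℝ) ≤ e * t := mul_nonneg he0 ht0.le
    have h4 : 2 * (A * ((4 * (β * t * ((D : ℝ) + 1))) ^ 2 * B)) + 2 * (e * t) ^ 2 * (A * B) ≤
        (8 * (t * (β * ((D : ℝ) + 1) + e))) ^ 2 * (A * B) := by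
      have h5 : 0 ≤ A * B := mul_nonneg hA0 hB
      have h6 : 2 * (4 * (β * t * ((D : ℝ) + 1))) ^ 2 + 2 * (e * t) ^ 2 ≤
          (8 * (t * (β * ((D : ℝ) + 1) + e))) ^ 2 := by
        have h7 : t * (β * ((D : ℝ) + 1) + e) = β * t * ((D : ℝ) + 1) + e * t := by ring
        rw [h7]
        nlinarith [mul_nonneg h2 h3, sq_nonneg (β * t * ((D : ℝ) + 1)), sq_nonneg (e * t)]
      calc 2 * (A * ((4 * (β * t * ((D : ℝ) + 1))) ^ 2 * B)) + 2 * (e * t) ^ 2 * (A * B) =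
            (2 * (4 * (β * t * ((D : ℝ) + 1))) ^ 2 + 2 * (e * t) ^ 2) * (A * B) := by ring
        _ ≤ _ := mul_le_mul_of_nonneg_right h6 h5
    have h8 : 2 * ∫ z, ζ₁ z ^ 2 * ‖fderiv ℝ (Sa a D G) z‖ ^ 2 ≤
        2 * (A * ((4 * (β * t * ((D : ℝ) + 1))) ^ 2 * B)) := by linarith
    have h9 : 2 * (e * t) ^ 2 * ∫ z, ζ₁ z ^ 2 * Sa a D G z ^ 2 ≤ 2 * (e * t) ^ 2 * (A * B) :=
      mul_le_mul_of_nonneg_left i2 (by positivity)
    linarith
  -- the square roots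
  have hX0 : (0 : ℝ) ≤ t * (β * ((D : ℝ) + 1) + e) := by positivity
  have s1 : √(∫ z, ζ₁ z ^ 2 * (‖G 0 z‖ ^ 2) ^ 2) ≤ √(A * B) := Real.sqrt_le_sqrt i1
  have s2 : √(∫ z, ζ₁ z ^ 2 * (w z * Sa a D G z) ^ 2) ≤ √(A * B) := Real.sqrt_le_sqrt j2
  have s3 : √(∫ z, ζ₁ z ^ 2 * ‖fderiv ℝ (fun x => w x * Sa a D G x) z‖ ^ 2) ≤
      8 * (t * (β * ((D : ℝ) + 1) + e)) * √(A * B) := by
    refine (Real.sqrt_le_sqrt j3).trans (le_of_eq ?_)
    rw [Real.sqrt_mul (sq_nonneg _), Real.sqrt_sq (by positivity)]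
  have f1 : 1 ≤ t * (β * ((D : ℝ) + 1) + e) := by
    have h1 : (0 : ℝ) ≤ t * (β * ((D : ℝ) + 1)) := by positivity
    nlinarith
  have hAB : √(A * B) * √(A * B) = A * B := Real.mul_self_sqrt (mul_nonneg hA0 hB)
  have hsq0 : 0 ≤ √(A * B) := Real.sqrt_nonneg _
  have e1 : ∫ z, φ z * w z * (Sa a D G z * Ed ρ (fun w => ‖G 0 w‖ ^ 2) z) =
      ∫ z, φ z * ((w z * Sa a D G z) * Ed ρ (fun w => ‖G 0 w‖ ^ 2) z) :=
    integral_congr_ae (Eventually.of_forall fun z => by dsimp only; ring)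
  have e2 : ∫ z, φ z * w z * (Sa a D G z * ‖G 0 z‖ ^ 2) =
      ∫ z, φ z * ((w z * Sa a D G z) * ‖G 0 z‖ ^ 2) :=
    integral_congr_ae (Eventually.of_forall fun z => by dsimp only; ring)
  rw [e1, e2]
  refine hEE.trans ?_
  calc C₁ * ρ * √(∫ z, ζ₁ z ^ 2 * (‖G 0 z‖ ^ 2) ^ 2) *
        (√(∫ z, ζ₁ z ^ 2 * ‖fderiv ℝ (fun x => w x * Sa a D G x) z‖ ^ 2) +
          √(∫ z, ζ₁ z ^ 2 * (w z * Sa a D G z) ^ 2)) ≤
        C₁ * ρ * √(A * B) * (8 * (t * (β * ((D : ℝ) + 1) + e)) * √(A * B) +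
          (t * (β * ((D : ℝ) + 1) + e)) * √(A * B)) := by
        refine mul_le_mul ?_ (add_le_add ?_ ?_) (by positivity) (by positivity)
        · exact mul_le_mul_of_nonneg_left s1 (by positivity)
        · exact s3
        · exact s2.trans (by nlinarith)
    _ = C₁ * (9 * A) * (ρ * t * (β * ((D : ℝ) + 1) + e)) * B := by
        have : C₁ * ρ * √(A * B) * (8 * (t * (β * ((D : ℝ) + 1) + e)) * √(A * B) +
          (t * (β * ((D : ℝ) + 1) + e)) * √(A * B)) = 9 * (C₁ * ρ * (t * (β * ((D : ℝ) + 1) + e))) *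
            (√(A * B) * √(A * B)) := by ring
        rw [this, hAB]
        ring

end Pool.Agent.A54.Vd
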