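import Pool.Agent.Lib.MP_a54f13_nt.Ev.Spec

/-!
# Package `Vd` (value distribution of Hecke–Maass forms), part S: Stein's identity and the limit laws

Architects: helper54 (parts U, A: uniform integrability of `f⁴`, absolute continuity), helper91 (part S, final form). GOAL: for every sequence of real Hecke–Maass cusp forms `f_i`, `t_i → ∞`, every `ψ ≥ 0` in `C_c^∞(X)`,
every weak limit `ν` of the laws of `f_i` under `ψ dμ` satisfies `∫ x^n dν = C_n ∫ ψ`, `n ≤ 4`, and is equivalent to Lebesgue measure on an open interval `J ∋ 0` (on its interior hull), with `- a b ≥ 3` if `J ⊆ [a, b]`.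

IDEA of part S. With `N = |∇f|² / (1/4 + t²)`: `∫ ψ f G(f) = ∫ ψ G'(f) N + o(1)` (divergence of `G(f) ∇f`) and `∫ ψ N² ≤ C`, so `(∫ x G(x) dν)² ≤ C ∫ G'(x)² dν`. With `M(s) = ∫_{x > s} x dν > 0` inside the hull of the support
and `∫ x G(x) dν = ∫ G'(s) M(s) ds`, a compact set of positive Lebesgue measure inside the hull has positive `ν`-measure.

CONVENTIONS. Module `X` is the file `Pool/Agent/Lib/MP_a54f13_nt/Vd/<Name>.lean` importing `Pool.Agent.Lib.MP_a54f13_nt.Vd.SpecS` (and models), private names in `namespace Pool.Agent.A54.Vd.<Name>M`,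
final theorem `Pool.Agent.A54.Vd.stmt<Name>`; the used statements are hypotheses of the final theorem (in the order of the text). No straight double quotes, no open holes, standard axioms only; at most 60 seconds.
-/

set_option autoImplicit false

namespace Pool.Agent.A54.Vd

open MeasureTheory Filter Topology Set
open scoped ContDiff ComplexConjugate UpperHalfPlane MatrixGroups ENNReal
open Pool.Agent.A54.Half (H0 qq ff hh)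

noncomputable section

/-- the normalised square of the length of the gradient: `y² |∇f|² / (1/4 + t²)` -/
def gN (f : ℍ → ℝ) (t : ℝ) (z : ℍ) : ℝ :=
  z.im ^ 2 * ‖dz (fun w => (ext f w : ℂ)) (z : ℂ)‖ ^ 2 / (1 / 4 + t ^ 2)

/-- bounded fourth moments on compact sets -/
def B4 (f : ℕ → ℍ → ℝ) : Prop := ∀ K : Set ℍ, IsCompact K → ∃ C : ℝ, ∀ i, ∫ z in K, f i z ^ 4 ≤ C

/-- **Stn** local Stein identity (uses `StmtL4`; model: Odd.lean, `Odd.bdd`). Proof. `0 = ∫ h ∂̄ (φ₁ G(f) g_1)`, `φ₁ = φ / q` (as a complex function), `h ∂̄ (G(f)) = G'(f) conj g_1`, `h ∂̄ g_1 = - q f` on `V`: real part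
`∫ φ G'(f) |g_1|²/q - ∫ φ f G(f) = - ∫ h Re((∂̄ φ₁) G(f) g_1)`; `|G(f)| ≤ |G(0)| + B |f|` (mean value theorem), so `|G(f) g_1| ≤ C (1 + sm⁴)` with `sm = sm (h i) (f i) 1`, whose integral against `‖∂̄ φ₁‖` is bounded. -/
def StmtStn : Prop := ∀ (V : Set ℂ) (q : ℂ → ℝ) (h : ℕ → ℝ) (f : ℕ → ℂ → ℝ), Seq V q h f →
  L4Bdd V f → ∀ (G : ℝ → ℝ) (B : ℝ), ContDiff ℝ ∞ G → (∀ x, |deriv G x| ≤ B) → ∀ φ : ℂ → ℝ, TestR V φ →
    Tendsto (fun i => (∫ z, φ z * (f i z * G (f i z))) -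
      ∫ z, φ z * (deriv G (f i z) * nn q (h i) (f i) 1 z)) atTop (𝓝 0)

/-- **Nb** local bound for `∫ N²` (uses `StmtL4`; model: `Odd.bdd`). Proof. `nn q h f 1 ^ 2 = |g_1|⁴ / q²`, `q` is bounded below on the support, `|g_1| ≤ sm`. -/
def StmtNb : Prop := ∀ (V : Set ℂ) (q : ℂ → ℝ) (h : ℕ → ℝ) (f : ℕ → ℂ → ℝ), Seq V q h f →
  L4Bdd V f → ∀ φ : ℂ → ℝ, TestR V φ → ∃ C : ℝ, ∀ i, ∫ z, |φ z| * nn q (h i) (f i) 1 z ^ 2 ≤ C

/-- **StH** the half-plane (uses `StmtInt`, `StmtLap`, `StmtStn`, `StmtNb`; model: Half.lean, HS/R/Low.lean: `Half.setup`, `Half2.seq`, `Half.l4`, `Half.exists_N`, `Half.testR_weight`, `StmtInt`). Proof. `φ ∈ TestR H0`, `χ, V` from `setup`; on `V`: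
`ff χ f = ext f`, `qq χ z = 1/y²`, `gg (hh t) (ff χ f) 1 z = (hh t) ∂ (ext f)`, so `nn (qq χ) (hh t) (ff χ f) 1 z = gN f t z`. `∫_ℍ φ F = ∫_ℂ φ y⁻² F`. First part: for the finitely many `i` with `t i < 1` the integral is a real number anyway; for the rest `Nb`
(shift by `N`: `Half.exists_N`). Continuity of `gN` on `ℍ`: `ext f` is smooth on `H0`. -/
def StmtStH : Prop := ∀ (f : ℕ → ℍ → ℝ) (t : ℕ → ℝ), (∀ i, IsHeckeMaass (f i) (t i)) → Tendsto t atTop atTop → B4 f →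
  (∀ i, Continuous (gN (f i) (t i))) ∧
  (∀ φ : ℂ → ℝ, TestR H0 φ → ∃ C : ℝ, ∀ i, ∫ z : ℍ, |φ z| * gN (f i) (t i) z ^ 2 ≤ C) ∧
  ∀ (G : ℝ → ℝ) (B : ℝ), ContDiff ℝ ∞ G → (∀ x, |deriv G x| ≤ B) → ∀ φ : ℂ → ℝ, TestR H0 φ →
    Tendsto (fun i => (∫ z : ℍ, φ z * (f i z * G (f i z))) -
      ∫ z : ℍ, φ z * (deriv G (f i z) * gN (f i) (t i) z)) atTop (𝓝 0)

/-- **StX** the modular surface (uses `StmtStH`; model: `X3M.ratio` in Dyn/X3.lean, `X.finalCube` in X.lean). Proof. `ψ ≤ B₀`, `ψ = 0` on `fd` above `Y`; the compact set `truncatedFundamentalDomain Y` and a cutoff function `ζ ∈ TestR H0`, `ζ = 1` on it: `∫_fdo ψ gN² ≤ B₀ ∫_ℍ ζ gN²`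
(`ModularGroup.fdo ⊆ fd`), and `∫_fdo ψ f⁴` is bounded (`B4`). `K ⊆ O` compact with `∫_{fdo} ψ 1_{Kᶜ} ≤ η` (`exists_compact`), `χ` a cutoff function with support in `O`, `χ = 1` on `K`: `StH` for `φ = χ · ext ψ` (`testR_cut`, `integral_cut`). Errors:
`∫_fdo (1 - χ) ψ |f G(f)| ≤ C ∫ (1 - χ) ψ (1 + f²)`, `f² ≤ θ f⁴ + 1/(4θ)`, and `∫ (1 - χ) ψ |G'(f)| gN ≤ B ∫ (1 - χ) ψ gN`, `gN ≤ θ gN² + 1/(4θ)`. -/
def StmtStX : Prop := ∀ (f : ℕ → ℍ → ℝ) (t : ℕ → ℝ), (∀ i, IsHeckeMaass (f i) (t i)) → Tendsto t atTop atTop → B4 f →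
  ∀ ψ : ℍ → ℝ, TestX ψ → (∀ z, 0 ≤ ψ z) →
    (∃ C : ℝ, ∀ i, ∫ z in ModularGroup.fdo, ψ z * gN (f i) (t i) z ^ 2 ≤ C) ∧
    ∀ (G : ℝ → ℝ) (B : ℝ), ContDiff ℝ ∞ G → (∀ x, |deriv G x| ≤ B) →
      Tendsto (fun i => (∫ z in ModularGroup.fdo, ψ z * (f i z * G (f i z))) -
        ∫ z in ModularGroup.fdo, ψ z * (deriv G (f i z) * gN (f i) (t i) z)) atTop (𝓝 0)

/-! ### Limit laws -/

/-- the laws of the functions `f i` under the measure `ψ dμ` on `X` converge weakly to `ν` -/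
structure Law (f : ℕ → ℍ → ℝ) (ψ : ℍ → ℝ) (ν : Measure ℝ) : Prop where
  fin : IsFiniteMeasure ν
  lim : ∀ g : ℝ → ℝ, Continuous g → (∃ C : ℝ, ∀ x, |g x| ≤ C) →
    Tendsto (fun i => ∫ z in ModularGroup.fdo, ψ z * g (f i z)) atTop (𝓝 (∫ x, g x ∂ν))

/-- uniform integrability of `f⁴` (output of part U) -/
def UI (f : ℕ → ℍ → ℝ) (ψ : ℍ → ℝ) : Prop := ∀ ε : ℝ, 0 < ε → ∃ H : ℝ, ∀ᶠ i in atTop,
  ∫ z in ModularGroup.fdo, ψ z * {w : ℍ | H < f i w ^ 2}.indicator (fun w => f i w ^ 4) z ≤ ε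

/-- absolute continuity (output of part A) -/
def AC (f : ℕ → ℍ → ℝ) (ψ : ℍ → ℝ) : Prop := ∀ ε : ℝ, 0 < ε → ∃ δ : ℝ, 0 < δ ∧ ∀ E : Set ℝ, IsOpen E →
  volume E ≤ ENNReal.ofReal δ → ∀ᶠ i in atTop,
    ∫ z in ModularGroup.fdo, ψ z * {w : ℍ | f i w ∈ E}.indicator (fun _ => (1 : ℝ)) z ≤ ε

/-- **Mom** the moments of the limit law (no hypotheses). Proof. Let `c ≥ 0` be a bound `H` for `ε` from `UI`, `g_R(x) = x^n` truncated: `g_R(x) = x^n θ(x/R)` with a continuous `θ`, `0 ≤ θ ≤ 1`, `θ = 1` on `[-1, 1]`, `θ = 0` outside `[-2, 2]`. For `R` large (`R² ≥ max H 1`)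
`|∫ ψ f^n - ∫ ψ g_R(f)| ≤ ∫ ψ |f|^n 1_{f² > R²} ≤ ∫ ψ f⁴ 1_{f² > H} ≤ ε` for `n ≤ 4`. `∫ ψ g_R(f_i) → ∫ g_R dν`. `n = 4`: the `∫ x⁴ θ(x/R) dν` are bounded, monotone convergence: `x⁴` is `ν`-integrable and dominated convergence gives
`∫ g_R dν → ∫ x^n dν`, `n ≤ 4`. All functions of `z` are continuous on `ℍ` and `ψ` has compact support modulo the group: integrable on `fdo` (`X.integrableOn_fdo`). -/
def StmtMom : Prop := ∀ (f : ℕ → ℍ → ℝ) (t : ℕ → ℝ), (∀ i, IsHeckeMaass (f i) (t i)) → ∀ ψ : ℍ → ℝ, TestX ψ →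
  (∀ z, 0 ≤ ψ z) → ∀ ν : Measure ℝ, Law f ψ ν → UI f ψ →
    Integrable (fun x : ℝ => x ^ 4) ν ∧ ∀ (n : ℕ) (c : ℝ), n ≤ 4 →
      Tendsto (fun i => ∫ z in ModularGroup.fdo, ψ z * f i z ^ n) atTop (𝓝 c) → ∫ x, x ^ n ∂ν = c

/-- **Lac** `ν` is absolutely continuous (no hypotheses). Proof. For `E` open with `volume E ≤ δ`: `ν E = sup ∫ g dν` over continuous `0 ≤ g ≤ 1_E` with compact support, and `∫ g dν = lim ∫ ψ g(f_i) ≤ ε`. So `ν E ≤ ε`; a Lebesgue null set has open neighbourhoods of small measure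
(`Set.exists_isOpen_lt_of_lt`). -/
def StmtLac : Prop := ∀ (f : ℕ → ℍ → ℝ) (t : ℕ → ℝ), (∀ i, IsHeckeMaass (f i) (t i)) → ∀ ψ : ℍ → ℝ, TestX ψ →
  (∀ z, 0 ≤ ψ z) → ∀ ν : Measure ℝ, Law f ψ ν → AC f ψ → ν ≪ volume

/-- Stein's inequality for a measure -/
def Stein (ν : Measure ℝ) (C : ℝ) : Prop := ∀ (G : ℝ → ℝ) (B : ℝ), ContDiff ℝ ∞ G → (∀ x, |deriv G x| ≤ B) →
  (∫ x, x * G x ∂ν) ^ 2 ≤ C * ∫ x, deriv G x ^ 2 ∂ν

/-- **Lst** Stein's inequality for the limit law (uses `StmtStX`). Proof. `|x G(x)| ≤ A (1 + x²)` and `UI` (as in `Mom`, truncation) give `∫ ψ f G(f) → ∫ x G(x) dν`; `∫ ψ G'(f)² → ∫ G'² dν` (`Law.lim`, bounded continuous); `StX`: `∫ ψ f G(f) = ∫ ψ G'(f) gN + o(1)`, and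
Cauchy–Schwarz: `(∫ ψ G'(f) gN)² ≤ (∫ ψ G'(f)²) C`. -/
def StmtLst : Prop := ∀ (f : ℕ → ℍ → ℝ) (t : ℕ → ℝ), (∀ i, IsHeckeMaass (f i) (t i)) → Tendsto t atTop atTop → B4 f →
  ∀ ψ : ℍ → ℝ, TestX ψ → (∀ z, 0 ≤ ψ z) → ∀ ν : Measure ℝ, Law f ψ ν → UI f ψ → ∃ C : ℝ, 0 ≤ C ∧ Stein ν C

/-- `ν` is equivalent to Lebesgue measure on the open interval `J` (`J` may be unbounded) -/
def EqOn (ν : Measure ℝ) (J : Set ℝ) : Prop := ∀ A : Set ℝ, MeasurableSet A → (ν A = 0 ↔ volume (A ∩ J) = 0)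

/-- **Pos** real analysis (no hypotheses). Proof. `J = {s | 0 < ν (Ioi s) and 0 < ν (Iio s)}` is an open interval (continuity of measures from below: `Ioi s = ⋃ Ioi (s + 1/n)`), and `ν Jᶜ = 0` (`ν ≪ volume` gives no atoms at the two end points). `0 ∈ J`: `∫ x dν = 0`, `∫ x² dν > 0`. So `volume (A ∩ J) = 0`
implies `ν A = 0`. Conversely let `ν A = 0` and `volume (A ∩ J) > 0`: a compact `K ⊆ A ∩ J` with `volume K > 0` (inner regularity), `K ⊆ [a', b'] ⊆ J`, `a' < 0 < b'`. `M(s) = ∫_{x > s} x dν`: for `0 ≤ s ≤ b'` `M(s) ≥ ∫_{x > b'} x dν =: m₁ > 0`, for `a' ≤ s < 0`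
`M(s) = - ∫_{x ≤ s} x dν ≥ - ∫_{x < a'} x dν =: m₂ > 0`. For `η > 0`: `U ⊇ K` open, `U ⊆ (a' - …, b' + …)` bounded inside `J` (replace `[a', b']` by a larger interval in `J`), `ν U ≤ η`; a smooth `g`, `0 ≤ g ≤ 1`, `g = 1` on `K`, support in `U`
(`exists_contMDiff_support_eq…` or `exists_contMDiffMap_one_nhds_of_subset_interior`, see `exists_cutoff` in Calc.lean), `G(x) = ∫_0^x g`. Fubini: `∫ x G(x) dν = ∫ g(s) M(s) ds ≥ min(m₁, m₂) volume K` (write `x G(x) = ∫ g(s) x (1_{0 < s < x} - 1_{x < s < 0}) ds` and `∫ x dν = 0`), while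
`(∫ x G dν)² ≤ C ∫ g² dν ≤ C η`: contradiction for small `η`. -/
def StmtPos : Prop := ∀ (ν : Measure ℝ) (C : ℝ), IsFiniteMeasure ν → Integrable (fun x : ℝ => x ^ 2) ν → ∫ x, x ∂ν = 0 →
  0 < ∫ x, x ^ 2 ∂ν → ν ≪ volume → 0 ≤ C → Stein ν C → ∃ J : Set ℝ, IsOpen J ∧ J.OrdConnected ∧ 0 ∈ J ∧ EqOn ν J

/-- **Hul** the size of the interval (no hypotheses). Proof. `ν (Icc a b)ᶜ = 0` (`EqOn`), so `0 ≤ ∫ (b - x) (x - a) x² dν = - ∫ x⁴ + (a + b) ∫ x³ - a b ∫ x² = (- 3 - a b) c`. -/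
def StmtHul : Prop := ∀ (ν : Measure ℝ) (c : ℝ), IsFiniteMeasure ν → Integrable (fun x : ℝ => x ^ 4) ν → 0 < c →
  ∫ x, x ^ 2 ∂ν = c → ∫ x, x ^ 3 ∂ν = 0 → ∫ x, x ^ 4 ∂ν = 3 * c → ∀ J : Set ℝ, EqOn ν J →
    ∀ a b : ℝ, J ⊆ Icc a b → 3 ≤ - (a * b)

end

end Pool.Agent.A54.Vd
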