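import Pool.Agent.Lib.MP_a54f13_nt.Vd.SpecS
import Pool.Agent.Lib.MP_a54f13_nt.Sq.Spec
import Pool.Agent.Lib.MP_a54f13_nt.Pl.Spec

/-!
# Package `Vd`, parts U and A: uniform integrability of `f⁴` and absolute continuity

Architect: helper54. OUTPUT (for every sequence of Hecke–Maass forms, `t → ∞`, for which the second and fourth moments converge on the half-plane, `Pl.CondH`, now a theorem): `UI f ψ` and `AC f ψ` for every `ψ ≥ 0` in `C_c^∞(X)`.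

SETTING. `G_{i,n}` (`n ∈ ℤ`) are the raised and lowered forms on an open set `V ⊆ H0` (package `Sq`: `Sq.Tow`), `G_{i,0} = f_i` real. The structure `Fam` collects what is known about them: fourth moments bounded UNIFORMLY in `n`
(for `i ≥ i(n)`), `∫ ζ |G_n|² → ∫ ζ`, and mass equidistribution in mean square at the radius `R / t` up to `ε` (`R = R(ε)`).

IDEA OF U. For weights `w_i` with `|∇ w_i| ≤ e t_i` the relations of `Sq` hold for `φ w_i` with the error `C B e`; so `∫ φ w_i f⁴ ≤ 3 ∫ φ w_i S f² + C N² B e`, and `S` (Fejér average of the `|G_d|²`, `|d| ≤ 2N`) is almost constant at the scale `N / t`, hence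
`∫ φ w_i f⁴` is small as soon as `∫ φ w_i` is small (`KyW`), for the fixed slope `e = e(ε)`. Weights equal to one on `{f_i² > H}` with `∫ φ w_i ≤ C(e) / H` exist, since `f²(z) > H` forces the mass of `f² + |G_1|² + |G_2|²` in the ball of radius `1/t` to be
`≥ c H / t²` (`Mv`, `Wtt`).
IDEA OF A. `∫ φ 1_E(f) |G_1|² ≤ C |E|` (`Dlt`). Small gradients: `∫ φ 1(|G_n|² < κ) |G_{n+1}|² → 0` as `κ → 0` (`Ada`, integration by parts and pigeonhole), so on `{|G_1|² < κ}` all `G_d`, `1 ≤ d ≤ 2N`, are small (`Chn`), and `S` is small, but `∫ φ (S - 1)² ≤ ε` (`Sq1`).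

CONVENTIONS. Module `X` is the file `Pool/Agent/Lib/MP_a54f13_nt/Vd/<Name>.lean` importing `Pool.Agent.Lib.MP_a54f13_nt.Vd.SpecU` and the models named in its text, private names in `namespace Pool.Agent.A54.Vd.<Name>M`, final theorem
`Pool.Agent.A54.Vd.stmt<Name>`; the used statements are hypotheses of the final theorem (in the order of the text). No straight double quotes, no open holes, standard axioms only; at most 60 seconds.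
Library: `Sq/Rel.lean` (`RelM.*`: `uu`, `pp`, `main` for EVERY test function, `er`, `quart`, `bound`, `la_ge`, `la_close`, `dz_uu`, `dzb_pp`), `Sq/SmS.lean` (`SmSM.norm_fderiv_real`, `abel`, `dz_SS`, `dS_le`, `SS_sq_le`), `Sq/CosW.lean` (`CosWM.cosH`, `norm_neg_index`),
`Sq/Pos.lean` (`PosM.pos`, `sum_K`, `W_zero`), `Calc.lean` (rules for `dz`, `dzb`, `exists_cutoff`, `integral_mul_dz`, `integral_mul_dzb`), `Cacc.lean` (`dom`). `dz = ∂_x - i ∂_y`, `dzb = ∂_x + i ∂_y`.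
-/

set_option autoImplicit false

namespace Pool.Agent.A54.Vd

open MeasureTheory Filter Topology Set
open scoped ContDiff ComplexConjugate UpperHalfPlane MatrixGroups ENNReal
open Pool.Agent.A54.Half (H0 qq ff hh)
open Pool.Agent.A54.Sq (TestP la Tow pp Wi Pj Up KK SS CosH)
open Pool.Agent.A54.Pl (Ed mean)

noncomputable section

/-! ### Definitions -/

/-- a weight: smooth, values in `[0, 1]`, gradient at most `s` -/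
structure Wgt (w : ℂ → ℝ) (s : ℝ) : Prop where
  smooth : ContDiff ℝ ∞ w
  nonneg : ∀ z, 0 ≤ w z
  le_one : ∀ z, w z ≤ 1
  grad : ∀ z, ‖fderiv ℝ w z‖ ≤ s

/-- `S_a = ∑_{|d| ≤ D} a(d) |G_d|²` (`Sa (KK N) (2 * N) G = SS G N`) -/
def Sa (a : ℤ → ℝ) (D : ℕ) (G : ℤ → ℂ → ℂ) (z : ℂ) : ℝ :=
  ∑ d ∈ Finset.Icc (-(D : ℤ)) (D : ℤ), a d * ‖G d z‖ ^ 2

/-- a nonnegative kernel with sum one, support in `[-D, D]`, differences at most `β` -/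
structure Ker (a : ℤ → ℝ) (D : ℕ) (β : ℝ) : Prop where
  nonneg : ∀ d, 0 ≤ a d
  sum : ∑ d ∈ Finset.Icc (-(D : ℤ)) (D : ℤ), a d = 1
  dif : ∀ d, |a d - a (d + 1)| ≤ β
  zero : ∀ d : ℤ, (D : ℤ) < |d| → a d = 0

/-- the convolution square of the Fejér kernel -/
def K2 (N : ℕ) (m : ℤ) : ℝ :=
  ∑ d ∈ Finset.Icc (-((2 * N : ℕ) : ℤ)) ((2 * N : ℕ) : ℤ), KK N d * KK N (m - d)

/-- the data of the local theory: a sequence of towers on `V` -/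
structure Fam (V : Set ℂ) (t : ℕ → ℝ) (G : ℕ → ℤ → ℂ → ℂ) : Prop where
  isOpen : IsOpen V
  sub : V ⊆ H0
  lim : Tendsto t atTop atTop
  tow : ∀ i, Tow V (t i) (G i)
  four : ∀ ζ : ℂ → ℝ, TestP V ζ → ∃ C : ℝ, ∀ n : ℤ, ∀ᶠ i in atTop, ∫ z, ζ z * ‖G i n z‖ ^ 4 ≤ C
  mass : ∀ ζ : ℂ → ℝ, TestP V ζ → ∀ n : ℤ, Tendsto (fun i => ∫ z, ζ z * ‖G i n z‖ ^ 2) atTop (𝓝 (∫ z, ζ z))
  var : ∀ ζ : ℂ → ℝ, TestP V ζ → ∀ ε : ℝ, 0 < ε → ∃ (R : ℝ) (ρ : ℕ → ℝ), 0 < R ∧ ∀ᶠ i in atTop,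
    0 < ρ i ∧ ρ i * t i ≤ R ∧ ∫ z, ζ z * (Ed (ρ i) (fun w => ‖G i 0 w‖ ^ 2) z - 1) ^ 2 ≤ ε

lemma sa_ss (G : ℤ → ℂ → ℂ) (N : ℕ) (z : ℂ) : Sa (KK N) (2 * N) G z = SS G N z := by
  unfold Sa SS
  push_cast
  rfl

lemma Fam.up {V : Set ℂ} {t : ℕ → ℝ} {G : ℕ → ℤ → ℂ → ℂ} (h : Fam V t G) {ζ : ℂ → ℝ} (hζ : TestP V ζ) :
    ∃ B : ℝ, 1 ≤ B ∧ ∀ N : ℕ, ∀ᶠ i in atTop, Up ζ (G i) N B := by
  obtain ⟨C, hC⟩ := h.four ζ hζ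
  refine ⟨max C 1, le_max_right _ _, fun N => ?_⟩
  have h1 : ∀ᶠ i in atTop, ∀ n ∈ Finset.Icc (-(N : ℤ)) (N : ℤ), ∫ z, ζ z * ‖G i n z‖ ^ 4 ≤ C :=
    (Finset.eventually_all _).2 fun n _ => hC n
  filter_upwards [h1] with i hi n hn
  exact (hi n (Finset.mem_Icc.2 (abs_le.1 hn))).trans (le_max_left _ _)

/-- a common majorant of two test functions -/
lemma dom {V : Set ℂ} (hV : IsOpen V) {a b : ℂ → ℝ} (ha : TestP V a) (hb : TestP V b) :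
    ∃ (ζ : ℂ → ℝ) (M : ℝ), TestP V ζ ∧ 1 ≤ M ∧ ∀ z, a z ≤ M * ζ z ∧ b z ≤ M * ζ z := by
  obtain ⟨ζ, hζ, h01, hone⟩ := exists_cutoff (ha.test.cpt.union hb.test.cpt) hV
    (union_subset ha.test.sub hb.test.sub)
  have hone' : ∀ z ∈ tsupport a ∪ tsupport b, ζ z = 1 := fun z hz => subset_of_mem_nhdsSet hone hz
  obtain ⟨M₁, hM₁⟩ := ha.test.cpt.exists_bound_of_continuous ha.test.smooth.continuous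
  obtain ⟨M₂, hM₂⟩ := hb.test.cpt.exists_bound_of_continuous hb.test.smooth.continuous
  have h0 : 0 ≤ max (max M₁ M₂) 1 := zero_le_one.trans (le_max_right _ _)
  refine ⟨ζ, max (max M₁ M₂) 1, ⟨hζ, fun z => (h01 z).1⟩, le_max_right _ _, fun z => ⟨?_, ?_⟩⟩
  · by_cases hz : z ∈ tsupport a
    · rw [hone' z (Or.inl hz), mul_one]
      exact ((le_abs_self _).trans (hM₁ z)).trans ((le_max_left _ _).trans (le_max_left _ _))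
    · rw [image_eq_zero_of_notMem_tsupport hz]
      exact mul_nonneg h0 (h01 z).1
  · by_cases hz : z ∈ tsupport b
    · rw [hone' z (Or.inr hz), mul_one]
      exact ((le_abs_self _).trans (hM₂ z)).trans ((le_max_right _ _).trans (le_max_left _ _))
    · rw [image_eq_zero_of_notMem_tsupport hz]
      exact mul_nonneg h0 (h01 z).1

/-! ### Part U: weighted relations -/

/-- **RlE** the local relations with a weight (no hypotheses; model: `stmtRel` in Sq/Rel.lean). Proof. `RelM.main` for the test function `φ w` (`TestR V`): `er (φ w) = w er φ + i y φ dz w`, so `‖er (φ w) z‖ ≤ (C₀ + C₂ e t) ζ z ≤ (C₀ + C₂) e t ζ z` (`1 ≤ e t`;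
`‖dz w‖ ≤ 2 ‖fderiv w‖`, see `Cacc.norm_dz_ofReal_le`), `ζ` a cutoff function equal to one on `tsupport φ`. The other terms: `|t - λ_k| ≤ 1/2` (`la_close`) times `|P|, |W| ≤ C B` (`0 ≤ w ≤ 1`), and `1/2 ≤ e t`. Divide by `t`. -/
def StmtRlE : Prop := ∀ V : Set ℂ, IsOpen V → V ⊆ H0 → ∀ φ : ℂ → ℝ, TestP V φ →
  ∃ (ζ : ℂ → ℝ) (C : ℝ), TestP V ζ ∧ 0 ≤ C ∧ ∀ (t : ℝ) (G : ℤ → ℂ → ℂ), 1 ≤ t → Tow V t G →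
    ∀ (w : ℂ → ℝ) (e : ℝ), 1 ≤ e * t → Wgt w (e * t) →
    ∀ (N : ℕ) (B : ℝ), ((N : ℝ) + 2) ^ 2 ≤ t → Up ζ G (N + 1) B →
      ∀ n m : ℤ, |n| ≤ N → |m| ≤ N →
        |Pj (fun z => φ z * w z) G n m - Pj (fun z => φ z * w z) G (n - 1) m +
          Wi (fun z => φ z * w z) G n (m + 1) - Wi (fun z => φ z * w z) G n m| ≤ C * B * e

/-- **CsE** cosine law, odd law and positivity with a weight (uses `StmtRlE`, `Sq.StmtCos`, `Sq.StmtFej`; model: Sq/CosW.lean, Sq/Pos.lean: `CosWM.cosH`, `PosM.pos`, `PosM.sum_K` hold for every test function, apply them to `φ w`). Proof. `Cos` with `e := C B e` (`B ≥ 0`), constants times `16`;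
`Fej` for `2N` as in Pos.lean (third part; `(4N+1)... ≤ 36 (N+1)²`). The first two parts for `N`, the third for `2N`. -/
def StmtCsE : Prop := ∀ V : Set ℂ, IsOpen V → V ⊆ H0 → ∀ φ : ℂ → ℝ, TestP V φ →
  ∃ (ζ : ℂ → ℝ) (C : ℝ), TestP V ζ ∧ 0 ≤ C ∧ ∀ (t : ℝ) (G : ℤ → ℂ → ℂ), 1 ≤ t → Tow V t G →
    ∀ (w : ℂ → ℝ) (e : ℝ), 1 ≤ e * t → Wgt w (e * t) → ∀ (N : ℕ) (B : ℝ),
      (((N : ℝ) + 2) ^ 2 ≤ t → Up ζ G (N + 1) B →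
        (∀ n m : ℤ, |n| + |m| ≤ N → |Wi (fun z => φ z * w z) G n m -
          (Wi (fun z => φ z * w z) G (n + m) 0 + Wi (fun z => φ z * w z) G (n - m) 0) / 2| ≤
            C * (((N : ℝ) + 1) ^ 2 * B * e)) ∧
        ∀ n : ℤ, Odd n → |n| ≤ N → |Wi (fun z => φ z * w z) G n 0 - Wi (fun z => φ z * w z) G 0 0 / 3| ≤
            C * (((N : ℝ) + 1) ^ 2 * B * e)) ∧
      ((2 * (N : ℝ) + 2) ^ 2 ≤ t → Up ζ G (2 * N + 1) B →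
        (1 - ((2 * (N : ℝ) + 1) ^ 2)⁻¹) * (∫ z, φ z * w z * ‖G 0 z‖ ^ 4) ≤
          3 * (∫ z, φ z * w z * (Sa (KK N) (2 * N) G z * ‖G 0 z‖ ^ 2)) + C * (((N : ℝ) + 1) ^ 2 * B * e))

/-- **SmA** a weighted average `w S_a` is almost constant at the scale `1 / (t (β D + e))` (uses `Pl.StmtE3`; model: Sq/SmS.lean, the same with a general kernel `a` and the weight). Proof. On `V`, summation by parts in `i y dz S_a = ∑ a(d) (λ_d p_d - λ_{d-1} p_{d-1}) =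
∑_{-D-1 ≤ d ≤ D} (a(d) - a(d+1)) λ_d p_d`, `λ_d ≤ 3 t` (`D + 1 ≤ t`), so `y² |dz S_a|² ≤ β² 9 t² (2D+2) ∑_d |p_d|²`, `|p_d|² ≤ (|G_{d+1}|⁴ + |G_d|⁴)/2`; `ζ` as in `E3`, `ζ₂ ∈ TestP V` with `ζ², ζ²/y² ≤ ζ₂`: `∫ ζ² ‖D S_a‖² ≤ C (β (D+1) t)² B`
(`SmSM.norm_fderiv_real`). `∫ ζ² S_a² ≤ ∑ a(d) ∫ ζ₂ |G_d|⁴ ≤ B`, so `∫ ζ² ‖D(w S_a)‖² ≤ 2 ∫ ζ² ‖D S_a‖² + 2 (e t)² ∫ ζ² S_a² ≤ C t² (β (D+1) + e)² B`. `E3` with `F = |G_0|²`, `G = w S_a`; `∫ ζ² F² ≤ B`, `1 ≤ e t`. -/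
def StmtSmA : Prop := ∀ V : Set ℂ, IsOpen V → V ⊆ H0 → ∀ φ : ℂ → ℝ, TestP V φ →
  ∃ (ζ : ℂ → ℝ) (C r0 : ℝ), TestP V ζ ∧ 0 ≤ C ∧ 0 < r0 ∧
    ∀ (t : ℝ) (G : ℤ → ℂ → ℂ), 1 ≤ t → Tow V t G → ∀ (w : ℂ → ℝ) (e : ℝ), 1 ≤ e * t → Wgt w (e * t) →
    ∀ (a : ℤ → ℝ) (D : ℕ) (β B ρ : ℝ), Ker a D β → (D : ℝ) + 1 ≤ t → Up ζ G (D + 1) B → 0 < ρ → ρ ≤ r0 →
      |(∫ z, φ z * w z * (Sa a D G z * Ed ρ (fun w => ‖G 0 w‖ ^ 2) z)) -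
        ∫ z, φ z * w z * (Sa a D G z * ‖G 0 z‖ ^ 2)| ≤ C * (ρ * t * (β * ((D : ℝ) + 1) + e)) * B

/-- **K2s** the kernels (pure algebra; uses `Sq.StmtKSum`). Proof. `KSum` gives `Ker (KK N) (2N) (2N+1)⁻²`, `KK N d ≤ 1/(2N+1)` from the definition. `K2`: nonnegative; `K2 N m = 0` if `|m| > 4N` (`|m - d| > 2N`); `∑_m K2 N m = ∑_d KK d ∑_m KK (m - d) = 1`;
`|K2 m - K2 (m+1)| ≤ ∑_d KK d |KK (m-d) - KK (m+1-d)| ≤ (2N+1)⁻²`. Last part: `∑_{d,d'} KK d KK d' w(d+d') = ∑_m K2 m w(m)` (`m = d + d'`, fibres), and `d' ↦ -d'` (`KK` is even) gives the same for `w(d-d')`. -/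
def StmtK2s : Prop := ∀ N : ℕ, Ker (KK N) (2 * N) (((2 * (N : ℝ) + 1) ^ 2)⁻¹) ∧
  Ker (K2 N) (4 * N) (((2 * (N : ℝ) + 1) ^ 2)⁻¹) ∧ (∀ d : ℤ, KK N d ≤ (2 * (N : ℝ) + 1)⁻¹) ∧
  ∀ w : ℤ → ℝ, (∑ d ∈ Finset.Icc (-((2 * N : ℕ) : ℤ)) ((2 * N : ℕ) : ℤ),
      ∑ d' ∈ Finset.Icc (-((2 * N : ℕ) : ℤ)) ((2 * N : ℕ) : ℤ),
        KK N d * KK N d' * ((w (d + d') + w (d - d')) / 2)) =
    ∑ m ∈ Finset.Icc (-((4 * N : ℕ) : ℤ)) ((4 * N : ℕ) : ℤ), K2 N m * w m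

/-- **KyW** no concentration on slowly varying weights (uses `StmtCsE`, `StmtSmA`, `StmtK2s`). Proof. `ζ` dominates (`dom`) the functions of `CsE`, `SmA` and `φ` (constant `M`): `Fam.up` gives `B₀`, and all the fourth moments below are `≤ B = M B₀` for large `i` (each fixed `N`). Let `ε₁ > 0` be small;
`R, ρ` from `var` for `φ, ε₁` (`ρ_i ≤ R / t_i → 0`); then `N ≥ 1` with `C R B/(2N+1) ≤ ε₁`; then `e > 0` with `C R B e ≤ ε₁`, `C (N+1)² B e ≤ ε₁`; `δ = ε₁²/B`. For large `i` (`1 ≤ e t_i`, `(2N+2)² ≤ t_i`, `ρ_i ≤ r0`) and `w` with `∫ φ w ≤ δ`, `S = Sa (KK N) (2N)`: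
`(8/9) ∫ φ w |G_0|⁴ ≤ 3 ∫ φ w S |G_0|² + ε₁` (`CsE`, third part), `∫ φ w S |G_0|² ≤ ∫ φ w S Ed + 2 ε₁` (`SmA`, `β (D+1) = 1/(2N+1)`), `∫ φ w S Ed = ∫ φ w S + ∫ φ w S (Ed - 1) ≤ √(∫ φ w²) √(∫ φ S²) + √(∫ φ w² S²) √(∫ φ (Ed - 1)²) ≤ √δ √B + √B √ε₁`
(`w² ≤ w ≤ 1`, `∫ φ S² ≤ ∑ KK(d) ∫ φ |G_d|⁴ ≤ B` by Jensen). All together `≤ ε` if `ε₁` is small (depending on `B`, `ε`). -/
def StmtKyW : Prop := ∀ (V : Set ℂ) (t : ℕ → ℝ) (G : ℕ → ℤ → ℂ → ℂ), Fam V t G → ∀ φ : ℂ → ℝ, TestP V φ →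
  ∀ ε : ℝ, 0 < ε → ∃ e δ : ℝ, 0 < e ∧ 0 < δ ∧ ∀ᶠ i in atTop, ∀ w : ℂ → ℝ, Wgt w (e * t i) →
    ∫ z, φ z * w z ≤ δ → ∫ z, φ z * w z * ‖G i 0 z‖ ^ 4 ≤ ε

/-! ### Part U: weights -/

/-- **Mv** pointwise bound by the mass in a ball of radius `1/t` (no hypotheses). Proof. `b : ℂ → ℝ` a fixed smooth function with `b 0 = 1`, support in the closed unit ball (`ContDiffBump`), `z ∈ tsupport φ`, `v(x) = b(t (x - z)) Re G_0(x)` (smooth, support in `closedBall z (1/t) ⊆ V` for `t ≥ t0`; `G_0` is real: `neg` for `n = 0`).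
For `v` smooth with compact support `|v(z)| = |∫_{-∞}^{x} ∫_{-∞}^{y} ∂_x ∂_y v| ≤ ∫ |∂_x ∂_y v|` (two applications of `integral_Iic_of_hasDerivAt…`, or the inequality `‖v‖ ≤ ∫ |∂ v|` twice), and for real `v` `dz (dz v) = v_xx - v_yy - 2 i v_xy`, so `|v_xy| ≤ |dz dz v|/2`. By Cauchy–Schwarz
`|v(z)|² ≤ (π/t²) ∫ |dz dz v|²/4`. On `V`: `dz G_0 = λ_0 G_1/(i y)`, `dz G_1 = (λ_1 G_2 - G_1)/(i y)`, `dz y = -i`, so `dz dz G_0 = λ_0 (2 G_1 - λ_1 G_2)/y²`, `λ_0, λ_1 ≤ 3 t`; the derivatives of `b(t (x-z))` of order `k` are `O(t^k)`. So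
`|dz dz v|² ≤ C t⁴ (|G_0|² + |G_1|² + |G_2|²)` on the ball, zero outside. `ζ` a cutoff function equal to one on a neighbourhood of `tsupport φ` containing the balls. -/
def StmtMv : Prop := ∀ V : Set ℂ, IsOpen V → V ⊆ H0 → ∀ φ : ℂ → ℝ, TestP V φ →
  ∃ (ζ : ℂ → ℝ) (C t0 : ℝ), TestP V ζ ∧ 0 ≤ C ∧ 1 ≤ t0 ∧ ∀ (t : ℝ) (G : ℤ → ℂ → ℂ), t0 ≤ t → Tow V t G →
    ∀ z ∈ tsupport φ, ‖G 0 z‖ ^ 2 ≤ C * t ^ 2 *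
      ∫ x in Metric.closedBall z (1 / t), ζ x * (‖G 0 x‖ ^ 2 + ‖G 1 x‖ ^ 2 + ‖G 2 x‖ ^ 2)

/-- **Wtt** weights for the large values (uses `StmtMv`). Proof. `k` smooth, `k ≥ 0`, `∫ k = 1`, support in the closed unit ball (`ContDiffBump.normed`), `C_k = ∫ ‖D k‖`, `r = C_k/(e t)`, `k_r(x) = r⁻² k(x/r)`; `E = {x | ∃ z₀ ∈ tsupport φ, H < ‖G_0 z₀‖² ∧ ‖x - z₀‖ < 2 r}` (open), `w = 1_E ⋆ k_r`, i.e.
`w(z) = ∫ 1_E(z - x) k_r(x) dx`: smooth (`HasCompactSupport.contDiff_convolution_right`), `0 ≤ w ≤ 1`, `‖D w‖ ≤ ∫ ‖D k_r‖ = C_k/r = e t`; `w z = 1` if `z ∈ tsupport φ`, `H < ‖G_0 z‖²`. If `w z ≠ 0` there is `z₀ ∈ tsupport φ` with `H < ‖G_0 z₀‖²`, `‖z - z₀‖ < 3 r`, so by `Mv`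
`H ≤ C t² ∫_{closedBall z (3r + 1/t)} ζ F`, `F = |G_0|² + |G_1|² + |G_2|²`. So for all `z` `w z ≤ (C t²/H) ∫ 1(‖x - z‖ ≤ 3r + 1/t) ζ(x) F(x) dx` and by Fubini `∫ φ w ≤ sup φ (C t²/H) π (3r + 1/t)² ∫ ζ F = C'(e)/H ∫ ζ F`, and `∫ ζ F ≤ M` for large `i` (`mass`). -/
def StmtWtt : Prop := ∀ (V : Set ℂ) (t : ℕ → ℝ) (G : ℕ → ℤ → ℂ → ℂ), Fam V t G → ∀ φ : ℂ → ℝ, TestP V φ →
  ∀ e : ℝ, 0 < e → ∃ C : ℝ, 0 ≤ C ∧ ∀ H : ℝ, 0 < H → ∀ᶠ i in atTop, ∃ w : ℂ → ℝ, Wgt w (e * t i) ∧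
    (∀ z ∈ tsupport φ, H < ‖G i 0 z‖ ^ 2 → w z = 1) ∧ ∫ z, φ z * w z ≤ C / H

/-- **UIL** uniform integrability, local version (uses `StmtKyW`, `StmtWtt`). Proof. `e, δ` from `KyW`, `C` from `Wtt` for `e`, `H = (C + 1)/δ`: `∫ φ 1(|G_0|² > H) |G_0|⁴ ≤ ∫ φ w |G_0|⁴ ≤ ε`. -/
def StmtUIL : Prop := ∀ (V : Set ℂ) (t : ℕ → ℝ) (G : ℕ → ℤ → ℂ → ℂ), Fam V t G → ∀ φ : ℂ → ℝ, TestP V φ →
  ∀ ε : ℝ, 0 < ε → ∃ H : ℝ, ∀ᶠ i in atTop,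
    ∫ z, φ z * {x : ℂ | H < ‖G i 0 x‖ ^ 2}.indicator (fun x => ‖G i 0 x‖ ^ 4) z ≤ ε

/-! ### Part A: absolute continuity -/

/-- **Sq1** the Fejér averages are close to one in mean square (uses `StmtCsE`, `StmtSmA`, `StmtK2s`). Proof. `S = Sa (KK N) (2N)`, weight `w = 1` (`Wgt 1 s` for all `s ≥ 0`), `B` as in `KyW` (`dom`, `Fam.up`). Given `ε₁`: `R, ρ` from `var` for `φ, ε₁`; `N ≥ N0` such that `C R B · 2/(2N+1) ≤ ε₁`; then `e > 0` with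
`C R B e ≤ ε₁`, `C (4N+1)² B e ≤ ε₁`; `i` large. `∫ φ S² = ∑_{d,d'} KK d KK d' W(d,d')` (`|d| + |d'| ≤ 4N`: `CsE` for `4N`) `≤ ∑ KK KK (w(d+d') + w(d-d'))/2 + ε₁ = ∑_m K2 m w(m) + ε₁ = ∫ φ S₂ |G_0|² + ε₁`, `w(m) = W(m, 0)`, `S₂ = Sa (K2 N) (4N)` (`K2s`).
`SmA` (`β (D+1) = (4N+1)/(2N+1)² ≤ 2/(2N+1)`): `∫ φ S₂ |G_0|² ≤ ∫ φ S₂ Ed + 2 ε₁ ≤ ∫ φ S₂ + √(∫ φ S₂²) √ε₁ + 2 ε₁`, `∫ φ S₂² ≤ B`. `∫ φ S₂ → ∫ φ` and `∫ φ S → ∫ φ` (`mass`, finite sums, `∑ a = 1`). So `∫ φ (S-1)² = ∫ φ S² - 2 ∫ φ S + ∫ φ ≤ √B √ε₁ + 7 ε₁` for large `i`. -/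
def StmtSq1 : Prop := ∀ (V : Set ℂ) (t : ℕ → ℝ) (G : ℕ → ℤ → ℂ → ℂ), Fam V t G → ∀ φ : ℂ → ℝ, TestP V φ →
  ∀ ε : ℝ, 0 < ε → ∃ N0 : ℕ, ∀ N : ℕ, N0 ≤ N → ∀ᶠ i in atTop,
    ∫ z, φ z * (Sa (KK N) (2 * N) (G i) z - 1) ^ 2 ≤ ε

/-- **Dlt** values in small sets (no hypotheses). Proof. `u = G_0 = conj G_0` real. First let `g : ℝ → ℝ` be smooth, `0 ≤ g ≤ 1`, compact support in `E`, `P(s) = ∫_0^s g`, smooth, `|P| ≤ ∫ g ≤ δ`. `dz (P(Re G_0)) = g(Re G_0) dz G_0`. With `up` for `n = 0` (`i y dz G_0 = λ_0 G_1`), `integral_mul_dz` and `down` for `n = 0`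
(`i y dzb G_1 + G_1 = λ_0 G_0`): `λ_0 ∫ φ g(u) |G_1|² = ∫ (i y φ conj G_1) dz P(u) = - ∫ P(u) dz(i y φ conj G_1) = λ_0 ∫ φ P(u) G_0 - ∫ P(u) conj G_1 (2 φ + i y dz φ)`, so `∫ φ g(u) |G_1|² ≤ δ (∫ φ |G_0| + C ∫ ζ |G_1|) ≤ C' δ` (`λ_0 ≥ t ≥ 1`; `|x| ≤ 1 + x²`, `mass`: bounded for large `i`).
General open `E`: the finite measure `A ↦ ∫ φ 1_A(u) |G_1|²` (map of a measure with density) is inner regular: for compact `K ⊆ E` take `g` smooth, `1_K ≤ g ≤ 1_E` with compact support in `E`, `∫ g ≤ volume E ≤ δ`. -/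
def StmtDlt : Prop := ∀ (V : Set ℂ) (t : ℕ → ℝ) (G : ℕ → ℤ → ℂ → ℂ), Fam V t G → ∀ φ : ℂ → ℝ, TestP V φ →
  ∃ C : ℝ, 0 ≤ C ∧ ∀ᶠ i in atTop, ∀ (E : Set ℝ) (δ : ℝ), IsOpen E → 0 ≤ δ → volume E ≤ ENNReal.ofReal δ →
    ∫ z, φ z * {x : ℂ | (G i 0 x).re ∈ E}.indicator (fun x => ‖G i 1 x‖ ^ 2) z ≤ C * δ

/-- **AdI** the basic inequality (no hypotheses). Proof. `η : ℝ → ℝ` smooth, `0 ≤ η ≤ 1`, `η = 1` on `(-∞, 1]`, `η = 0` on `[2, ∞)`, `|η'| ≤ C₀` (`Real.smoothTransition (2 - x)`), `u = |G_n|²`, `c = η(u/κ)`, `X = ∫ φ c |G_{n+1}|²`. `up`: `λ_n X = ∫ φ c (i y dz G_n + n G_n) conj G_{n+1}`, `integral_mul_dz`: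
`∫ φ c i y (dz G_n) conj G_{n+1} = - ∫ G_n dz(i y φ c conj G_{n+1})`, and `dz(i y φ c conj G_{n+1}) = φ c conj G_{n+1} + i y (dz φ) c conj G_{n+1} + i y φ (dz c) conj G_{n+1} - φ c conj(i y dzb G_{n+1})`, `i y dzb G_{n+1} = λ_n G_n - (n+1) G_{n+1}` (`down`). `i y dz c = η'(u/κ) κ⁻¹ (λ_n p_n - λ_{n-1} p_{n-1})`
(`RelM.dz_uu`). So `λ_n X ≤ λ_n ∫ φ c u + ∫ φ |η'(u/κ)| κ⁻¹ (λ_n |p_n| + λ_{n-1} |p_{n-1}|) |G_n| |G_{n+1}| + C_n ∫ ζ |G_n| |G_{n+1}|`; `|p_n| |G_n| |G_{n+1}| = u |G_{n+1}|²`, `|p_{n-1}| |G_n| |G_{n+1}| = u |G_{n-1}| |G_{n+1}|`, `η'(u/κ) ≠ 0` only if `κ ≤ u < 2 κ`, where `u/κ ≤ 2`;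
`c u ≤ 2 κ`; `λ_{n-1} ≤ 2 λ_n` (`t ≥ |n| + 1`). Divide by `λ_n ≥ t`: `X ≤ 2 κ ∫ φ + 8 C₀ ∫ φ 1(κ ≤ u < 2κ) (|G_{n+1}|² + |G_{n-1}|²) + C_n M/t`, the last term is `≤ ε` for large `i`. -/
def StmtAdI : Prop := ∃ C₀ : ℝ, 0 ≤ C₀ ∧ ∀ (V : Set ℂ) (t : ℕ → ℝ) (G : ℕ → ℤ → ℂ → ℂ), Fam V t G →
  ∀ φ : ℂ → ℝ, TestP V φ → ∀ (n : ℤ) (ε : ℝ), 0 < ε → ∀ᶠ i in atTop, ∀ κ : ℝ, 0 < κ →
    ∫ z, φ z * {x : ℂ | ‖G i n x‖ ^ 2 < κ}.indicator (fun x => ‖G i (n + 1) x‖ ^ 2) z ≤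
      2 * κ * (∫ z, φ z) + C₀ * (∫ z, φ z * {x : ℂ | κ ≤ ‖G i n x‖ ^ 2 ∧ ‖G i n x‖ ^ 2 < 2 * κ}.indicator
        (fun x => ‖G i (n + 1) x‖ ^ 2 + ‖G i (n - 1) x‖ ^ 2) z) + ε

/-- **Ada** `G_{n+1}` is small where `G_n` is small (uses `StmtAdI`). Proof. Let `κ_j = 2^(-j)`, `J < j ≤ 2J`. The sets `{κ_j ≤ u < 2 κ_j}` are disjoint, so the sum over `j` of the second terms is `≤ C₀ ∫ φ (|G_{n+1}|² + |G_{n-1}|²) ≤ C₀ M` for large `i` (`mass`); the left hand sides are `≥` the one with `κ_{2J}`. So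
`J X(κ_{2J}) ≤ J 2 · 2^(-J) ∫ φ + C₀ M + J ε/2`; take `J` large. -/
def StmtAda : Prop := ∀ (V : Set ℂ) (t : ℕ → ℝ) (G : ℕ → ℤ → ℂ → ℂ), Fam V t G → ∀ φ : ℂ → ℝ, TestP V φ →
  ∀ (n : ℤ) (ε : ℝ), 0 < ε → ∃ κ : ℝ, 0 < κ ∧ ∀ᶠ i in atTop,
    ∫ z, φ z * {x : ℂ | ‖G i n x‖ ^ 2 < κ}.indicator (fun x => ‖G i (n + 1) x‖ ^ 2) z ≤ ε

/-- **Chn** all `G_d`, `d ≥ 1`, are small where `G_1` is small (uses `StmtAda`). Proof. Induction on `d`. `d = 1`: at most `κ ∫ φ`. `d → d + 1`: `κ'` from `Ada` for `n = d`, `ε/2`; then `∫ φ 1(u_1 < κ) u_{d+1} ≤ ∫ φ 1(u_d < κ') u_{d+1} + ∫ φ 1(u_1 < κ, u_d ≥ κ') u_{d+1}`, and by Cauchy–Schwarz the last term is at most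
`√(∫ φ u_{d+1}²) √(∫ φ 1(u_1 < κ, u_d ≥ κ')) ≤ √B √(κ'⁻¹ ∫ φ 1(u_1 < κ) u_d)` (`u_d = |G_d|²`, `∫ φ |G_{d+1}|⁴ ≤ B` for large `i`), small by the induction hypothesis for `κ` small. -/
def StmtChn : Prop := ∀ (V : Set ℂ) (t : ℕ → ℝ) (G : ℕ → ℤ → ℂ → ℂ), Fam V t G → ∀ φ : ℂ → ℝ, TestP V φ →
  ∀ (d : ℕ) (ε : ℝ), 1 ≤ d → 0 < ε → ∃ κ : ℝ, 0 < κ ∧ ∀ᶠ i in atTop,
    ∫ z, φ z * {x : ℂ | ‖G i 1 x‖ ^ 2 < κ}.indicator (fun x => ‖G i (d : ℤ) x‖ ^ 2) z ≤ ε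

/-- **Deg** the gradient is rarely small (uses `StmtChn`, `StmtSq1`, `StmtK2s`). Proof. `U = {u_1 < κ}`, `S = Sa (KK N) (2N)`: `1 ≤ |S - 1| + S`, so `∫ φ 1_U ≤ √(∫ φ) √(∫ φ (S-1)²) + KK(0) ∫ φ u_0 + ∑_{1 ≤ |d| ≤ 2N} KK(d) ∫ φ 1_U u_{|d|}` (`u_{-d} = u_d`, `CosWM.norm_neg_index`). Choose `N` (`Sq1`; `KK(0) ≤ 1/(2N+1)`,
`∫ φ u_0 → ∫ φ`), then `κ` (the minimum over `1 ≤ d ≤ 2N` in `Chn`; the integrals are monotone in `κ`). -/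
def StmtDeg : Prop := ∀ (V : Set ℂ) (t : ℕ → ℝ) (G : ℕ → ℤ → ℂ → ℂ), Fam V t G → ∀ φ : ℂ → ℝ, TestP V φ →
  ∀ ε : ℝ, 0 < ε → ∃ κ : ℝ, 0 < κ ∧ ∀ᶠ i in atTop,
    ∫ z, φ z * {x : ℂ | ‖G i 1 x‖ ^ 2 < κ}.indicator (fun _ => (1 : ℝ)) z ≤ ε

/-- **ACL** absolute continuity, local version (uses `StmtDeg`, `StmtDlt`). Proof. `1_{u ∈ E} ≤ 1(u_1 < κ) + κ⁻¹ 1_{u ∈ E} u_1`: `≤ ε/2 + κ⁻¹ C δ`, `δ = κ ε/(2 C + 1)`. -/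
def StmtACL : Prop := ∀ (V : Set ℂ) (t : ℕ → ℝ) (G : ℕ → ℤ → ℂ → ℂ), Fam V t G → ∀ φ : ℂ → ℝ, TestP V φ →
  ∀ ε : ℝ, 0 < ε → ∃ δ : ℝ, 0 < δ ∧ ∀ E : Set ℝ, IsOpen E → volume E ≤ ENNReal.ofReal δ → ∀ᶠ i in atTop,
    ∫ z, φ z * {x : ℂ | (G i 0 x).re ∈ E}.indicator (fun _ => (1 : ℝ)) z ≤ ε

/-! ### Part F: the data, and the transfer to the modular surface -/

/-- **FmM** towers and masses (uses `Sq.StmtTwr`, `StmtInt`; model: `BdM.backward` in Sq/Bd.lean for the setup, `MsSM.step` in Sq/MsS.lean). Proof. `Twr` gives `c` and `G_i`. `n = 0`: `|G_0|² = (ff χ f)²`; `ζ ∈ TestP V`: `∫_ℂ ζ (ff χ f)² = ∫_ℍ (ζ y²) f² dμ → ∫_ℍ ζ y² dμ = ∫_ℂ ζ` (`CondH`, `Half.int_eq` for `φ = ζ y²`).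
`n → n + 1` and `n → n - 1`: `MsSM.step` (`|∫ ζ |G_{n+1}|² - ∫ ζ |G_n|²| ≤ C M/t → 0`, `M = c ζ'`). -/
def StmtFmM : Prop := ∀ (f : ℕ → ℍ → ℝ) (t : ℕ → ℝ), (∀ i, IsHeckeMaass (f i) (t i)) → Tendsto t atTop atTop →
  Pl.CondH f → ∀ (χ : ℂ → ℝ) (V : Set ℂ), TestR H0 χ → (∀ z, 0 ≤ χ z ∧ χ z ≤ 1) → IsOpen V → V ⊆ H0 →
    (∀ z ∈ V, χ z = 1) → ∃ (c : (ℂ → ℝ) → ℝ) (G : ℕ → ℤ → ℂ → ℂ), (∀ i, Tow V (t i) (G i)) ∧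
      (∀ i z, G i 0 z = ((ff χ (f i) z : ℝ) : ℂ)) ∧
      (∀ i ζ, TestP V ζ → ∀ n : ℤ, ∫ z, ζ z * ‖G i n z‖ ^ 2 ≤ c ζ) ∧
      ∀ ζ : ℂ → ℝ, TestP V ζ → ∀ n : ℤ, Tendsto (fun i => ∫ z, ζ z * ‖G i n z‖ ^ 2) atTop (𝓝 (∫ z, ζ z))

/-- **FmF** fourth moments, uniformly in `n` (uses `Sq.StmtMax`, `Pl.StmtE1`, `Pl.StmtG0`, `StmtInt`; model: `BdM.forward`, `BdM.backward` in Sq/Bd.lean). Proof. `∫_K f_i⁴` is bounded for compact `K` (`CondH` with a cutoff function; finitely many `i` are harmless). As in `BdM.backward`, with `δ = 1/2`, `r i = (t i)⁻¹` (`t i > 0` for a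
Hecke–Maass form), `hm` from `BdM.forward`: `Dat V c x (1/2) (t i) 0 (tanh (r i)) (G i)` for `t i ≥ 1`. `Max` with `κ = 1/4`: `∫ ζ |G_n|⁴ = Wi ζ G n n ≤ ∫ ζ |G_0|⁴ + C t^(-κ') ≤ C'` if `|n| ≤ t^(1/4)`, i.e. for large `i`; `∫ ζ |G_0|⁴` is bounded. -/
def StmtFmF : Prop := ∀ (f : ℕ → ℍ → ℝ) (t : ℕ → ℝ), (∀ i, IsHeckeMaass (f i) (t i)) → Tendsto t atTop atTop →
  Pl.CondH f → ∀ (χ : ℂ → ℝ) (V : Set ℂ), TestR H0 χ → (∀ z, 0 ≤ χ z ∧ χ z ≤ 1) → IsOpen V → V ⊆ H0 →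
    (∀ z ∈ V, χ z = 1) → ∀ (c : (ℂ → ℝ) → ℝ) (G : ℕ → ℤ → ℂ → ℂ), (∀ i, Tow V (t i) (G i)) →
      (∀ i z, G i 0 z = ((ff χ (f i) z : ℝ) : ℂ)) →
      (∀ i ζ, TestP V ζ → ∀ n : ℤ, ∫ z, ζ z * ‖G i n z‖ ^ 2 ≤ c ζ) →
      ∀ ζ : ℂ → ℝ, TestP V ζ → ∃ C : ℝ, ∀ n : ℤ, ∀ᶠ i in atTop, ∫ z, ζ z * ‖G i n z‖ ^ 4 ≤ C

/-- **FmV** small scales (uses `Pl.StmtFB`, `Pl.StmtBC`, `Pl.StmtG2`; model: Pl/FC.lean, `BdM.ed_eq`). Proof. `FB`, `BC`: `CondC f t` (`t i > 0` for a Hecke–Maass form). `ζ ∈ TestP V`, `G2` for `ζ` gives `K, C, r0`; `CondC` for `K`, `ε/(2C+2)` gives `R`; `ρ_i = tanh (R/t_i) ≤ R/t_i`; for large `i` the discs with centre in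
`tsupport ζ` lie in `V` (`BdM.ed_eq` or `discs`), where `‖G_0‖² = (ff χ f)² = (ext f)²`; the error `C (R/t_i)² ≤ ε/2` for large `i`. -/
def StmtFmV : Prop := ∀ (f : ℕ → ℍ → ℝ) (t : ℕ → ℝ), (∀ i, IsHeckeMaass (f i) (t i)) → Tendsto t atTop atTop →
  Pl.CondH f → ∀ (χ : ℂ → ℝ) (V : Set ℂ), TestR H0 χ → (∀ z, 0 ≤ χ z ∧ χ z ≤ 1) → IsOpen V → V ⊆ H0 →
    (∀ z ∈ V, χ z = 1) → ∀ ζ : ℂ → ℝ, TestP V ζ → ∀ ε : ℝ, 0 < ε → ∃ (R : ℝ) (ρ : ℕ → ℝ), 0 < R ∧ ∀ᶠ i in atTop,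
      0 < ρ i ∧ ρ i * t i ≤ R ∧ ∫ z, ζ z * (Ed (ρ i) (fun w => ff χ (f i) w ^ 2) z - 1) ^ 2 ≤ ε

/-- **Tra** from the fundamental domain to the plane (uses `StmtInt`). Proof. `ψ ≤ B₀` on `fd` and `ψ = 0` on `fd` above some height `Y` (see `Pl/U2.lean`): `fdo ∩ {ψ ≠ 0}` is contained in a compact set `T ⊆ ℍ`; `θ ∈ TestR H0` with `0 ≤ θ ≤ 1`, `θ = 1` on `T`; `∫_fdo ψ Φ(g) ≤ B₀ ∫_ℍ θ Φ(g) = B₀ ∫_ℂ θ y⁻² Φ(ext g)`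
(`StmtInt`), `φ = θ y⁻²` (`Half.testR_weight`). Everything is integrable: `Φ(g)` is measurable and bounded on compact sets. -/
def StmtTra : Prop := ∀ ψ : ℍ → ℝ, TestX ψ → (∀ z, 0 ≤ ψ z) → ∃ (φ : ℂ → ℝ) (C : ℝ), TestP H0 φ ∧ 0 ≤ C ∧
  ∀ g : ℍ → ℝ, Continuous g → ∀ Φ : ℝ → ℝ, Measurable Φ → (∀ x, 0 ≤ Φ x) → (∃ B : ℝ, ∀ x, Φ x ≤ B * (1 + x ^ 4)) →
    ∫ z in ModularGroup.fdo, ψ z * Φ (g z) ≤ C * ∫ z : ℂ, φ z * Φ (ext g z)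

/-- **FinU** the two outputs (uses all): assembled by helper54 -/
def StmtFinU : Prop := ∀ (f : ℕ → ℍ → ℝ) (t : ℕ → ℝ), (∀ i, IsHeckeMaass (f i) (t i)) → Tendsto t atTop atTop →
  Pl.CondH f → ∀ ψ : ℍ → ℝ, TestX ψ → (∀ z, 0 ≤ ψ z) → UI f ψ ∧ AC f ψ

end

end Pool.Agent.A54.Vd
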