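import Pool.Agent.Lib.MP_a54f13_nt.Vd.SpecS
import Pool.Agent.Lib.MP_a54f13_nt.Half2

/-!
# Package `Vd`, module `StH`: Stein's identity on the half-plane
-/

set_option autoImplicit false

namespace Pool.Agent.A54.Vd

open MeasureTheory Filter Topology Set
open scoped ContDiff ComplexConjugate UpperHalfPlane MatrixGroups ENNReal
open Pool.Agent.A54.Half (H0 qq ff hh)

noncomputable section

namespace StHM

/-- the normalised square of the gradient as a function on `ℂ` -/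
def gE (f : ℍ → ℝ) (t : ℝ) (z : ℂ) : ℝ :=
  z.im ^ 2 * ‖dz (fun w => (ext f w : ℂ)) z‖ ^ 2 / (1 / 4 + t ^ 2)

lemma gN_eq (f : ℍ → ℝ) (t : ℝ) (z : ℍ) : gN f t z = gE f t (z : ℂ) := by
  unfold gN gE
  rw [UpperHalfPlane.coe_im]

lemma contOn {f : ℍ → ℝ} {t : ℝ} (hf : IsHeckeMaass f t) : ContinuousOn (gE f t) H0 := by
  have h0 : ContDiffOn ℝ ∞ (fun w => (ext f w : ℂ)) H0 :=
    Complex.ofRealCLM.contDiff.comp_contDiffOn hf.smooth
  have h1 : ContinuousOn (fderiv ℝ (fun w => (ext f w : ℂ))) H0 :=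
    h0.continuousOn_fderiv_of_isOpen Half.isOpen_H0 (by simp)
  have h2 : ContinuousOn (dz (fun w => (ext f w : ℂ))) H0 := by
    unfold dz
    exact (h1.clm_apply continuousOn_const).sub
      (continuousOn_const.mul (h1.clm_apply continuousOn_const))
  unfold gE
  exact ((Complex.continuous_im.continuousOn.pow 2).mul (h2.norm.pow 2)).div_const _

lemma cont {f : ℍ → ℝ} {t : ℝ} (hf : IsHeckeMaass f t) : Continuous (gN f t) := by
  have h3 : Continuous (fun z : ℍ => gE f t (z : ℂ)) :=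
    (contOn hf).comp_continuous UpperHalfPlane.continuous_coe (fun z => z.im_pos)
  have h4 : gN f t = fun z : ℍ => gE f t (z : ℂ) := funext (gN_eq f t)
  rw [h4]
  exact h3

/-- the local quantity on `V` -/
lemma nn_eq {χ : ℂ → ℝ} {V : Set ℂ} (hV : IsOpen V) (hVH : V ⊆ H0) (h1 : ∀ z ∈ V, χ z = 1)
    (f : ℍ → ℝ) (t : ℝ) {z : ℂ} (hz : z ∈ V) :
    nn (qq χ) (hh t) (ff χ f) 1 z = gE f t z := by
  have hc : ∀ w ∈ V, (ff χ f w : ℂ) = (ext f w : ℂ) := by
    intro w hw
    unfold ff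
    rw [h1 w hw, one_mul]
  have e1 : gg (hh t) (ff χ f) 1 z = ((hh t : ℝ) : ℂ) * dz (fun w => (ext f w : ℂ)) z := by
    rw [← dz_congr hV hc hz]
    rfl
  have hzim : 0 < z.im := hVH hz
  have e7 : qq χ z = (z.im)⁻¹ ^ 2 := by
    unfold qq
    rw [h1 z hz]
    ring
  have hsq := Half.hh_sq t
  have ht : (1 / 4 + t ^ 2 : ℝ) ≠ 0 := by positivity
  have h2 : hh t ^ 2 = (1 / 4 + t ^ 2)⁻¹ := by
    exact eq_inv_of_mul_eq_one_left hsq
  unfold nn gE
  rw [e1, e7, norm_mul, Complex.norm_real, mul_pow, Real.norm_eq_abs, sq_abs, h2, pow_one,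
    inv_pow, div_inv_eq_mul, div_eq_mul_inv]
  ring

/-- integrals on the half-plane -/
lemma int_w (hI : StmtInt) {V : Set ℂ} (hVH : V ⊆ H0) {w : ℂ → ℝ} (hw : ∀ z, z ∉ V → w z = 0)
    (F : ℍ → ℝ) (G E : ℂ → ℝ) (hFE : ∀ z : ℍ, F z = E z) (hGE : ∀ z ∈ V, G z = E z) :
    ∫ z : ℍ, w z * F z = ∫ z : ℂ, (w z * (z.im)⁻¹ ^ 2) * G z := by
  have h0 : ∀ z : ℂ, z.im ≤ 0 → w z * E z = 0 := by
    intro z hz
    rw [hw z (fun h => (not_lt.mpr hz) (hVH h)), zero_mul]
  have e1 := hI.1 _ h0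
  have e2 : ∫ z : ℍ, w z * F z = ∫ z : ℍ, w z * E z := by
    apply integral_congr_ae
    refine Filter.Eventually.of_forall fun z => ?_
    simp only [hFE]
  rw [e2, e1]
  apply integral_congr_ae
  refine Filter.Eventually.of_forall fun z => ?_
  by_cases hz : z ∈ V
  · simp only [hGE z hz]
    ring
  · simp only [hw z hz, zero_mul, zero_div]

end StHM

/-- **StH** -/
theorem stmtStH (hI : StmtInt) (hL : StmtLap) (hSt : StmtStn) (hNb : StmtNb) : StmtStH := by
  intro f t hf ht hK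
  obtain ⟨N, hN⟩ := Half.exists_N ht
  refine ⟨fun i => StHM.cont (hf i), ?_, ?_⟩
  · intro φ hφ
    obtain ⟨χ, V, hχ, h01, hV, hVH, h1, hsub⟩ := Half.setup hφ
    have hφV : TestR V φ := ⟨hφ.smooth, hφ.cpt, hsub⟩
    have hS := Half2.seq hL hχ h01 hV hVH h1 hf ht hN
    have hb : L4Bdd V (fun i => ff χ (f (i + N))) :=
      Half.l4 hI hVH h1 (fun i => hf (i + N)) (fun K hKc => by
        obtain ⟨C, hC'⟩ := hK K hKc
        exact ⟨C, fun i => hC' (i + N)⟩)
    obtain ⟨C, hC⟩ := hNb V _ _ _ hS hb (fun z => φ z * (z.im)⁻¹ ^ 2) (Half.testR_weight hVH hφV)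
    have key : ∀ i, ∫ z : ℍ, |φ z| * gN (f (i + N)) (t (i + N)) z ^ 2 ≤ C := by
      intro i
      refine le_trans (le_of_eq ?_) (hC i)
      have hw : ∀ z, z ∉ V → |φ z| = 0 := fun z hz => by
        rw [hφV.eq_zero hz, abs_zero]
      rw [StHM.int_w hI hVH (w := fun z => |φ z|) hw (fun z => gN (f (i + N)) (t (i + N)) z ^ 2)
        (fun z => nn (qq χ) (hh (t (i + N))) (ff χ (f (i + N))) 1 z ^ 2)
        (fun z => StHM.gE (f (i + N)) (t (i + N)) z ^ 2)
        (fun z => by rw [StHM.gN_eq])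
        (fun z hz => by rw [StHM.nn_eq hV hVH h1 _ _ hz])]
      apply integral_congr_ae
      refine Filter.Eventually.of_forall fun z => ?_
      simp only
      rw [abs_mul, abs_of_nonneg (sq_nonneg ((z.im)⁻¹))]
    set I : ℕ → ℝ := fun i => ∫ z : ℍ, |φ z| * gN (f i) (t i) z ^ 2 with hIdef
    refine ⟨|C| + ∑ j ∈ Finset.range N, |I j|, fun i => ?_⟩
    have hs0 : 0 ≤ ∑ j ∈ Finset.range N, |I j| := Finset.sum_nonneg fun j _ => abs_nonneg _
    by_cases hi : i < N
    · have h2 : |I i| ≤ ∑ j ∈ Finset.range N, |I j| :=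
        Finset.single_le_sum (f := fun j => |I j|) (fun j _ => abs_nonneg _)
          (Finset.mem_range.mpr hi)
      have h3 : I i ≤ |I i| := le_abs_self _
      have h4 : 0 ≤ |C| := abs_nonneg C
      change I i ≤ _
      linarith
    · obtain ⟨j, rfl⟩ : ∃ j, i = j + N := ⟨i - N, by omega⟩
      have h2 := key j
      have h4 : C ≤ |C| := le_abs_self C
      change I (j + N) ≤ _
      have h5 : I (j + N) ≤ C := h2
      linarith
  · intro G B hG hB φ hφ
    obtain ⟨χ, V, hχ, h01, hV, hVH, h1, hsub⟩ := Half.setup hφ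
    have hφV : TestR V φ := ⟨hφ.smooth, hφ.cpt, hsub⟩
    have hS := Half2.seq hL hχ h01 hV hVH h1 hf ht hN
    have hb : L4Bdd V (fun i => ff χ (f (i + N))) :=
      Half.l4 hI hVH h1 (fun i => hf (i + N)) (fun K hKc => by
        obtain ⟨C, hC'⟩ := hK K hKc
        exact ⟨C, fun i => hC' (i + N)⟩)
    have h := hSt V _ _ _ hS hb G B hG hB (fun z => φ z * (z.im)⁻¹ ^ 2)
      (Half.testR_weight hVH hφV)
    rw [← tendsto_add_atTop_iff_nat N]
    refine h.congr fun i => ?_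
    have hff : ∀ z ∈ V, ff χ (f (i + N)) z = ext (f (i + N)) z := by
      intro z hz
      unfold ff
      rw [h1 z hz, one_mul]
    have hw : ∀ z, z ∉ V → φ z = 0 := fun z hz => hφV.eq_zero hz
    rw [StHM.int_w hI hVH hw (fun z => f (i + N) z * G (f (i + N) z))
        (fun z => ff χ (f (i + N)) z * G (ff χ (f (i + N)) z))
        (fun z => ext (f (i + N)) z * G (ext (f (i + N)) z))
        (fun z => by rw [Half.ext_coe])
        (fun z hz => by rw [hff z hz]),
      StHM.int_w hI hVH hw (fun z => deriv G (f (i + N) z) * gN (f (i + N)) (t (i + N)) z)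
        (fun z => deriv G (ff χ (f (i + N)) z) *
          nn (qq χ) (hh (t (i + N))) (ff χ (f (i + N))) 1 z)
        (fun z => deriv G (ext (f (i + N)) z) * StHM.gE (f (i + N)) (t (i + N)) z)
        (fun z => by rw [Half.ext_coe, StHM.gN_eq])
        (fun z hz => by rw [hff z hz, StHM.nn_eq hV hVH h1 _ _ hz])]

end

end Pool.Agent.A54.Vd
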