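import Pool.Agent.Lib.MP_a54f13_nt.Vd.SpecS
import Pool.Agent.Lib.MP_a54f13_nt.X2
import Pool.Agent.Lib.MP_a54f13_nt.Half2

/-!
# Package `Vd`, module `StX`: Stein's identity on the modular surface
-/

set_option autoImplicit false

namespace Pool.Agent.A54.Vd

open MeasureTheory Filter Topology Set
open scoped ContDiff ComplexConjugate UpperHalfPlane MatrixGroups ENNReal
open Pool.Agent.A54.Half (H0 qq ff hh)

noncomputable section

namespace StXM

open Pool.Agent.A54.X

lemma le_sq {θ x : ℝ} (hθ : 0 < θ) : x ≤ θ * x ^ 2 + 1 / (4 * θ) := by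
  have h : θ * x ^ 2 + 1 / (4 * θ) - x = (2 * θ * x - 1) ^ 2 / (4 * θ) := by
    field_simp
    ring
  have h2 : 0 ≤ (2 * θ * x - 1) ^ 2 / (4 * θ) := by positivity
  linarith

lemma gN_nonneg (f : ℍ → ℝ) (t : ℝ) (z : ℍ) : 0 ≤ gN f t z := by
  unfold gN
  positivity

/-- cut off test functions have compact support on `ℍ` -/
lemma hcs {φ : ℂ → ℝ} (hφ : TestR H0 φ) : HasCompactSupport (fun z : ℍ => φ z) := by
  refine HasCompactSupport.intro (Half2.isCompact_pre hφ.cpt.isCompact hφ.sub) ?_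
  intro z hz
  exact image_eq_zero_of_notMem_tsupport hz

/-- integrals over the fundamental domain against integrals over the truncated domain -/
lemma int_trunc {ψ g : ℍ → ℝ} {Y M : ℝ} (hψ0 : ∀ z, 0 ≤ ψ z)
    (hY : ∀ z ∈ ModularGroup.fdo, Y < z.im → ψ z = 0) (hM0 : 0 ≤ M)
    (hM : ∀ z ∈ ModularGroup.fdo, ψ z ≤ M) (hg : Continuous g) (hg0 : ∀ z, 0 ≤ g z) :
    ∫ z in ModularGroup.fdo, ψ z * g z ≤
      M * ∫ z in ModularGroup.truncatedFundamentalDomain Y, g z := by
  have hT := ModularGroup.isCompact_truncatedFundamentalDomain Y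
  have hmT : MeasurableSet (ModularGroup.truncatedFundamentalDomain Y) := hT.isClosed.measurableSet
  rw [← integral_const_mul, ← integral_indicator measurableSet_fdo, ← integral_indicator hmT]
  apply integral_mono_of_nonneg
  · refine Eventually.of_forall fun z => ?_
    apply indicator_nonneg
    intro z _
    exact mul_nonneg (hψ0 z) (hg0 z)
  · rw [integrable_indicator_iff hmT]
    exact (continuous_const.mul hg).continuousOn.integrableOn_compact hT
  · refine Eventually.of_forall fun z => ?_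
    by_cases hz : z ∈ ModularGroup.fdo
    · rw [indicator_of_mem hz]
      by_cases h : Y < z.im
      · rw [hY z hz h, zero_mul]
        exact indicator_nonneg (fun z _ => mul_nonneg hM0 (hg0 z)) z
      · rw [indicator_of_mem (fdo_inter_sub Y ⟨hz, not_lt.mp h⟩)]
        exact mul_le_mul_of_nonneg_right (hM z hz) (hg0 z)
    · rw [indicator_of_notMem hz]
      exact indicator_nonneg (fun z _ => mul_nonneg hM0 (hg0 z)) z

/-- integrals over the truncated domain against integrals over the half-plane -/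
lemma trunc_le {ζ : ℂ → ℝ} (hζ : TestR H0 ζ) {Y : ℝ} {g : ℍ → ℝ}
    (h1 : ∀ z ∈ ModularGroup.truncatedFundamentalDomain Y, ζ (z : ℂ) = 1)
    (hg : Continuous g) (hg0 : ∀ z, 0 ≤ g z) :
    ∫ z in ModularGroup.truncatedFundamentalDomain Y, g z ≤ ∫ z : ℍ, |ζ z| * g z := by
  have hT := ModularGroup.isCompact_truncatedFundamentalDomain Y
  have hmT : MeasurableSet (ModularGroup.truncatedFundamentalDomain Y) := hT.isClosed.measurableSet
  have hζc : Continuous (fun z : ℍ => ζ z) :=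
    hζ.smooth.continuous.comp UpperHalfPlane.continuous_coe
  rw [← integral_indicator hmT]
  apply integral_mono_of_nonneg
  · refine Eventually.of_forall fun z => ?_
    apply indicator_nonneg
    intro z _
    exact hg0 z
  · apply (hζc.abs.mul hg).integrable_of_hasCompactSupport
    exact ((hcs hζ).abs).mul_right
  · refine Eventually.of_forall fun z => ?_
    by_cases hz : z ∈ ModularGroup.truncatedFundamentalDomain Y
    · rw [indicator_of_mem hz]
      simp only [h1 z hz, abs_one, one_mul, le_refl]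
    · rw [indicator_of_notMem hz]
      exact mul_nonneg (abs_nonneg _) (hg0 z)

/-- the growth of a function with bounded derivative -/
lemma growth {G : ℝ → ℝ} {B : ℝ} (hG : ContDiff ℝ ∞ G) (hB : ∀ x, |deriv G x| ≤ B) (x : ℝ) :
    |x * G x| ≤ (|G 0| + B) * (1 + x ^ 2) := by
  have hB0 : 0 ≤ B := (abs_nonneg _).trans (hB 0)
  have h1 : ‖G x - G 0‖ ≤ B * ‖x - 0‖ :=
    Convex.norm_image_sub_le_of_norm_deriv_le (s := Set.univ)
      (fun y _ => (hG.differentiable (by simp)).differentiableAt) (fun y _ => hB y) convex_univ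
      (mem_univ _) (mem_univ _)
  rw [sub_zero, Real.norm_eq_abs, Real.norm_eq_abs] at h1
  have h2 : |G x| ≤ |G 0| + B * |x| := by
    have := abs_sub_abs_le_abs_sub (G x) (G 0)
    linarith
  have h3 : |x| ≤ 1 + x ^ 2 := by nlinarith [sq_abs x, sq_nonneg (|x| - 1)]
  have h4 : |x| * |x| = x ^ 2 := by rw [← sq, sq_abs]
  rw [abs_mul]
  calc |x| * |G x| ≤ |x| * (|G 0| + B * |x|) := mul_le_mul_of_nonneg_left h2 (abs_nonneg _)
    _ = |G 0| * |x| + B * x ^ 2 := by rw [← h4]; ring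
    _ ≤ |G 0| * (1 + x ^ 2) + B * (1 + x ^ 2) := by
        have e1 := mul_le_mul_of_nonneg_left h3 (abs_nonneg (G 0))
        have e2 : B * x ^ 2 ≤ B * (1 + x ^ 2) := mul_le_mul_of_nonneg_left (by linarith) hB0
        linarith
    _ = (|G 0| + B) * (1 + x ^ 2) := by ring

/-- pointwise bound of the error -/
lemma point {c B θ x d N : ℝ} (hθ : 0 < θ) (hc : 0 ≤ c) (hB : 0 ≤ B) {y : ℝ}
    (hy : |y| ≤ c * (1 + x ^ 2)) (hd : |d| ≤ B) (hN : 0 ≤ N) :
    |y - d * N| ≤ θ * (c * x ^ 4 + B * N ^ 2) + (c + (c + B) / (4 * θ)) := by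
  have h1 : x ^ 2 ≤ θ * x ^ 4 + 1 / (4 * θ) := by
    have := le_sq (x := x ^ 2) hθ
    rw [← pow_mul] at this
    exact this
  have h2 := le_sq (x := N) hθ
  have h3 : |d * N| ≤ B * N := by
    rw [abs_mul, abs_of_nonneg hN]
    exact mul_le_mul_of_nonneg_right hd hN
  have h4 : |y - d * N| ≤ |y| + |d * N| := abs_sub _ _
  have h5 := mul_le_mul_of_nonneg_left h1 hc
  have h6 := mul_le_mul_of_nonneg_left h2 hB
  have h7 : c + (c + B) / (4 * θ) = c + c * (1 / (4 * θ)) + B * (1 / (4 * θ)) := by ring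
  rw [h7]
  nlinarith

/-- the main estimate for one function: the error of the cut off -/
lemma err {ψ f N d y : ℍ → ℝ} {χ : ℂ → ℝ} {c B θ Q₄ Q₂ η : ℝ} (hθ : 0 < θ) (hc : 0 ≤ c) (hB : 0 ≤ B)
    (hψ0 : ∀ z, 0 ≤ ψ z) (hχ1 : ∀ z, 0 ≤ χ z ∧ χ z ≤ 1) (hN : ∀ z, 0 ≤ N z)
    (hy : ∀ z, |y z| ≤ c * (1 + f z ^ 2)) (hd : ∀ z, |d z| ≤ B)
    (i0 : IntegrableOn (fun z : ℍ => (1 - χ z) * ψ z) ModularGroup.fdo)
    (i4 : IntegrableOn (fun z => ψ z * f z ^ 4) ModularGroup.fdo)
    (i2 : IntegrableOn (fun z => ψ z * N z ^ 2) ModularGroup.fdo)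
    (iy : IntegrableOn (fun z => ψ z * y z) ModularGroup.fdo)
    (id' : IntegrableOn (fun z => ψ z * (d z * N z)) ModularGroup.fdo)
    (jy : IntegrableOn (fun z : ℍ => χ z * ψ z * y z) ModularGroup.fdo)
    (jd : IntegrableOn (fun z : ℍ => χ z * ψ z * (d z * N z)) ModularGroup.fdo)
    (h4 : ∫ z in ModularGroup.fdo, ψ z * f z ^ 4 ≤ Q₄)
    (h2 : ∫ z in ModularGroup.fdo, ψ z * N z ^ 2 ≤ Q₂)
    (h0 : ∫ z in ModularGroup.fdo, (1 - χ z) * ψ z ≤ η) :
    |((∫ z in ModularGroup.fdo, ψ z * y z) - ∫ z in ModularGroup.fdo, ψ z * (d z * N z)) -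
      ((∫ z in ModularGroup.fdo, χ z * ψ z * y z) -
        ∫ z in ModularGroup.fdo, χ z * ψ z * (d z * N z))| ≤
      θ * (c * Q₄ + B * Q₂) + (c + (c + B) / (4 * θ)) * η := by
  set c' : ℝ := c + (c + B) / (4 * θ) with hc'
  have hc'0 : 0 ≤ c' := by positivity
  have k1 : IntegrableOn (fun z => ψ z * y z - ψ z * (d z * N z)) ModularGroup.fdo := iy.sub id'
  have k2 : IntegrableOn (fun z : ℍ => χ z * ψ z * y z - χ z * ψ z * (d z * N z))
      ModularGroup.fdo := jy.sub jd
  have k3 : IntegrableOn (fun z : ℍ => |(ψ z * y z - ψ z * (d z * N z)) -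
      (χ z * ψ z * y z - χ z * ψ z * (d z * N z))|) ModularGroup.fdo := (k1.sub k2).abs
  have e1 : ((∫ z in ModularGroup.fdo, ψ z * y z) - ∫ z in ModularGroup.fdo, ψ z * (d z * N z)) -
      ((∫ z in ModularGroup.fdo, χ z * ψ z * y z) -
        ∫ z in ModularGroup.fdo, χ z * ψ z * (d z * N z)) =
      ∫ z in ModularGroup.fdo, ((ψ z * y z - ψ z * (d z * N z)) -
        (χ z * ψ z * y z - χ z * ψ z * (d z * N z))) := by
    rw [← integral_sub iy id', ← integral_sub jy jd, ← integral_sub k1 k2]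
  have k4 : IntegrableOn (fun z : ℍ => θ * c * (ψ z * f z ^ 4) + θ * B * (ψ z * N z ^ 2))
      ModularGroup.fdo := (i4.const_mul _).add (i2.const_mul _)
  have i3 : IntegrableOn (fun z : ℍ => θ * c * (ψ z * f z ^ 4) + θ * B * (ψ z * N z ^ 2) +
      c' * ((1 - χ z) * ψ z)) ModularGroup.fdo :=
    ((i4.const_mul _).add (i2.const_mul _)).add (i0.const_mul _)
  rw [e1]
  calc _ ≤ ∫ z in ModularGroup.fdo, |(ψ z * y z - ψ z * (d z * N z)) -
        (χ z * ψ z * y z - χ z * ψ z * (d z * N z))| := abs_integral_le_integral_abs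
    _ ≤ ∫ z in ModularGroup.fdo, (θ * c * (ψ z * f z ^ 4) + θ * B * (ψ z * N z ^ 2) +
          c' * ((1 - χ z) * ψ z)) := by
        apply integral_mono k3 i3
        intro z
        simp only
        have c1 : 0 ≤ 1 - χ z := by linarith [(hχ1 z).2]
        have c2 : 1 - χ z ≤ 1 := by linarith [(hχ1 z).1]
        have c3 := point hθ hc hB (hy z) (hd z) (hN z)
        have c4 : (ψ z * y z - ψ z * (d z * N z)) -
            (χ z * ψ z * y z - χ z * ψ z * (d z * N z)) = (1 - χ z) * ψ z * (y z - d z * N z) := by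
          ring
        have c7 : 0 ≤ (1 - χ z) * ψ z := mul_nonneg c1 (hψ0 z)
        rw [c4, abs_mul, abs_of_nonneg c7]
        have c5 : 0 ≤ θ * c * (ψ z * f z ^ 4) + θ * B * (ψ z * N z ^ 2) := by
          have := hψ0 z
          have : (0 : ℝ) ≤ f z ^ 4 := Even.pow_nonneg ⟨2, rfl⟩ _
          positivity
        have c6 := mul_le_mul_of_nonneg_right c2 c5
        calc (1 - χ z) * ψ z * |y z - d z * N z|
            ≤ (1 - χ z) * ψ z * (θ * (c * f z ^ 4 + B * N z ^ 2) + c') :=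
              mul_le_mul_of_nonneg_left c3 c7
          _ = (1 - χ z) * (θ * c * (ψ z * f z ^ 4) + θ * B * (ψ z * N z ^ 2)) +
              c' * ((1 - χ z) * ψ z) := by ring
          _ ≤ _ := by linarith
    _ = θ * c * (∫ z in ModularGroup.fdo, ψ z * f z ^ 4) +
          θ * B * (∫ z in ModularGroup.fdo, ψ z * N z ^ 2) +
          c' * ∫ z in ModularGroup.fdo, (1 - χ z) * ψ z := by
        rw [integral_add k4 (i0.const_mul _),
          integral_add (i4.const_mul _) (i2.const_mul _), integral_const_mul, integral_const_mul,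
          integral_const_mul]
    _ ≤ θ * c * Q₄ + θ * B * Q₂ + c' * η := by
        have d1 : θ * c * (∫ z in ModularGroup.fdo, ψ z * f z ^ 4) ≤ θ * c * Q₄ :=
          mul_le_mul_of_nonneg_left h4 (by positivity)
        have d2 : θ * B * (∫ z in ModularGroup.fdo, ψ z * N z ^ 2) ≤ θ * B * Q₂ :=
          mul_le_mul_of_nonneg_left h2 (by positivity)
        have d3 : c' * (∫ z in ModularGroup.fdo, (1 - χ z) * ψ z) ≤ c' * η :=
          mul_le_mul_of_nonneg_left h0 hc'0
        linarith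
    _ = _ := by ring

end StXM

open Pool.Agent.A54.X StXM in
/-- **StX** -/
theorem stmtStX (hS : StmtStH) : StmtStX := by
  intro f t hf ht hB ψ hψ hψ0
  obtain ⟨hgc, hNb, hSt⟩ := hS f t hf ht hB
  obtain ⟨Y, hY⟩ := hψ.cusp
  have hψc : Continuous ψ := continuous_of_ext hψ.smooth
  have hYo : ∀ z ∈ ModularGroup.fdo, Y < z.im → ψ z = 0 := fun z hz h =>
    hY z (ModularGroup.fdo_subset_fd hz) h
  have hfc : ∀ i, Continuous (f i) := fun i => continuous_of_ext (hf i).smooth
  have hT := ModularGroup.isCompact_truncatedFundamentalDomain Y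
  obtain ⟨B₀, hB₀⟩ := hT.exists_bound_of_continuousOn hψc.continuousOn
  set M : ℝ := max B₀ 0 with hM
  have hM0 : 0 ≤ M := le_max_right _ _
  have hψM : ∀ z ∈ ModularGroup.fdo, ψ z ≤ M := by
    intro z hz
    by_cases h : Y < z.im
    · rw [hYo z hz h]; exact hM0
    · have h1 := hB₀ z (fdo_inter_sub Y ⟨hz, not_lt.mp h⟩)
      have h2 := le_max_left B₀ 0
      have h3 := le_abs_self (ψ z)
      rw [Real.norm_eq_abs] at h1
      linarith
  -- the cutoff for the half-plane
  have hKc : IsCompact (UpperHalfPlane.coe '' ModularGroup.truncatedFundamentalDomain Y) :=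
    hT.image UpperHalfPlane.continuous_coe
  obtain ⟨ζ, hζ, -, hζ1⟩ := exists_cutoff hKc Half.isOpen_H0 (by
    rintro _ ⟨z, -, rfl⟩
    exact z.im_pos)
  have hζ1' : ∀ z ∈ ModularGroup.truncatedFundamentalDomain Y, ζ (z : ℂ) = 1 := fun z hz =>
    hζ1.self_of_nhdsSet _ ⟨z, hz, rfl⟩
  obtain ⟨C₂, hC₂⟩ := hNb ζ hζ
  obtain ⟨C₄, hC₄⟩ := hB _ hT
  have hQ2 : ∀ i, ∫ z in ModularGroup.fdo, ψ z * gN (f i) (t i) z ^ 2 ≤ M * C₂ := by
    intro i
    refine (int_trunc hψ0 hYo hM0 hψM ((hgc i).pow 2) (fun z => sq_nonneg _)).trans ?_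
    apply mul_le_mul_of_nonneg_left _ hM0
    exact (trunc_le hζ hζ1' ((hgc i).pow 2) (fun z => sq_nonneg _)).trans (hC₂ i)
  have hQ4 : ∀ i, ∫ z in ModularGroup.fdo, ψ z * f i z ^ 4 ≤ M * C₄ := by
    intro i
    refine (int_trunc hψ0 hYo hM0 hψM ((hfc i).pow 4)
      (fun z => Even.pow_nonneg ⟨2, rfl⟩ _)).trans ?_
    exact mul_le_mul_of_nonneg_left (hC₄ i) hM0
  refine ⟨⟨M * C₂, hQ2⟩, ?_⟩
  intro G B hG hGB
  have hB0 : 0 ≤ B := (abs_nonneg _).trans (hGB 0)
  have hGc : Continuous G := hG.continuous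
  have hG'c : Continuous (deriv G) := hG.continuous_deriv (by simp)
  set c : ℝ := |G 0| + B with hc
  have hc0 : 0 ≤ c := by positivity
  have hψi : IntegrableOn ψ ModularGroup.fdo := integrableOn_fdo hψc hYo
  have hint : ∀ g : ℍ → ℝ, Continuous g → IntegrableOn (fun z => ψ z * g z) ModularGroup.fdo :=
    fun g hg => integrableOn_fdo (hψc.mul hg) (fun z hz h => by rw [hYo z hz h, zero_mul])
  rw [Metric.tendsto_nhds]
  intro ε hε
  set R : ℝ := |c * (M * C₄) + B * (M * C₂)| + 1 with hR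
  have hR0 : 0 < R := by positivity
  set θ : ℝ := ε / 4 / R with hθ
  have hθ0 : 0 < θ := by positivity
  set c' : ℝ := c + (c + B) / (4 * θ) with hc'
  have hc'0 : 0 ≤ c' := by positivity
  set η : ℝ := ε / 4 / (c' + 1) with hη
  have hη0 : 0 < η := by positivity
  obtain ⟨K, hK, hKO, hKi⟩ := exists_compact ψ hψi (ε := η) hη0
  obtain ⟨χ, hχ, hχ1, hχK⟩ := exists_cutoff hK isOpen_O hKO
  have hχK' : ∀ z ∈ K, χ z = 1 := fun z hz => hχK.self_of_nhdsSet z hz
  have hχc : Continuous (fun z : ℍ => χ z) := hχ.smooth.continuous.comp UpperHalfPlane.continuous_coe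
  have herr : ∫ z in ModularGroup.fdo, (1 - χ z) * ψ z ≤ η :=
    (cut_error hK hχ1 hχK' hχ.smooth.continuous hψi hψ0).trans hKi.le
  have i0 : IntegrableOn (fun z : ℍ => (1 - χ z) * ψ z) ModularGroup.fdo :=
    integrableOn_fdo ((continuous_const.sub hχc).mul hψc) (fun z hz h => by
      rw [hYo z hz h, mul_zero])
  have hφ : TestR H0 (fun w => χ w * ext ψ w) := testR_cut hψ.smooth hχ
  have hmain := hSt G B hG hGB _ hφ
  rw [Metric.tendsto_nhds] at hmain
  filter_upwards [hmain (ε / 4) (by positivity)] with i hi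
  rw [Real.dist_eq, sub_zero] at hi ⊢
  rw [integral_cut hχ ψ (fun z => f i z * G (f i z)),
    integral_cut hχ ψ (fun z => deriv G (f i z) * gN (f i) (t i) z)] at hi
  have cy : Continuous (fun z => f i z * G (f i z)) := (hfc i).mul (hGc.comp (hfc i))
  have cd : Continuous (fun z => deriv G (f i z) * gN (f i) (t i) z) :=
    (hG'c.comp (hfc i)).mul (hgc i)
  have hj : ∀ g : ℍ → ℝ, Continuous g →
      IntegrableOn (fun z : ℍ => χ z * ψ z * g z) ModularGroup.fdo :=
    fun g hg => integrableOn_fdo ((hχc.mul hψc).mul hg) (fun z hz h => by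
      rw [hYo z hz h, mul_zero, zero_mul])
  have hE := err (ψ := ψ) (f := f i) (N := gN (f i) (t i)) (d := fun z => deriv G (f i z))
    (y := fun z => f i z * G (f i z)) (χ := χ) hθ0 hc0 hB0 hψ0 hχ1 (gN_nonneg _ _)
    (fun z => growth hG hGB (f i z)) (fun z => hGB _) i0 (hint _ ((hfc i).pow 4))
    (hint _ ((hgc i).pow 2)) (hint _ cy) (hint _ cd) (hj _ cy) (hj _ cd) (hQ4 i) (hQ2 i) herr
  have e1 : θ * (c * (M * C₄) + B * (M * C₂)) ≤ ε / 4 := by
    have h1 : c * (M * C₄) + B * (M * C₂) ≤ R := by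
      have := le_abs_self (c * (M * C₄) + B * (M * C₂))
      linarith
    calc θ * (c * (M * C₄) + B * (M * C₂)) ≤ θ * R := mul_le_mul_of_nonneg_left h1 hθ0.le
      _ = ε / 4 := by rw [hθ]; field_simp
  have e2 : c' * η ≤ ε / 4 := by
    calc c' * η ≤ (c' + 1) * η := mul_le_mul_of_nonneg_right (by linarith) hη0.le
      _ = ε / 4 := by rw [hη]; field_simp
  have hE' := hE.trans (add_le_add e1 e2)
  have h5 := abs_le.mp hE'
  have h6 := abs_lt.mp hi
  rw [abs_lt]
  constructor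
  · linarith [h5.1, h6.1]
  · linarith [h5.2, h6.2]

end

end Pool.Agent.A54.Vd
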