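import Pool.Agent.Lib.MP_a54f13_nt.Vd.SpecS
import Pool.Agent.Lib.MP_a54f13_nt.Odd

/-!
Module `Stn`: the local Stein identity (model: Odd.lean, Ev/Id1.lean).
-/

set_option autoImplicit false

namespace Pool.Agent.A54.Vd

open MeasureTheory Filter Topology Set
open scoped ContDiff ComplexConjugate
open Pool.Agent.A54.Half (H0 qq ff hh)

noncomputable section

namespace StnM

lemma dzb_comp {G : ℝ → ℝ} (hG : ContDiff ℝ ∞ G) {u : ℂ → ℝ} (hu : ContDiff ℝ ∞ u) (z : ℂ) :
    dzb (fun w => (G (u w) : ℂ)) z = ((deriv G (u z) : ℝ) : ℂ) * dzb (fun w => (u w : ℂ)) z := by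
  have hGd : DifferentiableAt ℝ G (u z) := (hG.differentiable (by norm_num)) _
  have hud : DifferentiableAt ℝ u z := (hu.differentiable (by norm_num)) _
  have h1 : HasFDerivAt u (fderiv ℝ u z) z := hud.hasFDerivAt
  have h2 : HasFDerivAt (fun w => G (u w)) (deriv G (u z) • fderiv ℝ u z) z :=
    hGd.hasDerivAt.comp_hasFDerivAt z h1
  have h3 : HasFDerivAt (fun w => (G (u w) : ℂ))
      (Complex.ofRealCLM.comp (deriv G (u z) • fderiv ℝ u z)) z :=
    Complex.ofRealCLM.hasFDerivAt.comp z h2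
  have h4 : HasFDerivAt (fun w => (u w : ℂ)) (Complex.ofRealCLM.comp (fderiv ℝ u z)) z :=
    Complex.ofRealCLM.hasFDerivAt.comp z h1
  unfold dzb
  rw [h3.fderiv, h4.fderiv]
  simp only [ContinuousLinearMap.comp_apply, ContinuousLinearMap.smul_apply,
    Complex.ofRealCLM_apply, smul_eq_mul]
  push_cast
  ring

lemma dzb_real {r : ℂ → ℝ} (hr : ContDiff ℝ ∞ r) {z : ℂ} :
    dzb (fun w => (r w : ℂ)) z = conj (dz (fun w => (r w : ℂ)) z) := by
  rw [← dzb_conj (contDiff_ofReal hr)]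
  simp only [Complex.conj_ofReal]

lemma abs_le {G : ℝ → ℝ} {B : ℝ} (hG : ContDiff ℝ ∞ G) (hB : ∀ x, |deriv G x| ≤ B) (x : ℝ) :
    |G x| ≤ |G 0| + B * |x| := by
  have h := Convex.norm_image_sub_le_of_norm_deriv_le (f := G) (C := B) (s := Set.univ) (x := 0)
    (y := x) (fun y _ => (hG.differentiable (by norm_num)) y) (fun y _ => by
      rw [Real.norm_eq_abs]
      exact hB y) convex_univ (Set.mem_univ _) (Set.mem_univ _)
  rw [Real.norm_eq_abs, Real.norm_eq_abs, sub_zero] at h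
  have h2 : |G x| ≤ |G 0| + |G x - G 0| := by
    have := abs_add_le (G 0) (G x - G 0)
    rwa [add_sub_cancel] at this
  linarith

/-- Integrals of small functions. -/
lemma small (hL : StmtL4) {V : Set ℂ} {q : ℂ → ℝ} {h : ℕ → ℝ} {f : ℕ → ℂ → ℝ}
    (hS : Seq V q h f) (hB : L4Bdd V f) {φ : ℂ → ℂ} (hφ : Test V φ) (N : ℕ) {C : ℝ}
    (hC : 0 ≤ C) (F : ℕ → ℂ → ℂ)
    (hF : ∀ i z, ‖F i z‖ ≤ h i * (C * (‖φ z‖ * (1 + sm (h i) (f i) N z ^ 4)))) :
    Tendsto (fun i => ∫ z, F i z) atTop (𝓝 0) := by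
  obtain ⟨B, hB'⟩ := Odd.bdd hL hS hB hφ N
  rw [tendsto_zero_iff_norm_tendsto_zero]
  have h1 : Tendsto (fun i => h i * (C * ((∫ z, ‖φ z‖) + B))) atTop (𝓝 0) := by
    simpa using hS.lim.mul_const (C * ((∫ z, ‖φ z‖) + B))
  refine squeeze_zero (fun i => norm_nonneg _) (fun i => ?_) h1
  have hi1 : Integrable (fun z => ‖φ z‖) := hφ.integrable.norm
  have hi2 : Integrable (fun z => ‖φ z‖ * sm (h i) (f i) N z ^ 4) := by
    refine Continuous.integrable_of_hasCompactSupport ?_ ?_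
    · exact hφ.smooth.continuous.norm.mul ((Rel.continuous_sm (hS.sol i).smooth (h i) N).pow 4)
    · exact HasCompactSupport.mul_right hφ.cpt.norm
  have hsum : ∫ z, (‖φ z‖ * (1 + sm (h i) (f i) N z ^ 4)) =
      (∫ z, ‖φ z‖) + ∫ z, ‖φ z‖ * sm (h i) (f i) N z ^ 4 := by
    rw [← integral_add hi1 hi2]
    congr 1
    funext z
    ring
  have hi3 : Integrable (fun z => ‖φ z‖ * (1 + sm (h i) (f i) N z ^ 4)) := by
    have e : (fun z => ‖φ z‖ * (1 + sm (h i) (f i) N z ^ 4)) =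
        fun z => ‖φ z‖ + ‖φ z‖ * sm (h i) (f i) N z ^ 4 := by
      funext z
      ring
    rw [e]
    exact hi1.add hi2
  have hint : Integrable (fun z => h i * (C * (‖φ z‖ * (1 + sm (h i) (f i) N z ^ 4)))) :=
    (hi3.const_mul _).const_mul _
  refine (norm_integral_le_of_norm_le hint (Eventually.of_forall (hF i))).trans ?_
  rw [integral_const_mul, integral_const_mul, hsum]
  have := (hS.sol i).hpos
  exact mul_le_mul_of_nonneg_left (mul_le_mul_of_nonneg_left
    (add_le_add le_rfl (hB' i)) hC) this.le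

end StnM

open StnM in
theorem stmtStn (hL : StmtL4) : StmtStn := by
  intro V q h f hS hB G B hG hGB φ hφ
  have hP := hS.pot
  have hB0 : 0 ≤ B := (abs_nonneg _).trans (hGB 0)
  have hqne : ∀ z, (q z : ℂ) ≠ 0 := fun z => by exact_mod_cast (hP.pos z).ne'
  have hinv : ContDiff ℝ ∞ (fun z => (q z)⁻¹) := hP.smooth.inv fun z => (hP.pos z).ne'
  have hφ1 : TestR V (fun z => φ z * (q z)⁻¹) := hφ.mul_right hinv
  have hφc := hφ1.toTest
  set φ₁ : ℂ → ℂ := fun z => ((φ z * (q z)⁻¹ : ℝ) : ℂ) with hφ₁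
  set p : ℕ → ℂ → ℂ := fun n z => (h n : ℂ) * ((G (f n z) : ℂ) * gg (h n) (f n) 1 z) with hp
  have hF : Tendsto (fun n => ∫ z, dzb φ₁ z * p n z) atTop (𝓝 0) := by
    refine small hL hS hB hφc.dzb 1 (C := |G 0| + B) (by positivity) _ fun n z => ?_
    have hh := (hS.sol n).hpos
    have hs0 := Rel.sm_nonneg (h := h n) (f := f n) (z := z) 1
    have h0 : ‖gg (h n) (f n) 0 z‖ ≤ sm (h n) (f n) 1 z := Rel.norm_gg_le_sm (by norm_num)
    have h1 : ‖gg (h n) (f n) 1 z‖ ≤ sm (h n) (f n) 1 z := Rel.norm_gg_le_sm (by norm_num)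
    rw [gg_zero, Complex.norm_real, Real.norm_eq_abs] at h0
    have hGf := abs_le hG hGB (f n z)
    simp only [hp, norm_mul, Complex.norm_real]
    rw [Real.norm_of_nonneg hh.le, Real.norm_eq_abs]
    set s := sm (h n) (f n) 1 z with hs
    have hs1 : s ≤ 1 + s ^ 4 := by nlinarith [sq_nonneg (s - 1), sq_nonneg (s ^ 2 - 1)]
    have hs2 : s ^ 2 ≤ 1 + s ^ 4 := by nlinarith [sq_nonneg (s ^ 2 - 1)]
    have h5 : |G (f n z)| * ‖gg (h n) (f n) 1 z‖ ≤ (|G 0| + B) * (1 + s ^ 4) := by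
      calc |G (f n z)| * ‖gg (h n) (f n) 1 z‖ ≤ (|G 0| + B * s) * s := by
            gcongr
            exact hGf.trans (by gcongr)
        _ = |G 0| * s + B * s ^ 2 := by ring
        _ ≤ |G 0| * (1 + s ^ 4) + B * (1 + s ^ 4) := by gcongr
        _ = _ := by ring
    calc ‖dzb φ₁ z‖ * (h n * (|G (f n z)| * ‖gg (h n) (f n) 1 z‖))
        ≤ ‖dzb φ₁ z‖ * (h n * ((|G 0| + B) * (1 + s ^ 4))) := by gcongr
      _ = h n * ((|G 0| + B) * (‖dzb φ₁ z‖ * (1 + s ^ 4))) := by ring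
  have hGr : ∀ n, ContDiff ℝ ∞ (fun z => G (f n z)) := fun n => hG.comp (hS.sol n).smooth
  have hpsm : ∀ n, ContDiff ℝ ∞ (p n) := fun n =>
    contDiff_const.mul ((contDiff_ofReal (hGr n)).mul (contDiff_gg (hS.sol n).smooth (h n) 1))
  have hG' : Continuous (deriv G) := hG.continuous_deriv (by norm_num)
  have hkey : ∀ n, (∫ z, φ z * (f n z * G (f n z))) -
      (∫ z, φ z * (deriv G (f n z) * nn q (h n) (f n) 1 z)) =
      (∫ z, dzb φ₁ z * p n z).re := by
    intro n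
    have hf := (hS.sol n).smooth
    have hg := contDiff_gg hf (h n) 1
    have hibp := integral_mul_dzb hφc.smooth (hpsm n) (Or.inl hφc.cpt)
    have hint : Integrable (fun z => φ₁ z * dzb (p n) z) :=
      (hφc.mul_right (contDiff_dzb (hpsm n))).integrable
    have hiA : Integrable (fun z => φ z * (f n z * G (f n z))) :=
      Rel.integrable_testR hφ (hf.continuous.mul (hGr n).continuous)
    have hiB : Integrable (fun z => φ z * (deriv G (f n z) * nn q (h n) (f n) 1 z)) :=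
      Rel.integrable_testR hφ ((hG'.comp hf.continuous).mul (Rel.continuous_nn hP hf (h n) 1))
    have h0 : ∫ z, dzb φ₁ z * p n z = -∫ z, φ₁ z * dzb (p n) z := by
      rw [hibp, neg_neg]
    rw [h0, Complex.neg_re]
    have h1 : (∫ z, φ₁ z * dzb (p n) z).re = ∫ z, (φ₁ z * dzb (p n) z).re :=
      (integral_re hint).symm
    rw [h1, ← integral_sub hiA hiB, ← integral_neg]
    congr 1
    funext z
    by_cases hz : z ∈ V
    · have hdz : dzb (p n) z = (h n : ℂ) *
          (((deriv G (f n z) : ℝ) : ℂ) * conj (dz (fun w => (f n w : ℂ)) z) * gg (h n) (f n) 1 z +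
            (G (f n z) : ℂ) * dzb (gg (h n) (f n) 1) z) := by
        rw [hp]
        simp only
        rw [dzb_const_mul _ ((contDiff_ofReal (hGr n)).mul hg),
          dzb_mul (contDiff_ofReal (hGr n)) hg, dzb_comp hG hf, dzb_real hf]
      have hg1 : conj (gg (h n) (f n) 1 z) = (h n : ℂ) * conj (dz (fun w => (f n w : ℂ)) z) := by
        have : gg (h n) (f n) 1 z = (h n : ℂ) * dz (fun w => (f n w : ℂ)) z := rfl
        rw [this, map_mul, Complex.conj_ofReal]
      have heq := (hS.sol n).eq z hz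
      set g := gg (h n) (f n) 1 z with hgdef
      set U : ℝ := f n z with hUdef
      set N : ℝ := nn q (h n) (f n) 1 z with hNdef
      have hN : g * conj g = (q z : ℂ) * (N : ℂ) := by
        have h2 : N = ‖g‖ ^ 2 / q z := by
          rw [hNdef, nn, pow_one]
        rw [h2, Complex.mul_conj']
        push_cast
        rw [mul_div_cancel₀ _ (hqne z)]
      have hfull : φ₁ z * dzb (p n) z =
          ((-(φ z * (U * G U) - φ z * (deriv G U * N)) : ℝ) : ℂ) := by
        rw [hdz, hφ₁]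
        simp only
        rw [Complex.ofReal_mul, Complex.ofReal_inv]
        have h3 : (q z : ℂ) * (q z : ℂ)⁻¹ = 1 := mul_inv_cancel₀ (hqne z)
        rw [hg1] at hN
        push_cast at hN ⊢
        linear_combination (φ z : ℂ) * (q z : ℂ)⁻¹ * ((deriv G U : ℝ) : ℂ) * hN +
          (φ z : ℂ) * (q z : ℂ)⁻¹ * (G U : ℂ) * heq +
          ((φ z : ℂ) * ((deriv G U : ℝ) : ℂ) * (N : ℂ) - (φ z : ℂ) * (G U : ℂ) * (U : ℂ)) * h3
      rw [hfull, Complex.ofReal_re, neg_neg]
    · rw [hφ.eq_zero hz, hφc.eq_zero hz]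
      simp
  have hlim : Tendsto (fun n => (∫ z, dzb φ₁ z * p n z).re) atTop (𝓝 0) := by
    have h1 : Tendsto (fun n => (∫ z, dzb φ₁ z * p n z).re) atTop (𝓝 (0 : ℂ).re) :=
      (Complex.continuous_re.tendsto _).comp hF
    rwa [Complex.zero_re] at h1
  exact hlim.congr fun n => (hkey n).symm

end

end Pool.Agent.A54.Vd
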