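import Pool.Agent.Lib.MP_a54f13_nt.Sq.Tf
import Pool.Agent.Lib.MP_a54f13_nt.Vd.Stn
import Pool.Agent.Lib.MP_a54f13_nt.Vd.Nb
import Pool.Agent.Lib.MP_a54f13_nt.Vd.StH
import Pool.Agent.Lib.MP_a54f13_nt.Vd.StX
import Pool.Agent.Lib.MP_a54f13_nt.Vd.Mom
import Pool.Agent.Lib.MP_a54f13_nt.Vd.Grw
import Pool.Agent.Lib.MP_a54f13_nt.Vd.Lac
import Pool.Agent.Lib.MP_a54f13_nt.Vd.Lst
import Pool.Agent.Lib.MP_a54f13_nt.Vd.Pos
import Pool.Agent.Lib.MP_a54f13_nt.Vd.Hul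
import Pool.Agent.Lib.MP_a54f13_nt.Vd.One
import Pool.Agent.Lib.MP_a54f13_nt.Vd.Exi
import Pool.Agent.Lib.MP_a54f13_nt.Vd.SpecU

/-!
# Package `Vd`: assembly of part S and the final form

`core`: the theorem from bounded fourth moments, the cases `n ≤ 4` (`Sq.CondG`) and the output `StmtFinU` of the parts U and A.
-/

set_option autoImplicit false

namespace Pool.Agent.A54.Vd

open MeasureTheory Filter Topology Set
open scoped ContDiff ComplexConjugate UpperHalfPlane MatrixGroups ENNReal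

theorem pStn : StmtStn := stmtStn pL4
theorem pNb : StmtNb := stmtNb pL4
theorem pStH : StmtStH := stmtStH stmtInt stmtLap pStn pNb
theorem pStX : StmtStX := stmtStX pStH
theorem pLst : StmtLst := stmtLst pStX

/-- the value distribution of a sequence of forms: limit laws exist along subsequences, and every limit law has the first four
moments of the Gaussian law and is equivalent to Lebesgue measure on an open interval that contains `[-1, 1]` -/
theorem core (hU : StmtFinU) (f : ℕ → ℍ → ℝ) (t : ℕ → ℝ) (hf : ∀ i, IsHeckeMaass (f i) (t i))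
    (ht : Tendsto t atTop atTop) (h4 : B4 f) (hG : Sq.CondG f) (ψ : ℍ → ℝ) (hψ : TestX ψ) (h0 : ∀ z, 0 ≤ ψ z)
    (hp : 0 < ∫ z in ModularGroup.fdo, ψ z) :
    (∃ (σ : ℕ → ℕ) (ν : Measure ℝ), StrictMono σ ∧ Law (fun i => f (σ i)) ψ ν) ∧
    ∀ ν : Measure ℝ, Law f ψ ν →
      (∀ g : ℝ → ℝ, Continuous g → (∃ C : ℝ, ∀ x, |g x| ≤ C * (1 + x ^ 4)) →
        Tendsto (fun i => ∫ z in ModularGroup.fdo, ψ z * g (f i z)) atTop (𝓝 (∫ x, g x ∂ν))) ∧
      (∀ n : ℕ, n ≤ 4 → ∫ x, x ^ n ∂ν =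
        1 / √(2 * Real.pi) * (∫ x : ℝ, x ^ n * Real.exp (-x ^ 2 / 2)) * ∫ z in ModularGroup.fdo, ψ z) ∧
      ∃ J : Set ℝ, IsOpen J ∧ J.OrdConnected ∧ Icc (-1) 1 ⊆ J ∧ (∀ a b : ℝ, J ⊆ Icc a b → 3 ≤ -(a * b)) ∧
        EqOn ν J := by
  have hψc : Continuous ψ := X.continuous_of_ext hψ.smooth
  have hfc : ∀ i, Continuous (f i) := fun i => X.continuous_of_ext (hf i).smooth
  have hA : Pl.CondA f := Sq.condA_of_condG hG
  have hH : Pl.CondH f := Pl.pFC f t hf ht (((Pl.planck hf ht).out 0 2).1 hA)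
  obtain ⟨hUI, hAC⟩ := hU f t hf ht hH ψ hψ h0
  obtain ⟨Y, hY⟩ := hψ.cusp
  refine ⟨?_, fun ν hν => ?_⟩
  · have hb : ∃ C : ℝ, ∀ i, ∫ z in ModularGroup.fdo, ψ z * f i z ^ 2 ≤ C := by
      have h1 := ((hA ψ hψ).1).bddAbove_range
      obtain ⟨C, hC⟩ := h1
      exact ⟨C, fun i => hC ⟨i, rfl⟩⟩
    obtain ⟨σ, hσ, ν, hν⟩ := stmtExi f hfc ψ hψ hψc h0 hp hb
    exact ⟨σ, ν, hσ, hν⟩
  · set c := ∫ z in ModularGroup.fdo, ψ z with hc
    have hfin : IsFiniteMeasure ν := hν.fin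
    obtain ⟨hi4, hmom⟩ := stmtMom f t hf ψ hψ h0 ν hν hUI
    have hC : ∀ n : ℕ, 1 / √(2 * Real.pi) * (∫ x : ℝ, x ^ n * Real.exp (-x ^ 2 / 2)) = Av.Cgau n := fun n => rfl
    have hC0 : Av.Cgau 0 = 1 := by
      unfold Av.Cgau
      have h1 := integral_gaussian (1 / 2)
      have h2 : (∫ x : ℝ, x ^ 0 * Real.exp (-x ^ 2 / 2)) = ∫ x : ℝ, Real.exp (-(1 / 2) * x ^ 2) := by
        refine integral_congr_ae (Eventually.of_forall fun x => ?_)
        simp only [pow_zero, one_mul]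
        congr 1
        ring
      rw [h2, h1, show Real.pi / (1 / 2) = 2 * Real.pi by ring]
      have h3 : 0 < √(2 * Real.pi) := Real.sqrt_pos.2 (by positivity)
      field_simp
    have hn : ∀ n : ℕ, n ≤ 4 → ∫ x, x ^ n ∂ν =
        1 / √(2 * Real.pi) * (∫ x : ℝ, x ^ n * Real.exp (-x ^ 2 / 2)) * c := by
      intro n hn
      rcases Nat.eq_zero_or_pos n with rfl | hpos
      · rw [hC, hC0, one_mul]
        refine hmom 0 c (by norm_num) ?_
        simp only [pow_zero, mul_one]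
        exact tendsto_const_nhds
      · exact hmom n _ hn (hG ψ hψ n hpos hn)
    have m0 : ∫ _x : ℝ, (1 : ℝ) ∂ν = c := by
      have := hn 0 (by norm_num)
      rw [hC, hC0, one_mul] at this
      simpa using this
    have m1 : ∫ x, x ∂ν = 0 := by
      have := hn 1 (by norm_num)
      rw [hC, Av.GmM.odd (by decide), zero_mul] at this
      simpa using this
    have m2 : ∫ x, x ^ 2 ∂ν = c := by
      have := hn 2 (by norm_num)
      rwa [hC, Av.GmM.two, one_mul] at this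
    have m3 : ∫ x, x ^ 3 ∂ν = 0 := by
      have := hn 3 (by norm_num)
      rwa [hC, Av.GmM.odd (by decide), zero_mul] at this
    have m4 : ∫ x, x ^ 4 ∂ν = 3 * c := by
      have := hn 4 (by norm_num)
      rwa [hC, Av.GmM.four] at this
    have hac : ν ≪ volume := stmtLac f t hf ψ hψ h0 ν hν hAC
    obtain ⟨C, hC1, hst⟩ := pLst f t hf ht h4 ψ hψ h0 ν hν hUI
    obtain ⟨J, hJ, hJc, h0J, he⟩ := stmtPos ν C hfin (OneM.intPow hi4 2 (by norm_num)) m1 (by rw [m2]; exact hp)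
      hac hC1 hst
    exact ⟨stmtGrw f t hf ψ hψ h0 ν hν hUI, hn, J, hJ, hJc, stmtOne ν c hfin hi4 m0 m1 m2 m3 J hJ hJc h0J he,
      stmtHul ν c hfin hi4 hp m2 m3 m4 J he, he⟩

end Pool.Agent.A54.Vd
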