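import Pool.Agent.Lib.MP_a54f13_nt.Sq.Main
import Pool.Agent.Lib.MP_a54f13_nt.Vd.RlE
import Pool.Agent.Lib.MP_a54f13_nt.Vd.CsE
import Pool.Agent.Lib.MP_a54f13_nt.Vd.SmA
import Pool.Agent.Lib.MP_a54f13_nt.Vd.K2s
import Pool.Agent.Lib.MP_a54f13_nt.Vd.KyW
import Pool.Agent.Lib.MP_a54f13_nt.Vd.Mv
import Pool.Agent.Lib.MP_a54f13_nt.Vd.Wtt
import Pool.Agent.Lib.MP_a54f13_nt.Vd.UIL
import Pool.Agent.Lib.MP_a54f13_nt.Vd.Sq1
import Pool.Agent.Lib.MP_a54f13_nt.Vd.Dlt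
import Pool.Agent.Lib.MP_a54f13_nt.Vd.AdI
import Pool.Agent.Lib.MP_a54f13_nt.Vd.Ada
import Pool.Agent.Lib.MP_a54f13_nt.Vd.Chn
import Pool.Agent.Lib.MP_a54f13_nt.Vd.Deg
import Pool.Agent.Lib.MP_a54f13_nt.Vd.ACL
import Pool.Agent.Lib.MP_a54f13_nt.Vd.FmM
import Pool.Agent.Lib.MP_a54f13_nt.Vd.FmF
import Pool.Agent.Lib.MP_a54f13_nt.Vd.FmV
import Pool.Agent.Lib.MP_a54f13_nt.Vd.Tra
import Pool.Agent.Lib.MP_a54f13_nt.Vd.FinU

/-!
# Package `Vd`, parts U, A, F: assembly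

`pFinU`: uniform integrability of `f⁴` and absolute continuity, for every sequence of Hecke–Maass forms, `t → ∞`, with
`Pl.CondH`.
-/

set_option autoImplicit false

namespace Pool.Agent.A54.Vd

open MeasureTheory Filter Topology Set
open scoped ContDiff ComplexConjugate UpperHalfPlane MatrixGroups ENNReal

theorem pRlE : StmtRlE := stmtRlE

theorem pCsE : StmtCsE := stmtCsE pRlE Sq.stmtCos Sq.stmtFej

theorem pSmA : StmtSmA := stmtSmA Pl.pE3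

theorem pK2s : StmtK2s := stmtK2s Sq.stmtKSum

theorem pKyW : StmtKyW := stmtKyW pCsE pSmA pK2s

theorem pMv : StmtMv := stmtMv

theorem pWtt : StmtWtt := stmtWtt pMv

theorem pUIL : StmtUIL := stmtUIL pKyW pWtt

theorem pSq1 : StmtSq1 := stmtSq1 pCsE pSmA pK2s

theorem pDlt : StmtDlt := stmtDlt

theorem pAdI : StmtAdI := stmtAdI

theorem pAda : StmtAda := stmtAda pAdI

theorem pChn : StmtChn := stmtChn pAda

theorem pDeg : StmtDeg := stmtDeg pChn pSq1 pK2s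

theorem pACL : StmtACL := stmtACL pDeg pDlt

theorem pFmM : StmtFmM := stmtFmM Sq.pTwr stmtInt

theorem pFmF : StmtFmF := stmtFmF Sq.pMax Pl.pE1 Pl.pG0 stmtInt

theorem pFmV : StmtFmV := stmtFmV Pl.pFB Pl.stmtBC Pl.pG2

theorem pTra : StmtTra := stmtTra stmtInt

theorem pFinU : StmtFinU := stmtFinU pUIL pACL pFmM pFmF pFmV pTra

end Pool.Agent.A54.Vd
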